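import Mathlib

/-!
Milnor K-theory modulo `l`, symbols and sums of symbols, exactly as in the problem file.
-/

namespace Pool.Agent.Lib.MP_8363a4_al

open scoped TensorProduct

/-- The `n`-fold tensor power over `ℤ` of the multiplicative group of `F`. -/
abbrev Tens (F : Type) [Field F] (n : ℕ) : Type := ⨂[ℤ] _ : Fin n, Additive Fˣ

/-- The pure tensor `a₁ ⊗ ⋯ ⊗ aₙ`. -/
def pure {F : Type} [Field F] {n : ℕ} (a : Fin n → Fˣ) : Tens F n :=
  PiTensorProduct.tprod ℤ (fun i => Additive.ofMul (a i))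

/-- The subgroup generated by the pure tensors with `aᵢ + aⱼ = 1` for some `i ≠ j`. -/
def steinberg (F : Type) [Field F] (n : ℕ) : Submodule ℤ (Tens F n) :=
  Submodule.span ℤ
    {t | ∃ a : Fin n → Fˣ, (∃ i j : Fin n, i ≠ j ∧ (a i : F) + (a j : F) = 1) ∧ t = pure a}

/-- The Milnor K-group `K^M_n(F)`. -/
abbrev KM (F : Type) [Field F] (n : ℕ) : Type := Tens F n ⧸ steinberg F n

/-- The subgroup `l • K^M_n(F)`. -/
def multiples (F : Type) [Field F] (n l : ℕ) : Submodule ℤ (KM F n) :=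
  LinearMap.range ((l : ℤ) • (LinearMap.id : KM F n →ₗ[ℤ] KM F n))

/-- The group `K^M_n(F)/l`. -/
abbrev KMmod (F : Type) [Field F] (n l : ℕ) : Type := KM F n ⧸ multiples F n l

/-- The class of the symbol `{a₁, …, aₙ}` in `K^M_n(F)/l`. -/
def symbol {F : Type} [Field F] {n : ℕ} (l : ℕ) (a : Fin n → Fˣ) : KMmod F n l :=
  (multiples F n l).mkQ ((steinberg F n).mkQ (pure a))

/-- `ξ` is a sum of `r` classes of symbols. -/
def IsSumOfSymbols {F : Type} [Field F] {n l : ℕ} (ξ : KMmod F n l) (r : ℕ) : Prop :=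
  ∃ a : Fin r → Fin n → Fˣ, ξ = ∑ j, symbol l (a j)

/-- The field `ℂ(x₁, …, xₘ)`. -/
abbrev RatFun (m : ℕ) : Type := FractionRing (MvPolynomial (Fin m) ℂ)

end Pool.Agent.Lib.MP_8363a4_al
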