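import Mathlib

/-!
The Tsen-Lang theorem for systems of cubic forms over a rational function field in three
variables over an algebraically closed field.
-/

namespace Pool.Agent.Lib.MP_8363a4_al.H2

open MvPolynomial

/-- Killing the variables in `s`. -/
noncomputable def kill {k κ : Type} [Field k] [DecidableEq κ] (s : Finset κ) :
    MvPolynomial κ k →ₐ[k] MvPolynomial κ k :=
  aeval (fun i => if i ∈ s then 0 else X i)

theorem card_le_height_kill {k κ : Type} [Field k] [DecidableEq κ] (s : Finset κ) :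
    (s.card : ℕ∞) ≤ (RingHom.ker (kill (k := k) s)).height := by
  induction s using Finset.induction_on with
  | empty => simp
  | insert j s hj ih =>
    have : (RingHom.ker (kill (k := k) s)).IsPrime := RingHom.ker_isPrime _
    have : (RingHom.ker (kill (k := k) (insert j s))).IsPrime := RingHom.ker_isPrime _
    have hc : (kill (k := k) (insert j s)).comp (kill s) = kill (insert j s) := by
      ext i
      by_cases hi : i ∈ s
      · simp [kill, hi]
      · simp [kill, hi]
    have hlt : RingHom.ker (kill (k := k) s) < RingHom.ker (kill (k := k) (insert j s)) := by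
      refine lt_of_le_of_ne ?_ ?_
      · intro f hf
        rw [RingHom.mem_ker] at hf ⊢
        rw [← hc, AlgHom.comp_apply, hf, map_zero]
      · intro h
        have h1 : (X j : MvPolynomial κ k) ∈ RingHom.ker (kill (k := k) (insert j s)) := by
          rw [RingHom.mem_ker]
          simp [kill]
        rw [← h, RingHom.mem_ker] at h1
        simp [kill, hj] at h1
    have := Ideal.height_add_one_le_of_lt_of_isPrime hlt
    rw [Finset.card_insert_of_notMem hj]
    push_cast
    exact le_trans (by gcongr) this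

/-- Fewer equations than unknowns, all vanishing at the origin: there is another solution. -/
theorem exists_nonzero_zero {k κ J : Type} [Field k] [IsAlgClosed k] [Fintype κ] [Fintype J]
    (Q : J → MvPolynomial κ k) (h0 : ∀ j, eval 0 (Q j) = 0)
    (hc : Fintype.card J < Fintype.card κ) :
    ∃ y : κ → k, y ≠ 0 ∧ ∀ j, eval y (Q j) = 0 := by
  classical
  by_contra hcon
  push Not at hcon
  set s : Finset (MvPolynomial κ k) := Finset.univ.image Q with hs
  have hz : zeroLocus k (Ideal.span (s : Set (MvPolynomial κ k))) = {0} := by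
    rw [zeroLocus_span]
    ext y
    simp only [Set.mem_ofPred_eq, Set.mem_singleton_iff]
    constructor
    · intro hy
      by_contra hne
      obtain ⟨j, hj⟩ := hcon y hne
      apply hj
      have := hy (Q j) (by simp [hs])
      simpa [aeval_eq_eval] using this
    · rintro rfl p hp
      simp only [hs, Finset.coe_image, Finset.coe_univ, Set.image_univ, Set.mem_range] at hp
      obtain ⟨j, rfl⟩ := hp
      simpa [aeval_eq_eval] using h0 j
  have hrad := vanishingIdeal_zeroLocus_eq_radical (K := k) (Ideal.span (s : Set (MvPolynomial κ k)))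
  rw [hz] at hrad
  have hmin : vanishingIdeal k ({0} : Set (κ → k)) ∈
      (Ideal.span (s : Set (MvPolynomial κ k))).minimalPrimes := by
    rw [← Ideal.radical_minimalPrimes, ← hrad, Ideal.minimalPrimes_eq_subsingleton_self]
    rfl
  have h1 := Ideal.height_le_card_of_mem_minimalPrimes_span_finset hmin
  have h2 : RingHom.ker (kill (k := k) (Finset.univ : Finset κ)) ≤
      vanishingIdeal k ({0} : Set (κ → k)) := by
    intro f hf
    rw [RingHom.mem_ker] at hf
    rw [mem_vanishingIdeal_singleton_iff]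
    have hc : (aeval (0 : κ → k) : MvPolynomial κ k →ₐ[k] k).comp (kill Finset.univ)
        = aeval (0 : κ → k) := by
      ext i
      simp [kill]
    rw [← hc, AlgHom.comp_apply, hf, map_zero]
  have h3 := (card_le_height_kill (k := k) (Finset.univ : Finset κ)).trans
    ((Ideal.height_mono h2).trans h1)
  have h4 : s.card ≤ Fintype.card J := by
    rw [hs]
    exact Finset.card_image_le.trans (by simp)
  have h5 : (Finset.univ : Finset κ).card ≤ s.card := by exact_mod_cast h3
  rw [Finset.card_univ] at h5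
  omega

/-- The exponent vector attached to a point of a box. -/
noncomputable def mu {m : ℕ} (d : Fin 3 → Fin m) : Fin 3 →₀ ℕ :=
  Finsupp.equivFunOnFinite.symm (fun s => (d s : ℕ))

theorem mu_apply {m : ℕ} (d : Fin 3 → Fin m) (s : Fin 3) : mu d s = d s := rfl

theorem mu_inj {m : ℕ} : Function.Injective (mu (m := m)) := by
  intro d d' h
  funext s
  apply Fin.ext
  rw [← mu_apply, ← mu_apply, h]

theorem count_ineq (n r e : ℕ) (h : 27 * r < n) :
    ∃ D : ℕ, r * (3 * D + e + 1) ^ 3 < n * (D + 1) ^ 3 := by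
  refine ⟨27 * r * e + 9 * r * e ^ 2 + r * e ^ 3, ?_⟩
  set D := 27 * r * e + 9 * r * e ^ 2 + r * e ^ 3 with hD
  set m := D + 1 with hm
  have h0 : 3 * D + e + 1 ≤ 3 * m + e := by omega
  have h1 : r * (3 * D + e + 1) ^ 3 ≤ r * (3 * m + e) ^ 3 :=
    Nat.mul_le_mul_left _ (Nat.pow_le_pow_left h0 3)
  have h2 : (27 * r + 1) * m ^ 3 ≤ n * m ^ 3 := by
    gcongr
    omega
  have hm1 : 1 ≤ m := by omega
  have h3 : m ≤ m ^ 2 := by nlinarith
  have h4 : 1 ≤ m ^ 2 := by nlinarith
  have h5 : 9 * r * e ^ 2 * m ≤ 9 * r * e ^ 2 * m ^ 2 := by gcongr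
  have h6 : r * e ^ 3 * 1 ≤ r * e ^ 3 * m ^ 2 := by gcongr
  have h7 : m ^ 3 = D * m ^ 2 + m ^ 2 := by rw [hm]; ring
  have h8 : D * m ^ 2 = 27 * r * e * m ^ 2 + 9 * r * e ^ 2 * m ^ 2 + r * e ^ 3 * m ^ 2 := by
    rw [hD]; ring
  have h9 : r * (3 * m + e) ^ 3
      = 27 * r * m ^ 3 + 27 * r * e * m ^ 2 + 9 * r * e ^ 2 * m + r * e ^ 3 * 1 := by ring
  have h10 : (27 * r + 1) * m ^ 3 = 27 * r * m ^ 3 + m ^ 3 := by ring
  omega

theorem tsen_poly {k : Type} [Field k] [IsAlgClosed k] (n r : ℕ)
    (c : Fin r → Fin n → Fin n → Fin n → MvPolynomial (Fin 3) k) (h : 27 * r < n) :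
    ∃ x : Fin n → MvPolynomial (Fin 3) k, x ≠ 0 ∧
      ∀ j, ∑ i1, ∑ i2, ∑ i3, c j i1 i2 i3 * (x i1 * x i2 * x i3) = 0 := by
  classical
  obtain ⟨e, he⟩ : ∃ e : ℕ, ∀ j i1 i2 i3 s, degreeOf s (c j i1 i2 i3) ≤ e := by
    refine ⟨Finset.univ.sup (fun p : Fin r × Fin n × Fin n × Fin n × Fin 3 =>
      degreeOf p.2.2.2.2 (c p.1 p.2.1 p.2.2.1 p.2.2.2.1)), ?_⟩
    intro j i1 i2 i3 s
    exact Finset.le_sup (f := fun p : Fin r × Fin n × Fin n × Fin n × Fin 3 =>
      degreeOf p.2.2.2.2 (c p.1 p.2.1 p.2.2.1 p.2.2.2.1)) (Finset.mem_univ (j, i1, i2, i3, s))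
  obtain ⟨D, hD⟩ := count_ineq n r e h
  let κ := Fin n × (Fin 3 → Fin (D + 1))
  let Xg : Fin n → MvPolynomial (Fin 3) (MvPolynomial κ k) :=
    fun i => ∑ d : Fin 3 → Fin (D + 1), monomial (mu d) (X (i, d))
  let P : Fin r → MvPolynomial (Fin 3) (MvPolynomial κ k) :=
    fun j => ∑ i1, ∑ i2, ∑ i3, map C (c j i1 i2 i3) * (Xg i1 * Xg i2 * Xg i3)
  have hX : ∀ i s, degreeOf s (Xg i) ≤ D := by
    intro i s
    refine (degreeOf_sum_le _ _ _).trans (Finset.sup_le fun d _ => ?_)
    rw [degreeOf_monomial_eq _ _ (X_ne_zero _), mu_apply]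
    exact Nat.lt_succ_iff.mp (d s).2
  have hc : ∀ j i1 i2 i3 s,
      degreeOf s (map (C : k →+* MvPolynomial κ k) (c j i1 i2 i3)) ≤ e := by
    intro j i1 i2 i3 s
    have := he j i1 i2 i3 s
    rw [degreeOf_le_iff] at this ⊢
    intro m hm
    exact this m (support_map_subset _ _ hm)
  have hP : ∀ j s, degreeOf s (P j) ≤ 3 * D + e := by
    intro j s
    refine (degreeOf_sum_le _ _ _).trans (Finset.sup_le fun i1 _ => ?_)
    refine (degreeOf_sum_le _ _ _).trans (Finset.sup_le fun i2 _ => ?_)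
    refine (degreeOf_sum_le _ _ _).trans (Finset.sup_le fun i3 _ => ?_)
    have a1 := degreeOf_mul_le s (map (C : k →+* MvPolynomial κ k) (c j i1 i2 i3))
      (Xg i1 * Xg i2 * Xg i3)
    have a2 := degreeOf_mul_le s (Xg i1 * Xg i2) (Xg i3)
    have a3 := degreeOf_mul_le s (Xg i1) (Xg i2)
    have := hX i1 s
    have := hX i2 s
    have := hX i3 s
    have := hc j i1 i2 i3 s
    omega
  have hev : ∀ (y : κ → k) j, map (eval y) (P j) =
      ∑ i1, ∑ i2, ∑ i3, c j i1 i2 i3 *
        (map (eval y) (Xg i1) * map (eval y) (Xg i2) * map (eval y) (Xg i3)) := by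
    intro y j
    have hid : (eval y).comp (C : k →+* MvPolynomial κ k) = RingHom.id k := by
      ext a
      simp
    simp only [P, map_sum, map_mul, map_map, hid, map_id]
  have hco : ∀ (y : κ → k) i d, coeff (mu d) (map (eval y) (Xg i)) = y (i, d) := by
    intro y i d
    simp only [Xg, map_sum, map_monomial, eval_X, coeff_sum, coeff_monomial]
    rw [Finset.sum_eq_single d]
    · simp
    · intro d' _ hd
      rw [if_neg (fun hh => hd (mu_inj hh))]
    · simp
  obtain ⟨y, hy0, hy⟩ := exists_nonzero_zero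
    (fun p : Fin r × (Fin 3 → Fin (3 * D + e + 1)) => coeff (mu p.2) (P p.1))
    (by
      intro p
      have h0 : ∀ i, map (eval (0 : κ → k)) (Xg i) = 0 := by
        intro i
        simp [Xg, map_sum, map_monomial]
      have := hev 0 p.1
      simp only [h0, mul_zero, Finset.sum_const_zero] at this
      rw [← coeff_map, this, coeff_zero])
    (by simpa [κ] using hD)
  refine ⟨fun i => map (eval y) (Xg i), ?_, ?_⟩
  · intro hx
    apply hy0
    funext ⟨i, d⟩
    rw [← hco y i d, congrFun hx i]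
    simp
  · intro j
    rw [← hev y j]
    ext ν
    rw [coeff_map, coeff_zero]
    by_cases hν : ∀ s, ν s < 3 * D + e + 1
    · have : ν = mu (fun s => (⟨ν s, hν s⟩ : Fin (3 * D + e + 1))) := by
        ext s
        rfl
      rw [this]
      exact hy (j, _)
    · push Not at hν
      obtain ⟨s, hs⟩ := hν
      have : coeff ν (P j) = 0 := by
        by_contra hne
        have := (degreeOf_le_iff.mp (hP j s)) ν (mem_support_iff.mpr hne)
        omega
      rw [this, map_zero]

theorem tsen_frac {k : Type} [Field k] [IsAlgClosed k] (n r : ℕ)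
    (c : Fin r → Fin n → Fin n → Fin n → FractionRing (MvPolynomial (Fin 3) k))
    (h : 27 * r < n) :
    ∃ x : Fin n → FractionRing (MvPolynomial (Fin 3) k), x ≠ 0 ∧
      ∀ j, ∑ i1, ∑ i2, ∑ i3, c j i1 i2 i3 * (x i1 * x i2 * x i3) = 0 := by
  obtain ⟨b, hb⟩ := IsLocalization.exist_integer_multiples_of_finite
    (nonZeroDivisors (MvPolynomial (Fin 3) k))
    (fun p : Fin r × Fin n × Fin n × Fin n => c p.1 p.2.1 p.2.2.1 p.2.2.2)
  choose c' hc' using hb
  obtain ⟨x, hx0, hx⟩ := tsen_poly n r (fun j i1 i2 i3 => c' (j, i1, i2, i3)) h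
  have hinj := IsFractionRing.injective (MvPolynomial (Fin 3) k)
    (FractionRing (MvPolynomial (Fin 3) k))
  refine ⟨fun i => algebraMap _ _ (x i), ?_, ?_⟩
  · intro h0
    apply hx0
    funext i
    apply hinj
    rw [congrFun h0 i]
    simp
  · intro j
    have h1 := congrArg (algebraMap _ (FractionRing (MvPolynomial (Fin 3) k))) (hx j)
    simp only [map_sum, map_mul, map_zero, hc', Algebra.smul_def] at h1
    have hb0 : algebraMap _ (FractionRing (MvPolynomial (Fin 3) k))
        (b : MvPolynomial (Fin 3) k) ≠ 0 := by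
      intro h0
      exact nonZeroDivisors.ne_zero b.2 (hinj (by rw [h0, map_zero]))
    apply mul_left_cancel₀ hb0
    rw [mul_zero, ← h1]
    simp only [Finset.mul_sum, mul_assoc]

/-- Cubic forms on a vector space. -/
def IsCub {F W : Type} [Field F] [AddCommGroup W] [Module F W] (f : W → F) : Prop :=
  f ∈ Submodule.span F {g : W → F | ∃ p q r : W →ₗ[F] F, g = fun x => p x * q x * r x}

section cub

variable {F W W' : Type} [Field F] [AddCommGroup W] [Module F W] [AddCommGroup W'] [Module F W']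

theorem IsCub.mul3 (p q r : W →ₗ[F] F) : IsCub (fun x => p x * q x * r x) :=
  Submodule.subset_span ⟨p, q, r, rfl⟩

theorem IsCub.add {f g : W → F} (hf : IsCub f) (hg : IsCub g) : IsCub (fun x => f x + g x) :=
  Submodule.add_mem _ hf hg

theorem IsCub.sub {f g : W → F} (hf : IsCub f) (hg : IsCub g) : IsCub (fun x => f x - g x) :=
  Submodule.sub_mem _ hf hg

theorem IsCub.cmul (a : F) {f : W → F} (hf : IsCub f) : IsCub (fun x => a * f x) :=
  Submodule.smul_mem _ a hf

theorem IsCub.comp {f : W → F} (hf : IsCub f) (π : W' →ₗ[F] W) : IsCub (fun x => f (π x)) := by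
  induction hf using Submodule.span_induction with
  | mem g hg =>
    obtain ⟨p, q, r, rfl⟩ := hg
    exact IsCub.mul3 (p.comp π) (q.comp π) (r.comp π)
  | zero => exact Submodule.zero_mem _
  | add f g _ _ hf hg => exact hf.add hg
  | smul a f _ hf => exact hf.cmul a

theorem IsCub.zero {f : W → F} (hf : IsCub f) : f 0 = 0 := by
  induction hf using Submodule.span_induction with
  | mem g hg =>
    obtain ⟨p, q, r, rfl⟩ := hg
    simp
  | zero => rfl
  | add f g _ _ hf hg => simp [hf, hg]
  | smul a f _ hf => simp [hf]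

theorem IsCub.coords {n : ℕ} {f : (Fin n → F) → F} (hf : IsCub f) :
    ∃ c : Fin n → Fin n → Fin n → F, ∀ x, f x = ∑ i1, ∑ i2, ∑ i3, c i1 i2 i3 * (x i1 * x i2 * x i3) := by
  induction hf using Submodule.span_induction with
  | mem g hg =>
    obtain ⟨p, q, r, rfl⟩ := hg
    refine ⟨fun i1 i2 i3 => p (Pi.single i1 1) * q (Pi.single i2 1) * r (Pi.single i3 1), fun x => ?_⟩
    have e : ∀ t : (Fin n → F) →ₗ[F] F, t x = ∑ i, x i * t (Pi.single i 1) := by
      intro t
      rw [LinearMap.pi_apply_eq_sum_univ t x]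
      refine Finset.sum_congr rfl fun i _ => ?_
      rw [smul_eq_mul]
      congr 2
      funext j
      simp [Pi.single_apply, eq_comm]
    show p x * q x * r x = _
    rw [e p, e q, e r, Finset.sum_mul_sum, Finset.sum_mul]
    refine Finset.sum_congr rfl fun i1 _ => ?_
    rw [Finset.sum_mul_sum]
    refine Finset.sum_congr rfl fun i2 _ => Finset.sum_congr rfl fun i3 _ => ?_
    ring
  | zero => exact ⟨0, fun x => by simp⟩
  | add f g _ _ hf hg =>
    obtain ⟨c, hc⟩ := hf
    obtain ⟨c', hc'⟩ := hg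
    refine ⟨c + c', fun x => ?_⟩
    simp only [Pi.add_apply, hc, hc', add_mul, Finset.sum_add_distrib]
  | smul a f _ hf =>
    obtain ⟨c, hc⟩ := hf
    refine ⟨a • c, fun x => ?_⟩
    simp only [Pi.smul_apply, smul_eq_mul, hc, Finset.mul_sum, mul_assoc]

end cub

/-- Any `r` cubic forms in more than `27 r` variables have a nontrivial common zero. -/
def C3 (F : Type) [Field F] : Prop :=
  ∀ (W : Type) [AddCommGroup W] [Module F W] [FiniteDimensional F W] (r : ℕ) (f : Fin r → W → F),
    (∀ j, IsCub (f j)) → 27 * r < Module.finrank F W → ∃ x : W, x ≠ 0 ∧ ∀ j, f j x = 0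

theorem c3_frac (k : Type) [Field k] [IsAlgClosed k] :
    C3 (FractionRing (MvPolynomial (Fin 3) k)) := by
  intro W _ _ _ r f hf h
  let e := (Module.finBasis (FractionRing (MvPolynomial (Fin 3) k)) W).equivFun
  have := fun j => ((hf j).comp e.symm.toLinearMap).coords
  choose c hc using this
  obtain ⟨x, hx0, hx⟩ := tsen_frac _ r c h
  refine ⟨e.symm x, ?_, fun j => ?_⟩
  · intro h0
    apply hx0
    simpa using h0
  · have := hc j x
    rw [hx j] at this
    exact this

section common

variable {F : Type} [Field F] {W1 W2 W3 : Type} [AddCommGroup W1] [Module F W1]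
  [FiniteDimensional F W1] [AddCommGroup W2] [Module F W2] [FiniteDimensional F W2]
  [AddCommGroup W3] [Module F W3] [FiniteDimensional F W3]

theorem common2 (hF : C3 F) {f1 : W1 → F} {f2 : W2 → F} (h1 : IsCub f1) (h2 : IsCub f2)
    (h : 27 < Module.finrank F W1 + Module.finrank F W2) :
    ∃ x1 x2, (x1 ≠ 0 ∨ x2 ≠ 0) ∧ f1 x1 = f2 x2 := by
  obtain ⟨x, hx0, hx⟩ := hF (W1 × W2) 1 (fun _ x => f1 x.1 - f2 x.2)
    (fun _ => (h1.comp (LinearMap.fst F W1 W2)).sub (h2.comp (LinearMap.snd F W1 W2)))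
    (by rw [Module.finrank_prod]; omega)
  refine ⟨x.1, x.2, ?_, sub_eq_zero.mp (hx 0)⟩
  by_contra hc
  push Not at hc
  exact hx0 (Prod.ext hc.1 hc.2)

theorem common3 (hF : C3 F) {f1 : W1 → F} {f2 : W2 → F} {f3 : W3 → F} (h1 : IsCub f1)
    (h2 : IsCub f2) (h3 : IsCub f3)
    (h : 54 < Module.finrank F W1 + Module.finrank F W2 + Module.finrank F W3) :
    ∃ x1 x2 x3, (x1 ≠ 0 ∨ x2 ≠ 0 ∨ x3 ≠ 0) ∧ f1 x1 = f2 x2 ∧ f1 x1 = f3 x3 := by
  obtain ⟨x, hx0, hx⟩ := hF (W1 × W2 × W3) 2
    ![fun x => f1 x.1 - f2 x.2.1, fun x => f1 x.1 - f3 x.2.2]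
    (by
      intro j
      fin_cases j
      · exact (h1.comp (LinearMap.fst F W1 (W2 × W3))).sub
          (h2.comp ((LinearMap.fst F W2 W3).comp (LinearMap.snd F W1 (W2 × W3))))
      · exact (h1.comp (LinearMap.fst F W1 (W2 × W3))).sub
          (h3.comp ((LinearMap.snd F W2 W3).comp (LinearMap.snd F W1 (W2 × W3)))))
    (by rw [Module.finrank_prod, Module.finrank_prod]; omega)
  refine ⟨x.1, x.2.1, x.2.2, ?_, sub_eq_zero.mp (hx 0), sub_eq_zero.mp (hx 1)⟩
  by_contra hc
  push Not at hc
  exact hx0 (Prod.ext hc.1 (Prod.ext hc.2.1 hc.2.2))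

end common

end Pool.Agent.Lib.MP_8363a4_al.H2
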