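import Mathlib
import Pool.Agent.Lib.MP_8363a4_al.Defs
import Pool.Agent.Lib.MP_8363a4_al.H2Tsen

/-!
Every class in `K^M_2(ℂ(x₁,x₂,x₃))/2` is a sum of three symbols.
-/

namespace Pool.Agent.Lib.MP_8363a4_al.H23

open MvPolynomial Pool.Agent.Lib.MP_8363a4_al H2

theorem count_two (e : ℕ) : ∃ D : ℕ, (2 * D + e + 1) ^ 3 < 9 * (D + 1) ^ 3 := by
  refine ⟨12 * e + 6 * e ^ 2 + e ^ 3, ?_⟩
  set D := 12 * e + 6 * e ^ 2 + e ^ 3 with hD
  set m := D + 1 with hm
  have h0 : 2 * D + e + 1 ≤ 2 * m + e := by omega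
  have h1 : (2 * D + e + 1) ^ 3 ≤ (2 * m + e) ^ 3 := Nat.pow_le_pow_left h0 3
  have hm1 : 1 ≤ m := by omega
  have h3 : m ≤ m ^ 2 := by nlinarith
  have h4 : 1 ≤ m ^ 2 := by nlinarith
  have h5 : 6 * e ^ 2 * m ≤ 6 * e ^ 2 * m ^ 2 := by gcongr
  have h6 : e ^ 3 * 1 ≤ e ^ 3 * m ^ 2 := by gcongr
  have h7 : m ^ 3 = D * m ^ 2 + m ^ 2 := by rw [hm]; ring
  have h8 : D * m ^ 2 = 12 * e * m ^ 2 + 6 * e ^ 2 * m ^ 2 + e ^ 3 * m ^ 2 := by
    rw [hD]; ring
  have h9 : (2 * m + e) ^ 3 = 8 * m ^ 3 + 12 * e * m ^ 2 + 6 * e ^ 2 * m + e ^ 3 * 1 := by ring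
  omega

/-- A diagonal quadratic form in nine variables over a polynomial ring in three variables over an
algebraically closed field has a nontrivial zero. -/
theorem tsen_poly_two {k : Type} [Field k] [IsAlgClosed k]
    (c : Fin 9 → MvPolynomial (Fin 3) k) :
    ∃ x : Fin 9 → MvPolynomial (Fin 3) k, x ≠ 0 ∧ ∑ i, c i * (x i * x i) = 0 := by
  classical
  obtain ⟨e, he⟩ : ∃ e : ℕ, ∀ i s, degreeOf s (c i) ≤ e := by
    refine ⟨Finset.univ.sup (fun p : Fin 9 × Fin 3 => degreeOf p.2 (c p.1)), ?_⟩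
    intro i s
    exact Finset.le_sup (f := fun p : Fin 9 × Fin 3 => degreeOf p.2 (c p.1))
      (Finset.mem_univ (i, s))
  obtain ⟨D, hD⟩ := count_two e
  let κ := Fin 9 × (Fin 3 → Fin (D + 1))
  let Xg : Fin 9 → MvPolynomial (Fin 3) (MvPolynomial κ k) :=
    fun i => ∑ d : Fin 3 → Fin (D + 1), monomial (mu d) (X (i, d))
  let P : MvPolynomial (Fin 3) (MvPolynomial κ k) := ∑ i, map C (c i) * (Xg i * Xg i)
  have hX : ∀ i s, degreeOf s (Xg i) ≤ D := by
    intro i s
    refine (degreeOf_sum_le _ _ _).trans (Finset.sup_le fun d _ => ?_)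
    rw [degreeOf_monomial_eq _ _ (X_ne_zero _), mu_apply]
    exact Nat.lt_succ_iff.mp (d s).2
  have hc : ∀ i s, degreeOf s (map (C : k →+* MvPolynomial κ k) (c i)) ≤ e := by
    intro i s
    have := he i s
    rw [degreeOf_le_iff] at this ⊢
    intro m hm
    exact this m (support_map_subset _ _ hm)
  have hP : ∀ s, degreeOf s P ≤ 2 * D + e := by
    intro s
    refine (degreeOf_sum_le _ _ _).trans (Finset.sup_le fun i _ => ?_)
    have a1 := degreeOf_mul_le s (map (C : k →+* MvPolynomial κ k) (c i)) (Xg i * Xg i)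
    have a3 := degreeOf_mul_le s (Xg i) (Xg i)
    have := hX i s
    have := hc i s
    omega
  have hev : ∀ (y : κ → k), map (eval y) P =
      ∑ i, c i * (map (eval y) (Xg i) * map (eval y) (Xg i)) := by
    intro y
    have hid : (eval y).comp (C : k →+* MvPolynomial κ k) = RingHom.id k := by
      ext a
      simp
    simp only [P, map_sum, map_mul, map_map, hid, map_id]
  have hco : ∀ (y : κ → k) i d, coeff (mu d) (map (eval y) (Xg i)) = y (i, d) := by
    intro y i d
    simp only [Xg, map_sum, map_monomial, eval_X, coeff_sum, coeff_monomial]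
    rw [Finset.sum_eq_single d]
    · simp
    · intro d' _ hd
      rw [if_neg (fun hh => hd (mu_inj hh))]
    · simp
  obtain ⟨y, hy0, hy⟩ := exists_nonzero_zero
    (fun p : Fin 3 → Fin (2 * D + e + 1) => coeff (mu p) P)
    (by
      intro p
      have h0 : ∀ i, map (eval (0 : κ → k)) (Xg i) = 0 := by
        intro i
        simp [Xg, map_sum, map_monomial]
      have := hev 0
      simp only [h0, mul_zero, Finset.sum_const_zero] at this
      rw [← coeff_map, this, coeff_zero])
    (by simpa [κ] using hD)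
  refine ⟨fun i => map (eval y) (Xg i), ?_, ?_⟩
  · intro hx
    apply hy0
    funext ⟨i, d⟩
    rw [← hco y i d, congrFun hx i]
    simp
  · rw [← hev y]
    ext ν
    rw [coeff_map, coeff_zero]
    by_cases hν : ∀ s, ν s < 2 * D + e + 1
    · have : ν = mu (fun s => (⟨ν s, hν s⟩ : Fin (2 * D + e + 1))) := by
        ext s
        rfl
      rw [this]
      exact hy _
    · push Not at hν
      obtain ⟨s, hs⟩ := hν
      have : coeff ν P = 0 := by
        by_contra hne
        have := (degreeOf_le_iff.mp (hP s)) ν (mem_support_iff.mpr hne)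
        omega
      rw [this, map_zero]

theorem tsen_frac_two {k : Type} [Field k] [IsAlgClosed k]
    (c : Fin 9 → FractionRing (MvPolynomial (Fin 3) k)) :
    ∃ x : Fin 9 → FractionRing (MvPolynomial (Fin 3) k), x ≠ 0 ∧ ∑ i, c i * (x i * x i) = 0 := by
  obtain ⟨b, hb⟩ := IsLocalization.exist_integer_multiples_of_finite
    (nonZeroDivisors (MvPolynomial (Fin 3) k)) c
  choose c' hc' using hb
  obtain ⟨x, hx0, hx⟩ := tsen_poly_two c'
  have hinj := IsFractionRing.injective (MvPolynomial (Fin 3) k)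
    (FractionRing (MvPolynomial (Fin 3) k))
  refine ⟨fun i => algebraMap _ _ (x i), ?_, ?_⟩
  · intro h0
    apply hx0
    funext i
    apply hinj
    rw [congrFun h0 i]
    simp
  · have h1 := congrArg (algebraMap _ (FractionRing (MvPolynomial (Fin 3) k))) hx
    simp only [map_sum, map_mul, map_zero, hc', Algebra.smul_def] at h1
    have hb0 : algebraMap _ (FractionRing (MvPolynomial (Fin 3) k))
        (b : MvPolynomial (Fin 3) k) ≠ 0 := by
      intro h0
      exact nonZeroDivisors.ne_zero b.2 (hinj (by rw [h0, map_zero]))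
    apply mul_left_cancel₀ hb0
    rw [mul_zero, ← h1]
    simp only [Finset.mul_sum, mul_assoc]

section symbols

variable {F : Type} [Field F]

theorem km_two (g : KMmod F 2 2) : g + g = 0 := by
  obtain ⟨x, rfl⟩ := (multiples F 2 2).mkQ_surjective g
  rw [← map_add, Submodule.mkQ_apply, Submodule.Quotient.mk_eq_zero]
  refine ⟨x, ?_⟩
  simp only [LinearMap.smul_apply, LinearMap.id_apply]
  push_cast
  abel

/-- The symbol as a multilinear map. -/
noncomputable def ml (F : Type) [Field F] :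
    MultilinearMap ℤ (fun _ : Fin 2 => Additive Fˣ) (KMmod F 2 2) :=
  ((multiples F 2 2).mkQ.comp (steinberg F 2).mkQ).compMultilinearMap (PiTensorProduct.tprod ℤ)

/-- The class of the symbol with entries `a`, `b`. -/
noncomputable def sy (a b : Fˣ) : KMmod F 2 2 := symbol 2 ![a, b]

theorem sy_eq (a b : Fˣ) : sy a b = ml F ![Additive.ofMul a, Additive.ofMul b] := by
  show ml F (fun i => Additive.ofMul (![a, b] i)) = _
  refine congrArg (ml F) ?_
  funext i
  fin_cases i <;> rfl

theorem up0 {A : Type} (u v x : A) : Function.update ![u, v] 0 x = ![x, v] := by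
  funext i; fin_cases i <;> rfl

theorem up1 {A : Type} (u v x : A) : Function.update ![u, v] 1 x = ![u, x] := by
  funext i; fin_cases i <;> rfl

theorem sy_mul_left (a b c : Fˣ) : sy (a * b) c = sy a c + sy b c := by
  have := (ml F).map_update_add ![Additive.ofMul a, Additive.ofMul c] 0 (Additive.ofMul a)
    (Additive.ofMul b)
  simp only [up0] at this
  rw [sy_eq, sy_eq, sy_eq, ofMul_mul]
  exact this

theorem sy_mul_right (a b c : Fˣ) : sy a (b * c) = sy a b + sy a c := by
  have := (ml F).map_update_add ![Additive.ofMul a, Additive.ofMul c] 1 (Additive.ofMul b)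
    (Additive.ofMul c)
  simp only [up1] at this
  rw [sy_eq, sy_eq, sy_eq, ofMul_mul]
  exact this

theorem sy_st (a b : Fˣ) (h : (a : F) + b = 1) : sy a b = 0 := by
  have : (steinberg F 2).mkQ (pure ![a, b]) = 0 := by
    rw [Submodule.mkQ_apply, Submodule.Quotient.mk_eq_zero]
    exact Submodule.subset_span ⟨![a, b], ⟨0, 1, by decide, h⟩, rfl⟩
  rw [sy, symbol, this, map_zero]

theorem sy_one_left (b : Fˣ) : sy 1 b = 0 := by
  have := sy_mul_left 1 1 b
  rw [one_mul, km_two] at this
  exact this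

theorem sy_one_right (a : Fˣ) : sy a 1 = 0 := by
  have := sy_mul_right a 1 1
  rw [one_mul, km_two] at this
  exact this

theorem eq_of_add_eq_zero_two {g h : KMmod F 2 2} (e : g + h = 0) : g = h := by
  have := km_two h
  rw [← this] at e
  exact add_right_cancel e

theorem sy_inv_left (a b : Fˣ) : sy a⁻¹ b = sy a b := by
  apply eq_of_add_eq_zero_two
  rw [← sy_mul_left, inv_mul_cancel, sy_one_left]

theorem sy_inv_right (a b : Fˣ) : sy a b⁻¹ = sy a b := by
  apply eq_of_add_eq_zero_two
  rw [← sy_mul_right, inv_mul_cancel, sy_one_right]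

theorem sy_neg_self (a : Fˣ) : sy a (-a) = 0 := by
  by_cases h : a = 1
  · rw [h, sy_one_left]
  · have h1 : (1 : F) - a ≠ 0 := fun e => h (Units.ext (by
      rw [Units.val_one]; exact (sub_eq_zero.mp e).symm))
    have h2 : (1 : F) - (a⁻¹ : Fˣ) ≠ 0 := fun e => h (by
      rw [← inv_eq_one]
      exact Units.ext (by rw [Units.val_one]; exact (sub_eq_zero.mp e).symm))
    have e1 : sy a (Units.mk0 _ h1) = 0 := sy_st _ _ (by simp)
    have e2 : sy a⁻¹ (Units.mk0 _ h2) = 0 := sy_st _ _ (by simp)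
    rw [sy_inv_left] at e2
    have e3 : Units.mk0 _ h1 = -a * Units.mk0 _ h2 := by
      apply Units.ext
      simp only [Units.val_mk0, Units.val_mul, Units.val_neg, Units.val_inv_eq_inv_val]
      field_simp
      ring
    rw [e3, sy_mul_right, e2, add_zero] at e1
    exact e1

variable {j : Fˣ}

theorem sy_self (hj : j * j = -1) (a : Fˣ) : sy a a = 0 := by
  have h := sy_neg_self a
  have e : -a = a * (j * j) := by rw [hj]; simp
  rw [e, sy_mul_right, sy_mul_right, km_two, add_zero] at h
  exact h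

theorem sy_comm (hj : j * j = -1) (a b : Fˣ) : sy a b = sy b a := by
  apply eq_of_add_eq_zero_two
  have h := sy_self hj (a * b)
  rw [sy_mul_left, sy_mul_right, sy_mul_right, sy_self hj, sy_self hj, zero_add, add_zero] at h
  exact h

theorem sy_move (hj : j * j = -1) (a b c : Fˣ) (h : (a : F) + b = c) :
    sy a b = sy c (a * b * c) := by
  have e := sy_st (a * c⁻¹) (b * c⁻¹) (by
    simp only [Units.val_mul, Units.val_inv_eq_inv_val]
    rw [← add_mul, h, mul_inv_cancel₀ c.ne_zero])
  rw [sy_mul_left, sy_mul_right, sy_mul_right, sy_inv_left, sy_inv_left, sy_inv_right,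
    sy_inv_right, sy_self hj c, add_zero, add_assoc] at e
  rw [sy_mul_right, sy_mul_right, sy_self hj c, add_zero, sy_comm hj c a]
  exact eq_of_add_eq_zero_two e

/-- The sum of the symbols of all pairs of entries of a list. -/
noncomputable def s2 : List Fˣ → KMmod F 2 2
  | [] => 0
  | a :: t => sy a t.prod + s2 t

theorem s2_cons (a : Fˣ) (t : List Fˣ) : s2 (a :: t) = sy a t.prod + s2 t := rfl

/-- Lists with the same length, the same sum of pair symbols and products with equal symbols. -/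
def E (l l' : List Fˣ) : Prop :=
  l.length = l'.length ∧ s2 l = s2 l' ∧ ∀ z, sy z l.prod = sy z l'.prod

theorem E.rfl' (l : List Fˣ) : E l l := ⟨rfl, rfl, fun _ => rfl⟩

theorem E.trans {l l' l'' : List Fˣ} (h : E l l') (h' : E l' l'') : E l l'' :=
  ⟨h.1.trans h'.1, h.2.1.trans h'.2.1, fun z => (h.2.2 z).trans (h'.2.2 z)⟩

theorem E.cons (a : Fˣ) {l l' : List Fˣ} (h : E l l') : E (a :: l) (a :: l') := by
  refine ⟨by simp [h.1], ?_, fun z => ?_⟩
  · rw [s2_cons, s2_cons, h.2.1, h.2.2]
  · rw [List.prod_cons, List.prod_cons, sy_mul_right, sy_mul_right, h.2.2]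

theorem E.swap (hj : j * j = -1) (a b : Fˣ) (t : List Fˣ) : E (a :: b :: t) (b :: a :: t) := by
  refine ⟨rfl, ?_, fun z => ?_⟩
  · simp only [s2_cons, List.prod_cons, sy_mul_right, sy_comm hj b a]
    abel
  · simp only [List.prod_cons, sy_mul_right]
    abel

theorem E.scale (a u : Fˣ) (t : List Fˣ) : E (a :: t) ((a * (u * u)) :: t) := by
  refine ⟨rfl, ?_, fun z => ?_⟩
  · simp only [s2_cons, sy_mul_left, km_two, add_zero]
  · simp only [List.prod_cons, sy_mul_right, km_two, add_zero]

theorem E.move (hj : j * j = -1) (a b c : Fˣ) (h : (a : F) + b = c) (t : List Fˣ) :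
    E (a :: b :: t) (c :: (a * b * c) :: t) := by
  refine ⟨rfl, ?_, fun z => ?_⟩
  · rw [s2_cons, s2_cons, s2_cons, s2_cons, List.prod_cons, List.prod_cons, sy_mul_right a b,
      sy_mul_right c (a * b * c), ← sy_move hj a b c h, sy_mul_left, sy_mul_left]
    have := km_two (sy c t.prod)
    linear_combination (norm := module) (-1 : ℤ) • this
  · simp only [List.prod_cons, sy_mul_right]
    have := km_two (sy z c)
    linear_combination (norm := module) (-1 : ℤ) • this

/-- The value of a diagonal form at a point. -/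
def val : List (Fˣ × F) → F
  | [] => 0
  | q :: p => q.1 * (q.2 * q.2) + val p

theorem rep (hj : j * j = -1) (p : List (Fˣ × F)) :
    ∀ c : Fˣ, val p = c → ∃ t, E (p.map Prod.fst) (c :: t) := by
  induction p with
  | nil => intro c hc; exact absurd hc.symm c.ne_zero
  | cons q p ih =>
    intro c hc
    obtain ⟨a, x⟩ := q
    change (a : F) * (x * x) + val p = c at hc
    rw [List.map_cons]
    by_cases hx : x = 0
    · rw [hx, mul_zero, mul_zero, zero_add] at hc
      obtain ⟨t, ht⟩ := ih c hc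
      exact ⟨a :: t, (ht.cons a).trans (E.swap hj a c t)⟩
    · set u := Units.mk0 x hx with hu
      have h1 := E.scale a u (p.map Prod.fst)
      by_cases hT : val p = 0
      · have : a * (u * u) = c := by
          apply Units.ext
          rw [← hc, hT, add_zero]
          rfl
        rw [this] at h1
        exact ⟨_, h1⟩
      · obtain ⟨t, ht⟩ := ih (Units.mk0 _ hT) rfl
        exact ⟨_, (h1.trans (ht.cons _)).trans (E.move hj _ _ c hc t)⟩

theorem iso (hj : j * j = -1) (p : List (Fˣ × F)) (h0 : val p = 0) (hp : ∃ q ∈ p, q.2 ≠ 0) :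
    ∃ a t, E (p.map Prod.fst) (a :: a :: t) := by
  induction p with
  | nil => obtain ⟨q, hq, _⟩ := hp; simp at hq
  | cons q p ih =>
    obtain ⟨a, x⟩ := q
    change (a : F) * (x * x) + val p = 0 at h0
    rw [List.map_cons]
    by_cases hx : x = 0
    · rw [hx, mul_zero, mul_zero, zero_add] at h0
      obtain ⟨b, t, ht⟩ := ih h0 (by
        obtain ⟨q, hq, hq0⟩ := hp
        rcases List.mem_cons.mp hq with rfl | hq
        · exact absurd hx hq0
        · exact ⟨q, hq, hq0⟩)
      exact ⟨b, a :: t, ((ht.cons a).trans (E.swap hj a b _)).trans ((E.swap hj a b t).cons b)⟩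
    · set u := Units.mk0 x hx with hu
      obtain ⟨t, ht⟩ := rep hj p (a * ((u * j) * (u * j))) (by
        have e : (j : F) * j = -1 := by
          rw [← Units.val_mul, hj]; simp
        simp only [Units.val_mul, hu, Units.val_mk0]
        linear_combination h0 - (a : F) * x * x * e)
      exact ⟨_, t, (E.scale a (u * j) _).trans (ht.cons _)⟩

theorem s2_dup (hj : j * j = -1) (a : Fˣ) (t : List Fˣ) : s2 (a :: a :: t) = s2 t := by
  rw [s2_cons, s2_cons, List.prod_cons, sy_mul_right, sy_self hj, zero_add, ← add_assoc, km_two,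
    zero_add]

theorem s2_three (hj : j * j = -1) (a b c : Fˣ) (t : List Fˣ) :
    s2 (a :: b :: c :: t) = sy (a * b) (b * c) + s2 ((a * b * c) :: t) := by
  simp only [s2_cons, List.prod_cons, sy_mul_right, sy_mul_left, sy_self hj]
  abel

theorem s2_back (hj : j * j = -1) (x y e : Fˣ) (t : List Fˣ) :
    sy x y + s2 (e :: t) = s2 ((y * e) :: (x * y * e) :: (x * e) :: t) := by
  simp only [s2_cons, List.prod_cons, sy_mul_right, sy_mul_left, sy_self hj, sy_comm hj y x,
    sy_comm hj e x, sy_comm hj e y]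
  have h1 := km_two (sy x y)
  have h2 := km_two (sy x e)
  have h3 := km_two (sy y e)
  have h4 := km_two (sy x t.prod)
  have h5 := km_two (sy y t.prod)
  have h6 := km_two (sy e t.prod)
  linear_combination (norm := module) (-1 : ℤ) • h1 + (-2 : ℤ) • h2 + (-2 : ℤ) • h3
    + (-1 : ℤ) • h4 + (-1 : ℤ) • h5 + (-1 : ℤ) • h6

theorem val_ofFn {n : ℕ} (c : Fin n → Fˣ) (x : Fin n → F) :
    val (List.ofFn fun i => (c i, x i)) = ∑ i, (c i : F) * (x i * x i) := by
  induction n with
  | zero => rfl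
  | succ n ih =>
    rw [List.ofFn_succ, Fin.sum_univ_succ, ← ih]
    rfl

theorem seven (hj : j * j = -1) (t : List Fˣ) (ht : t.length = 7) : IsSumOfSymbols (s2 t) 3 := by
  match t, ht with
  | [a, b, c, d, e, f, g], _ =>
    refine ⟨![![a * b, b * c], ![a * b * c * d, d * e], ![a * b * c * d * e * f, f * g]], ?_⟩
    rw [s2_three hj, s2_three hj, s2_three hj, s2_cons, List.prod_nil, sy_one_right,
      Fin.sum_univ_three]
    show _ + (_ + (_ + (0 + 0))) = sy _ _ + sy _ _ + sy _ _
    abel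

theorem nine (hj : j * j = -1)
    (hF : ∀ c : Fin 9 → F, ∃ x : Fin 9 → F, x ≠ 0 ∧ ∑ i, c i * (x i * x i) = 0)
    (l : List Fˣ) (hl : l.length = 9) : IsSumOfSymbols (s2 l) 3 := by
  obtain ⟨c, rfl⟩ : ∃ c : Fin 9 → Fˣ, l = List.ofFn c :=
    ⟨fun i => l.get (i.cast hl.symm), by
      apply List.ext_get (by rw [List.length_ofFn, hl])
      intro n h1 h2
      rw [List.get_ofFn]
      rfl⟩
  obtain ⟨x, hx0, hx⟩ := hF (fun i => c i)
  obtain ⟨a, t, ht⟩ := iso hj (List.ofFn fun i => (c i, x i)) (by rw [val_ofFn, hx]) (by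
    by_contra hcon
    push Not at hcon
    apply hx0
    funext i
    exact hcon (c i, x i) (List.mem_ofFn.mpr ⟨i, rfl⟩))
  have e : (List.ofFn fun i => (c i, x i)).map Prod.fst = List.ofFn c := by
    rw [List.map_ofFn]
    rfl
  rw [e] at ht
  rw [ht.2.1, s2_dup hj]
  apply seven hj
  have := ht.1
  simp only [List.length_ofFn, List.length_cons] at this
  omega

theorem add_symbol (hj : j * j = -1)
    (hF : ∀ c : Fin 9 → F, ∃ x : Fin 9 → F, x ≠ 0 ∧ ∑ i, c i * (x i * x i) = 0)
    (ξ : KMmod F 2 2) (h : IsSumOfSymbols ξ 3) (x y : Fˣ) : IsSumOfSymbols (sy x y + ξ) 3 := by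
  obtain ⟨a, rfl⟩ := h
  have e : ∀ i, symbol 2 (a i) = sy (a i 0) (a i 1) := by
    intro i
    refine congrArg (symbol 2) ?_
    funext s
    fin_cases s <;> rfl
  have e0 : (0 : KMmod F 2 2) = s2 [(1 : Fˣ)] := by
    rw [s2_cons, sy_one_left]
    exact (zero_add _).symm
  rw [Fin.sum_univ_three, e, e, e, add_assoc, ← add_zero (sy (a 2 0) (a 2 1)), e0, s2_back hj,
    s2_back hj, s2_back hj, s2_back hj]
  exact nine hj hF _ rfl

theorem three_symbols (hj : j * j = -1)
    (hF : ∀ c : Fin 9 → F, ∃ x : Fin 9 → F, x ≠ 0 ∧ ∑ i, c i * (x i * x i) = 0)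
    (ξ : KMmod F 2 2) : IsSumOfSymbols ξ 3 := by
  have key : ∀ η ξ : KMmod F 2 2, IsSumOfSymbols ξ 3 → IsSumOfSymbols (η + ξ) 3 := by
    intro η
    obtain ⟨x, rfl⟩ := (multiples F 2 2).mkQ_surjective η
    obtain ⟨y, rfl⟩ := (steinberg F 2).mkQ_surjective x
    induction y using PiTensorProduct.induction_on with
    | smul_tprod r f =>
      intro ξ h
      have e : sy (Additive.toMul (r • f 0)) (Additive.toMul (f 1)) = r • ml F f := by
        have h1 := (ml F).map_update_smul f 0 r (f 0)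
        rw [Function.update_eq_self] at h1
        rw [sy_eq, ← h1]
        refine congrArg (ml F) ?_
        funext i
        fin_cases i <;> rfl
      have h2 := add_symbol hj hF ξ h (Additive.toMul (r • f 0)) (Additive.toMul (f 1))
      rw [e] at h2
      rw [map_smul, map_smul]
      exact h2
    | add x y hx hy =>
      intro ξ h
      rw [map_add, map_add, add_assoc]
      exact hx _ (hy _ h)
  have h0 : IsSumOfSymbols (0 : KMmod F 2 2) 3 := by
    refine ⟨fun _ => ![1, 1], ?_⟩
    rw [Fin.sum_univ_three]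
    show 0 = sy 1 1 + sy 1 1 + sy 1 1
    rw [sy_one_left, add_zero, add_zero]
  have := key ξ 0 h0
  rwa [add_zero] at this

end symbols

theorem exists_sqrt_neg_one (m : ℕ) : ∃ j : (RatFun m)ˣ, j * j = -1 := by
  have h : algebraMap ℂ (RatFun m) Complex.I * algebraMap ℂ (RatFun m) Complex.I = -1 := by
    rw [← map_mul, Complex.I_mul_I, map_neg, map_one]
  refine ⟨Units.mk0 (algebraMap ℂ (RatFun m) Complex.I) (fun e => ?_), Units.ext ?_⟩
  · rw [e, mul_zero] at h
    exact one_ne_zero (neg_eq_zero.mp h.symm)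
  · simpa using h

/-- Every class in `K^M_2(ℂ(x₁,x₂,x₃))/2` is a sum of three symbols. -/
theorem upper : ∀ ξ : KMmod (RatFun 3) 2 2, IsSumOfSymbols ξ 3 := by
  intro ξ
  obtain ⟨j, hj⟩ := exists_sqrt_neg_one 3
  exact three_symbols hj (tsen_frac_two (k := ℂ)) ξ

end Pool.Agent.Lib.MP_8363a4_al.H23
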