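import Mathlib

/-!
Abstract degree three symbols modulo three, and the two vanishing lemmas
(norms from a Kummer extension, reduced norms from a symbol algebra).
-/

namespace Pool.Agent.Lib.MP_8363a4_al.H2

/-- A logarithm `l` into a group of exponent three and a tri-additive Steinberg map `T`. -/
structure Sys (F V G : Type) [Field F] [AddCommGroup V] [AddCommGroup G] where
  l : F → V
  T : V →+ V →+ V →+ G
  l_mul : ∀ a b : F, a ≠ 0 → b ≠ 0 → l (a * b) = l a + l b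
  three : ∀ v : V, v + v + v = 0
  surj : ∀ v : V, ∃ a : F, a ≠ 0 ∧ l a = v
  st12 : ∀ a b : F, a ≠ 0 → b ≠ 0 → a + b = 1 → T (l a) (l b) = 0
  st23 : ∀ a b : F, a ≠ 0 → b ≠ 0 → a + b = 1 → ∀ u, T u (l a) (l b) = 0

namespace Sys

variable {F V G : Type} [Field F] [AddCommGroup V] [AddCommGroup G] (S : Sys F V G)

theorem l_one : S.l 1 = 0 := by
  have h := S.l_mul 1 1 one_ne_zero one_ne_zero
  rw [one_mul] at h
  exact left_eq_add.mp h

theorem l_inv (a : F) (ha : a ≠ 0) : S.l a⁻¹ = - S.l a := by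
  have h := S.l_mul a a⁻¹ ha (inv_ne_zero ha)
  rw [mul_inv_cancel₀ ha, S.l_one] at h
  exact (neg_eq_of_add_eq_zero_right h.symm).symm

theorem l_div (a b : F) (ha : a ≠ 0) (hb : b ≠ 0) : S.l (a / b) = S.l a - S.l b := by
  rw [div_eq_mul_inv, S.l_mul a _ ha (inv_ne_zero hb), S.l_inv b hb, sub_eq_add_neg]

theorem l_cube (a : F) (ha : a ≠ 0) : S.l (a ^ 3) = 0 := by
  have : a ^ 3 = a * a * a := by ring
  rw [this, S.l_mul _ _ (mul_ne_zero ha ha) ha, S.l_mul _ _ ha ha, S.three]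

theorem l_neg_one : S.l (-1) = 0 := by
  have h := S.l_cube (-1) (neg_ne_zero.mpr one_ne_zero)
  have e : (-1 : F) ^ 3 = -1 := by ring
  rwa [e] at h

theorem l_neg (a : F) (ha : a ≠ 0) : S.l (-a) = S.l a := by
  have : -a = -1 * a := by ring
  rw [this, S.l_mul _ _ (neg_ne_zero.mpr one_ne_zero) ha, S.l_neg_one, zero_add]

theorem l_mul_cube (a b : F) (ha : a ≠ 0) (hb : b ≠ 0) : S.l (a * b ^ 3) = S.l a := by
  rw [S.l_mul _ _ ha (pow_ne_zero 3 hb), S.l_cube b hb, add_zero]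

section bil

variable {H : Type} [AddCommGroup H] (B : V →+ V →+ H)

theorem bil_self (hB : ∀ a b : F, a ≠ 0 → b ≠ 0 → a + b = 1 → B (S.l a) (S.l b) = 0) (u : V) :
    B u u = 0 := by
  obtain ⟨a, ha, rfl⟩ := S.surj u
  by_cases h1 : a = 1
  · subst h1
    rw [S.l_one]
    simp
  have h2 : 1 - a ≠ 0 := sub_ne_zero.mpr (Ne.symm h1)
  have h3 : 1 - a⁻¹ ≠ 0 := by
    intro h
    apply h1
    have : a⁻¹ = 1 := (sub_eq_zero.mp h).symm
    exact inv_eq_one.mp this
  have e : -a = (1 - a) / (1 - a⁻¹) := by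
    rw [eq_div_iff h3]
    field_simp
    ring
  have e1 : S.l a = S.l (1 - a) - S.l (1 - a⁻¹) := by
    rw [← S.l_div _ _ h2 h3, ← e, S.l_neg a ha]
  have s1 := hB a (1 - a) ha h2 (by ring)
  have s2 := hB a⁻¹ (1 - a⁻¹) (inv_ne_zero ha) h3 (by ring)
  rw [S.l_inv a ha, map_neg, AddMonoidHom.neg_apply, neg_eq_zero] at s2
  conv_lhs => rw [show B (S.l a) (S.l a) = B (S.l a) (S.l (1 - a) - S.l (1 - a⁻¹)) by rw [← e1]]
  rw [map_sub, s1, s2, sub_zero]

theorem bil_swap (hB : ∀ a b : F, a ≠ 0 → b ≠ 0 → a + b = 1 → B (S.l a) (S.l b) = 0) (u v : V) :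
    B u v = - B v u := by
  have h := S.bil_self B hB (u + v)
  simp only [map_add, AddMonoidHom.add_apply, S.bil_self B hB u, S.bil_self B hB v, zero_add,
    add_zero] at h
  exact eq_neg_of_add_eq_zero_right h

theorem bil_sum (hB : ∀ a b : F, a ≠ 0 → b ≠ 0 → a + b = 1 → B (S.l a) (S.l b) = 0)
    (a b : F) (ha : a ≠ 0) (hb : b ≠ 0) (hab : a + b ≠ 0) :
    B (S.l a - S.l (a + b)) (S.l b - S.l (a + b)) = 0 := by
  rw [← S.l_div _ _ ha hab, ← S.l_div _ _ hb hab]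
  apply hB _ _ (div_ne_zero ha hab) (div_ne_zero hb hab)
  field_simp

end bil

theorem self12 (u : V) : S.T u u = 0 := S.bil_self S.T S.st12 u

theorem self12' (u w : V) : S.T u u w = 0 := by rw [S.self12]; rfl

theorem swap12 (u v w : V) : S.T u v w = - S.T v u w := by
  rw [S.bil_swap S.T S.st12 u v]; rfl

theorem self23 (u v : V) : S.T u v v = 0 :=
  S.bil_self (S.T u) (fun a b ha hb h => S.st23 a b ha hb h u) v

theorem swap23 (u v w : V) : S.T u v w = - S.T u w v :=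
  S.bil_swap (S.T u) (fun a b ha hb h => S.st23 a b ha hb h u) v w

theorem self13 (u v : V) : S.T u v u = 0 := by
  rw [S.swap23, S.self12', neg_zero]

theorem cyc (u v w : V) : S.T u v w = S.T v w u := by
  rw [S.swap12, S.swap23, neg_neg]

theorem sum12 (a b : F) (ha : a ≠ 0) (hb : b ≠ 0) (hab : a + b ≠ 0) (w : V) :
    S.T (S.l a - S.l (a + b)) (S.l b - S.l (a + b)) w = 0 := by
  rw [S.bil_sum S.T S.st12 a b ha hb hab]; rfl

theorem sum23 (a b : F) (ha : a ≠ 0) (hb : b ≠ 0) (hab : a + b ≠ 0) (u : V) :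
    S.T u (S.l a - S.l (a + b)) (S.l b - S.l (a + b)) = 0 :=
  S.bil_sum (S.T u) (fun a b ha hb h => S.st23 a b ha hb h u) a b ha hb hab

theorem l_eq_of_add_eq_zero (a b : F) (ha : a ≠ 0) (h : a + b = 0) : S.l b = S.l a := by
  have : b = -a := by linear_combination h
  rw [this, S.l_neg a ha]

/-- The sum rule in the first two places. -/
theorem rule12 (a b : F) (ha : a ≠ 0) (hb : b ≠ 0) (hab : a + b ≠ 0) (w : V) :
    S.T (S.l a) (S.l b) w = S.T (S.l (a + b)) (S.l b - S.l a) w := by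
  have h := S.sum12 a b ha hb hab w
  simp only [map_sub, AddMonoidHom.sub_apply, S.self12'] at h ⊢
  rw [S.swap12 (S.l a) (S.l (a + b))] at h
  linear_combination (norm := abel) h

/-- The sum rule in the last two places. -/
theorem rule23 (a b : F) (ha : a ≠ 0) (hb : b ≠ 0) (hab : a + b ≠ 0) (u : V) :
    S.T u (S.l a) (S.l b) = S.T u (S.l (a + b)) (S.l b - S.l a) := by
  rw [S.cyc u, S.rule12 a b ha hb hab, ← S.cyc u]

end Sys

/-- The norm form of `F[x]/(x^3 - a)`. -/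
def nrm {F : Type} [Field F] (a x y z : F) : F :=
  x ^ 3 + a * y ^ 3 + a ^ 2 * z ^ 3 - 3 * a * x * y * z

namespace Sys

variable {F V G : Type} [Field F] [AddCommGroup V] [AddCommGroup G] (S : Sys F V G)

theorem bin1 (a : F) (ha : a ≠ 0) (hl : S.l a ≠ 0) (x y : F) (h : x ≠ 0 ∨ y ≠ 0) :
    x ^ 3 + a * y ^ 3 ≠ 0 ∧ S.T (S.l a) (S.l (x ^ 3 + a * y ^ 3)) = 0 := by
  by_cases hy : y = 0
  · have hx : x ≠ 0 := h.resolve_right (not_not.mpr hy)
    have e : x ^ 3 + a * y ^ 3 = x ^ 3 := by rw [hy]; ring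
    rw [e, S.l_cube x hx]
    exact ⟨pow_ne_zero 3 hx, by simp⟩
  have hay : a * y ^ 3 ≠ 0 := mul_ne_zero ha (pow_ne_zero 3 hy)
  by_cases hx : x = 0
  · have e : x ^ 3 + a * y ^ 3 = a * y ^ 3 := by rw [hx]; ring
    rw [e, S.l_mul_cube a y ha hy]
    exact ⟨hay, S.self12 _⟩
  have hx3 : x ^ 3 ≠ 0 := pow_ne_zero 3 hx
  have hn : x ^ 3 + a * y ^ 3 ≠ 0 := by
    intro h0
    have := S.l_eq_of_add_eq_zero _ _ hx3 h0
    rw [S.l_mul_cube a y ha hy, S.l_cube x hx] at this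
    exact hl this
  refine ⟨hn, ?_⟩
  ext w
  have h1 := S.rule12 _ _ hx3 hay hn w
  rw [S.l_mul_cube a y ha hy, S.l_cube x hx, sub_zero] at h1
  rw [S.swap12, ← h1]
  simp

/-- Norms from the Kummer extension are killed. -/
theorem K1 (a : F) (ha : a ≠ 0) (hl : S.l a ≠ 0) (x y z : F) (h : x ≠ 0 ∨ y ≠ 0 ∨ z ≠ 0) :
    nrm a x y z ≠ 0 ∧ S.T (S.l a) (S.l (nrm a x y z)) = 0 := by
  by_cases hyz : y = 0 ∧ z = 0
  · have hx : x ≠ 0 := by tauto
    have e : nrm a x y z = x ^ 3 + a * 0 ^ 3 := by rw [nrm, hyz.1, hyz.2]; ring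
    rw [e]
    exact S.bin1 a ha hl x 0 (Or.inl hx)
  have h1 := S.bin1 a ha hl y (-z) (by rw [neg_ne_zero]; tauto)
  have id : nrm a x y z * (y ^ 3 + a * (-z) ^ 3)
      = (x * y - a * z ^ 2) ^ 3 + a * (y ^ 2 - x * z) ^ 3 := by
    rw [nrm]; ring
  have h2 := S.bin1 a ha hl (x * y - a * z ^ 2) (y ^ 2 - x * z) (by
    by_contra hc
    push Not at hc
    apply h1.1
    linear_combination y * hc.2 + z * hc.1)
  have hn : nrm a x y z ≠ 0 := by
    intro h0
    rw [h0, zero_mul] at id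
    exact h2.1 id.symm
  refine ⟨hn, ?_⟩
  have h3 := h2.2
  rw [← id, S.l_mul _ _ hn h1.1, map_add, h1.2, add_zero] at h3
  exact h3

end Sys

/-- The ring `F[x]/(x^3 - a)` in coordinates. -/
@[ext] structure Cub {F : Type} [Field F] (a : F) where
  x : F
  y : F
  z : F

namespace Cub

variable {F : Type} [Field F] {a : F}

instance : Zero (Cub a) := ⟨⟨0, 0, 0⟩⟩
instance : One (Cub a) := ⟨⟨1, 0, 0⟩⟩
instance : Add (Cub a) := ⟨fun u v => ⟨u.x + v.x, u.y + v.y, u.z + v.z⟩⟩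
instance : Neg (Cub a) := ⟨fun u => ⟨-u.x, -u.y, -u.z⟩⟩
instance : Mul (Cub a) := ⟨fun u v =>
  ⟨u.x * v.x + a * (u.y * v.z + u.z * v.y), u.x * v.y + u.y * v.x + a * (u.z * v.z),
    u.x * v.z + u.y * v.y + u.z * v.x⟩⟩

theorem zero_x : (0 : Cub a).x = 0 := rfl
theorem zero_y : (0 : Cub a).y = 0 := rfl
theorem zero_z : (0 : Cub a).z = 0 := rfl
theorem one_x : (1 : Cub a).x = 1 := rfl
theorem one_y : (1 : Cub a).y = 0 := rfl
theorem one_z : (1 : Cub a).z = 0 := rfl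
theorem add_x (u v : Cub a) : (u + v).x = u.x + v.x := rfl
theorem add_y (u v : Cub a) : (u + v).y = u.y + v.y := rfl
theorem add_z (u v : Cub a) : (u + v).z = u.z + v.z := rfl
theorem neg_x (u : Cub a) : (-u).x = -u.x := rfl
theorem neg_y (u : Cub a) : (-u).y = -u.y := rfl
theorem neg_z (u : Cub a) : (-u).z = -u.z := rfl
theorem mul_x (u v : Cub a) : (u * v).x = u.x * v.x + a * (u.y * v.z + u.z * v.y) := rfl
theorem mul_y (u v : Cub a) : (u * v).y = u.x * v.y + u.y * v.x + a * (u.z * v.z) := rfl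
theorem mul_z (u v : Cub a) : (u * v).z = u.x * v.z + u.y * v.y + u.z * v.x := rfl

instance : CommRing (Cub a) :=
  CommRing.ofMinimalAxioms
    (by intro u v w; ext <;> simp only [add_x, add_y, add_z] <;> ring)
    (by intro u; ext <;> simp only [add_x, add_y, add_z, zero_x, zero_y, zero_z] <;> ring)
    (by intro u; ext <;>
      simp only [add_x, add_y, add_z, neg_x, neg_y, neg_z, zero_x, zero_y, zero_z] <;> ring)
    (by intro u v w; ext <;> simp only [mul_x, mul_y, mul_z] <;> ring)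
    (by intro u v; ext <;> simp only [mul_x, mul_y, mul_z] <;> ring)
    (by intro u; ext <;> simp only [mul_x, mul_y, mul_z, one_x, one_y, one_z] <;> ring)
    (by intro u v w; ext <;> simp only [mul_x, mul_y, mul_z, add_x, add_y, add_z] <;> ring)

/-- Scalars. -/
def c (a : F) : F →+* Cub a where
  toFun r := ⟨r, 0, 0⟩
  map_one' := rfl
  map_mul' r s := by ext <;> simp only [mul_x, mul_y, mul_z] <;> ring
  map_zero' := rfl
  map_add' r s := by ext <;> simp only [add_x, add_y, add_z] <;> ring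

theorem c_x (r : F) : (c a r).x = r := rfl
theorem c_y (r : F) : (c a r).y = 0 := rfl
theorem c_z (r : F) : (c a r).z = 0 := rfl

theorem c_inj {r s : F} (h : c a r = c a s) : r = s := congrArg Cub.x h

/-- The generator of the Galois action. -/
def sg (a : F) (o : F) (ho : o ^ 2 + o + 1 = 0) : Cub a →+* Cub a where
  toFun u := ⟨u.x, o * u.y, o ^ 2 * u.z⟩
  map_one' := by ext <;> simp only [one_x, one_y, one_z] <;> ring
  map_mul' u v := by
    ext <;> simp only [mul_x, mul_y, mul_z]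
    · linear_combination (-(a * (u.y * v.z + u.z * v.y)) * (o - 1)) * ho
    · linear_combination (-(a * u.z * v.z) * o * (o - 1)) * ho
    · ring
  map_zero' := by ext <;> simp only [zero_x, zero_y, zero_z] <;> ring
  map_add' u v := by ext <;> simp only [add_x, add_y, add_z] <;> ring

variable {o : F} {ho : o ^ 2 + o + 1 = 0}

theorem sg_x (u : Cub a) : (sg a o ho u).x = u.x := rfl
theorem sg_y (u : Cub a) : (sg a o ho u).y = o * u.y := rfl
theorem sg_z (u : Cub a) : (sg a o ho u).z = o ^ 2 * u.z := rfl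

theorem sg3 (u : Cub a) : sg a o ho (sg a o ho (sg a o ho u)) = u := by
  ext <;> simp only [sg_x, sg_y, sg_z]
  · linear_combination (u.y * (o - 1)) * ho
  · linear_combination (u.z * (o - 1) * (o ^ 3 + 1)) * ho

theorem sg_c (r : F) : sg a o ho (c a r) = c a r := by
  ext <;> simp only [sg_x, sg_y, sg_z, c_x, c_y, c_z] <;> ring

/-- The norm. -/
def N (u : Cub a) : F := nrm a u.x u.y u.z

/-- The trace. -/
def Tr (u : Cub a) : F := 3 * u.x

theorem c_N (u : Cub a) : c a (N u) = u * sg a o ho u * sg a o ho (sg a o ho u) := by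
  ext <;> simp only [N, nrm, mul_x, mul_y, mul_z, sg_x, sg_y, sg_z, c_x, c_y, c_z]
  · grind
  · grind
  · grind

theorem c_Tr (u : Cub a) : c a (Tr u) = u + sg a o ho u + sg a o ho (sg a o ho u) := by
  ext <;> simp only [Tr, add_x, add_y, add_z, sg_x, sg_y, sg_z, c_x, c_y, c_z]
  · ring
  · linear_combination (-u.y) * ho
  · linear_combination (-u.z * (o ^ 2 - o + 1)) * ho

/-- The reduced norm of the symbol algebra `(a, b)` at `u₀ + u₁ y + u₂ y²`. -/
def Nrd (b o : F) (ho : o ^ 2 + o + 1 = 0) (u0 u1 u2 : Cub a) : F :=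
  N u0 + b * N u1 + b ^ 2 * N u2 - b * Tr (u0 * sg a o ho u1 * sg a o ho (sg a o ho u2))

theorem Nrd_mul (b : F) (u0 u1 u2 : Cub a) :
    Nrd b o ho u0 u1 u2 * (N u1 + b * N (-u2)) =
      N (u0 * sg a o ho u1 - c a b * (u2 * sg a o ho u2)) +
        b * N (u1 * sg a o ho (sg a o ho u1) - u0 * sg a o ho (sg a o ho u2)) := by
  apply c_inj (a := a)
  simp only [Nrd, map_add, map_sub, map_mul, map_pow, map_neg, c_N (o := o) (ho := ho),
    c_Tr (o := o) (ho := ho), sg3, sg_c]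
  ring

theorem N_deg (b : F) (u0 u1 u2 : Cub a)
    (h0 : u0 * sg a o ho u1 - c a b * (u2 * sg a o ho u2) = 0)
    (h1 : u1 * sg a o ho (sg a o ho u1) - u0 * sg a o ho (sg a o ho u2) = 0) :
    N u1 + b * N (-u2) = 0 := by
  apply c_inj (a := a)
  simp only [map_add, map_mul, map_neg, map_zero, c_N (o := o) (ho := ho)]
  linear_combination (sg a o ho u1) * h1 + (sg a o ho (sg a o ho u2)) * h0

theorem N_zero : N (0 : Cub a) = 0 := by
  simp [N, nrm, zero_x, zero_y, zero_z]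

theorem Nrd_zero (b : F) (u0 : Cub a) : Nrd b o ho u0 0 0 = N u0 := by
  simp [Nrd, N_zero, Tr, zero_x]

theorem ne_zero_iff (u : Cub a) : u ≠ 0 ↔ u.x ≠ 0 ∨ u.y ≠ 0 ∨ u.z ≠ 0 := by
  constructor
  · intro h
    by_contra hc
    push Not at hc
    exact h (Cub.ext hc.1 hc.2.1 hc.2.2)
  · rintro h rfl
    simp [zero_x, zero_y, zero_z] at h

end Cub

namespace Sys

open Cub

variable {F V G : Type} [Field F] [AddCommGroup V] [AddCommGroup G] (S : Sys F V G)

theorem K1c (a : F) (ha : a ≠ 0) (hl : S.l a ≠ 0) (u : Cub a) (h : u ≠ 0) :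
    N u ≠ 0 ∧ S.T (S.l a) (S.l (N u)) = 0 :=
  S.K1 a ha hl _ _ _ ((ne_zero_iff u).mp h)

theorem bin2 (a b : F) (ha : a ≠ 0) (hb : b ≠ 0) (hT : S.T (S.l a) (S.l b) ≠ 0)
    (u v : Cub a) (h : u ≠ 0 ∨ v ≠ 0) :
    N u + b * N v ≠ 0 ∧ S.T (S.l a) (S.l b) (S.l (N u + b * N v)) = 0 := by
  have hl : S.l a ≠ 0 := by
    intro h0
    apply hT
    rw [h0]
    simp
  by_cases hv : v = 0
  · have hu : u ≠ 0 := h.resolve_right (not_not.mpr hv)
    obtain ⟨h1, h2⟩ := S.K1c a ha hl u hu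
    rw [hv, N_zero, mul_zero, add_zero]
    refine ⟨h1, ?_⟩
    rw [S.swap23, h2]
    simp
  obtain ⟨v1, v2⟩ := S.K1c a ha hl v hv
  have hbv : b * N v ≠ 0 := mul_ne_zero hb v1
  have e : S.T (S.l a) (S.l (b * N v)) = S.T (S.l a) (S.l b) := by
    rw [S.l_mul _ _ hb v1, map_add, v2, add_zero]
  by_cases hu : u = 0
  · rw [hu, N_zero, zero_add]
    refine ⟨hbv, ?_⟩
    rw [← e, S.self23]
  obtain ⟨u1, u2⟩ := S.K1c a ha hl u hu
  have hn : N u + b * N v ≠ 0 := by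
    intro h0
    have := S.l_eq_of_add_eq_zero _ _ u1 h0
    apply hT
    rw [← e, this, u2]
  refine ⟨hn, ?_⟩
  have h1 := S.rule23 _ _ u1 hbv hn (S.l a)
  rw [u2, S.swap23, map_sub, e, u2, sub_zero] at h1
  simpa using h1.symm

/-- Reduced norms from the symbol algebra are killed. -/
theorem K2 {o : F} (ho : o ^ 2 + o + 1 = 0) (a b : F) (ha : a ≠ 0) (hb : b ≠ 0)
    (hT : S.T (S.l a) (S.l b) ≠ 0) (u0 u1 u2 : Cub a) (h : u0 ≠ 0 ∨ u1 ≠ 0 ∨ u2 ≠ 0) :
    Nrd b o ho u0 u1 u2 ≠ 0 ∧ S.T (S.l a) (S.l b) (S.l (Nrd b o ho u0 u1 u2)) = 0 := by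
  by_cases h12 : u1 = 0 ∧ u2 = 0
  · have h0 : u0 ≠ 0 := by tauto
    have := S.bin2 a b ha hb hT u0 0 (Or.inl h0)
    rw [N_zero, mul_zero, add_zero] at this
    rw [h12.1, h12.2, Nrd_zero]
    exact this
  have h1 := S.bin2 a b ha hb hT u1 (-u2) (by rw [neg_ne_zero]; tauto)
  have id := Nrd_mul (o := o) (ho := ho) b u0 u1 u2
  have h2 := S.bin2 a b ha hb hT (u0 * sg a o ho u1 - c a b * (u2 * sg a o ho u2))
    (u1 * sg a o ho (sg a o ho u1) - u0 * sg a o ho (sg a o ho u2)) (by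
      by_contra hc
      push Not at hc
      exact h1.1 (N_deg b u0 u1 u2 hc.1 hc.2))
  have hn : Nrd b o ho u0 u1 u2 ≠ 0 := by
    intro h0
    rw [h0, zero_mul] at id
    exact h2.1 id.symm
  refine ⟨hn, ?_⟩
  have h3 := h2.2
  rw [← id, S.l_mul _ _ hn h1.1, map_add, h1.2, add_zero] at h3
  exact h3

end Sys

end Pool.Agent.Lib.MP_8363a4_al.H2
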