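import Mathlib
import Pool.Agent.Lib.MP_8363a4_al.H2Sys
import Pool.Agent.Lib.MP_8363a4_al.H2Tsen

/-!
Linear families of slots, and the rewriting moves on sums of degree three symbols.
-/

namespace Pool.Agent.Lib.MP_8363a4_al.H2

open Cub

section forms

variable {F : Type} [Field F]

abbrev E3 (F : Type) : Type := F × F × F
abbrev E9 (F : Type) : Type := E3 F × E3 F × E3 F

def cub (a : F) (p : E3 F) : Cub a := ⟨p.1, p.2.1, p.2.2⟩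

theorem cub_zero (a : F) : cub a 0 = 0 := rfl

theorem cub_ne (a : F) (p : E3 F) (h : p ≠ 0) : cub a p ≠ 0 := by
  intro h0
  apply h
  exact Prod.ext (congrArg Cub.x h0) (Prod.ext (congrArg Cub.y h0) (congrArg Cub.z h0))

def fN (a : F) (p : E3 F) : F := N (cub a p)

def fR {o : F} (ho : o ^ 2 + o + 1 = 0) (a b : F) (w : E9 F) : F :=
  Nrd b o ho (cub a w.1) (cub a w.2.1) (cub a w.2.2)

theorem isCub_fN (a : F) : IsCub (fN a) := by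
  let p : E3 F →ₗ[F] F := LinearMap.fst F F (F × F)
  let q : E3 F →ₗ[F] F := (LinearMap.fst F F F).comp (LinearMap.snd F F (F × F))
  let r : E3 F →ₗ[F] F := (LinearMap.snd F F F).comp (LinearMap.snd F F (F × F))
  have := (((IsCub.mul3 p p p).add ((IsCub.mul3 q q q).cmul a)).add
    ((IsCub.mul3 r r r).cmul (a ^ 2))).sub ((IsCub.mul3 p q r).cmul (3 * a))
  convert this using 1
  funext x
  simp only [fN, N, nrm, cub, p, q, r, LinearMap.comp_apply, LinearMap.fst_apply,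
    LinearMap.snd_apply]
  ring

theorem isCub_fR {o : F} (ho : o ^ 2 + o + 1 = 0) (a b : F) : IsCub (fR ho a b) := by
  let p : E3 F →ₗ[F] F := LinearMap.fst F F (F × F)
  let q : E3 F →ₗ[F] F := (LinearMap.fst F F F).comp (LinearMap.snd F F (F × F))
  let r : E3 F →ₗ[F] F := (LinearMap.snd F F F).comp (LinearMap.snd F F (F × F))
  let P : E9 F →ₗ[F] E3 F := LinearMap.fst F _ _
  let Q : E9 F →ₗ[F] E3 F := (LinearMap.fst F _ _).comp (LinearMap.snd F _ _)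
  let R : E9 F →ₗ[F] E3 F := (LinearMap.snd F _ _).comp (LinearMap.snd F _ _)
  have m := fun (u v w : E3 F →ₗ[F] F) (k : F) =>
    (IsCub.mul3 (u.comp P) (v.comp Q) (w.comp R)).cmul k
  have := ((((isCub_fN a).comp P).add (((isCub_fN a).comp Q).cmul b)).add
    (((isCub_fN a).comp R).cmul (b ^ 2))).sub
    ((((((((((m p p p 1).add (m p q r (a * o ^ 5))).add (m p r q (a * o ^ 4))).add
      (m q p r (a * o ^ 4))).add (m q q q (a * o ^ 3))).add (m q r p (a * o ^ 2))).add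
      (m r p q (a * o ^ 2))).add (m r q p (a * o))).add (m r r r (a ^ 2 * o ^ 6))).cmul (3 * b))
  convert this using 1
  funext x
  simp only [fR, Nrd, fN, Tr, cub, p, q, r, P, Q, R, LinearMap.comp_apply, LinearMap.fst_apply,
    LinearMap.snd_apply, mul_x, mul_y, mul_z, sg_x, sg_y, sg_z]
  ring

section comb

variable {W W' : Type} [AddCommGroup W] [Module F W] [AddCommGroup W'] [Module F W']

/-- A combination of two forms in disjoint variables. -/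
def join (a b : F) (f : W → F) (g : W' → F) (x : W × W') : F := a * f x.1 + b * g x.2

theorem IsCub.join (a b : F) {f : W → F} {g : W' → F} (hf : IsCub f) (hg : IsCub g) :
    IsCub (join a b f g) :=
  ((hf.comp (LinearMap.fst F W W')).cmul a).add ((hg.comp (LinearMap.snd F W W')).cmul b)

theorem isCub_cube : IsCub (fun x : F => x ^ 3) := by
  have := IsCub.mul3 (LinearMap.id : F →ₗ[F] F) LinearMap.id LinearMap.id
  convert this using 1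
  funext x
  simp only [LinearMap.id_apply]
  ring

theorem prod_ne {x : W × W'} (h : x ≠ 0) : x.1 ≠ 0 ∨ x.2 ≠ 0 := by
  by_contra hc
  push Not at hc
  exact h (Prod.ext hc.1 hc.2)

end comb

variable {o : F} (ho : o ^ 2 + o + 1 = 0)

def f12 (t a b : F) : E3 F × E9 F → F := join a b (fN t) (fR ho t a)

def f13 (t a b : F) : F × (E3 F × E9 F) → F := join t 1 (fun x => x ^ 3) (f12 ho t a b)

def f21 (t a1 b1 a2 b2 : F) : E9 F × (E3 F × E9 F) → F :=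
  join b1 a1 (fR ho t a1) (f12 ho t a2 b2)

def f22 (t a1 b1 a2 b2 : F) : F × (E9 F × (E3 F × E9 F)) → F :=
  join t 1 (fun x => x ^ 3) (f21 ho t a1 b1 a2 b2)

def f25 (t a b t' a' b' : F) : (F × (E3 F × E9 F)) × (E3 F × E9 F) → F :=
  join t' 1 (f13 ho t a b) (f12 ho t' a' b')

theorem isCub_f12 (t a b : F) : IsCub (f12 ho t a b) :=
  (isCub_fN t).join a b (isCub_fR ho t a)

theorem isCub_f13 (t a b : F) : IsCub (f13 ho t a b) :=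
  isCub_cube.join t 1 (isCub_f12 ho t a b)

theorem isCub_f21 (t a1 b1 a2 b2 : F) : IsCub (f21 ho t a1 b1 a2 b2) :=
  (isCub_fR ho t a1).join b1 a1 (isCub_f12 ho t a2 b2)

theorem isCub_f22 (t a1 b1 a2 b2 : F) : IsCub (f22 ho t a1 b1 a2 b2) :=
  isCub_cube.join t 1 (isCub_f21 ho t a1 b1 a2 b2)

theorem isCub_f25 (t a b t' a' b' : F) : IsCub (f25 ho t a b t' a' b') :=
  (isCub_f13 ho t a b).join t' 1 (isCub_f12 ho t' a' b')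

end forms

namespace Sys

variable {F V G : Type} [Field F] [AddCommGroup V] [AddCommGroup G] (S : Sys F V G)
  {o : F} (ho : o ^ 2 + o + 1 = 0)

theorem famN (t : F) (ht : t ≠ 0) (hl : S.l t ≠ 0) (p : E3 F) (hp : p ≠ 0) :
    fN t p ≠ 0 ∧ S.T (S.l t) (S.l (fN t p)) = 0 :=
  S.K1c t ht hl _ (cub_ne t p hp)

theorem famR (t a : F) (ht : t ≠ 0) (ha : a ≠ 0) (hT : S.T (S.l t) (S.l a) ≠ 0) (w : E9 F)
    (hw : w ≠ 0) : fR ho t a w ≠ 0 ∧ S.T (S.l t) (S.l a) (S.l (fR ho t a w)) = 0 := by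
  apply S.K2 ho t a ht ha hT
  rcases prod_ne (W := E3 F) (W' := E3 F × E3 F) hw with h | h
  · exact Or.inl (cub_ne _ _ h)
  · rcases prod_ne h with h | h
    · exact Or.inr (Or.inl (cub_ne _ _ h))
    · exact Or.inr (Or.inr (cub_ne _ _ h))

theorem fam12 (t a b : F) (ht : t ≠ 0) (ha : a ≠ 0) (hb : b ≠ 0)
    (h : S.T (S.l t) (S.l a) (S.l b) ≠ 0) (x : E3 F × E9 F) (hx : x ≠ 0) :
    f12 ho t a b x ≠ 0 ∧
      ∃ e, S.T (S.l t) (S.l a) (S.l b) = S.T (S.l t) (S.l (f12 ho t a b x)) e := by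
  have hT : S.T (S.l t) (S.l a) ≠ 0 := by
    intro h0
    apply h
    rw [h0]
    rfl
  have hl : S.l t ≠ 0 := by
    intro h0
    apply hT
    rw [h0]
    simp
  have eN : x.1 ≠ 0 → a * fN t x.1 ≠ 0 ∧
      S.T (S.l t) (S.l (a * fN t x.1)) = S.T (S.l t) (S.l a) := by
    intro h1
    obtain ⟨n1, n2⟩ := S.famN t ht hl x.1 h1
    refine ⟨mul_ne_zero ha n1, ?_⟩
    rw [S.l_mul _ _ ha n1, map_add, n2, add_zero]
  have eR : x.2 ≠ 0 → b * fR ho t a x.2 ≠ 0 ∧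
      S.T (S.l t) (S.l a) (S.l (b * fR ho t a x.2)) = S.T (S.l t) (S.l a) (S.l b) := by
    intro h1
    obtain ⟨n1, n2⟩ := S.famR ho t a ht ha hT x.2 h1
    refine ⟨mul_ne_zero hb n1, ?_⟩
    rw [S.l_mul _ _ hb n1, map_add, n2, add_zero]
  unfold f12 join
  by_cases h1 : x.1 = 0
  · have h2 : x.2 ≠ 0 := (prod_ne hx).resolve_left (not_not.mpr h1)
    obtain ⟨r1, r2⟩ := eR h2
    rw [h1, (isCub_fN t).zero, mul_zero, zero_add]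
    refine ⟨r1, -S.l a, ?_⟩
    rw [← r2, S.swap23, map_neg]
  obtain ⟨n1, n2⟩ := eN h1
  by_cases h2 : x.2 = 0
  · rw [h2, (isCub_fR ho t a).zero, mul_zero, add_zero]
    exact ⟨n1, S.l b, by rw [n2]⟩
  obtain ⟨r1, r2⟩ := eR h2
  have e : S.T (S.l t) (S.l a) (S.l b)
      = S.T (S.l t) (S.l (a * fN t x.1)) (S.l (b * fR ho t a x.2)) := by rw [n2, r2]
  have hs : a * fN t x.1 + b * fR ho t a x.2 ≠ 0 := by
    intro h0
    apply h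
    rw [e, S.l_eq_of_add_eq_zero _ _ n1 h0, S.self23]
  exact ⟨hs, _, by rw [e, S.rule23 _ _ n1 r1 hs]⟩

/-- From a second slot to a first slot. -/
theorem first_slot (t α v : F) (ht : t ≠ 0) (hα : α ≠ 0) (hv : v ≠ 0) (e : V)
    (h : S.T (S.l t) (S.l v) e ≠ 0) :
    t * α ^ 3 + v ≠ 0 ∧ ∃ e', S.T (S.l t) (S.l v) e = S.T (S.l (t * α ^ 3 + v)) e' e := by
  have h1 : t * α ^ 3 ≠ 0 := mul_ne_zero ht (pow_ne_zero 3 hα)
  have h2 := S.l_mul_cube t α ht hα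
  have hs : t * α ^ 3 + v ≠ 0 := by
    intro h0
    apply h
    rw [S.l_eq_of_add_eq_zero _ _ h1 h0, h2, S.self12']
  exact ⟨hs, _, by rw [← h2, S.rule12 _ _ h1 hv hs]⟩

theorem fam13 (t a b : F) (ht : t ≠ 0) (ha : a ≠ 0) (hb : b ≠ 0)
    (h : S.T (S.l t) (S.l a) (S.l b) ≠ 0) (x : F × (E3 F × E9 F)) (hx : x ≠ 0) :
    f13 ho t a b x ≠ 0 ∧
      ∃ e e', S.T (S.l t) (S.l a) (S.l b) = S.T (S.l (f13 ho t a b x)) e e' := by
  unfold f13 join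
  beta_reduce
  rw [one_mul]
  by_cases h2 : x.2 = 0
  · have h1 : x.1 ≠ 0 := (prod_ne hx).resolve_right (not_not.mpr h2)
    rw [h2, (isCub_f12 ho t a b).zero, add_zero, S.l_mul_cube t _ ht h1]
    exact ⟨mul_ne_zero ht (pow_ne_zero 3 h1), _, _, rfl⟩
  obtain ⟨n1, e, n2⟩ := S.fam12 ho t a b ht ha hb h x.2 h2
  by_cases h1 : x.1 = 0
  · rw [h1, zero_pow three_ne_zero, mul_zero, zero_add]
    refine ⟨n1, -S.l t, e, ?_⟩
    rw [n2, S.swap12, map_neg]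
    rfl
  obtain ⟨m1, e', m2⟩ := S.first_slot t x.1 _ ht h1 n1 e (by rw [← n2]; exact h)
  exact ⟨m1, e', e, by rw [n2, m2]⟩

/-- The chain identity for two symbols with a common slot. -/
theorem chain_common (u : V) (a s1 s2 : F) (ha : a ≠ 0) (h1 : s1 ≠ 0) (h2 : s2 ≠ 0) (e : V)
    (hs : s1 + a * s2 ≠ 0) :
    ∃ e1 v w, S.T u (S.l a) (S.l s1) + S.T u (S.l s2) e
      = S.T u (S.l (s1 + a * s2)) e1 + S.T u v w := by
  have h := S.sum23 s1 (a * s2) h1 (mul_ne_zero ha h2) hs u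
  rw [S.l_mul a s2 ha h2] at h
  refine ⟨e - S.l a, S.l (s1 + a * s2) - S.l s2, S.l s1 - S.l (s1 + a * s2) - e, ?_⟩
  set A := S.l a
  set x := S.l s1
  set y := S.l s2
  set s := S.l (s1 + a * s2)
  simp only [map_sub, map_add, AddMonoidHom.sub_apply, S.self23] at h ⊢
  rw [S.swap23 u x A, S.swap23 u x y, S.swap23 u x s, S.swap23 u s y] at h
  rw [S.swap23 u y s]
  rw [S.swap23 u y s] at h
  linear_combination (norm := abel) -h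

theorem fam21 (t a1 b1 a2 b2 : F) (ht : t ≠ 0) (ha1 : a1 ≠ 0) (hb1 : b1 ≠ 0) (ha2 : a2 ≠ 0)
    (hb2 : b2 ≠ 0)
    (h : ¬ ∃ v w, S.T (S.l t) (S.l a1) (S.l b1) + S.T (S.l t) (S.l a2) (S.l b2) = S.T (S.l t) v w)
    (x : E9 F × (E3 F × E9 F)) (hx : x ≠ 0) :
    f21 ho t a1 b1 a2 b2 x ≠ 0 ∧
      ∃ e v w, S.T (S.l t) (S.l a1) (S.l b1) + S.T (S.l t) (S.l a2) (S.l b2)
        = S.T (S.l t) (S.l (f21 ho t a1 b1 a2 b2 x)) e + S.T (S.l t) v w := by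
  have hS1 : S.T (S.l t) (S.l a1) (S.l b1) ≠ 0 := fun h0 =>
    h ⟨S.l a2, S.l b2, by rw [h0, zero_add]⟩
  have hS2 : S.T (S.l t) (S.l a2) (S.l b2) ≠ 0 := fun h0 =>
    h ⟨S.l a1, S.l b1, by rw [h0, add_zero]⟩
  have hT : S.T (S.l t) (S.l a1) ≠ 0 := by
    intro h0
    apply hS1
    rw [h0]
    rfl
  have eR : x.1 ≠ 0 → b1 * fR ho t a1 x.1 ≠ 0 ∧
      S.T (S.l t) (S.l a1) (S.l (b1 * fR ho t a1 x.1)) = S.T (S.l t) (S.l a1) (S.l b1) := by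
    intro h1
    obtain ⟨n1, n2⟩ := S.famR ho t a1 ht ha1 hT x.1 h1
    refine ⟨mul_ne_zero hb1 n1, ?_⟩
    rw [S.l_mul _ _ hb1 n1, map_add, n2, add_zero]
  unfold f21 join
  by_cases h2 : x.2 = 0
  · have h1 : x.1 ≠ 0 := (prod_ne hx).resolve_right (not_not.mpr h2)
    obtain ⟨r1, r2⟩ := eR h1
    rw [h2, (isCub_f12 ho t a2 b2).zero, mul_zero, add_zero]
    refine ⟨r1, -S.l a1, S.l a2, S.l b2, ?_⟩
    rw [← r2, S.swap23, map_neg]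
  obtain ⟨n1, e, n2⟩ := S.fam12 ho t a2 b2 ht ha2 hb2 hS2 x.2 h2
  by_cases h1 : x.1 = 0
  · rw [h1, (isCub_fR ho t a1).zero, mul_zero, zero_add]
    refine ⟨mul_ne_zero ha1 n1, e, S.l a1, S.l b1 - e, ?_⟩
    rw [n2, S.l_mul _ _ ha1 n1]
    simp only [map_sub, map_add, AddMonoidHom.add_apply]
    abel
  obtain ⟨r1, r2⟩ := eR h1
  have hs : b1 * fR ho t a1 x.1 + a1 * f12 ho t a2 b2 x.2 ≠ 0 := by
    intro h0
    apply h
    have := S.l_eq_of_add_eq_zero _ _ r1 h0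
    refine ⟨S.l (f12 ho t a2 b2 x.2), e - S.l a1, ?_⟩
    rw [← r2, ← this, S.l_mul _ _ ha1 n1, n2, map_add, S.self23, zero_add, map_sub,
      S.swap23 _ (S.l a1)]
    abel
  refine ⟨hs, ?_⟩
  rw [← r2, n2]
  exact S.chain_common _ a1 _ _ ha1 r1 n1 e hs

/-- `ξ` is a symbol. -/
def sym (ξ : G) : Prop := ∃ u v w, ξ = S.T u v w

/-- `ξ` is a sum of two symbols with a common slot. -/
def pair (ξ : G) : Prop := ∃ t v1 w1 v2 w2, ξ = S.T t v1 w1 + S.T t v2 w2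

theorem sym_zero : S.sym 0 := ⟨0, 0, 0, by simp⟩

theorem sym.pair {S : Sys F V G} {ξ : G} (h : S.sym ξ) : S.pair ξ := by
  obtain ⟨u, v, w, rfl⟩ := h
  exact ⟨u, v, w, 0, 0, by simp⟩

theorem sym.units {S : Sys F V G} {ξ : G} (h : S.sym ξ) :
    ∃ t a b : F, t ≠ 0 ∧ a ≠ 0 ∧ b ≠ 0 ∧ ξ = S.T (S.l t) (S.l a) (S.l b) := by
  obtain ⟨u, v, w, rfl⟩ := h
  obtain ⟨t, ht, rfl⟩ := S.surj u
  obtain ⟨a, ha, rfl⟩ := S.surj v
  obtain ⟨b, hb, rfl⟩ := S.surj w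
  exact ⟨t, a, b, ht, ha, hb, rfl⟩

theorem pair.units {S : Sys F V G} {ξ : G} (h : S.pair ξ) :
    ∃ t a1 b1 a2 b2 : F, t ≠ 0 ∧ a1 ≠ 0 ∧ b1 ≠ 0 ∧ a2 ≠ 0 ∧ b2 ≠ 0 ∧
      ξ = S.T (S.l t) (S.l a1) (S.l b1) + S.T (S.l t) (S.l a2) (S.l b2) := by
  obtain ⟨u, v, w, v', w', rfl⟩ := h
  obtain ⟨t, ht, rfl⟩ := S.surj u
  obtain ⟨a, ha, rfl⟩ := S.surj v
  obtain ⟨b, hb, rfl⟩ := S.surj w
  obtain ⟨a', ha', rfl⟩ := S.surj v'
  obtain ⟨b', hb', rfl⟩ := S.surj w'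
  exact ⟨t, a, b, a', b', ht, ha, hb, ha', hb', rfl⟩

theorem pair.split {S : Sys F V G} {ξ : G} (h : S.pair ξ) :
    ∃ ξ1 ξ2, S.sym ξ1 ∧ S.sym ξ2 ∧ ξ = ξ1 + ξ2 := by
  obtain ⟨u, v, w, v', w', rfl⟩ := h
  exact ⟨_, _, ⟨_, _, _, rfl⟩, ⟨_, _, _, rfl⟩, rfl⟩

theorem fam22 (t a1 b1 a2 b2 : F) (ht : t ≠ 0) (ha1 : a1 ≠ 0) (hb1 : b1 ≠ 0) (ha2 : a2 ≠ 0)
    (hb2 : b2 ≠ 0)
    (h : ¬ S.sym (S.T (S.l t) (S.l a1) (S.l b1) + S.T (S.l t) (S.l a2) (S.l b2)))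
    (x : F × (E9 F × (E3 F × E9 F))) (hx : x ≠ 0) :
    f22 ho t a1 b1 a2 b2 x ≠ 0 ∧
      ∃ e e' R, S.sym R ∧ S.T (S.l t) (S.l a1) (S.l b1) + S.T (S.l t) (S.l a2) (S.l b2)
        = S.T (S.l (f22 ho t a1 b1 a2 b2 x)) e e' + R := by
  unfold f22 join
  beta_reduce
  rw [one_mul]
  by_cases h2 : x.2 = 0
  · have h1 : x.1 ≠ 0 := (prod_ne hx).resolve_right (not_not.mpr h2)
    rw [h2, (isCub_f21 ho t a1 b1 a2 b2).zero, add_zero, S.l_mul_cube t _ ht h1]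
    exact ⟨mul_ne_zero ht (pow_ne_zero 3 h1), _, _, _, ⟨_, _, _, rfl⟩, rfl⟩
  obtain ⟨n1, e, v, w, n2⟩ := S.fam21 ho t a1 b1 a2 b2 ht ha1 hb1 ha2 hb2
    (fun ⟨v, w, hh⟩ => h ⟨_, v, w, hh⟩) x.2 h2
  by_cases h1 : x.1 = 0
  · rw [h1, zero_pow three_ne_zero, mul_zero, zero_add]
    refine ⟨n1, -S.l t, e, _, ⟨S.l t, v, w, rfl⟩, ?_⟩
    rw [n2, S.swap12, map_neg]
    rfl
  obtain ⟨m1, e', m2⟩ := S.first_slot t x.1 _ ht h1 n1 e (by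
    intro h0
    exact h ⟨_, v, w, by rw [n2, h0, zero_add]⟩)
  exact ⟨m1, e', e, _, ⟨_, v, w, rfl⟩, by rw [n2, m2]⟩

/-- The chain identity for two symbols without a common slot. -/
theorem chain_free (a σ v : F) (ha : a ≠ 0) (hσ : σ ≠ 0) (hv : v ≠ 0) (x1 x2 e : V)
    (hs : a * σ + v ≠ 0) :
    ∃ R, S.pair R ∧ S.T (S.l σ) x1 x2 + S.T (S.l a) (S.l v) e
      = S.T (S.l (a * σ + v)) x1 x2 + S.T (S.l (a * σ + v)) (-S.l a) e + R := by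
  have h := S.sum12 (a * σ) v (mul_ne_zero ha hσ) hv hs e
  rw [S.l_mul a σ ha hσ] at h
  refine ⟨_, ⟨S.l σ - S.l (a * σ + v), x1, x2, S.l (a * σ + v) - S.l v, e, rfl⟩, ?_⟩
  set A := S.l a
  set x := S.l σ
  set y := S.l v
  set s := S.l (a * σ + v)
  simp only [map_sub, map_add, map_neg, AddMonoidHom.sub_apply, AddMonoidHom.add_apply,
    AddMonoidHom.neg_apply, S.self12'] at h ⊢
  rw [S.swap12 s A]
  linear_combination (norm := abel) h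

theorem fam25 (t a b t' a' b' : F) (ht : t ≠ 0) (ha : a ≠ 0) (hb : b ≠ 0) (ht' : t' ≠ 0)
    (ha' : a' ≠ 0) (hb' : b' ≠ 0)
    (h : ¬ S.pair (S.T (S.l t) (S.l a) (S.l b) + S.T (S.l t') (S.l a') (S.l b')))
    (x : (F × (E3 F × E9 F)) × (E3 F × E9 F)) (hx : x ≠ 0) :
    f25 ho t a b t' a' b' x ≠ 0 ∧
      ∃ e1 e2 e3 e4 R, S.pair R ∧ S.T (S.l t) (S.l a) (S.l b) + S.T (S.l t') (S.l a') (S.l b')
        = S.T (S.l (f25 ho t a b t' a' b' x)) e1 e2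
          + S.T (S.l (f25 ho t a b t' a' b' x)) e3 e4 + R := by
  have hS1 : S.T (S.l t) (S.l a) (S.l b) ≠ 0 := fun h0 =>
    h (sym.pair ⟨S.l t', S.l a', S.l b', by rw [h0, zero_add]⟩)
  have hS2 : S.T (S.l t') (S.l a') (S.l b') ≠ 0 := fun h0 =>
    h (sym.pair ⟨S.l t, S.l a, S.l b, by rw [h0, add_zero]⟩)
  unfold f25 join
  rw [one_mul]
  by_cases h1 : x.1 = 0
  · have h2 : x.2 ≠ 0 := (prod_ne hx).resolve_left (not_not.mpr h1)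
    obtain ⟨n1, e, n2⟩ := S.fam12 ho t' a' b' ht' ha' hb' hS2 x.2 h2
    rw [h1, (isCub_f13 ho t a b).zero, mul_zero, zero_add]
    refine ⟨n1, -S.l t', e, 0, 0, _, sym.pair ⟨S.l t, S.l a, S.l b, rfl⟩, ?_⟩
    rw [n2, S.swap12 (S.l t')]
    simp only [map_neg, map_zero, AddMonoidHom.neg_apply]
    abel
  obtain ⟨m1, x1, x2, m2⟩ := S.fam13 ho t a b ht ha hb hS1 x.1 h1
  by_cases h2 : x.2 = 0
  · rw [h2, (isCub_f12 ho t' a' b').zero, add_zero]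
    refine ⟨mul_ne_zero ht' m1, x1, x2, 0, 0, _, ⟨S.l t', -x1, x2, S.l a', S.l b', rfl⟩, ?_⟩
    rw [m2, S.l_mul _ _ ht' m1]
    simp only [map_neg, map_zero, map_add, AddMonoidHom.neg_apply, AddMonoidHom.add_apply]
    abel
  obtain ⟨n1, e, n2⟩ := S.fam12 ho t' a' b' ht' ha' hb' hS2 x.2 h2
  have hs : t' * f13 ho t a b x.1 + f12 ho t' a' b' x.2 ≠ 0 := by
    intro h0
    apply h
    have := S.l_eq_of_add_eq_zero _ _ (mul_ne_zero ht' m1) h0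
    refine ⟨S.l (f13 ho t a b x.1), x1, x2, -S.l t', e, ?_⟩
    rw [m2, n2, this, S.l_mul _ _ ht' m1, map_add, S.self12, zero_add, S.swap12 (S.l t')]
    simp only [map_neg, AddMonoidHom.neg_apply]
  obtain ⟨R, hR, hh⟩ := S.chain_free t' _ _ ht' m1 n1 x1 x2 e hs
  exact ⟨hs, x1, x2, -S.l t', e, R, hR, by rw [m2, n2, hh]⟩

include ho

/-- Three symbols with a common slot are a sum of two symbols with that slot. -/
theorem three_two (hF : C3 F) (u v1 w1 v2 w2 v3 w3 : V) :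
    ∃ x1 y1 x2 y2, S.T u v1 w1 + S.T u v2 w2 + S.T u v3 w3 = S.T u x1 y1 + S.T u x2 y2 := by
  obtain ⟨t, ht, rfl⟩ := S.surj u
  obtain ⟨a1, ha1, rfl⟩ := S.surj v1
  obtain ⟨b1, hb1, rfl⟩ := S.surj w1
  obtain ⟨a2, ha2, rfl⟩ := S.surj v2
  obtain ⟨b2, hb2, rfl⟩ := S.surj w2
  obtain ⟨a3, ha3, rfl⟩ := S.surj v3
  obtain ⟨b3, hb3, rfl⟩ := S.surj w3
  by_cases hP : ∃ v w, S.T (S.l t) (S.l a1) (S.l b1) + S.T (S.l t) (S.l a2) (S.l b2)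
      = S.T (S.l t) v w
  · obtain ⟨v, w, hP⟩ := hP
    exact ⟨v, w, _, _, by rw [hP]⟩
  by_cases h3 : S.T (S.l t) (S.l a3) (S.l b3) = 0
  · exact ⟨S.l a1, S.l b1, S.l a2, S.l b2, by rw [h3, add_zero]⟩
  obtain ⟨x1, x2, hx, he⟩ := common2 hF (isCub_f21 ho t a1 b1 a2 b2) (isCub_f12 ho t a3 b3)
    (by simp [Module.finrank_prod])
  have k1 := S.fam21 ho t a1 b1 a2 b2 ht ha1 hb1 ha2 hb2 hP x1
  have k2 := S.fam12 ho t a3 b3 ht ha3 hb3 h3 x2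
  have hx1 : x1 ≠ 0 := by
    rintro rfl
    rw [(isCub_f21 ho t a1 b1 a2 b2).zero] at he
    exact (k2 (by simpa using hx)).1 he.symm
  obtain ⟨n1, e, v, w, n2⟩ := k1 hx1
  have hx2 : x2 ≠ 0 := by
    rintro rfl
    rw [(isCub_f12 ho t a3 b3).zero] at he
    exact n1 he
  obtain ⟨-, e', m2⟩ := k2 hx2
  refine ⟨S.l (f21 ho t a1 b1 a2 b2 x1), e + e', v, w, ?_⟩
  rw [n2, m2, ← he, map_add]
  abel

theorem pair3 (hF : C3 F) (u v1 w1 v2 w2 v3 w3 : V) :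
    S.pair (S.T u v1 w1 + S.T u v2 w2 + S.T u v3 w3) := by
  obtain ⟨x1, y1, x2, y2, h⟩ := S.three_two ho hF u v1 w1 v2 w2 v3 w3
  exact ⟨u, x1, y1, x2, y2, h⟩

theorem pair4 (hF : C3 F) (u v1 w1 v2 w2 v3 w3 v4 w4 : V) :
    S.pair (S.T u v1 w1 + S.T u v2 w2 + S.T u v3 w3 + S.T u v4 w4) := by
  obtain ⟨x1, y1, x2, y2, h⟩ := S.three_two ho hF u v1 w1 v2 w2 v3 w3
  rw [h]
  exact S.pair3 ho hF u _ _ _ _ _ _

/-- Three symbols are a sum of two pairs. -/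
theorem moveC (hF : C3 F) {ξ1 ξ2 ξ3 : G} (h1 : S.sym ξ1) (h2 : S.sym ξ2) (h3 : S.sym ξ3) :
    ∃ P Q, S.pair P ∧ S.pair Q ∧ ξ1 + ξ2 + ξ3 = P + Q := by
  by_cases hP : S.pair (ξ1 + ξ2)
  · exact ⟨_, _, hP, h3.pair, rfl⟩
  by_cases h0 : ξ3 = 0
  · exact ⟨_, _, h1.pair, h2.pair, by rw [h0, add_zero]⟩
  obtain ⟨t, a, b, ht, ha, hb, rfl⟩ := h1.units
  obtain ⟨t', a', b', ht', ha', hb', rfl⟩ := h2.units
  obtain ⟨t3, a3, b3, ht3, ha3, hb3, rfl⟩ := h3.units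
  obtain ⟨x1, x2, hx, he⟩ := common2 hF (isCub_f25 ho t a b t' a' b') (isCub_f13 ho t3 a3 b3)
    (by simp [Module.finrank_prod])
  have k1 := S.fam25 ho t a b t' a' b' ht ha hb ht' ha' hb' hP x1
  have k2 := S.fam13 ho t3 a3 b3 ht3 ha3 hb3 h0 x2
  have hx1 : x1 ≠ 0 := by
    rintro rfl
    rw [(isCub_f25 ho t a b t' a' b').zero] at he
    exact (k2 (by simpa using hx)).1 he.symm
  obtain ⟨n1, e1, e2, e3, e4, R, hR, n2⟩ := k1 hx1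
  have hx2 : x2 ≠ 0 := by
    rintro rfl
    rw [(isCub_f13 ho t3 a3 b3).zero] at he
    exact n1 he
  obtain ⟨-, e, e', m2⟩ := k2 hx2
  refine ⟨_, R, S.pair3 ho hF (S.l (f25 ho t a b t' a' b' x1)) e1 e2 e3 e4 e e', hR, ?_⟩
  rw [n2, m2, ← he]
  abel

omit ho in
theorem nonzero3 {W1 W2 W3 : Type} [AddCommGroup W1] [Module F W1] [AddCommGroup W2]
    [Module F W2] [AddCommGroup W3] [Module F W3] {f1 : W1 → F} {f2 : W2 → F} {f3 : W3 → F}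
    (c1 : IsCub f1) (c2 : IsCub f2) (c3 : IsCub f3) {x1 : W1} {x2 : W2} {x3 : W3}
    (hx : x1 ≠ 0 ∨ x2 ≠ 0 ∨ x3 ≠ 0) (e2 : f1 x1 = f2 x2) (e3 : f1 x1 = f3 x3)
    (k1 : x1 ≠ 0 → f1 x1 ≠ 0) (k2 : x2 ≠ 0 → f2 x2 ≠ 0) (k3 : x3 ≠ 0 → f3 x3 ≠ 0) :
    x1 ≠ 0 ∧ x2 ≠ 0 ∧ x3 ≠ 0 := by
  have h : f1 x1 ≠ 0 := by
    rcases hx with h | h | h
    · exact k1 h
    · rw [e2]; exact k2 h
    · rw [e3]; exact k3 h
  refine ⟨?_, ?_, ?_⟩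
  · rintro rfl; exact h c1.zero
  · rintro rfl; exact h (e2.trans c2.zero)
  · rintro rfl; exact h (e3.trans c3.zero)

/-- A symbol and two pairs are a sum of two symbols and a pair. -/
theorem moveA (hF : C3 F) {ξ P Q : G} (h : S.sym ξ) (hP : S.pair P) (hQ : S.pair Q) :
    ∃ ξ1 ξ2 R, S.sym ξ1 ∧ S.sym ξ2 ∧ S.pair R ∧ ξ + P + Q = ξ1 + ξ2 + R := by
  by_cases h0 : ξ = 0
  · obtain ⟨ξ1, ξ2, h1, h2, rfl⟩ := hP.split
    exact ⟨ξ1, ξ2, Q, h1, h2, hQ, by rw [h0, zero_add]⟩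
  by_cases sP : S.sym P
  · exact ⟨ξ, P, Q, h, sP, hQ, rfl⟩
  by_cases sQ : S.sym Q
  · exact ⟨ξ, Q, P, h, sQ, hP, by abel⟩
  obtain ⟨t, a, b, ht, ha, hb, rfl⟩ := h.units
  obtain ⟨p, a1, b1, a2, b2, hp, ha1, hb1, ha2, hb2, rfl⟩ := hP.units
  obtain ⟨q, a3, b3, a4, b4, hq, ha3, hb3, ha4, hb4, rfl⟩ := hQ.units
  obtain ⟨x1, x2, x3, hx, e2, e3⟩ := common3 hF (isCub_f13 ho t a b)
    (isCub_f22 ho p a1 b1 a2 b2) (isCub_f22 ho q a3 b3 a4 b4) (by simp [Module.finrank_prod])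
  have k1 := S.fam13 ho t a b ht ha hb h0 x1
  have k2 := S.fam22 ho p a1 b1 a2 b2 hp ha1 hb1 ha2 hb2 sP x2
  have k3 := S.fam22 ho q a3 b3 a4 b4 hq ha3 hb3 ha4 hb4 sQ x3
  obtain ⟨hx1, hx2, hx3⟩ := nonzero3 (isCub_f13 ho t a b) (isCub_f22 ho p a1 b1 a2 b2)
    (isCub_f22 ho q a3 b3 a4 b4) hx e2 e3 (fun h => (k1 h).1) (fun h => (k2 h).1)
    (fun h => (k3 h).1)
  obtain ⟨-, u1, v1, n1⟩ := k1 hx1
  obtain ⟨-, u2, v2, R2, hR2, n2⟩ := k2 hx2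
  obtain ⟨-, u3, v3, R3, hR3, n3⟩ := k3 hx3
  refine ⟨R2, R3, _, hR2, hR3, S.pair3 ho hF (S.l (f13 ho t a b x1)) u1 v1 u2 v2 u3 v3, ?_⟩
  rw [n1, n2, n3, ← e2, ← e3]
  abel

omit ho in
/-- `ξ` is a sum of four symbols. -/
def len4 (ξ : G) : Prop :=
  ∃ ξ1 ξ2 ξ3 ξ4, S.sym ξ1 ∧ S.sym ξ2 ∧ S.sym ξ3 ∧ S.sym ξ4 ∧ ξ = ξ1 + ξ2 + ξ3 + ξ4

theorem len4_of_spp (hF : C3 F) {ξ P Q : G} (h : S.sym ξ) (hP : S.pair P) (hQ : S.pair Q) :
    S.len4 (ξ + P + Q) := by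
  obtain ⟨ξ1, ξ2, R, h1, h2, hR, e⟩ := S.moveA ho hF h hP hQ
  obtain ⟨ξ3, ξ4, h3, h4, rfl⟩ := hR.split
  exact ⟨ξ1, ξ2, ξ3, ξ4, h1, h2, h3, h4, by rw [e]; abel⟩

/-- Three symbols and a pair are a sum of four symbols. -/
theorem moveB (hF : C3 F) {ξ1 ξ2 ξ3 P : G} (h1 : S.sym ξ1) (h2 : S.sym ξ2) (h3 : S.sym ξ3)
    (hP : S.pair P) : S.len4 (ξ1 + ξ2 + ξ3 + P) := by
  by_cases h0 : ξ3 = 0
  · obtain ⟨ξ3', ξ4, h3', h4, rfl⟩ := hP.split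
    exact ⟨ξ1, ξ2, ξ3', ξ4, h1, h2, h3', h4, by rw [h0]; abel⟩
  by_cases sP : S.sym P
  · exact ⟨ξ1, ξ2, ξ3, P, h1, h2, h3, sP, rfl⟩
  by_cases p12 : S.pair (ξ1 + ξ2)
  · have := S.len4_of_spp ho hF h3 p12 hP
    convert this using 1
    abel
  obtain ⟨t, a, b, ht, ha, hb, rfl⟩ := h1.units
  obtain ⟨t', a', b', ht', ha', hb', rfl⟩ := h2.units
  obtain ⟨t3, a3, b3, ht3, ha3, hb3, rfl⟩ := h3.units
  obtain ⟨p, a1, b1, a2, b2, hp, ha1, hb1, ha2, hb2, rfl⟩ := hP.units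
  obtain ⟨x1, x2, x3, hx, e2, e3⟩ := common3 hF (isCub_f13 ho t3 a3 b3)
    (isCub_f22 ho p a1 b1 a2 b2) (isCub_f25 ho t a b t' a' b') (by simp [Module.finrank_prod])
  have k1 := S.fam13 ho t3 a3 b3 ht3 ha3 hb3 h0 x1
  have k2 := S.fam22 ho p a1 b1 a2 b2 hp ha1 hb1 ha2 hb2 sP x2
  have k3 := S.fam25 ho t a b t' a' b' ht ha hb ht' ha' hb' p12 x3
  obtain ⟨hx1, hx2, hx3⟩ := nonzero3 (isCub_f13 ho t3 a3 b3) (isCub_f22 ho p a1 b1 a2 b2)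
    (isCub_f25 ho t a b t' a' b') hx e2 e3 (fun h => (k1 h).1) (fun h => (k2 h).1)
    (fun h => (k3 h).1)
  obtain ⟨-, u1, v1, n1⟩ := k1 hx1
  obtain ⟨-, u2, v2, R2, hR2, n2⟩ := k2 hx2
  obtain ⟨-, u3, v3, u4, v4, R3, hR3, n3⟩ := k3 hx3
  have := S.len4_of_spp ho hF hR2 hR3
    (S.pair4 ho hF (S.l (f13 ho t3 a3 b3 x1)) u1 v1 u2 v2 u3 v3 u4 v4)
  convert this using 1
  rw [n1, n2, n3, ← e2, ← e3]
  abel

theorem len4_add_sym (hF : C3 F) {ξ η : G} (h : S.len4 ξ) (hη : S.sym η) : S.len4 (ξ + η) := by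
  obtain ⟨ξ1, ξ2, ξ3, ξ4, h1, h2, h3, h4, rfl⟩ := h
  obtain ⟨P, Q, hP, hQ, e⟩ := S.moveC ho hF h1 h2 h3
  obtain ⟨η1, η2, R, k1, k2, hR, e'⟩ := S.moveA ho hF h4 hP hQ
  have := S.moveB ho hF k1 k2 hη hR
  convert this using 1
  rw [e]
  linear_combination (norm := abel) e'

theorem len4_add (hF : C3 F) {ξ η : G} (h : S.len4 ξ) (hη : S.len4 η) : S.len4 (ξ + η) := by
  obtain ⟨ξ1, ξ2, ξ3, ξ4, h1, h2, h3, h4, rfl⟩ := hη
  have := S.len4_add_sym ho hF (S.len4_add_sym ho hF (S.len4_add_sym ho hF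
    (S.len4_add_sym ho hF h h1) h2) h3) h4
  convert this using 1
  abel

omit ho in
theorem sym.len4 {S : Sys F V G} {ξ : G} (h : S.sym ξ) : S.len4 ξ :=
  ⟨ξ, 0, 0, 0, h, S.sym_zero, S.sym_zero, S.sym_zero, by abel⟩

end Sys

end Pool.Agent.Lib.MP_8363a4_al.H2
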