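import Mathlib
import Pool.Agent.Lib.MP_8363a4_al.Defs
import Pool.Agent.Lib.MP_8363a4_al.H2Moves

/-!
The abstract system attached to `K^M_3(F)/3`.
-/

namespace Pool.Agent.Lib.MP_8363a4_al.H2

open Pool.Agent.Lib.MP_8363a4_al

/-- Multiples of three. -/
def thr (A : Type) [AddCommGroup A] : AddSubgroup A :=
  (AddMonoidHom.id A + AddMonoidHom.id A + AddMonoidHom.id A).range

/-- Maps into a group of exponent three factor through the quotient by multiples of three. -/
def lift3 {A H : Type} [AddCommGroup A] [AddCommGroup H] (hH : ∀ h : H, h + h + h = 0) :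
    (A →+ H) →+ (A ⧸ thr A →+ H) :=
  AddMonoidHom.mk' (fun f => QuotientAddGroup.lift (thr A) f (by
    rintro x ⟨y, rfl⟩
    simp only [AddMonoidHom.add_apply, AddMonoidHom.id_apply, AddMonoidHom.mem_ker, map_add]
    exact hH _)) (by
    intro f g
    ext x
    rfl)

theorem lift3_mk {A H : Type} [AddCommGroup A] [AddCommGroup H] (hH : ∀ h : H, h + h + h = 0)
    (f : A →+ H) (a : A) : lift3 hH f (QuotientAddGroup.mk a) = f a := rfl

theorem hom_three {V H : Type} [AddCommGroup V] [AddCommGroup H] (hH : ∀ h : H, h + h + h = 0)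
    (f : V →+ H) : f + f + f = 0 := by
  ext v
  exact hH _

variable (F : Type) [Field F]

theorem km_three (g : KMmod F 3 3) : g + g + g = 0 := by
  obtain ⟨x, rfl⟩ := (multiples F 3 3).mkQ_surjective g
  rw [← map_add, ← map_add, Submodule.mkQ_apply, Submodule.Quotient.mk_eq_zero]
  refine ⟨x, ?_⟩
  simp only [LinearMap.smul_apply, LinearMap.id_apply]
  push_cast
  abel

/-- The symbol as a multilinear map. -/
noncomputable def ml : MultilinearMap ℤ (fun _ : Fin 3 => Additive Fˣ) (KMmod F 3 3) :=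
  ((multiples F 3 3).mkQ.comp (steinberg F 3).mkQ).compMultilinearMap (PiTensorProduct.tprod ℤ)

theorem ml_eq (a : Fin 3 → Fˣ) : ml F (fun i => Additive.ofMul (a i)) = symbol 3 a := rfl

theorem upd0 {A : Type} (u v w x : A) : Function.update ![u, v, w] 0 x = ![x, v, w] := by
  funext i; fin_cases i <;> rfl

theorem upd1 {A : Type} (u v w x : A) : Function.update ![u, v, w] 1 x = ![u, x, w] := by
  funext i; fin_cases i <;> rfl

theorem upd2 {A : Type} (u v w x : A) : Function.update ![u, v, w] 2 x = ![u, v, x] := by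
  funext i; fin_cases i <;> rfl

/-- The symbol as a tri-additive map. -/
noncomputable def T0 : Additive Fˣ →+ Additive Fˣ →+ Additive Fˣ →+ KMmod F 3 3 :=
  AddMonoidHom.mk' (fun u => AddMonoidHom.mk' (fun v => AddMonoidHom.mk' (fun w => ml F ![u, v, w])
    (by
      intro w w'
      have := (ml F).map_update_add ![u, v, w] 2 w w'
      simpa only [upd2] using this))
    (by
      intro v v'
      refine AddMonoidHom.ext fun w => ?_
      have := (ml F).map_update_add ![u, v, w] 1 v v'
      simp only [upd1] at this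
      exact this))
    (by
      intro u u'
      refine AddMonoidHom.ext fun v => AddMonoidHom.ext fun w => ?_
      have := (ml F).map_update_add ![u, v, w] 0 u u'
      simp only [upd0] at this
      exact this)

theorem T0_apply (u v w : Additive Fˣ) : T0 F u v w = ml F ![u, v, w] := rfl

theorem T0_symbol (a b c : Fˣ) :
    T0 F (Additive.ofMul a) (Additive.ofMul b) (Additive.ofMul c) = symbol 3 ![a, b, c] := by
  rw [T0_apply, ← ml_eq]
  refine congrArg (ml F) ?_
  funext i
  fin_cases i <;> rfl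

theorem symbol_st (a : Fin 3 → Fˣ) (i j : Fin 3) (hij : i ≠ j) (h : (a i : F) + (a j : F) = 1) :
    symbol 3 a = 0 := by
  have : (steinberg F 3).mkQ (pure a) = 0 := by
    rw [Submodule.mkQ_apply, Submodule.Quotient.mk_eq_zero]
    exact Submodule.subset_span ⟨a, ⟨i, j, hij, h⟩, rfl⟩
  rw [symbol, this, map_zero]

abbrev VV : Type := Additive Fˣ ⧸ thr (Additive Fˣ)

/-- The symbol on classes modulo cubes. -/
noncomputable def T1 : VV F →+ VV F →+ VV F →+ KMmod F 3 3 :=
  lift3 (hom_three (hom_three (km_three F)))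
    (((lift3 (hom_three (km_three F))).comp
      (AddMonoidHom.compHom (lift3 (km_three F)))).comp (T0 F))

theorem T1_mk (u v w : Additive Fˣ) :
    T1 F (QuotientAddGroup.mk u) (QuotientAddGroup.mk v) (QuotientAddGroup.mk w) = T0 F u v w :=
  rfl

open Classical in
/-- The class of a field element modulo cubes. -/
noncomputable def lg (a : F) : VV F :=
  if h : a = 0 then 0 else QuotientAddGroup.mk (Additive.ofMul (Units.mk0 a h))

theorem lg_ne (a : F) (h : a ≠ 0) :
    lg F a = QuotientAddGroup.mk (Additive.ofMul (Units.mk0 a h)) := by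
  rw [lg, dif_neg h]

theorem lg_unit (a : Fˣ) : lg F a = QuotientAddGroup.mk (Additive.ofMul a) := by
  rw [lg_ne F _ a.ne_zero, Units.mk0_val]

/-- The system. -/
noncomputable def sys : Sys F (VV F) (KMmod F 3 3) where
  l := lg F
  T := T1 F
  l_mul a b ha hb := by
    rw [lg_ne F a ha, lg_ne F b hb, lg_ne F _ (mul_ne_zero ha hb), Units.mk0_mul, ofMul_mul]
    rfl
  three v := by
    obtain ⟨x, rfl⟩ := QuotientAddGroup.mk_surjective v
    rw [← QuotientAddGroup.mk_add, ← QuotientAddGroup.mk_add, QuotientAddGroup.eq_zero_iff]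
    exact ⟨x, rfl⟩
  surj v := by
    obtain ⟨x, rfl⟩ := QuotientAddGroup.mk_surjective v
    exact ⟨(Additive.toMul x : Fˣ), Units.ne_zero _, by rw [lg_unit]; rfl⟩
  st12 a b ha hb h := by
    refine AddMonoidHom.ext fun w => ?_
    obtain ⟨x, rfl⟩ := QuotientAddGroup.mk_surjective w
    rw [lg_ne F a ha, lg_ne F b hb, T1_mk, ← ofMul_toMul x, T0_symbol]
    exact symbol_st F _ 0 1 (by decide) h
  st23 a b ha hb h w := by
    obtain ⟨x, rfl⟩ := QuotientAddGroup.mk_surjective w
    rw [lg_ne F a ha, lg_ne F b hb, T1_mk, ← ofMul_toMul x, T0_symbol]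
    exact symbol_st F _ 1 2 (by decide) h

theorem sym_symbol {ξ : KMmod F 3 3} (h : (sys F).sym ξ) : ∃ a : Fin 3 → Fˣ, ξ = symbol 3 a := by
  obtain ⟨u, v, w, rfl⟩ := h
  obtain ⟨x, rfl⟩ := QuotientAddGroup.mk_surjective u
  obtain ⟨y, rfl⟩ := QuotientAddGroup.mk_surjective v
  obtain ⟨z, rfl⟩ := QuotientAddGroup.mk_surjective w
  exact ⟨![Additive.toMul x, Additive.toMul y, Additive.toMul z], T0_symbol F _ _ _⟩

/-- A predicate that holds for symbols and is closed under sums holds everywhere. -/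
theorem km_induction (P : KMmod F 3 3 → Prop) (h1 : ∀ ξ, (sys F).sym ξ → P ξ)
    (h2 : ∀ ξ η, P ξ → P η → P (ξ + η)) (ξ : KMmod F 3 3) : P ξ := by
  obtain ⟨x, rfl⟩ := (multiples F 3 3).mkQ_surjective ξ
  obtain ⟨y, rfl⟩ := (steinberg F 3).mkQ_surjective x
  induction y using PiTensorProduct.induction_on with
  | smul_tprod r f =>
    apply h1
    refine ⟨QuotientAddGroup.mk (r • f 0), QuotientAddGroup.mk (f 1), QuotientAddGroup.mk (f 2), ?_⟩
    have e : (sys F).T (QuotientAddGroup.mk (r • f 0)) (QuotientAddGroup.mk (f 1))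
        (QuotientAddGroup.mk (f 2)) = r • ml F f := by
      show T0 F (r • f 0) (f 1) (f 2) = _
      rw [map_zsmul, AddMonoidHom.smul_apply, AddMonoidHom.smul_apply, T0_apply]
      congr 2
      funext i
      fin_cases i <;> rfl
    rw [e, map_smul, map_smul]
    rfl
  | add x y hx hy =>
    rw [map_add, map_add]
    exact h2 _ _ hx hy

theorem four_symbols {o : F} (ho : o ^ 2 + o + 1 = 0) (hF : C3 F) (ξ : KMmod F 3 3) :
    IsSumOfSymbols ξ 4 := by
  have h : (sys F).len4 ξ := km_induction F _ (fun _ h => h.len4)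
    (fun _ _ h1 h2 => (sys F).len4_add ho hF h1 h2) ξ
  obtain ⟨ξ1, ξ2, ξ3, ξ4, h1, h2, h3, h4, rfl⟩ := h
  obtain ⟨a1, rfl⟩ := sym_symbol F h1
  obtain ⟨a2, rfl⟩ := sym_symbol F h2
  obtain ⟨a3, rfl⟩ := sym_symbol F h3
  obtain ⟨a4, rfl⟩ := sym_symbol F h4
  exact ⟨![a1, a2, a3, a4], by simp [Fin.sum_univ_four]⟩

theorem exists_omega (m : ℕ) : ∃ o : RatFun m, o ^ 2 + o + 1 = 0 := by
  obtain ⟨z, hz⟩ : ∃ z : ℂ, z ^ 2 + z + 1 = 0 := by
    obtain ⟨s, hs⟩ := IsAlgClosed.exists_pow_nat_eq (-3 : ℂ) (n := 2) (by norm_num)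
    exact ⟨(-1 + s) / 2, by linear_combination (1 / 4) * hs⟩
  refine ⟨algebraMap ℂ (RatFun m) z, ?_⟩
  have := congrArg (algebraMap ℂ (RatFun m)) hz
  simpa using this

end Pool.Agent.Lib.MP_8363a4_al.H2
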