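import Mathlib

/-!
The Witt group modulo two of a field, by generators and relations, with its dimension,
determinant and second residue homomorphisms.
-/

namespace Pool.Agent.Lib.MP_8363a4_al.H36

open FreeAbelianGroup

noncomputable section

/-- The relations between the rank one forms. -/
def rel (F : Type) [Field F] : AddSubgroup (FreeAbelianGroup F) :=
  AddSubgroup.closure
    {x | x = of 0 ∨ (∃ a : F, x = of a + of a) ∨ (∃ a b : F, b ≠ 0 ∧ x = of (a * b ^ 2) - of a) ∨
      ∃ a b : F, x = of a + of b - (of (a + b) + of (a * b * (a + b)))}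

/-- The Witt group modulo two. -/
abbrev W (F : Type) [Field F] : Type := FreeAbelianGroup F ⧸ rel F

variable {F L κ : Type} [Field F] [Field L] [Field κ]

/-- The rank one form `⟨a⟩`, with `⟨0⟩ = 0`. -/
def gen (a : F) : W F := QuotientAddGroup.mk (of a)

theorem gen_zero : gen (0 : F) = 0 := by
  apply (QuotientAddGroup.eq_zero_iff _).2
  exact AddSubgroup.subset_closure (Or.inl rfl)

theorem gen_add_self (a : F) : gen a + gen a = 0 := by
  unfold gen
  rw [← QuotientAddGroup.mk_add]
  apply (QuotientAddGroup.eq_zero_iff _).2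
  exact AddSubgroup.subset_closure (Or.inr (Or.inl ⟨a, rfl⟩))

theorem gen_mul_sq (a b : F) (hb : b ≠ 0) : gen (a * b ^ 2) = gen a := by
  unfold gen
  rw [← sub_eq_zero, ← QuotientAddGroup.mk_sub]
  apply (QuotientAddGroup.eq_zero_iff _).2
  exact AddSubgroup.subset_closure (Or.inr (Or.inr (Or.inl ⟨a, b, hb, rfl⟩)))

theorem gen_chain (a b : F) : gen a + gen b = gen (a + b) + gen (a * b * (a + b)) := by
  unfold gen
  rw [← sub_eq_zero, ← QuotientAddGroup.mk_add, ← QuotientAddGroup.mk_add,
    ← QuotientAddGroup.mk_sub]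
  apply (QuotientAddGroup.eq_zero_iff _).2
  exact AddSubgroup.subset_closure (Or.inr (Or.inr (Or.inr ⟨a, b, rfl⟩)))

theorem gen_of_sq {a c : F} (b : F) (hb : b ≠ 0) (h : a = c * b ^ 2) : gen a = gen c := by
  rw [h, gen_mul_sq c b hb]

theorem gen_neg (a : F) : gen (-a) = gen a := by
  have h := gen_chain a (-a)
  rw [add_neg_cancel, mul_zero, gen_zero, add_zero] at h
  have h2 := gen_add_self a
  exact add_left_cancel (h.trans h2.symm)

theorem W_ind {P : W F → Prop} (w : W F) (h0 : P 0) (h1 : ∀ a, P (gen a))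
    (hadd : ∀ x y, P x → P y → P (x + y)) : P w := by
  induction w using QuotientAddGroup.induction_on with
  | H z =>
    induction z using FreeAbelianGroup.induction_on with
    | zero => exact h0
    | of a => exact h1 a
    | neg a _ =>
      have : ((-of a : FreeAbelianGroup F) : W F) = gen a := by
        rw [QuotientAddGroup.mk_neg]
        exact neg_eq_of_add_eq_zero_left (gen_add_self a)
      rw [this]
      exact h1 a
    | add x y hx hy =>
      rw [QuotientAddGroup.mk_add]
      exact hadd _ _ hx hy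

theorem add_self (w : W F) : w + w = 0 := by
  induction w using W_ind with
  | h0 => simp
  | h1 a => exact gen_add_self a
  | hadd x y hx hy =>
    rw [add_add_add_comm, hx, hy, add_zero]

theorem neg_eq (w : W F) : -w = w := neg_eq_of_add_eq_zero_left (add_self w)

theorem W_ext {G : Type} [AddCommGroup G] {f g : W F →+ G} (h : ∀ a, f (gen a) = g (gen a)) :
    f = g := by
  ext w
  exact h w

/-- The conditions for a map on generators to extend to the Witt group. -/
structure Admissible {G : Type} [AddCommGroup G] (f : F → G) : Prop where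
  zero : f 0 = 0
  two : ∀ a, f a + f a = 0
  neg : ∀ a, f (-a) = f a
  sq : ∀ a b, a ≠ 0 → b ≠ 0 → f (a * b ^ 2) = f a
  chain : ∀ a b, a ≠ 0 → b ≠ 0 → a + b ≠ 0 → f a + f b = f (a + b) + f (a * b * (a + b))

/-- The universal property. -/
def lift {G : Type} [AddCommGroup G] (f : F → G) (h : Admissible f) : W F →+ G :=
  QuotientAddGroup.lift (rel F) (FreeAbelianGroup.lift f) (by
    rw [rel, AddSubgroup.closure_le]
    rintro x (rfl | ⟨a, rfl⟩ | ⟨a, b, hb, rfl⟩ | ⟨a, b, rfl⟩)
    · simpa using h.zero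
    · simpa using h.two a
    · by_cases ha : a = 0
      · simp [ha]
      · simpa [sub_eq_zero] using h.sq a b ha hb
    · have : f a + f b = f (a + b) + f (a * b * (a + b)) := by
        by_cases ha : a = 0
        · simp [ha, h.zero]
        by_cases hb : b = 0
        · simp [hb, h.zero]
        by_cases hab : a + b = 0
        · have hb' : b = -a := eq_neg_of_add_eq_zero_right hab
          rw [hab, mul_zero, h.zero, add_zero, hb', h.neg, h.two]
        exact h.chain a b ha hb hab
      simpa [sub_eq_zero] using this)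

theorem lift_gen {G : Type} [AddCommGroup G] (f : F → G) (h : Admissible f) (a : F) :
    lift f h (gen a) = f a := by
  simp [lift, gen]

/-- Multiplication by a rank one form. -/
def scale (u : F) : W F →+ W F :=
  lift (fun a => gen (u * a))
    { zero := by simp [gen_zero]
      two := fun a => gen_add_self _
      neg := fun a => by rw [mul_neg, gen_neg]
      sq := fun a b _ hb => gen_of_sq b hb (by ring)
      chain := fun a b _ _ _ => by
        by_cases hu : u = 0
        · simp [hu, gen_zero]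
        rw [gen_chain, ← mul_add]
        congr 1
        exact gen_of_sq u hu (by ring) }

theorem scale_gen (u a : F) : scale u (gen a) = gen (u * a) := lift_gen _ _ _

/-- Extension of scalars. -/
def map (φ : F →+* L) : W F →+ W L :=
  lift (fun a => gen (φ a))
    { zero := by simp [gen_zero]
      two := fun a => gen_add_self _
      neg := fun a => by rw [map_neg, gen_neg]
      sq := fun a b _ hb => gen_of_sq (φ b) ((map_ne_zero φ).2 hb) (by simp)
      chain := fun a b _ _ _ => by
        rw [gen_chain]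
        simp }

theorem map_gen (φ : F →+* L) (a : F) : map φ (gen a) = gen (φ a) := lift_gen _ _ _

open Classical in
/-- The dimension modulo two. -/
def dim : W F →+ ZMod 2 :=
  lift (fun a => if a = 0 then 0 else 1)
    { zero := by simp
      two := fun a => by split_ifs <;> decide
      neg := fun a => by simp
      sq := fun a b ha hb => by simp [ha, hb]
      chain := fun a b ha hb hab => by simp [ha, hb, hab] }

theorem dim_gen {a : F} (ha : a ≠ 0) : dim (gen a) = 1 := by
  rw [dim, lift_gen, if_neg ha]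

theorem dim_map (φ : F →+* L) (w : W F) : dim (map φ w) = dim w := by
  have : (dim : W L →+ ZMod 2).comp (map φ) = dim := by
    apply W_ext
    intro a
    by_cases ha : a = 0
    · simp [ha, gen_zero]
    · rw [AddMonoidHom.comp_apply, map_gen, dim_gen ha, dim_gen ((map_ne_zero φ).2 ha)]
  exact DFunLike.congr_fun this w

theorem gen_of_isSquare {a b : F} (ha : a ≠ 0) (hb : b ≠ 0) (h : IsSquare (a * b)) :
    gen a = gen b := by
  obtain ⟨c, hc⟩ := h
  have hc0 : c ≠ 0 := by
    rintro rfl
    exact mul_ne_zero ha hb (by simpa using hc)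
  apply gen_of_sq (c / b) (div_ne_zero hc0 hb)
  field_simp
  linear_combination hc

/-- Over a field in which every element is a square only the dimension is left. -/
theorem eq_zero_of_dim (hF : ∀ a : F, IsSquare a) (w : W F) (h : dim w = 0) : w = 0 := by
  have key : ∀ w : W F, (w = 0 ∧ dim w = 0) ∨ (w = gen 1 ∧ dim w = 1) := by
    intro w
    induction w using W_ind with
    | h0 => exact Or.inl ⟨rfl, map_zero _⟩
    | h1 a =>
      by_cases ha : a = 0
      · left
        rw [ha, gen_zero]
        exact ⟨rfl, map_zero _⟩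
      · exact Or.inr ⟨gen_of_isSquare ha one_ne_zero (hF _), dim_gen ha⟩
    | hadd x y hx hy =>
      rcases hx with ⟨h1, h2⟩ | ⟨h1, h2⟩ <;> rcases hy with ⟨h3, h4⟩ | ⟨h3, h4⟩
      · left; rw [map_add, h2, h4, h1, h3]; simp
      · right; rw [map_add, h2, h4, h1, h3]; simp
      · right; rw [map_add, h2, h4, h1, h3]; simp
      · left; rw [map_add, h2, h4, h1, h3, gen_add_self]; exact ⟨rfl, by decide⟩
  rcases key w with ⟨h1, -⟩ | ⟨-, h2⟩
  · exact h1
  · rw [h] at h2
    exact absurd h2 (by decide)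

/-- The group of square classes, written additively. -/
def Sq (F : Type) [Field F] : Type := Additive (Fˣ ⧸ (powMonoidHom 2 : Fˣ →* Fˣ).range)

instance : AddCommGroup (Sq F) :=
  inferInstanceAs (AddCommGroup (Additive (Fˣ ⧸ (powMonoidHom 2 : Fˣ →* Fˣ).range)))

/-- The square class of a unit. -/
def toSq (u : Fˣ) : Sq F := Additive.ofMul (QuotientGroup.mk u)

theorem toSq_mul (u w : Fˣ) : toSq (u * w) = toSq u + toSq w := rfl

theorem toSq_eq_zero (u : Fˣ) : toSq u = 0 ↔ ∃ w : Fˣ, w ^ 2 = u :=
  (QuotientGroup.eq_one_iff (N := (powMonoidHom 2 : Fˣ →* Fˣ).range) u)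

theorem toSq_surj (x : Sq F) : ∃ u, toSq u = x :=
  QuotientGroup.mk_surjective (s := (powMonoidHom 2 : Fˣ →* Fˣ).range) x

open Classical in
/-- The square class of an element. -/
def cls (a : F) : Sq F := if h : a = 0 then 0 else toSq (Units.mk0 a h)

theorem cls_zero : cls (0 : F) = 0 := by simp [cls]

theorem cls_mul {a b : F} (ha : a ≠ 0) (hb : b ≠ 0) : cls (a * b) = cls a + cls b := by
  unfold cls
  rw [dif_neg ha, dif_neg hb, dif_neg (mul_ne_zero ha hb), ← toSq_mul]
  congr 1
  ext
  simp

theorem cls_eq_zero {a : F} (ha : a ≠ 0) : cls a = 0 ↔ IsSquare a := by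
  unfold cls
  rw [dif_neg ha, toSq_eq_zero]
  constructor
  · rintro ⟨u, hu⟩
    refine ⟨u, ?_⟩
    have := congrArg Units.val hu
    simp only [Units.val_pow_eq_pow_val, Units.val_mk0] at this
    rw [← this, sq]
  · rintro ⟨c, hc⟩
    have hc0 : c ≠ 0 := by
      rintro rfl
      exact ha (by simpa using hc)
    refine ⟨Units.mk0 c hc0, ?_⟩
    ext
    simp [hc, sq]

theorem cls_add_self' (a : F) : cls a + cls a = 0 := by
  by_cases ha : a = 0
  · simp [ha, cls_zero]
  rw [← cls_mul ha ha, cls_eq_zero (mul_ne_zero ha ha)]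
  exact ⟨a, rfl⟩

theorem sq_add_self (x : Sq F) : x + x = 0 := by
  obtain ⟨u, hu⟩ := toSq_surj x
  have : x = cls (u : F) := by
    unfold cls
    rw [dif_neg u.ne_zero, Units.mk0_val, hu]
  rw [this, cls_add_self']

theorem cls_one : cls (1 : F) = 0 := (cls_eq_zero one_ne_zero).2 ⟨1, by simp⟩

theorem cls_eq_iff {a b : F} (ha : a ≠ 0) (hb : b ≠ 0) : cls a = cls b ↔ IsSquare (a * b) := by
  rw [← cls_eq_zero (mul_ne_zero ha hb), cls_mul ha hb]
  constructor
  · intro h
    rw [h, sq_add_self]
  · intro h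
    exact add_right_cancel (h.trans (sq_add_self _).symm)

theorem cls_neg (hF : IsSquare (-1 : F)) (a : F) : cls (-a) = cls a := by
  by_cases ha : a = 0
  · simp [ha]
  rw [← neg_one_mul, cls_mul (by simp) ha, (cls_eq_zero (by simp)).2 hF, zero_add]

theorem gen_of_cls {a b : F} (ha : a ≠ 0) (hb : b ≠ 0) (h : cls a = cls b) : gen a = gen b :=
  gen_of_isSquare ha hb ((cls_eq_iff ha hb).1 h)

theorem zsmul_even (x : Sq F) {n : ℤ} (hn : Even n) : n • x = 0 := by
  obtain ⟨m, rfl⟩ := hn
  rw [add_smul, sq_add_self]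

theorem zsmul_odd (x : Sq F) {n : ℤ} (hn : Odd n) : n • x = x := by
  obtain ⟨m, rfl⟩ := hn
  rw [add_smul, zsmul_even x (by simp), zero_add, one_smul]

/-- The determinant. -/
def det (hF : IsSquare (-1 : F)) : W F →+ Sq F :=
  lift cls
    { zero := cls_zero
      two := cls_add_self'
      neg := cls_neg hF
      sq := fun a b ha hb => by
        rw [cls_mul ha (pow_ne_zero _ hb), sq, cls_mul hb hb, sq_add_self, add_zero]
      chain := fun a b ha hb hab => by
        rw [cls_mul (mul_ne_zero ha hb) hab, cls_mul ha hb, add_left_comm, sq_add_self, add_zero] }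

theorem det_gen (hF : IsSquare (-1 : F)) (a : F) : det hF (gen a) = cls a := lift_gen _ _ _

theorem isSquare_of_gen_eq (hF : IsSquare (-1 : F)) {a b : F} (ha : a ≠ 0) (hb : b ≠ 0)
    (h : gen a = gen b) : IsSquare (a * b) := by
  have := congrArg (det hF) h
  rwa [det_gen, det_gen, cls_eq_iff ha hb] at this

/-- A discrete valuation with an angular component. -/
structure Res (F κ : Type) [Field F] [Field κ] where
  v : F → ℤ
  ρ : F →*₀ κ
  v_mul : ∀ a b, a ≠ 0 → b ≠ 0 → v (a * b) = v a + v b
  ρ_neg_one : ρ (-1) = -1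
  add_lt : ∀ a b, a ≠ 0 → b ≠ 0 → v a < v b → v (a + b) = v a ∧ ρ (a + b) = ρ a
  add_eq : ∀ a b, a ≠ 0 → b ≠ 0 → v a = v b → ρ a + ρ b ≠ 0 →
    v (a + b) = v a ∧ ρ (a + b) = ρ a + ρ b

namespace Res

variable (r : Res F κ)

theorem ρ_ne {a : F} (ha : a ≠ 0) : r.ρ a ≠ 0 := (map_ne_zero r.ρ).2 ha

theorem v_one : r.v 1 = 0 := by
  have := r.v_mul 1 1 one_ne_zero one_ne_zero
  rw [one_mul] at this
  omega

theorem v_neg (a : F) : r.v (-a) = r.v a := by
  by_cases ha : a = 0
  · simp [ha]
  have h := r.v_mul (-1) (-1) (by simp) (by simp)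
  rw [neg_one_mul, neg_neg, r.v_one] at h
  have h2 := r.v_mul (-1) a (by simp) ha
  rw [neg_one_mul] at h2
  omega

theorem ρ_neg (a : F) : r.ρ (-a) = -r.ρ a := by
  rw [← neg_one_mul, map_mul, r.ρ_neg_one, neg_one_mul]

theorem v_sq (a b : F) (ha : a ≠ 0) (hb : b ≠ 0) : r.v (a * b ^ 2) = r.v a + 2 * r.v b := by
  rw [r.v_mul _ _ ha (pow_ne_zero _ hb), sq, r.v_mul _ _ hb hb]
  ring

include r in
theorem isSquare_neg_one (hF : IsSquare (-1 : F)) : IsSquare (-1 : κ) := by
  obtain ⟨i, hi⟩ := hF
  exact ⟨r.ρ i, by rw [← map_mul, ← hi, r.ρ_neg_one]⟩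

/-- The second residue on generators. -/
def d0 (a : F) : W κ := if Odd (r.v a) then gen (r.ρ a) else 0

theorem d0_congr {a b : F} (h1 : Even (r.v a - r.v b)) (h2 : gen (r.ρ a) = gen (r.ρ b)) :
    r.d0 a = r.d0 b := by
  unfold d0
  have : Odd (r.v a) ↔ Odd (r.v b) := by
    rw [Int.even_sub] at h1
    rw [← Int.not_even_iff_odd, ← Int.not_even_iff_odd, h1]
  rw [h2]
  exact if_congr this rfl rfl

theorem d0_lt {a b : F} (ha : a ≠ 0) (hb : b ≠ 0) (hab : a + b ≠ 0) (h : r.v a < r.v b) :
    r.d0 a + r.d0 b = r.d0 (a + b) + r.d0 (a * b * (a + b)) := by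
  obtain ⟨h1, h2⟩ := r.add_lt a b ha hb h
  congr 1
  · exact r.d0_congr (by rw [h1]; simp) (by rw [h2])
  · refine r.d0_congr ?_ ?_
    · rw [r.v_mul _ _ (mul_ne_zero ha hb) hab, r.v_mul _ _ ha hb, h1]
      exact ⟨-r.v a, by ring⟩
    · rw [map_mul, map_mul, h2]
      exact (gen_of_sq (r.ρ a) (r.ρ_ne ha) (by ring)).symm

/-- The second residue homomorphism. -/
def d : W F →+ W κ :=
  lift r.d0
    { zero := by simp [d0, gen_zero]
      two := fun a => add_self _
      neg := fun a => r.d0_congr (by rw [r.v_neg]; simp) (by rw [r.ρ_neg, gen_neg])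
      sq := fun a b ha hb => r.d0_congr (by rw [r.v_sq a b ha hb]; exact ⟨r.v b, by ring⟩)
        (gen_of_sq (r.ρ b) (r.ρ_ne hb) (by simp))
      chain := fun a b ha hb hab => by
        rcases lt_trichotomy (r.v a) (r.v b) with h | h | h
        · exact r.d0_lt ha hb hab h
        · have hv : r.v (a * b * (a + b)) = r.v (a + b) + 2 * r.v a := by
            rw [r.v_mul _ _ (mul_ne_zero ha hb) hab, r.v_mul _ _ ha hb, ← h]
            ring
          by_cases hs : r.ρ a + r.ρ b = 0
          · have hb' : r.ρ b = -r.ρ a := eq_neg_of_add_eq_zero_right hs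
            have e1 : r.d0 a = r.d0 b := r.d0_congr (by rw [h]; simp) (by rw [hb', gen_neg])
            have e2 : r.d0 (a * b * (a + b)) = r.d0 (a + b) := by
              refine r.d0_congr (by rw [hv]; exact ⟨r.v a, by ring⟩) ?_
              rw [map_mul, map_mul, hb', ← gen_neg]
              exact gen_of_sq (r.ρ a) (r.ρ_ne ha) (by ring)
            rw [e1, e2, add_self, add_self]
          · obtain ⟨h1, h2⟩ := r.add_eq a b ha hb h hs
            unfold d0
            rw [hv, h1, ← h, map_mul, map_mul, h2]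
            have : Odd (r.v a + 2 * r.v a) ↔ Odd (r.v a) := by
              simp [Int.odd_add]
            by_cases ho : Odd (r.v a)
            · rw [if_pos ho, if_pos ho, if_pos ho, if_pos (this.2 ho), gen_chain]
            · rw [if_neg ho, if_neg ho, if_neg ho, if_neg (fun h => ho (this.1 h))]
        · have := r.d0_lt hb ha (by rwa [add_comm]) h
          rw [add_comm, this, add_comm b a, mul_comm b a] }

theorem d_gen (a : F) : r.d (gen a) = if Odd (r.v a) then gen (r.ρ a) else 0 := lift_gen _ _ _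

theorem d_gen_odd {a : F} (h : Odd (r.v a)) : r.d (gen a) = gen (r.ρ a) := by
  rw [d_gen, if_pos h]

theorem d_gen_even {a : F} (h : Even (r.v a)) : r.d (gen a) = 0 := by
  rw [d_gen, if_neg (Int.not_odd_iff_even.2 h)]

theorem dim_d_gen {a : F} (ha : a ≠ 0) : dim (r.d (gen a)) = (r.v a : ZMod 2) := by
  rcases Int.even_or_odd (r.v a) with h | h
  · rw [r.d_gen_even h, map_zero]
    exact ((ZMod.intCast_eq_zero_iff_even).2 h).symm
  · rw [r.d_gen_odd h, dim_gen (r.ρ_ne ha)]
    exact ((ZMod.intCast_eq_one_iff_odd).2 h).symm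

theorem d_scale {u : F} (hu : u ≠ 0) (h : Even (r.v u)) (w : W F) :
    r.d (scale u w) = scale (r.ρ u) (r.d w) := by
  have : r.d.comp (scale u) = (scale (r.ρ u)).comp r.d := by
    apply W_ext
    intro a
    by_cases ha : a = 0
    · simp [ha, gen_zero]
    rw [AddMonoidHom.comp_apply, AddMonoidHom.comp_apply, scale_gen]
    rcases Int.even_or_odd (r.v a) with h2 | h2
    · rw [r.d_gen_even h2, r.d_gen_even (by rw [r.v_mul _ _ hu ha]; exact h.add h2), map_zero]
    · rw [r.d_gen_odd h2, r.d_gen_odd (by rw [r.v_mul _ _ hu ha]; exact h.add_odd h2),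
        scale_gen, map_mul]
  exact DFunLike.congr_fun this w

/-- A binary form whose determinant is a unit with square residue has no residue. -/
theorem d_pair_zero {μ g : F} (hμ : μ ≠ 0) (hg : g ≠ 0) (h1 : Even (r.v g))
    (h2 : IsSquare (r.ρ g)) : r.d (gen μ + gen (μ * g)) = 0 := by
  rw [map_add]
  rcases Int.even_or_odd (r.v μ) with h | h
  · rw [r.d_gen_even h, r.d_gen_even (by rw [r.v_mul _ _ hμ hg]; exact h.add h1), add_zero]
  · rw [r.d_gen_odd h, r.d_gen_odd (by rw [r.v_mul _ _ hμ hg]; exact h.add_even h1), map_mul]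
    obtain ⟨c, hc⟩ := h2
    have hc0 : c ≠ 0 := by
      rintro rfl
      exact r.ρ_ne hg (by simpa using hc)
    rw [gen_of_sq (a := r.ρ μ * r.ρ g) c hc0 (c := r.ρ μ) (by rw [hc, sq]), gen_add_self]

theorem dim_d_pair {μ g : F} (hμ : μ ≠ 0) (hg : g ≠ 0) :
    dim (r.d (gen μ + gen (μ * g))) = (r.v g : ZMod 2) := by
  rw [map_add, map_add, r.dim_d_gen hμ, r.dim_d_gen (mul_ne_zero hμ hg), r.v_mul _ _ hμ hg]
  push_cast
  rw [← add_assoc, CharTwo.add_self_eq_zero, zero_add]

/-- A binary form whose determinant has odd valuation has a residue of rank one. -/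
theorem d_pair_odd {μ g : F} (hμ : μ ≠ 0) (hg : g ≠ 0) (h1 : Odd (r.v g)) :
    (Odd (r.v μ) ∧ r.d (gen μ + gen (μ * g)) = gen (r.ρ μ)) ∨
      (Even (r.v μ) ∧ r.d (gen μ + gen (μ * g)) = gen (r.ρ μ * r.ρ g)) := by
  rw [map_add]
  rcases Int.even_or_odd (r.v μ) with h | h
  · right
    rw [r.d_gen_even h, r.d_gen_odd (by rw [r.v_mul _ _ hμ hg]; exact h.add_odd h1), zero_add,
      map_mul]
    exact ⟨h, rfl⟩
  · left
    rw [r.d_gen_odd h, r.d_gen_even (by rw [r.v_mul _ _ hμ hg]; exact h.add_odd h1), add_zero]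
    exact ⟨h, rfl⟩

theorem d_pair_even {μ g : F} (hμ : μ ≠ 0) (hg : g ≠ 0) (h1 : Even (r.v g)) :
    (Odd (r.v μ) ∧ r.d (gen μ + gen (μ * g)) = gen (r.ρ μ) + gen (r.ρ μ * r.ρ g)) ∨
      (Even (r.v μ) ∧ r.d (gen μ + gen (μ * g)) = 0) := by
  rw [map_add]
  rcases Int.even_or_odd (r.v μ) with h | h
  · right
    rw [r.d_gen_even h, r.d_gen_even (by rw [r.v_mul _ _ hμ hg]; exact h.add h1), zero_add]
    exact ⟨h, rfl⟩
  · left
    rw [r.d_gen_odd h, r.d_gen_odd (by rw [r.v_mul _ _ hμ hg]; exact h.add_even h1), map_mul]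
    exact ⟨h, rfl⟩

end Res

end

end Pool.Agent.Lib.MP_8363a4_al.H36
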