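import Mathlib
import Pool.Agent.Lib.MP_8363a4_al.H36Witt

/-!
The valuation and the angular component attached to a prime element, and Gauss extensions.
-/

namespace Pool.Agent.Lib.MP_8363a4_al.H36

open Polynomial

noncomputable section

variable {R F κ κ' : Type} [CommRing R] [Field F] [Field κ] [Field κ']

/-- `ι` presents `F` as the field of fractions of `R`. -/
structure Frac (ι : R →+* F) : Prop where
  inj : Function.Injective ι
  surj : ∀ x : F, ∃ a b : R, b ≠ 0 ∧ x = ι a / ι b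

theorem Frac.ne {ι : R →+* F} (h : Frac ι) {a : R} (ha : a ≠ 0) : ι a ≠ 0 := by
  intro h0
  exact ha (h.inj (by rw [h0, map_zero]))

theorem frac_ratFunc (K : Type) [Field K] : Frac (algebraMap K[X] (RatFunc K)) :=
  ⟨IsFractionRing.injective _ _, fun x =>
    ⟨x.num, x.denom, x.denom_ne_zero, (RatFunc.num_div_denom x).symm⟩⟩

/-- `x = p ^ n * a / b` with `a` and `b` prime to `p`. -/
def Dec (ι : R →+* F) (p : R) (x : F) (n : ℤ) (a b : R) : Prop :=
  ¬ p ∣ a ∧ ¬ p ∣ b ∧ x = ι p ^ n * ι a / ι b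

/-- The `p`-adic valuation. -/
def val (ι : R →+* F) (p : R) (x : F) : ℤ := Classical.epsilon (fun n => ∃ a b, Dec ι p x n a b)

theorem ne_of_not_dvd {p a : R} (h : ¬ p ∣ a) : a ≠ 0 := by
  rintro rfl
  exact h (dvd_zero p)

theorem Dec.unique_aux {ι : R →+* F} (hι : Frac ι) {p : R} (hp : Prime p) {x : F} {n m : ℤ}
    {a b c d : R} (h1 : Dec ι p x n a b) (h2 : Dec ι p x m c d) (hnm : n ≤ m) :
    n = m ∧ a * d = c * b := by
  obtain ⟨ha, hb, e1⟩ := h1
  obtain ⟨hc, hd, e2⟩ := h2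
  obtain ⟨k, rfl⟩ := Int.le.dest hnm
  have hp0 := hι.ne hp.ne_zero
  have hb0 := hι.ne (ne_of_not_dvd hb)
  have hd0 := hι.ne (ne_of_not_dvd hd)
  have key : a * d = p ^ k * (c * b) := by
    apply hι.inj
    have hpn : ι p ^ n ≠ 0 := zpow_ne_zero _ hp0
    rw [e2, zpow_add₀ hp0, zpow_natCast] at e1
    simp only [map_mul, map_pow]
    field_simp at e1
    linear_combination -e1
  rcases Nat.eq_zero_or_pos k with rfl | hk
  · exact ⟨by simp, by simpa using key⟩
  · exfalso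
    have : p ∣ a * d := by
      rw [key]
      exact Dvd.dvd.mul_right (dvd_pow_self p hk.ne') _
    rcases hp.dvd_or_dvd this with h | h
    · exact ha h
    · exact hd h

theorem Dec.unique {ι : R →+* F} (hι : Frac ι) {p : R} (hp : Prime p) {x : F} {n m : ℤ}
    {a b c d : R} (h1 : Dec ι p x n a b) (h2 : Dec ι p x m c d) : n = m ∧ a * d = c * b := by
  rcases le_total n m with h | h
  · exact h1.unique_aux hι hp h2 h
  · obtain ⟨e1, e2⟩ := h2.unique_aux hι hp h1 h
    exact ⟨e1.symm, e2.symm⟩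

theorem Dec.val_eq {ι : R →+* F} (hι : Frac ι) {p : R} (hp : Prime p) {x : F} {n : ℤ}
    {a b : R} (h : Dec ι p x n a b) : val ι p x = n := by
  obtain ⟨c, d, h2⟩ := Classical.epsilon_spec (p := fun n => ∃ a b, Dec ι p x n a b) ⟨n, a, b, h⟩
  exact (h2.unique hι hp h).1

theorem Dec.ne_zero {ι : R →+* F} (hι : Frac ι) {p : R} (hp : Prime p) {x : F} {n : ℤ}
    {a b : R} (h : Dec ι p x n a b) : x ≠ 0 := by
  rw [h.2.2]
  exact div_ne_zero (mul_ne_zero (zpow_ne_zero _ (hι.ne hp.ne_zero)) (hι.ne (ne_of_not_dvd h.1)))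
    (hι.ne (ne_of_not_dvd h.2.1))

theorem exists_dec [IsDomain R] [WfDvdMonoid R] {ι : R →+* F} (hι : Frac ι) {p : R} (hp : Prime p)
    {x : F} (hx : x ≠ 0) : ∃ n a b, Dec ι p x n a b := by
  obtain ⟨a, b, hb, rfl⟩ := hι.surj x
  have ha : a ≠ 0 := by
    rintro rfl
    exact hx (by simp)
  obtain ⟨n, a', ha', rfl⟩ := WfDvdMonoid.max_power_factor ha hp.irreducible
  obtain ⟨m, b', hb', rfl⟩ := WfDvdMonoid.max_power_factor hb hp.irreducible
  refine ⟨n - m, a', b', ha', hb', ?_⟩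
  have hp0 := hι.ne hp.ne_zero
  have hb0 := hι.ne (ne_of_not_dvd hb')
  rw [zpow_sub₀ hp0, zpow_natCast, zpow_natCast]
  simp only [map_mul, map_pow]
  field_simp

theorem Dec.mul {ι : R →+* F} (hι : Frac ι) {p : R} (hp : Prime p) {x y : F} {n m : ℤ}
    {a b c d : R} (h1 : Dec ι p x n a b) (h2 : Dec ι p y m c d) :
    Dec ι p (x * y) (n + m) (a * c) (b * d) := by
  refine ⟨fun h => (hp.dvd_or_dvd h).elim h1.1 h2.1,
    fun h => (hp.dvd_or_dvd h).elim h1.2.1 h2.2.1, ?_⟩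
  have hp0 := hι.ne hp.ne_zero
  have hb0 := hι.ne (ne_of_not_dvd h1.2.1)
  have hd0 := hι.ne (ne_of_not_dvd h2.2.1)
  rw [h1.2.2, h2.2.2, zpow_add₀ hp0, map_mul, map_mul]
  field_simp

theorem dec_unit (ι : R →+* F) {p : R} (hp : Prime p) {a : R} (ha : ¬ p ∣ a) :
    Dec ι p (ι a) 0 a 1 := ⟨ha, hp.not_dvd_one, by simp⟩

theorem dec_self (ι : R →+* F) {p : R} (hp : Prime p) : Dec ι p (ι p) 1 1 1 :=
  ⟨hp.not_dvd_one, hp.not_dvd_one, by simp⟩

theorem dvd_of_val_ne {ι : R →+* F} (hι : Frac ι) {p : R} (hp : Prime p) {a b : R}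
    (h : val ι p (ι a / ι b) ≠ 0) : p ∣ a * b := by
  by_contra hc
  have ha : ¬ p ∣ a := fun h => hc (h.mul_right b)
  have hb : ¬ p ∣ b := fun h => hc (h.mul_left a)
  exact h (Dec.val_eq hι hp (n := 0) ⟨ha, hb, by simp⟩)

/-- A prime element of a ring with a presentation of its residue ring inside a field. -/
structure PD (R F κ : Type) [CommRing R] [Field F] [Field κ] where
  ι : R →+* F
  frac : Frac ι
  p : R
  prime : Prime p
  ev : R →+* κ
  ker : ∀ a, ev a = 0 ↔ p ∣ a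

namespace PD

variable (D : PD R F κ)

theorem ev_ne {a : R} (h : ¬ D.p ∣ a) : D.ev a ≠ 0 := fun h0 => h ((D.ker a).1 h0)

open Classical in
/-- The angular component. -/
def ang (x : F) : κ :=
  if x = 0 then 0 else
    Classical.epsilon (fun y => ∃ n a b, Dec D.ι D.p x n a b ∧ y = D.ev a / D.ev b)

theorem ang_eq {x : F} {n : ℤ} {a b : R} (h : Dec D.ι D.p x n a b) :
    D.ang x = D.ev a / D.ev b := by
  unfold ang
  rw [if_neg (h.ne_zero D.frac D.prime)]
  obtain ⟨m, c, d, h2, e⟩ := Classical.epsilon_spec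
    (p := fun y => ∃ n a b, Dec D.ι D.p x n a b ∧ y = D.ev a / D.ev b) ⟨_, n, a, b, h, rfl⟩
  rw [e, div_eq_div_iff (D.ev_ne h2.2.1) (D.ev_ne h.2.1), ← map_mul, ← map_mul,
    (h2.unique D.frac D.prime h).2]

theorem ang_zero : D.ang 0 = 0 := by simp [ang]

variable [IsDomain R] [WfDvdMonoid R]

/-- The valuation and angular component of a prime element. -/
def res : Res F κ where
  v := val D.ι D.p
  ρ :=
    { toFun := D.ang
      map_zero' := D.ang_zero
      map_one' := by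
        have := D.ang_eq (dec_unit D.ι D.prime D.prime.not_dvd_one)
        simpa using this
      map_mul' := fun x y => by
        by_cases hx : x = 0
        · simp [hx, D.ang_zero]
        by_cases hy : y = 0
        · simp [hy, D.ang_zero]
        obtain ⟨n, a, b, h1⟩ := exists_dec D.frac D.prime hx
        obtain ⟨m, c, d, h2⟩ := exists_dec D.frac D.prime hy
        rw [D.ang_eq h1, D.ang_eq h2, D.ang_eq (h1.mul D.frac D.prime h2), map_mul, map_mul,
          div_mul_div_comm] }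
  v_mul := fun x y hx hy => by
    obtain ⟨n, a, b, h1⟩ := exists_dec D.frac D.prime hx
    obtain ⟨m, c, d, h2⟩ := exists_dec D.frac D.prime hy
    rw [h1.val_eq D.frac D.prime, h2.val_eq D.frac D.prime,
      (h1.mul D.frac D.prime h2).val_eq D.frac D.prime]
  ρ_neg_one := by
    have := D.ang_eq (dec_unit D.ι D.prime (a := -1) (by simpa using D.prime.not_dvd_one))
    simpa using this
  add_lt := fun x y hx hy h => by
    obtain ⟨n, a, b, h1⟩ := exists_dec D.frac D.prime hx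
    obtain ⟨m, c, d, h2⟩ := exists_dec D.frac D.prime hy
    rw [h1.val_eq D.frac D.prime, h2.val_eq D.frac D.prime] at h
    obtain ⟨k, rfl⟩ := Int.le.dest (Int.add_one_le_of_lt h)
    have hp0 := D.frac.ne D.prime.ne_zero
    have hb0 := D.frac.ne (ne_of_not_dvd h1.2.1)
    have hd0 := D.frac.ne (ne_of_not_dvd h2.2.1)
    have h3 : Dec D.ι D.p (x + y) n (a * d + D.p * (D.p ^ k * c * b)) (b * d) := by
      refine ⟨fun h => ?_, fun h => (D.prime.dvd_or_dvd h).elim h1.2.1 h2.2.1, ?_⟩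
      · exact (D.prime.dvd_or_dvd ((dvd_add_left (dvd_mul_right _ _)).1 h)).elim h1.1 h2.2.1
      · rw [h1.2.2, h2.2.2, zpow_add₀ hp0, zpow_add₀ hp0, zpow_natCast, zpow_one]
        simp only [map_mul, map_add, map_pow]
        field_simp
    refine ⟨by rw [h1.val_eq D.frac D.prime, h3.val_eq D.frac D.prime], ?_⟩
    change D.ang _ = D.ang _
    rw [D.ang_eq h1, D.ang_eq h3, map_add, map_mul D.ev D.p, (D.ker _).2 dvd_rfl, zero_mul,
      add_zero, map_mul, map_mul, mul_div_mul_right _ _ (D.ev_ne h2.2.1)]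
  add_eq := fun x y hx hy h hs => by
    obtain ⟨n, a, b, h1⟩ := exists_dec D.frac D.prime hx
    obtain ⟨m, c, d, h2⟩ := exists_dec D.frac D.prime hy
    rw [h1.val_eq D.frac D.prime, h2.val_eq D.frac D.prime] at h
    subst h
    change D.ang _ + D.ang _ ≠ 0 at hs
    have hb0 := D.frac.ne (ne_of_not_dvd h1.2.1)
    have hd0 := D.frac.ne (ne_of_not_dvd h2.2.1)
    have hb1 := D.ev_ne h1.2.1
    have hd1 := D.ev_ne h2.2.1
    have e : D.ang x + D.ang y = D.ev (a * d + c * b) / D.ev (b * d) := by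
      rw [D.ang_eq h1, D.ang_eq h2]
      simp only [map_mul, map_add]
      field_simp
    have h3 : Dec D.ι D.p (x + y) n (a * d + c * b) (b * d) := by
      refine ⟨fun h => hs ?_, fun h => (D.prime.dvd_or_dvd h).elim h1.2.1 h2.2.1, ?_⟩
      · rw [e, (D.ker _).2 h, zero_div]
      · rw [h1.2.2, h2.2.2]
        simp only [map_mul, map_add]
        field_simp
    refine ⟨by rw [h1.val_eq D.frac D.prime, h3.val_eq D.frac D.prime], ?_⟩
    change D.ang _ = D.ang _ + D.ang _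
    rw [e, D.ang_eq h3]

theorem v_eq (x : F) : D.res.v x = val D.ι D.p x := rfl

theorem res_dec {x : F} {n : ℤ} {a b : R} (h : Dec D.ι D.p x n a b) :
    D.res.v x = n ∧ D.res.ρ x = D.ev a / D.ev b :=
  ⟨h.val_eq D.frac D.prime, D.ang_eq h⟩

theorem v_unit {a : R} (h : ¬ D.p ∣ a) : D.res.v (D.ι a) = 0 :=
  (D.res_dec (dec_unit D.ι D.prime h)).1

theorem ρ_unit {a : R} (h : ¬ D.p ∣ a) : D.res.ρ (D.ι a) = D.ev a := by
  simpa using (D.res_dec (dec_unit D.ι D.prime h)).2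

theorem v_p : D.res.v (D.ι D.p) = 1 := (D.res_dec (dec_self D.ι D.prime)).1

theorem ρ_p : D.res.ρ (D.ι D.p) = 1 := by
  simpa using (D.res_dec (dec_self D.ι D.prime)).2

theorem v_p_mul {a : R} (h : ¬ D.p ∣ a) : D.res.v (D.ι (D.p * a)) = 1 := by
  rw [map_mul, D.res.v_mul _ _ (D.frac.ne D.prime.ne_zero) (D.frac.ne (ne_of_not_dvd h)), D.v_p,
    D.v_unit h, add_zero]

theorem ρ_p_mul {a : R} (h : ¬ D.p ∣ a) : D.res.ρ (D.ι (D.p * a)) = D.ev a := by
  rw [map_mul, map_mul, D.ρ_p, D.ρ_unit h, one_mul]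

theorem d_unit {a : R} (h : ¬ D.p ∣ a) : D.res.d (gen (D.ι a)) = 0 :=
  D.res.d_gen_even (by rw [D.v_unit h]; simp)

theorem d_p_mul {a : R} (h : ¬ D.p ∣ a) : D.res.d (gen (D.ι (D.p * a))) = gen (D.ev a) := by
  rw [D.res.d_gen_odd (by rw [D.v_p_mul h]; simp), D.ρ_p_mul h]

theorem d_comp (D' : PD R F κ') (j : κ →+* κ') (h1 : D'.ι = D.ι) (h2 : D'.p = D.p)
    (h3 : ∀ a, D'.ev a = j (D.ev a)) (w : W F) : D'.res.d w = map j (D.res.d w) := by
  have : D'.res.d = (map j).comp D.res.d := by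
    apply W_ext
    intro x
    by_cases hx : x = 0
    · simp [hx, gen_zero]
    obtain ⟨n, a, b, h⟩ := exists_dec D.frac D.prime hx
    have h' : Dec D'.ι D'.p x n a b := by rwa [h1, h2]
    rw [AddMonoidHom.comp_apply, Res.d_gen, Res.d_gen, (D.res_dec h).1, (D'.res_dec h').1,
      (D.res_dec h).2, (D'.res_dec h').2]
    split_ifs
    · rw [map_gen, h3, h3, map_div₀]
    · rw [map_zero]
  rw [this, AddMonoidHom.comp_apply]

end PD

/-- The induced map from polynomials to rational functions. -/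
def gι (ι : R →+* F) : R[X] →+* RatFunc F :=
  (algebraMap F[X] (RatFunc F)).comp (mapRingHom ι)

theorem gι_apply (ι : R →+* F) (f : R[X]) : gι ι f = algebraMap F[X] (RatFunc F) (f.map ι) := rfl

theorem gι_C (ι : R →+* F) (a : R) : gι ι (C a) = RatFunc.C (ι a) := by
  simp [gι_apply]

theorem gι_X (ι : R →+* F) : gι ι X = RatFunc.X := by
  simp [gι_apply]

theorem Frac.clear {ι : R →+* F} (h : Frac ι) (f : F[X]) :
    ∃ (b : R) (g : R[X]), b ≠ 0 ∧ C (ι b) * f = g.map ι := by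
  have : Nontrivial R := ι.domain_nontrivial
  have : NoZeroDivisors R := h.inj.noZeroDivisors ι (map_zero ι) (map_mul ι)
  induction f using Polynomial.induction_on' with
  | add f g hf hg =>
    obtain ⟨b, f', hb, e1⟩ := hf
    obtain ⟨c, g', hc, e2⟩ := hg
    refine ⟨b * c, C c * f' + C b * g', mul_ne_zero hb hc, ?_⟩
    simp only [map_mul, Polynomial.map_add, Polynomial.map_mul, map_C]
    rw [← e1, ← e2]
    ring
  | monomial n x =>
    obtain ⟨a, b, hb, rfl⟩ := h.surj x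
    refine ⟨b, monomial n a, hb, ?_⟩
    rw [C_mul_monomial, map_monomial, mul_div_cancel₀ _ (h.ne hb)]

theorem Frac.gauss {ι : R →+* F} (h : Frac ι) : Frac (gι ι) := by
  have : Nontrivial R := ι.domain_nontrivial
  have : NoZeroDivisors R := h.inj.noZeroDivisors ι (map_zero ι) (map_mul ι)
  refine ⟨(IsFractionRing.injective F[X] (RatFunc F)).comp (map_injective ι h.inj), fun x => ?_⟩
  obtain ⟨b, f, hb, e1⟩ := h.clear x.num
  obtain ⟨c, g, hc, e2⟩ := h.clear x.denom
  have hg : g ≠ 0 := by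
    rintro rfl
    rw [Polynomial.map_zero] at e2
    exact mul_ne_zero (C_ne_zero.2 (h.ne hc)) x.denom_ne_zero e2
  refine ⟨C c * f, C b * g, mul_ne_zero (C_ne_zero.2 hb) hg, ?_⟩
  have hb' : (RatFunc.C (ι b) : RatFunc F) ≠ 0 := (_root_.map_ne_zero _).2 (h.ne hb)
  have hc' : (RatFunc.C (ι c) : RatFunc F) ≠ 0 := (_root_.map_ne_zero _).2 (h.ne hc)
  have hd : algebraMap F[X] (RatFunc F) x.denom ≠ 0 := RatFunc.algebraMap_ne_zero x.denom_ne_zero
  rw [map_mul, map_mul, gι_C, gι_C, gι_apply, gι_apply, ← e1, ← e2, map_mul, map_mul,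
    RatFunc.algebraMap_C, RatFunc.algebraMap_C]
  conv_lhs => rw [← RatFunc.num_div_denom x]
  field_simp

/-- The rational function `X - θ`. -/
def xc (θ : F) : RatFunc F := RatFunc.X - RatFunc.C θ

theorem xc_eq (θ : F) : xc θ = algebraMap F[X] (RatFunc F) (X - C θ) := by
  simp [xc]

theorem xc_ne (θ : F) : xc θ ≠ 0 := by
  rw [xc_eq]
  exact RatFunc.algebraMap_ne_zero (X_sub_C_ne_zero θ)

theorem gι_X_sub_C (ι : R →+* F) (θ : R) : gι ι (X - C θ) = xc (ι θ) := by
  rw [map_sub, gι_X, gι_C, xc]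

namespace Res

variable {K : Type} [Field K] (r : Res F κ)

theorem d_scale_odd (φ : K →+* F) (j : K →+* κ)
    (h : ∀ x, x ≠ 0 → r.v (φ x) = 0 ∧ r.ρ (φ x) = j x) {u : F} (hu : u ≠ 0) (h1 : Odd (r.v u))
    (h2 : r.ρ u = 1) (w : W K) : r.d (scale u (map φ w)) = map j w := by
  have : r.d.comp ((scale u).comp (map φ)) = map j := by
    apply W_ext
    intro x
    by_cases hx : x = 0
    · simp [hx, gen_zero]
    rw [AddMonoidHom.comp_apply, AddMonoidHom.comp_apply, map_gen, scale_gen, map_gen,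
      r.d_gen_odd (by rwa [r.v_mul _ _ hu ((map_ne_zero φ).2 hx), (h x hx).1, add_zero]),
      map_mul, h2, one_mul, (h x hx).2]
  exact DFunLike.congr_fun this w

theorem d_map_zero (φ : K →+* F) (h : ∀ x, x ≠ 0 → r.v (φ x) = 0) (w : W K) :
    r.d (map φ w) = 0 := by
  have : r.d.comp (map φ) = 0 := by
    apply W_ext
    intro x
    by_cases hx : x = 0
    · simp [hx, gen_zero]
    rw [AddMonoidHom.comp_apply, map_gen, r.d_gen_even (by rw [h x hx]; simp)]
    rfl
  exact DFunLike.congr_fun this w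

theorem d_map_of {κ' : Type} [Field κ'] (r' : Res K κ') (φ : K →+* F) (j : κ' →+* κ)
    (h : ∀ x, x ≠ 0 → r.v (φ x) = r'.v x ∧ r.ρ (φ x) = j (r'.ρ x)) (w : W K) :
    r.d (map φ w) = map j (r'.d w) := by
  have : r.d.comp (map φ) = (map j).comp r'.d := by
    apply W_ext
    intro x
    by_cases hx : x = 0
    · simp [hx, gen_zero]
    rw [AddMonoidHom.comp_apply, AddMonoidHom.comp_apply, map_gen, d_gen, d_gen, (h x hx).1,
      (h x hx).2]
    split_ifs
    · rw [map_gen]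
    · rw [map_zero]
  exact DFunLike.congr_fun this w

end Res

namespace PD

variable (D : PD R F κ) [IsDomain R]

/-- The Gauss extension. -/
def gauss : PD R[X] (RatFunc F) (RatFunc κ) where
  ι := gι D.ι
  frac := D.frac.gauss
  p := C D.p
  prime := prime_C_iff.2 D.prime
  ev := gι D.ev
  ker := fun f => by
    rw [gι_apply, map_eq_zero_iff _ (IsFractionRing.injective κ[X] (RatFunc κ)),
      C_dvd_iff_dvd_coeff, Polynomial.ext_iff]
    simp only [coeff_map, coeff_zero, D.ker]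

variable [WfDvdMonoid R]

theorem gauss_C {x : F} (hx : x ≠ 0) : D.gauss.res.v (RatFunc.C x) = D.res.v x ∧
    D.gauss.res.ρ (RatFunc.C x) = RatFunc.C (D.res.ρ x) := by
  obtain ⟨n, a, b, h⟩ := exists_dec D.frac D.prime hx
  have h' : Dec D.gauss.ι D.gauss.p (RatFunc.C x) n (C a) (C b) := by
    have key : ∀ c : R, C D.p ∣ C c → D.p ∣ c := fun c h1 => by
      simpa using (C_dvd_iff_dvd_coeff _ _).1 h1 0
    refine ⟨fun h1 => h.1 (key _ h1), fun h1 => h.2.1 (key _ h1), ?_⟩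
    change _ = gι D.ι (C D.p) ^ n * gι D.ι (C a) / gι D.ι (C b)
    rw [gι_C, gι_C, gι_C, h.2.2, map_div₀, map_mul, map_zpow₀]
  rw [(D.res_dec h).1, (D.res_dec h).2, (D.gauss.res_dec h').1, (D.gauss.res_dec h').2]
  refine ⟨rfl, ?_⟩
  change gι D.ev (C a) / gι D.ev (C b) = _
  rw [gι_C, gι_C, map_div₀]

theorem gauss_d_map (w : W F) :
    D.gauss.res.d (map RatFunc.C w) = map RatFunc.C (D.res.d w) :=
  D.gauss.res.d_map_of D.res _ _ (fun _ hx => D.gauss_C hx) w

omit [IsDomain R] [WfDvdMonoid R] in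
theorem not_dvd_lin (θ : R) : ¬ C D.p ∣ X - C θ := by
  intro h
  have := (C_dvd_iff_dvd_coeff _ _).1 h 1
  simp only [coeff_sub, coeff_X_one, coeff_C_succ, sub_zero] at this
  exact D.prime.not_dvd_one this

theorem gauss_xc (θ : R) : D.gauss.res.v (xc (D.ι θ)) = 0 ∧
    D.gauss.res.ρ (xc (D.ι θ)) = xc (D.ev θ) := by
  rw [← gι_X_sub_C, ← gι_X_sub_C]
  exact ⟨D.gauss.v_unit (D.not_dvd_lin θ), D.gauss.ρ_unit (D.not_dvd_lin θ)⟩

theorem gauss_d_scale (θ : R) (w : W F) :
    D.gauss.res.d (scale (xc (D.ι θ)) (map RatFunc.C w)) =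
      scale (xc (D.ev θ)) (map RatFunc.C (D.res.d w)) := by
  rw [Res.d_scale _ (xc_ne _) (by rw [(D.gauss_xc θ).1]; simp), (D.gauss_xc θ).2, gauss_d_map]

end PD

section OneVar

variable {K : Type} [Field K]

/-- The rational point `θ` of the affine line. -/
def lin (θ : K) : PD K[X] (RatFunc K) K where
  ι := algebraMap K[X] (RatFunc K)
  frac := frac_ratFunc K
  p := X - C θ
  prime := prime_X_sub_C θ
  ev := evalRingHom θ
  ker := fun f => by rw [dvd_iff_isRoot]; rfl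

/-- A closed point of the affine line. -/
def pol (p : K[X]) [h : Fact (Irreducible p)] : PD K[X] (RatFunc K) (AdjoinRoot p) where
  ι := algebraMap K[X] (RatFunc K)
  frac := frac_ratFunc K
  p := p
  prime := h.out.prime
  ev := AdjoinRoot.mk p
  ker := fun _ => AdjoinRoot.mk_eq_zero

theorem not_dvd_C {p : K[X]} (hp : Prime p) {x : K} (hx : x ≠ 0) : ¬ p ∣ C x := fun h =>
  hp.not_isUnit (isUnit_of_dvd_unit h (isUnit_C.2 (IsUnit.mk0 x hx)))

theorem val_C {p : K[X]} (hp : Prime p) {x : K} (hx : x ≠ 0) :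
    val (algebraMap K[X] (RatFunc K)) p (RatFunc.C x) = 0 := by
  rw [← RatFunc.algebraMap_C]
  exact (dec_unit _ hp (not_dvd_C hp hx)).val_eq (frac_ratFunc K) hp

theorem lin_C (θ : K) {x : K} (hx : x ≠ 0) : (lin θ).res.v (RatFunc.C x) = 0 ∧
    (lin θ).res.ρ (RatFunc.C x) = x := by
  refine ⟨val_C (prime_X_sub_C θ) hx, ?_⟩
  rw [← RatFunc.algebraMap_C]
  exact ((lin θ).ρ_unit (not_dvd_C (prime_X_sub_C θ) hx)).trans (by simp [lin])

theorem lin_xc_self (θ : K) : (lin θ).res.v (xc θ) = 1 ∧ (lin θ).res.ρ (xc θ) = 1 := by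
  rw [xc_eq]
  exact ⟨(lin θ).v_p, (lin θ).ρ_p⟩

theorem lin_xc_ne {θ θ' : K} (h : θ ≠ θ') :
    (lin θ).res.v (xc θ') = 0 ∧ (lin θ).res.ρ (xc θ') = θ - θ' := by
  have : ¬ (lin θ).p ∣ X - C θ' := by
    change ¬ (X - C θ) ∣ _
    rw [dvd_iff_isRoot]
    simpa [sub_eq_zero] using h
  rw [xc_eq]
  exact ⟨(lin θ).v_unit this, ((lin θ).ρ_unit this).trans (by simp [lin])⟩

theorem map_id' (w : W K) : map (RingHom.id K) w = w := by
  have : map (RingHom.id K) = AddMonoidHom.id _ := W_ext fun a => by simp [map_gen]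
  rw [this, AddMonoidHom.id_apply]

theorem lin_d_map (θ : K) (w : W K) : (lin θ).res.d (map RatFunc.C w) = 0 :=
  (lin θ).res.d_map_zero _ (fun _ hx => (lin_C θ hx).1) w

theorem lin_d_self (θ : K) (w : W K) : (lin θ).res.d (scale (xc θ) (map RatFunc.C w)) = w := by
  rw [(lin θ).res.d_scale_odd _ (RingHom.id K) (fun _ hx => lin_C θ hx) (xc_ne θ)
    (by rw [(lin_xc_self θ).1]; simp) (lin_xc_self θ).2, map_id']

theorem lin_d_ne {θ θ' : K} (h : θ ≠ θ') (w : W K) :
    (lin θ).res.d (scale (xc θ') (map RatFunc.C w)) = 0 := by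
  rw [Res.d_scale _ (xc_ne _) (by rw [(lin_xc_ne h).1]; simp), lin_d_map, map_zero]

theorem pol_d_map (p : K[X]) [h : Fact (Irreducible p)] (w : W K) :
    (pol p).res.d (map RatFunc.C w) = 0 :=
  (pol p).res.d_map_zero _ (fun _ hx => val_C h.out.prime hx) w

theorem not_dvd_of_monic {p q : K[X]} (hp : Irreducible p) (hq : Irreducible q) (mp : p.Monic)
    (mq : q.Monic) (h : p ≠ q) : ¬ p ∣ q := fun hd =>
  h (eq_of_monic_of_associated mp mq (hp.associated_of_dvd hq hd))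

theorem pol_d_ne (p : K[X]) [h : Fact (Irreducible p)] (mp : p.Monic) {θ : K} (hθ : p ≠ X - C θ)
    (w : W K) : (pol p).res.d (scale (xc θ) (map RatFunc.C w)) = 0 := by
  have : (pol p).res.v (xc θ) = 0 := by
    rw [xc_eq]
    exact (pol p).v_unit (not_dvd_of_monic h.out (irreducible_X_sub_C θ) mp (monic_X_sub_C θ) hθ)
  rw [Res.d_scale _ (xc_ne _) (by rw [this]; simp), pol_d_map, map_zero]

theorem pol_d_lin (θ : K) [Fact (Irreducible (X - C θ : K[X]))] (w : W (RatFunc K)) :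
    (pol (X - C θ)).res.d w = map (AdjoinRoot.of _) ((lin θ).res.d w) := by
  refine (lin θ).d_comp (pol (X - C θ)) _ rfl rfl (fun f => ?_) w
  change AdjoinRoot.mk _ f = AdjoinRoot.mk _ (C (f.eval θ))
  rw [AdjoinRoot.mk_eq_mk]
  exact X_sub_C_dvd_sub_C_eval

end OneVar

end

end Pool.Agent.Lib.MP_8363a4_al.H36
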