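import Mathlib
import Pool.Agent.Lib.MP_8363a4_al.H36Adic

/-!
The tower of rational function fields, with the ring structure always read through the field.
-/

namespace Pool.Agent.Lib.MP_8363a4_al.H36

noncomputable section

/-- The field of rational functions in one variable over a field. -/
abbrev RF (K : Type) [Field K] : Type := RatFunc K

/-- The constants. -/
abbrev cc {K : Type} [Field K] : K →+* RF K := RatFunc.C

/-- The variable. -/
abbrev xx {K : Type} [Field K] : RF K := RatFunc.X

/-- `ℂ(t)`. -/
abbrev K1 : Type := RF ℂ

/-- `ℂ(t)(Y)`. -/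
abbrev K2 : Type := RF K1

/-- `ℂ(t)(Y)(z)`. -/
abbrev K3 : Type := RF K2

end

end Pool.Agent.Lib.MP_8363a4_al.H36
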