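import Mathlib
import Pool.Agent.Lib.MP_8363a4_al.H36Tower

/-!
Milnor's theorem: a form over `K(X)` without residues on the affine line is defined over `K`.
-/

namespace Pool.Agent.Lib.MP_8363a4_al.H36

open Polynomial

noncomputable section

namespace Mil

variable {K : Type} [Field K]

/-- The rank one form of a polynomial. -/
def gp (f : K[X]) : W (RatFunc K) := gen (algebraMap K[X] (RatFunc K) f)

theorem gp_zero : gp (0 : K[X]) = 0 := by rw [gp, map_zero, gen_zero]

theorem gp_sq {a c : K[X]} (b : K[X]) (hb : b ≠ 0) (h : a = c * b ^ 2) : gp a = gp c :=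
  gen_of_sq (algebraMap K[X] (RatFunc K) b) (RatFunc.algebraMap_ne_zero hb)
    (by rw [h, map_mul, map_pow])

theorem gp_chain (u a b : K[X]) :
    gp (u * a) + gp (u * b) = gp (u * (a + b)) + gp (u * (a * b * (a + b))) := by
  have := congrArg (scale (algebraMap K[X] (RatFunc K) u))
    (gen_chain (algebraMap K[X] (RatFunc K) a) (algebraMap K[X] (RatFunc K) b))
  simpa only [map_add, scale_gen, gp, map_mul] using this

/-- Products of polynomials of degree at most `d`. -/
def Sm (d : ℕ) : Submonoid K[X] := Submonoid.closure {g | g.natDegree ≤ d}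

theorem sm_of {d : ℕ} {g : K[X]} (h : g.natDegree ≤ d) : g ∈ Sm d := Submonoid.subset_closure h

/-- The subgroup generated by the products of polynomials of degree at most `d`. -/
def L (K : Type) [Field K] (d : ℕ) : AddSubgroup (W (RatFunc K)) :=
  AddSubgroup.closure {w | ∃ f ∈ (Sm d : Submonoid K[X]), w = gp f}

theorem gp_mem {d : ℕ} {f : K[X]} (h : f ∈ Sm d) : gp f ∈ L K d :=
  AddSubgroup.subset_closure ⟨f, h, rfl⟩

theorem L_mono {d e : ℕ} (h : d ≤ e) : L K d ≤ L K e :=
  AddSubgroup.closure_mono fun _ ⟨f, hf, e1⟩ =>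
    ⟨f, Submonoid.closure_mono (fun _ hg => le_trans hg h) hf, e1⟩

theorem exists_L (w : W (RatFunc K)) : ∃ d, w ∈ L K d := by
  induction w using W_ind with
  | h0 => exact ⟨0, zero_mem _⟩
  | h1 x =>
    refine ⟨(x.num * x.denom).natDegree, ?_⟩
    have hd : algebraMap K[X] (RatFunc K) x.denom ≠ 0 :=
      RatFunc.algebraMap_ne_zero x.denom_ne_zero
    have : gp (x.num * x.denom) = gen x := by
      refine gen_of_sq _ hd ?_
      have e := RatFunc.num_div_denom x
      rw [div_eq_iff hd] at e
      rw [map_mul, e]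
      ring
    rw [← this]
    exact gp_mem (sm_of le_rfl)
  | hadd x y hx hy =>
    obtain ⟨d, hd⟩ := hx
    obtain ⟨e, he⟩ := hy
    exact ⟨max d e, add_mem (L_mono (le_max_left _ _) hd) (L_mono (le_max_right _ _) he)⟩

theorem L_zero (w : W (RatFunc K)) (h : w ∈ L K 0) : ∃ c : W K, w = map RatFunc.C c := by
  induction h using AddSubgroup.closure_induction with
  | mem w hw =>
    obtain ⟨f, hf, rfl⟩ := hw
    have : ∃ a : K, f = C a := by
      induction hf using Submonoid.closure_induction with
      | mem g hg => exact ⟨_, eq_C_of_natDegree_le_zero hg⟩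
      | one => exact ⟨1, by simp⟩
      | mul x y _ _ hx hy =>
        obtain ⟨a, rfl⟩ := hx
        obtain ⟨b, rfl⟩ := hy
        exact ⟨a * b, by simp⟩
    obtain ⟨a, rfl⟩ := this
    exact ⟨gen a, by rw [map_gen, gp, RatFunc.algebraMap_C]⟩
  | zero => exact ⟨0, by simp⟩
  | add x y _ _ hx hy =>
    obtain ⟨a, rfl⟩ := hx
    obtain ⟨b, rfl⟩ := hy
    exact ⟨a + b, by simp⟩
  | neg x _ hx =>
    rw [neg_eq]
    exact hx

section Prime

variable {d : ℕ} {p : K[X]}

theorem not_dvd_small (hd : p.natDegree = d + 1) {g : K[X]} (hg : g ≠ 0) (h : g.natDegree ≤ d) :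
    ¬ p ∣ g := fun h1 => by
  have := natDegree_le_of_dvd h1 hg
  omega

theorem not_dvd_sm (hp : Irreducible p) (hd : p.natDegree = d + 1) {g : K[X]} (h : g ∈ Sm d)
    (hg : g ≠ 0) : ¬ p ∣ g := by
  induction h using Submonoid.closure_induction with
  | mem g h => exact not_dvd_small hd hg h
  | one => exact hp.prime.not_dvd_one
  | mul x y _ _ hx hy =>
    intro h1
    exact (hp.prime.dvd_or_dvd h1).elim (hx (left_ne_zero_of_mul hg))
      (hy (right_ne_zero_of_mul hg))

theorem mod_small (mp : p.Monic) (hd : p.natDegree = d + 1) (f : K[X]) :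
    (f %ₘ p).natDegree ≤ d := by
  have := natDegree_modByMonic_lt f mp (by
    rintro rfl
    simp at hd)
  omega

/-- The quotient by the forms of degree at most `d`. -/
def Q (K : Type) [Field K] (d : ℕ) : Type := W (RatFunc K) ⧸ L K d

instance : AddCommGroup (Q K d) := QuotientAddGroup.Quotient.addCommGroup (L K d)

/-- The class modulo the forms of smaller degree. -/
def mk (d : ℕ) : W (RatFunc K) →+ Q K d := QuotientAddGroup.mk' (L K d)

theorem mk_eq_zero {w : W (RatFunc K)} : mk d w = 0 ↔ w ∈ L K d :=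
  QuotientAddGroup.eq_zero_iff (N := L K d) w

theorem mk_mem {w : W (RatFunc K)} (h : w ∈ L K d) : mk d w = 0 := mk_eq_zero.2 h

theorem red_two (hp : Irreducible p) (mp : p.Monic) (hd : p.natDegree = d + 1) {m f g : K[X]}
    (hm : m ∈ Sm d) (hf : f.natDegree ≤ d) (hg : g.natDegree ≤ d) :
    mk d (gp (p * (m * (f * g)))) = mk d (gp (p * (m * ((f * g) %ₘ p)))) := by
  have e := modByMonic_add_div (f * g) p
  set h := (f * g) %ₘ p
  set k := (f * g) /ₘ p with hk
  by_cases k0 : k = 0
  · rw [← e, k0, mul_zero, add_zero]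
  have hfg : f * g ≠ 0 := by
    intro h0
    rw [hk, h0, zero_divByMonic] at k0
    exact k0 rfl
  have h0 : h ≠ 0 := by
    intro h0
    rw [h0, zero_add] at e
    exact not_dvd_sm hp hd (mul_mem (sm_of hf) (sm_of hg)) hfg ⟨k, e.symm⟩
  have hh : h ∈ Sm d := sm_of (mod_small mp hd _)
  have hk' : k ∈ Sm d := by
    apply sm_of
    rw [hk, natDegree_divByMonic _ mp]
    have := natDegree_mul_le (p := f) (q := g)
    omega
  have c := gp_chain (k * m * h) h (p * k)
  rw [e, gp_sq (c := p * (m * h)) k k0 (a := k * m * h * (p * k)) (by ring),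
    gp_sq (c := p * (m * (f * g))) (k * h) (mul_ne_zero k0 h0)
      (a := k * m * h * (h * (p * k) * (f * g))) (by ring)] at c
  have c2 := congrArg (mk d) c
  rw [map_add, map_add, mk_mem (gp_mem (mul_mem (mul_mem (mul_mem hk' hm) hh) hh)),
    mk_mem (gp_mem (mul_mem (mul_mem (mul_mem hk' hm) hh) (mul_mem (sm_of hf) (sm_of hg)))),
    zero_add, zero_add] at c2
  exact c2.symm

theorem red (hp : Irreducible p) (mp : p.Monic) (hd : p.natDegree = d + 1) {f : K[X]}
    (hf : f ∈ Sm d) : ∀ m ∈ Sm d, mk d (gp (p * (m * f))) = mk d (gp (p * (m * (f %ₘ p)))) := by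
  induction hf using Submonoid.closure_induction_left with
  | one =>
    intro m _
    rw [(modByMonic_eq_self_iff mp).2 (by
      rw [degree_one, degree_eq_natDegree mp.ne_zero, hd]
      exact_mod_cast Nat.succ_pos d)]
  | mul_left x hx y _ ih =>
    intro m hm
    have h1 : (x * y) %ₘ p = (x * (y %ₘ p)) %ₘ p := by
      apply modByMonic_eq_of_dvd_sub mp
      rw [← mul_sub]
      exact Dvd.dvd.mul_left ⟨y /ₘ p, by rw [modByMonic_eq_sub_mul_div]; ring⟩ _
    rw [← mul_assoc m x y, ih _ (mul_mem hm (sm_of hx)), mul_assoc m x,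
      red_two hp mp hd hm hx (mod_small mp hd _), h1]

theorem exists_H [hp : Fact (Irreducible p)] (mp : p.Monic) (hd : p.natDegree = d + 1) :
    ∃ h : W (AdjoinRoot p) →+ Q K d,
      ∀ g ∈ Sm d, h (gen (AdjoinRoot.mk p g)) = mk d (gp (p * g)) := by
  let r := AdjoinRoot.modByMonicHom mp
  have r1 : ∀ x, AdjoinRoot.mk p (r x) = x := AdjoinRoot.mk_leftInverse mp
  have r2 : ∀ x, r x ∈ Sm d := fun x => by
    obtain ⟨f, rfl⟩ := AdjoinRoot.mk_surjective x
    exact sm_of (mod_small mp hd f)
  have r3 : ∀ g ∈ Sm d, mk d (gp (p * r (AdjoinRoot.mk p g))) = mk d (gp (p * g)) := fun g hg => by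
    have := red hp.out mp hd hg 1 (one_mem _)
    rw [one_mul, one_mul] at this
    exact this.symm
  have r4 : ∀ x, x ≠ 0 → r x ≠ 0 := fun x hx h => hx (by rw [← r1 x, h, map_zero])
  refine ⟨lift (fun x => mk d (gp (p * r x)))
    { zero := by simp [gp_zero]
      two := fun a => by rw [← map_add, add_self, map_zero]
      neg := fun a => by rw [map_neg, mul_neg, gp, map_neg, gen_neg, gp]
      sq := fun a b _ hb => by
        have := r3 _ (mul_mem (r2 a) (pow_mem (r2 b) 2))
        rw [(AdjoinRoot.mk p).map_mul, (AdjoinRoot.mk p).map_pow, r1, r1] at this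
        rw [this, gp_sq (c := p * r a) (r b) (r4 b hb) (by ring)]
      chain := fun a b _ _ _ => by
        have := r3 _ (mul_mem (mul_mem (r2 a) (r2 b)) (r2 (a + b)))
        rw [(AdjoinRoot.mk p).map_mul, (AdjoinRoot.mk p).map_mul, r1, r1, r1] at this
        rw [this, ← map_add, ← map_add, gp_chain, map_add r] }, fun g hg => ?_⟩
  rw [lift_gen, r3 g hg]

end Prime

/-- The monic irreducible polynomials of degree `d + 1`. -/
def P (d : ℕ) (p : K[X]) : Prop := Irreducible p ∧ p.Monic ∧ p.natDegree = d + 1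

/-- The subgroup generated by smaller degree and by one prime of degree `d + 1` at a time. -/
def L' (K : Type) [Field K] (d : ℕ) : AddSubgroup (W (RatFunc K)) :=
  AddSubgroup.closure {w | (∃ f ∈ (Sm d : Submonoid K[X]), w = gp f) ∨
    ∃ p : K[X], P d p ∧ ∃ f ∈ (Sm d : Submonoid K[X]), w = gp (p * f)}

theorem list_mem (d : ℕ) : ∀ (n : ℕ) (l : List K[X]), l.length = n → (∀ p ∈ l, P d p) →
    ∀ m ∈ Sm d, gp (l.prod * m) ∈ L' K d := by
  intro n
  induction n using Nat.strong_induction_on with
  | _ n ih =>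
    intro l hl h m hm
    match l, hl, h with
    | [], _, _ => exact AddSubgroup.subset_closure (Or.inl ⟨m, hm, by simp⟩)
    | [p], _, h => exact AddSubgroup.subset_closure (Or.inr ⟨p, h p (by simp), m, hm, by simp⟩)
    | p :: q :: t, hl, h =>
      have hp := h p (by simp)
      have hq := h q (by simp)
      have ht : ∀ x ∈ t, P d x := fun x hx => h x (by simp [hx])
      simp only [List.length_cons] at hl
      have i0 := ih t.length (by omega) t rfl ht
      by_cases e : p = q
      · subst e
        rw [gp_sq (c := t.prod * m) p hp.1.ne_zero (by simp only [List.prod_cons]; ring)]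
        exact i0 m hm
      have h0 : p - q ≠ 0 := sub_ne_zero.2 e
      have hs : p - q ∈ Sm d := by
        apply sm_of
        have h1 : (p - q).degree < p.degree := degree_sub_lt_left (by
          rw [degree_eq_natDegree hp.1.ne_zero, degree_eq_natDegree hq.1.ne_zero, hp.2.2, hq.2.2])
          hp.1.ne_zero (by rw [hp.2.1.leadingCoeff, hq.2.1.leadingCoeff])
        have := natDegree_lt_natDegree h0 h1
        rw [hp.2.2] at this
        omega
      have i1 := ih (t.length + 1) (by omega) (p :: t) rfl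
        (fun x hx => h x (by rcases List.mem_cons.1 hx with h | h <;> simp [h])) _ (mul_mem hs hm)
      have i2 := ih (t.length + 1) (by omega) (q :: t) rfl
        (fun x hx => h x (List.mem_cons_of_mem _ hx)) _ (mul_mem hs hm)
      have c := gp_chain (t.prod * ((p - q) * m)) (p - q) q
      rw [sub_add_cancel,
        gp_sq (c := t.prod * m) (p - q) h0 (a := t.prod * ((p - q) * m) * (p - q)) (by ring),
        gp_sq (c := (p :: q :: t).prod * m) (p - q) h0
          (a := t.prod * ((p - q) * m) * ((p - q) * q * p))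
          (by simp only [List.prod_cons]; ring),
        show t.prod * ((p - q) * m) * q = (q :: t).prod * ((p - q) * m) by
          simp only [List.prod_cons]; ring,
        show t.prod * ((p - q) * m) * p = (p :: t).prod * ((p - q) * m) by
          simp only [List.prod_cons]; ring] at c
      rw [← sub_eq_iff_eq_add'.2 c]
      exact sub_mem (add_mem (i0 m hm) i2) i1

theorem sm_succ (d : ℕ) {f : K[X]} (hf : f ∈ Sm (d + 1)) :
    ∃ l : List K[X], (∀ p ∈ l, P d p) ∧ ∃ m ∈ Sm d, f = l.prod * m := by
  induction hf using Submonoid.closure_induction with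
  | mem g hg =>
    by_cases h1 : g.natDegree ≤ d
    · exact ⟨[], by simp, g, sm_of h1, by simp⟩
    have h2 : g.natDegree = d + 1 := le_antisymm hg (by omega)
    have h0 : g ≠ 0 := by
      rintro rfl
      simp at h2
    by_cases hi : Irreducible g
    · have hl : g.leadingCoeff ≠ 0 := leadingCoeff_ne_zero.2 h0
      refine ⟨[g * C g.leadingCoeff⁻¹], ?_, C g.leadingCoeff, sm_of (by simp), ?_⟩
      · intro p hp
        rw [List.mem_singleton.1 hp]
        exact ⟨(irreducible_mul_isUnit (isUnit_C.2 (IsUnit.mk0 _ (inv_ne_zero hl)))).2 hi,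
          monic_mul_leadingCoeff_inv h0, by rw [natDegree_mul_C (inv_ne_zero hl), h2]⟩
      · rw [List.prod_singleton, mul_assoc, ← C_mul, inv_mul_cancel₀ hl, C_1, mul_one]
    · have hu : ¬ IsUnit g := fun h => by
        have := natDegree_eq_zero_of_isUnit h
        omega
      obtain ⟨a, b, ha, hb, rfl⟩ := (irreducible_or_factor hu).resolve_left hi
      have a0 := left_ne_zero_of_mul h0
      have b0 := right_ne_zero_of_mul h0
      rw [natDegree_mul a0 b0] at h2
      have a1 : a.natDegree ≠ 0 := fun h => ha (isUnit_iff_degree_eq_zero.2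
        (by rw [degree_eq_natDegree a0, h]; rfl))
      have b1 : b.natDegree ≠ 0 := fun h => hb (isUnit_iff_degree_eq_zero.2
        (by rw [degree_eq_natDegree b0, h]; rfl))
      exact ⟨[], by simp, a * b, mul_mem (sm_of (by omega)) (sm_of (by omega)), by simp⟩
  | one => exact ⟨[], by simp, 1, one_mem _, by simp⟩
  | mul x y _ _ hx hy =>
    obtain ⟨l, hl, m, hm, rfl⟩ := hx
    obtain ⟨l', hl', m', hm', rfl⟩ := hy
    refine ⟨l ++ l', fun p hp => (List.mem_append.1 hp).elim (hl p) (hl' p), m * m',
      mul_mem hm hm', ?_⟩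
    rw [List.prod_append]
    ring

theorem L_succ_le (d : ℕ) : L K (d + 1) ≤ L' K d := by
  rw [L, AddSubgroup.closure_le]
  rintro _ ⟨f, hf, rfl⟩
  obtain ⟨l, hl, m, hm, rfl⟩ := sm_succ d hf
  exact list_mem d _ l rfl hl m hm

theorem step (d : ℕ) (w : W (RatFunc K)) (hw : w ∈ L K (d + 1))
    (h : ∀ (p : K[X]) [Fact (Irreducible p)], p.Monic → (pol p).res.d w = 0) : w ∈ L K d := by
  classical
  have ex : ∀ p : K[X], ∃ H : W (RatFunc K) →+ Q K d,
      (P d p → ∀ g ∈ Sm d, H (gp (p * g)) = mk d (gp (p * g))) ∧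
      (∀ f, (P d p → ¬ p ∣ f) → H (gp f) = 0) ∧ H w = 0 := by
    intro p
    by_cases hp : P d p
    · have : Fact (Irreducible p) := ⟨hp.1⟩
      obtain ⟨H, hH⟩ := exists_H hp.2.1 hp.2.2
      refine ⟨H.comp (pol p).res.d, fun _ g hg => ?_, fun f hf => ?_, ?_⟩
      · by_cases g0 : g = 0
        · simp [g0, gp_zero]
        rw [← hH g hg, AddMonoidHom.comp_apply]
        exact congrArg H ((pol p).d_p_mul (not_dvd_sm hp.1 hp.2.2 hg g0))
      · rw [AddMonoidHom.comp_apply, ← map_zero H]
        exact congrArg H ((pol p).d_unit (hf hp))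
      · rw [AddMonoidHom.comp_apply, h p hp.2.1, map_zero]
    · exact ⟨0, fun h => absurd h hp, fun _ _ => rfl, rfl⟩
  choose H h1 h2 h3 using ex
  have key : ∀ x ∈ L' K d, ∃ S : Finset K[X], ∀ T, S ⊆ T → mk d x = ∑ p ∈ T, H p x := by
    intro x hx
    induction hx using AddSubgroup.closure_induction with
    | mem x hx =>
      rcases hx with ⟨f, hf, rfl⟩ | ⟨p, hp, f, hf, rfl⟩
      · refine ⟨∅, fun T _ => ?_⟩
        rw [mk_mem (gp_mem hf)]
        by_cases f0 : f = 0
        · simp [f0, gp_zero]
        exact (Finset.sum_eq_zero fun p _ => h2 p f fun hp => not_dvd_sm hp.1 hp.2.2 hf f0).symm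
      · refine ⟨{p}, fun T hT => ?_⟩
        by_cases f0 : f = 0
        · simp [f0, gp_zero]
        rw [Finset.sum_eq_single p, h1 p hp f hf]
        · intro q _ hq
          exact h2 q _ fun hq' h => (hq'.1.prime.dvd_or_dvd h).elim
            (not_dvd_of_monic hq'.1 hp.1 hq'.2.1 hp.2.1 hq) (not_dvd_sm hq'.1 hq'.2.2 hf f0)
        · intro h
          exact absurd (hT (Finset.mem_singleton_self p)) h
    | zero => exact ⟨∅, fun T _ => by simp⟩
    | add x y _ _ hx hy =>
      obtain ⟨S, hS⟩ := hx
      obtain ⟨S', hS'⟩ := hy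
      refine ⟨S ∪ S', fun T hT => ?_⟩
      rw [map_add, hS T (Finset.union_subset_left hT), hS' T (Finset.union_subset_right hT),
        ← Finset.sum_add_distrib]
      simp only [map_add]
    | neg x _ hx =>
      rw [neg_eq]
      exact hx
  obtain ⟨S, hS⟩ := key w (L_succ_le d hw)
  have := hS S (Finset.Subset.refl _)
  simp only [h3, Finset.sum_const_zero] at this
  exact mk_eq_zero.1 this

end Mil

theorem milnor {K : Type} [Field K] (w : W (RatFunc K))
    (h : ∀ (p : K[X]) [Fact (Irreducible p)], p.Monic → (pol p).res.d w = 0) :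
    ∃ c : W K, w = map RatFunc.C c := by
  obtain ⟨d, hd⟩ := Mil.exists_L w
  induction d with
  | zero => exact Mil.L_zero w hd
  | succ d ih => exact ih (Mil.step d w hd h)

end

end Pool.Agent.Lib.MP_8363a4_al.H36
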