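import Mathlib
import Pool.Agent.Lib.MP_8363a4_al.H36Tower

/-!
The residues of a scaled Albert form, and the choice of the scaling factor.
-/

namespace Pool.Agent.Lib.MP_8363a4_al.H36

open Polynomial

noncomputable section

variable {F κ : Type} [Field F] [Field κ]

/-- The tame symbol modulo squares. -/
def tm (r : Res F κ) (a b : F) : Sq κ := r.v b • cls (r.ρ a) + r.v a • cls (r.ρ b)

/-- The scaled pure norm form of a quaternion symbol. -/
def tri (s a b : F) : W F := gen (s * a) + gen (s * b) + gen (s * (a * b))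

/-- Both symbols involve an element of odd valuation. -/
def Bad (v : F → ℤ) (a b c d : F) : Prop :=
  ¬ (Even (v a) ∧ Even (v b)) ∧ ¬ (Even (v c) ∧ Even (v d))

theorem sq_cancel (x y : Sq κ) : x + (x + y) = y := by
  rw [← add_assoc, sq_add_self, zero_add]

namespace Res

variable (r : Res F κ) {s a b c d : F}

theorem d_mul_even (hs : s ≠ 0) (ha : a ≠ 0) (h : Even (r.v s + r.v a)) :
    r.d (gen (s * a)) = 0 := r.d_gen_even (by rwa [r.v_mul _ _ hs ha])

theorem d_mul_odd (hs : s ≠ 0) (ha : a ≠ 0) (h : Odd (r.v s + r.v a)) :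
    r.d (gen (s * a)) = gen (r.ρ s * r.ρ a) := by
  rw [r.d_gen_odd (by rwa [r.v_mul _ _ hs ha]), map_mul]

theorem tri_zero (hs : s ≠ 0) (ha : a ≠ 0) (hb : b ≠ 0) (h : Even (r.v s))
    (h1 : Even (r.v a) ∧ Even (r.v b)) : r.d (tri s a b) = 0 ∧ tm r a b = 0 := by
  constructor
  · rw [tri, map_add, map_add, r.d_mul_even hs ha (h.add h1.1), r.d_mul_even hs hb (h.add h1.2),
      r.d_mul_even hs (mul_ne_zero ha hb) (by rw [r.v_mul _ _ ha hb]; exact h.add (h1.1.add h1.2))]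
    simp
  · rw [tm, zsmul_even _ h1.1, zsmul_even _ h1.2, add_zero]

theorem tri_even (hs : s ≠ 0) (ha : a ≠ 0) (hb : b ≠ 0) (h : Even (r.v s))
    (h1 : ¬ (Even (r.v a) ∧ Even (r.v b))) :
    ∃ μ ν : κ, μ ≠ 0 ∧ ν ≠ 0 ∧ r.d (tri s a b) = gen μ + gen ν ∧ cls μ + cls ν = tm r a b := by
  have hab := mul_ne_zero ha hb
  have hv := r.v_mul _ _ ha hb
  have hs' := r.ρ_ne hs
  have ha' := r.ρ_ne ha
  have hb' := r.ρ_ne hb
  have hab' := r.ρ_ne hab
  rw [tri, map_add, map_add, tm]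
  rcases Int.even_or_odd (r.v a) with e1 | e1 <;> rcases Int.even_or_odd (r.v b) with e2 | e2
  · exact absurd ⟨e1, e2⟩ h1
  · refine ⟨_, _, mul_ne_zero hs' hb', mul_ne_zero hs' hab', ?_, ?_⟩
    · rw [r.d_mul_even hs ha (h.add e1), r.d_mul_odd hs hb (h.add_odd e2),
        r.d_mul_odd hs hab (by rw [hv]; exact h.add_odd (e1.add_odd e2)), zero_add]
    · rw [zsmul_even _ e1, zsmul_odd _ e2, cls_mul hs' hb', cls_mul hs' hab', map_mul,
        cls_mul ha' hb', add_add_add_comm, sq_add_self, zero_add, add_comm (cls (r.ρ a)),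
        sq_cancel, add_zero]
  · refine ⟨_, _, mul_ne_zero hs' ha', mul_ne_zero hs' hab', ?_, ?_⟩
    · rw [r.d_mul_odd hs ha (h.add_odd e1), r.d_mul_even hs hb (h.add e2),
        r.d_mul_odd hs hab (by rw [hv]; exact h.add_odd (e1.add_even e2)), add_zero]
    · rw [zsmul_even _ e2, zsmul_odd _ e1, cls_mul hs' ha', cls_mul hs' hab', map_mul,
        cls_mul ha' hb', add_add_add_comm, sq_add_self, zero_add, sq_cancel, zero_add]
  · refine ⟨_, _, mul_ne_zero hs' ha', mul_ne_zero hs' hb', ?_, ?_⟩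
    · rw [r.d_mul_odd hs ha (h.add_odd e1), r.d_mul_odd hs hb (h.add_odd e2),
        r.d_mul_even hs hab (by rw [hv]; exact h.add (e1.add_odd e2)), add_zero]
    · rw [zsmul_odd _ e2, zsmul_odd _ e1, cls_mul hs' ha', cls_mul hs' hb', add_add_add_comm,
        sq_add_self, zero_add]

theorem tri_odd (hs : s ≠ 0) (ha : a ≠ 0) (hb : b ≠ 0) (h : Odd (r.v s))
    (h1 : ¬ (Even (r.v a) ∧ Even (r.v b))) :
    ∃ μ : κ, μ ≠ 0 ∧ r.d (tri s a b) = gen μ ∧ cls μ = cls (r.ρ s) + tm r a b := by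
  have hab := mul_ne_zero ha hb
  have hv := r.v_mul _ _ ha hb
  have hs' := r.ρ_ne hs
  have ha' := r.ρ_ne ha
  have hb' := r.ρ_ne hb
  have hab' := r.ρ_ne hab
  rw [tri, map_add, map_add, tm]
  rcases Int.even_or_odd (r.v a) with e1 | e1 <;> rcases Int.even_or_odd (r.v b) with e2 | e2
  · exact absurd ⟨e1, e2⟩ h1
  · refine ⟨_, mul_ne_zero hs' ha', ?_, ?_⟩
    · rw [r.d_mul_odd hs ha (h.add_even e1), r.d_mul_even hs hb (h.add_odd e2),
        r.d_mul_even hs hab (by rw [hv]; exact h.add_odd (e1.add_odd e2)), add_zero, add_zero]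
    · rw [zsmul_even _ e1, zsmul_odd _ e2, cls_mul hs' ha', add_zero]
  · refine ⟨_, mul_ne_zero hs' hb', ?_, ?_⟩
    · rw [r.d_mul_even hs ha (h.add_odd e1), r.d_mul_odd hs hb (h.add_even e2),
        r.d_mul_even hs hab (by rw [hv]; exact h.add_odd (e1.add_even e2)), add_zero, zero_add]
    · rw [zsmul_even _ e2, zsmul_odd _ e1, cls_mul hs' hb', zero_add]
  · refine ⟨_, mul_ne_zero hs' hab', ?_, ?_⟩
    · rw [r.d_mul_even hs ha (h.add_odd e1), r.d_mul_even hs hb (h.add_odd e2),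
        r.d_mul_odd hs hab (by rw [hv]; exact h.add_even (e1.add_odd e2)), add_zero, zero_add]
    · rw [zsmul_odd _ e2, zsmul_odd _ e1, cls_mul hs' hab', map_mul, cls_mul ha' hb']

/-- With the right parity of the scaling factor the residue of the Albert form is binary. -/
theorem good (hs : s ≠ 0) (ha : a ≠ 0) (hb : b ≠ 0) (hc : c ≠ 0) (hd : d ≠ 0)
    (hpar : Odd (r.v s) ↔ Bad r.v a b c d) {δ : κ} (hδ : δ ≠ 0)
    (h : cls δ = tm r a b + tm r c d) :
    ∃ μ : κ, μ ≠ 0 ∧ r.d (tri s a b + tri s c d) = gen μ + gen (μ * δ) := by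
  have key : ∃ μ ν : κ, μ ≠ 0 ∧ ν ≠ 0 ∧ r.d (tri s a b + tri s c d) = gen μ + gen ν ∧
      cls μ + cls ν = tm r a b + tm r c d := by
    rw [map_add]
    rcases Int.even_or_odd (r.v s) with e | e
    · have hB : ¬ Bad r.v a b c d := fun hB => Int.not_odd_iff_even.2 e (hpar.2 hB)
      by_cases h1 : Even (r.v a) ∧ Even (r.v b)
      · obtain ⟨e1, e2⟩ := r.tri_zero hs ha hb e h1
        rw [e1, e2, zero_add, zero_add]
        by_cases h2 : Even (r.v c) ∧ Even (r.v d)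
        · obtain ⟨e3, e4⟩ := r.tri_zero hs hc hd e h2
          exact ⟨1, 1, one_ne_zero, one_ne_zero, by rw [e3, gen_add_self],
            by rw [e4, sq_add_self]⟩
        · exact r.tri_even hs hc hd e h2
      · have h2 : Even (r.v c) ∧ Even (r.v d) := by
          by_contra h2
          exact hB ⟨h1, h2⟩
        obtain ⟨e3, e4⟩ := r.tri_zero hs hc hd e h2
        rw [e3, e4, add_zero, add_zero]
        exact r.tri_even hs ha hb e h1
    · obtain ⟨h1, h2⟩ := hpar.1 e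
      obtain ⟨μ, hμ, e1, e2⟩ := r.tri_odd hs ha hb e h1
      obtain ⟨ν, hν, e3, e4⟩ := r.tri_odd hs hc hd e h2
      exact ⟨μ, ν, hμ, hν, by rw [e1, e3],
        by rw [e2, e4, add_add_add_comm, sq_add_self, zero_add]⟩
  obtain ⟨μ, ν, hμ, hν, e1, e2⟩ := key
  refine ⟨μ, hμ, ?_⟩
  rw [e1, gen_of_cls hν (mul_ne_zero hμ hδ) (by rw [cls_mul hμ hδ, h, ← e2, sq_cancel])]

theorem v_prod {ι : Type} (S : Finset ι) (f : ι → F) (hf : ∀ i, f i ≠ 0) :
    r.v (∏ i ∈ S, f i) = ∑ i ∈ S, r.v (f i) := by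
  classical
  induction S using Finset.induction_on with
  | empty => simp [r.v_one]
  | insert i S hi ih =>
    rw [Finset.prod_insert hi, Finset.sum_insert hi,
      r.v_mul _ _ (hf i) (Finset.prod_ne_zero_iff.2 fun j _ => hf j), ih]

end Res

theorem cls_prod {ι : Type} (S : Finset ι) (f : ι → F) (hf : ∀ i, f i ≠ 0) :
    cls (∏ i ∈ S, f i) = ∑ i ∈ S, cls (f i) := by
  classical
  induction S using Finset.induction_on with
  | empty => simp [cls_one]
  | insert i S hi ih =>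
    rw [Finset.prod_insert hi, Finset.sum_insert hi,
      cls_mul (hf i) (Finset.prod_ne_zero_iff.2 fun j _ => hf j), ih]

/-- An additive function on the nonzero elements. -/
def IsVal (v : F → ℤ) : Prop := ∀ a b, a ≠ 0 → b ≠ 0 → v (a * b) = v a + v b

theorem IsVal.one {v : F → ℤ} (h : IsVal v) : v 1 = 0 := by
  have := h 1 1 one_ne_zero one_ne_zero
  rw [one_mul] at this
  omega

theorem exists_scale {I : Type} (v : I → F → ℤ) (hv : ∀ i, IsVal (v i)) (π : I → F)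
    (hπ : ∀ i, π i ≠ 0) (h1 : ∀ i, v i (π i) = 1) (h0 : ∀ i j, i ≠ j → v i (π j) = 0)
    (B : Set I) (hB : B.Finite) :
    ∃ s : F, s ≠ 0 ∧ (∀ i, Odd (v i s) ↔ i ∈ B) ∧
      ∀ w : F → ℤ, IsVal w → (∀ j, w (π j) = 0) → w s = 0 := by
  induction B, hB using Set.Finite.induction_on with
  | empty => exact ⟨1, one_ne_zero, fun i => by simp [(hv i).one], fun w hw _ => hw.one⟩
  | @insert j B hj _ ih =>
    obtain ⟨s, hs, e1, e2⟩ := ih
    refine ⟨π j * s, mul_ne_zero (hπ j) hs, fun i => ?_, fun w hw h => ?_⟩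
    · rw [hv i _ _ (hπ j) hs]
      by_cases hij : i = j
      · subst hij
        have : ¬ Odd (v i s) := fun h => hj ((e1 i).1 h)
        rw [h1]
        simp only [Set.mem_insert_iff, true_or, iff_true]
        exact odd_one.add_even (Int.not_odd_iff_even.1 this)
      · rw [h0 i j hij, zero_add, e1]
        simp [hij]
    · rw [hw _ _ (hπ j) hs, h, e2 w hw h, add_zero]

/-- One more round of scaling. -/
theorem exists_scale' {I : Type} (v : I → F → ℤ) (hv : ∀ i, IsVal (v i)) (π : I → F)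
    (hπ : ∀ i, π i ≠ 0) (h1 : ∀ i, v i (π i) = 1) (h0 : ∀ i j, i ≠ j → v i (π j) = 0)
    (hfin : ∀ x, x ≠ 0 → {i | v i x ≠ 0}.Finite) {s a b c d : F} (hs : s ≠ 0) (ha : a ≠ 0)
    (hb : b ≠ 0) :
    ∃ s' : F, s' ≠ 0 ∧ (∀ i, Odd (v i s') ↔ Bad (v i) a b c d) ∧
      ∀ w : F → ℤ, IsVal w → (∀ j, w (π j) = 0) → w s' = w s := by
  have hB : {i | ¬ (Odd (v i s) ↔ Bad (v i) a b c d)}.Finite := by
    refine (((hfin s hs).union (hfin a ha)).union (hfin b hb)).subset fun i hi => ?_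
    by_contra hc
    simp only [Set.mem_union, Set.mem_ofPred_eq, not_or, not_not] at hc
    apply hi
    simp [Bad, hc.1.1, hc.1.2, hc.2]
  obtain ⟨u, hu, e1, e2⟩ := exists_scale v hv π hπ h1 h0 _ hB
  refine ⟨u * s, mul_ne_zero hu hs, fun i => ?_, fun w hw h => ?_⟩
  · have := e1 i
    rw [Set.mem_ofPred_eq] at this
    rw [hv i _ _ hu hs, Int.odd_add, this, ← Int.not_odd_iff_even]
    tauto
  · rw [hw _ _ hu hs, e2 w hw h, zero_add]

section Families

variable {R : Type} [CommRing R]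

theorem isVal_val [IsDomain R] [WfDvdMonoid R] {ι : R →+* F} (hι : Frac ι) {p : R} (hp : Prime p) :
    IsVal (val ι p) := fun x y hx hy => by
  obtain ⟨n, a, b, h1⟩ := exists_dec hι hp hx
  obtain ⟨m, c, d, h2⟩ := exists_dec hι hp hy
  rw [h1.val_eq hι hp, h2.val_eq hι hp, (h1.mul hι hp h2).val_eq hι hp]

theorem finite_val [IsDomain R] {I : Type} {ι : R →+* F} (hι : Frac ι) (P : I → R)
    (hP : ∀ i, Prime (P i)) (h : ∀ a, a ≠ 0 → {i | P i ∣ a}.Finite) (x : F) (hx : x ≠ 0) :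
    {i | val ι (P i) x ≠ 0}.Finite := by
  obtain ⟨a, b, hb, rfl⟩ := hι.surj x
  have ha : a ≠ 0 := by
    rintro rfl
    exact hx (by simp)
  exact (h _ (mul_ne_zero ha hb)).subset fun i hi => dvd_of_val_ne hι (hP i) hi

theorem finite_C {I : Type} (P : I → R) (h : ∀ a, a ≠ 0 → {i | P i ∣ a}.Finite) (f : R[X])
    (hf : f ≠ 0) : {i | C (P i) ∣ f}.Finite :=
  (h _ (leadingCoeff_ne_zero.2 hf)).subset fun _ hi => (C_dvd_iff_dvd_coeff _ _).1 hi _

theorem C_not_dvd {p a : R} (h : ¬ p ∣ a) : ¬ C p ∣ C a := fun h1 =>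
  h (by simpa using (C_dvd_iff_dvd_coeff _ _).1 h1 0)

/-- The monic irreducible polynomials. -/
abbrev MI (K : Type) [Field K] : Type := {p : K[X] // Irreducible p ∧ p.Monic}

theorem finite_MI {K : Type} [Field K] (a : K[X]) (ha : a ≠ 0) : {p : MI K | p.1 ∣ a}.Finite := by
  classical
  have : {p : MI K | p.1 ∣ a} ⊆
      Subtype.val ⁻¹' ((UniqueFactorizationMonoid.normalizedFactors a).toFinset : Set K[X]) := by
    intro p hp
    simp only [Set.mem_preimage, Finset.mem_coe, Multiset.mem_toFinset]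
    exact (Polynomial.mem_normalizedFactors_iff ha).2 ⟨p.2.1, p.2.2, hp⟩
  exact ((Finset.finite_toSet _).preimage Subtype.val_injective.injOn).subset this

theorem finite_lin {K : Type} [Field K] (a : K[X]) (ha : a ≠ 0) :
    {c : K | X - C c ∣ a}.Finite := by
  simpa [dvd_iff_isRoot] using finite_setOfPred_isRoot ha

theorem MI_not_dvd {K : Type} [Field K] {p q : MI K} (h : p ≠ q) : ¬ p.1 ∣ q.1 :=
  not_dvd_of_monic p.2.1 q.2.1 p.2.2 q.2.2 fun e => h (Subtype.ext e)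

theorem lin_not_dvd {K : Type} [Field K] {c c' : K} (h : c ≠ c') : ¬ X - C c ∣ X - C c' := by
  rw [dvd_iff_isRoot]
  simpa [sub_eq_zero] using h

theorem val_unit {ι : R →+* F} (hι : Frac ι) {p : R} (hp : Prime p) {a : R} (h : ¬ p ∣ a) :
    val ι p (ι a) = 0 := (dec_unit ι hp h).val_eq hι hp

theorem val_self {ι : R →+* F} (hι : Frac ι) {p : R} (hp : Prime p) : val ι p (ι p) = 1 :=
  (dec_self ι hp).val_eq hι hp

/-- The presentation of `ℂ(t)`. -/
abbrev ι1 : ℂ[X] →+* K1 := algebraMap ℂ[X] K1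

/-- The presentation of `ℂ(t)(Y)` over `ℂ(t)`. -/
abbrev ι2 : K1[X] →+* K2 := algebraMap K1[X] K2

/-- The presentation of `ℂ(t)(Y)(z)` over `ℂ(t)(Y)`. -/
abbrev ι3 : K2[X] →+* K3 := algebraMap K2[X] K3

/-- A scaling factor that has the right parity at all three families of primes. -/
theorem exists_s {a b c d : K3} (ha : a ≠ 0) (hb : b ≠ 0) :
    ∃ s : K3, s ≠ 0 ∧
      (∀ p : MI K2, Odd (val ι3 p.1 s) ↔ Bad (val ι3 p.1) a b c d) ∧
      (∀ q : MI K1, Odd (val (gι ι2) (C q.1) s) ↔ Bad (val (gι ι2) (C q.1)) a b c d) ∧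
      (∀ e : ℂ, Odd (val (gι (gι ι1)) (C (C (X - C e))) s) ↔
        Bad (val (gι (gι ι1)) (C (C (X - C e)))) a b c d) := by
  have f1 : Frac ι1 := frac_ratFunc ℂ
  have f2 : Frac ι2 := frac_ratFunc K1
  have f3 : Frac ι3 := frac_ratFunc K2
  have p2 : ∀ q : MI K1, Prime (C q.1 : K1[X][X]) := fun q => prime_C_iff.2 q.2.1.prime
  have p3 : ∀ e : ℂ, Prime (C (C (X - C e)) : ℂ[X][X][X]) := fun e =>
    prime_C_iff.2 (prime_C_iff.2 (prime_X_sub_C e))
  obtain ⟨s1, hs1, e1, -⟩ := exists_scale' (fun p : MI K2 => val ι3 p.1)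
    (fun p => isVal_val f3 p.2.1.prime) (fun p => ι3 p.1) (fun p => f3.ne p.2.1.ne_zero)
    (fun p => val_self f3 p.2.1.prime) (fun p q h => val_unit f3 p.2.1.prime (MI_not_dvd h))
    (finite_val f3 _ (fun p => p.2.1.prime) finite_MI) (c := c) (d := d) one_ne_zero ha hb
  obtain ⟨s2, hs2, e2, g2⟩ := exists_scale' (fun q : MI K1 => val (gι ι2) (C q.1))
    (fun q => isVal_val f2.gauss (p2 q)) (fun q => gι ι2 (C q.1))
    (fun q => f2.gauss.ne (p2 q).ne_zero) (fun q => val_self f2.gauss (p2 q))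
    (fun p q h => val_unit f2.gauss (p2 p) (C_not_dvd (MI_not_dvd h)))
    (finite_val f2.gauss _ p2 (finite_C _ finite_MI)) (c := c) (d := d) hs1 ha hb
  obtain ⟨s3, hs3, e3, g3⟩ := exists_scale' (fun e : ℂ => val (gι (gι ι1)) (C (C (X - C e))))
    (fun e => isVal_val f1.gauss.gauss (p3 e)) (fun e => gι (gι ι1) (C (C (X - C e))))
    (fun e => f1.gauss.gauss.ne (p3 e).ne_zero) (fun e => val_self f1.gauss.gauss (p3 e))
    (fun p q h => val_unit f1.gauss.gauss (p3 p) (C_not_dvd (C_not_dvd (lin_not_dvd h))))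
    (finite_val f1.gauss.gauss _ p3 (finite_C _ (finite_C _ finite_lin))) (c := c) (d := d)
    hs2 ha hb
  refine ⟨s3, hs3, fun p => ?_, fun q => ?_, e3⟩
  · rw [g3 _ (isVal_val f3 p.2.1.prime) (fun e => ?_), g2 _ (isVal_val f3 p.2.1.prime)
      (fun q => ?_), e1]
    · rw [gι_C]
      exact val_C p.2.1.prime (f2.ne q.2.1.ne_zero)
    · rw [gι_C]
      exact val_C p.2.1.prime (f1.gauss.ne (C_ne_zero.2 (X_sub_C_ne_zero e)))
  · rw [g3 _ (isVal_val f2.gauss (p2 q)) (fun e => ?_), e2]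
    have : gι (gι ι1) (C (C (X - C e))) = gι ι2 (C (C (ι1 (X - C e)))) := by
      rw [gι_C, gι_C, gι_C, RatFunc.algebraMap_C]
    rw [this]
    exact val_unit f2.gauss (p2 q) (C_not_dvd (not_dvd_C q.2.1.prime (f1.ne (X_sub_C_ne_zero e))))

end Families

end

end Pool.Agent.Lib.MP_8363a4_al.H36
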