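import Mathlib
import Pool.Agent.Lib.MP_8363a4_al.H23Upper

/-!
Universal property and functoriality of `K^M_2(F)/2`; tame symbol and specialisation for a
discrete valuation given by an order and a leading coefficient.
-/

namespace Pool.Agent.Lib.MP_8363a4_al.H51

open Pool.Agent.Lib.MP_8363a4_al H23

variable {F : Type} [Field F]

theorem symbol_eq (a : Fin 2 → Fˣ) : symbol 2 a = sy (a 0) (a 1) := by
  unfold sy
  congr 1
  funext i
  fin_cases i <;> rfl

theorem isSum_iff (ξ : KMmod F 2 2) (r : ℕ) :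
    IsSumOfSymbols ξ r ↔ ∃ a b : Fin r → Fˣ, ξ = ∑ j, sy (a j) (b j) := by
  constructor
  · rintro ⟨a, rfl⟩
    exact ⟨fun j => a j 0, fun j => a j 1, Finset.sum_congr rfl fun j _ => symbol_eq _⟩
  · rintro ⟨a, b, rfl⟩
    exact ⟨fun j => ![a j, b j], rfl⟩

/-- Universal property of `K^M_2(F)/2`. -/
theorem exists_lift {G : Type} [AddCommGroup G] (hG : ∀ g : G, g + g = 0) (f : Fˣ → Fˣ → G)
    (h1 : ∀ a b c, f (a * b) c = f a c + f b c) (h2 : ∀ a b c, f a (b * c) = f a b + f a c)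
    (hs : ∀ a b : Fˣ, (a : F) + b = 1 → f a b = 0) :
    ∃ L : KMmod F 2 2 →+ G, ∀ a b, L (sy a b) = f a b := by
  let l (c : Fˣ) : Additive Fˣ →+ G :=
    AddMonoidHom.mk' (fun x => f x.toMul c) (fun x y => h1 _ _ _)
  let r (c : Fˣ) : Additive Fˣ →+ G :=
    AddMonoidHom.mk' (fun x => f c x.toMul) (fun x y => h2 _ _ _)
  let μ : MultilinearMap ℤ (fun _ : Fin 2 => Additive Fˣ) G :=
    MultilinearMap.mk' (fun x => f (x 0).toMul (x 1).toMul)
      (by
        intro m i x y
        fin_cases i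
        · simpa using h1 _ _ _
        · simpa using h2 _ _ _)
      (by
        intro m i c x
        fin_cases i
        · simpa [l] using (l (m 1).toMul).map_zsmul c x
        · simpa [r] using (r (m 0).toMul).map_zsmul c x)
  let Φ0 : Tens F 2 →ₗ[ℤ] G := PiTensorProduct.lift μ
  have h0 : ∀ a : Fin 2 → Fˣ, Φ0 (pure a) = f (a 0) (a 1) := by
    intro a
    simp [Φ0, pure, μ]
  have h3 : steinberg F 2 ≤ LinearMap.ker Φ0 := by
    rw [steinberg, Submodule.span_le]
    rintro _ ⟨a, ⟨i, j, hij, h⟩, rfl⟩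
    change Φ0 (pure a) = 0
    rw [h0]
    apply hs
    fin_cases i <;> fin_cases j
    · exact absurd rfl hij
    · exact h
    · rw [add_comm]; exact h
    · exact absurd rfl hij
  let Φ1 : KM F 2 →ₗ[ℤ] G := (steinberg F 2).liftQ Φ0 h3
  have h4 : multiples F 2 2 ≤ LinearMap.ker Φ1 := by
    rintro _ ⟨x, rfl⟩
    rw [LinearMap.mem_ker, LinearMap.smul_apply, map_smul]
    have := hG (Φ1 (LinearMap.id (R := ℤ) x))
    rw [← this]
    push_cast
    rw [two_zsmul]
  refine ⟨((multiples F 2 2).liftQ Φ1 h4).toAddMonoidHom, fun a b => ?_⟩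
  exact h0 ![a, b]

theorem induction (P : KMmod F 2 2 → Prop) (h0 : P 0) (hs : ∀ a b, P (sy a b))
    (ha : ∀ x y, P x → P y → P (x + y)) (ξ : KMmod F 2 2) : P ξ := by
  have hz : ∀ (c : ℤ) x, P x → P (c • x) := by
    intro c x hx
    rcases Int.even_or_odd' c with ⟨k, rfl | rfl⟩
    · rw [mul_comm, mul_smul, two_zsmul, km_two, smul_zero]; exact h0
    · rw [add_smul, mul_comm, mul_smul, two_zsmul, km_two, smul_zero, zero_add, one_smul]
      exact hx
  obtain ⟨x, rfl⟩ := (multiples F 2 2).mkQ_surjective ξ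
  obtain ⟨t, rfl⟩ := (steinberg F 2).mkQ_surjective x
  induction t using PiTensorProduct.induction_on with
  | smul_tprod c a =>
    rw [map_smul, map_smul]
    apply hz
    have := hs (a 0).toMul (a 1).toMul
    rw [← symbol_eq (fun i => (a i).toMul)] at this
    exact this
  | add x y hx hy =>
    rw [map_add, map_add]
    exact ha _ _ hx hy

theorem hom_ext {G : Type} [AddCommGroup G] {L L' : KMmod F 2 2 →+ G}
    (h : ∀ a b, L (sy a b) = L' (sy a b)) (ξ : KMmod F 2 2) : L ξ = L' ξ := by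
  induction ξ using induction with
  | h0 => simp
  | hs a b => exact h a b
  | ha x y hx hy => rw [map_add, map_add, hx, hy]

section map

variable {E E' : Type} [Field E] [Field E']

theorem exists_map (φ : F →+* E) : ∃ L : KMmod F 2 2 →+ KMmod E 2 2,
    ∀ a b, L (sy a b) = sy (Units.map φ a) (Units.map φ b) := by
  apply exists_lift km_two
  · intro a b c; rw [map_mul, sy_mul_left]
  · intro a b c; rw [map_mul, sy_mul_right]
  · intro a b h
    apply sy_st
    simpa using congrArg φ h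

/-- Functoriality of `K^M_2/2`. -/
noncomputable def kmap (φ : F →+* E) : KMmod F 2 2 →+ KMmod E 2 2 := (exists_map φ).choose

theorem kmap_sy (φ : F →+* E) (a b : Fˣ) :
    kmap φ (sy a b) = sy (Units.map φ a) (Units.map φ b) := (exists_map φ).choose_spec a b

theorem kmap_kmap (φ : F →+* E) (ψ : E →+* E') (ξ : KMmod F 2 2) :
    kmap ψ (kmap φ ξ) = kmap (ψ.comp φ) ξ := by
  refine hom_ext (L := (kmap ψ).comp (kmap φ)) (fun a b => ?_) ξ
  rw [AddMonoidHom.comp_apply, kmap_sy, kmap_sy, kmap_sy]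
  rfl

theorem kmap_id (ξ : KMmod F 2 2) : kmap (RingHom.id F) ξ = ξ := by
  refine hom_ext (L' := AddMonoidHom.id _) (fun a b => ?_) ξ
  rw [kmap_sy]
  rfl

theorem IsSum.map (φ : F →+* E) {ξ : KMmod F 2 2} {r : ℕ} (h : IsSumOfSymbols ξ r) :
    IsSumOfSymbols (kmap φ ξ) r := by
  rw [isSum_iff] at h ⊢
  obtain ⟨a, b, rfl⟩ := h
  exact ⟨fun j => Units.map φ (a j), fun j => Units.map φ (b j), by
    rw [map_sum]; exact Finset.sum_congr rfl fun j _ => kmap_sy _ _ _⟩

/-- A class that is not a sum of `r` symbols moves along an isomorphism of fields. -/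
theorem exists_not_of_equiv (e : F ≃+* E) {r : ℕ}
    (h : ∃ ξ : KMmod F 2 2, ¬ IsSumOfSymbols ξ r) : ∃ ξ : KMmod E 2 2, ¬ IsSumOfSymbols ξ r := by
  obtain ⟨ξ, hξ⟩ := h
  refine ⟨kmap e.toRingHom ξ, fun h => hξ ?_⟩
  have := IsSum.map e.symm.toRingHom h
  rwa [kmap_kmap, RingEquiv.symm_toRingHom_comp_toRingHom, kmap_id] at this

end map

theorem sy_sq_left (a b : Fˣ) : sy (a * a) b = 0 := by rw [sy_mul_left, km_two]

theorem sy_sq_right (a b : Fˣ) : sy a (b * b) = 0 := by rw [sy_mul_right, km_two]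

theorem sy_prod_right {ι : Type} (s : Finset ι) (a : Fˣ) (w : ι → Fˣ) :
    sy a (∏ i ∈ s, w i) = ∑ i ∈ s, sy a (w i) := by
  classical
  induction s using Finset.induction_on with
  | empty => simp [sy_one_right]
  | insert i s hi ih => rw [Finset.prod_insert hi, Finset.sum_insert hi, sy_mul_right, ih]

/-- Units modulo squares, written additively. -/
def Sq (F : Type) [Field F] : Type :=
  Additive (Fˣ ⧸ (powMonoidHom 2 : Fˣ →* Fˣ).range)

noncomputable instance : AddCommGroup (Sq F) :=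
  inferInstanceAs (AddCommGroup (Additive (Fˣ ⧸ (powMonoidHom 2 : Fˣ →* Fˣ).range)))

/-- The class of a unit modulo squares. -/
def cl (a : Fˣ) : Sq F := Additive.ofMul (QuotientGroup.mk a)

theorem cl_mul (a b : Fˣ) : cl (a * b) = cl a + cl b := rfl

theorem cl_one : cl (1 : Fˣ) = 0 := rfl

theorem cl_eq_zero (a : Fˣ) : cl a = 0 ↔ ∃ u : Fˣ, a = u * u := by
  change (QuotientGroup.mk a : Fˣ ⧸ (powMonoidHom 2 : Fˣ →* Fˣ).range) = 1 ↔ _
  rw [QuotientGroup.eq_one_iff]
  constructor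
  · rintro ⟨u, hu⟩
    exact ⟨u, by rw [← hu, powMonoidHom_apply, sq]⟩
  · rintro ⟨u, hu⟩
    exact ⟨u, by rw [hu, powMonoidHom_apply, sq]⟩

theorem sq_two (g : Sq F) : g + g = 0 := by
  obtain ⟨a, rfl⟩ : ∃ a : Fˣ, g = cl a := by
    obtain ⟨a, ha⟩ := QuotientGroup.mk_surjective
      (Additive.toMul (α := Fˣ ⧸ (powMonoidHom 2 : Fˣ →* Fˣ).range) g)
    exact ⟨a, by unfold cl; rw [ha]; rfl⟩
  rw [← cl_mul, cl_eq_zero]
  exact ⟨a, rfl⟩

theorem cl_prod {ι : Type} (s : Finset ι) (w : ι → Fˣ) :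
    cl (∏ i ∈ s, w i) = ∑ i ∈ s, cl (w i) := by
  classical
  induction s using Finset.induction_on with
  | empty => simp [cl_one]
  | insert i s hi ih => rw [Finset.prod_insert hi, Finset.sum_insert hi, cl_mul, ih]

theorem zsmul_two {G : Type} [AddCommGroup G] (hG : ∀ g : G, g + g = 0) (g : G) (k : ℤ) :
    (2 * k) • g = 0 := by
  rw [mul_comm, mul_smul, two_zsmul, hG, smul_zero]

/-- An order `v` and a leading coefficient `c` on the units of `F`, with values in `κ`. -/
structure Lead (F κ : Type) [Field F] [Field κ] where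
  v : Fˣ → ℤ
  c : Fˣ → κˣ
  v_mul : ∀ a b, v (a * b) = v a + v b
  c_mul : ∀ a b, c (a * b) = c a * c b
  st : ∀ a b : Fˣ, (a : F) + b = 1 → (v a = 0 ∧ c a = 1) ∨ (v b = 0 ∧ c b = 1) ∨
    (v a = 0 ∧ v b = 0 ∧ (c a : κ) + c b = 1) ∨ (v a = v b ∧ c b = - c a)

variable {κ : Type} [Field κ]

theorem Lead.exists_spec (R : Lead F κ) : ∃ L : KMmod F 2 2 →+ KMmod κ 2 2,
    ∀ a b, L (sy a b) = sy (R.c a) (R.c b) := by
  apply exists_lift km_two
  · intro a b c; rw [R.c_mul, sy_mul_left]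
  · intro a b c; rw [R.c_mul, sy_mul_right]
  · intro a b h
    rcases R.st a b h with h | h | h | h
    · rw [h.2, sy_one_left]
    · rw [h.2, sy_one_right]
    · exact sy_st _ _ h.2.2
    · rw [h.2, sy_neg_self]

theorem Lead.exists_tame (R : Lead F κ) {j : κˣ} (hj : j * j = -1) :
    ∃ L : KMmod F 2 2 →+ Sq κ,
      ∀ a b, L (sy a b) = R.v a • cl (R.c b) + R.v b • cl (R.c a) := by
  apply exists_lift sq_two
  · intro a b c; rw [R.c_mul, R.v_mul, cl_mul, add_smul, smul_add]; abel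
  · intro a b c; rw [R.c_mul, R.v_mul, cl_mul, add_smul, smul_add]; abel
  · intro a b h
    rcases R.st a b h with h | h | h | h
    · rw [h.1, h.2, cl_one]; simp
    · rw [h.1, h.2, cl_one]; simp
    · rw [h.1, h.2.1]; simp
    · rw [h.1, h.2, ← smul_add, ← cl_mul, (cl_eq_zero _).mpr ⟨j * R.c a, ?_⟩, smul_zero]
      rw [mul_mul_mul_comm, hj]
      simp

/-- Normal form of a symbol at a discrete valuation. -/
theorem Lead.normal (R : Lead F κ) {j : κˣ} (hj : j * j = -1) (a b : Fˣ) :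
    ∃ (u w : κˣ) (e : Bool), sy (R.c a) (R.c b) = sy u w ∧
      R.v a • cl (R.c b) + R.v b • cl (R.c a) = if e then cl w else 0 := by
  rcases Int.even_or_odd' (R.v a) with ⟨k, hk | hk⟩ <;>
    rcases Int.even_or_odd' (R.v b) with ⟨l, hl | hl⟩
  · exact ⟨_, _, false, rfl, by rw [hk, hl, zsmul_two sq_two, zsmul_two sq_two]; simp⟩
  · exact ⟨R.c b, R.c a, true, sy_comm hj _ _, by
      rw [hk, hl, add_smul, zsmul_two sq_two, zsmul_two sq_two]; simp⟩
  · exact ⟨_, _, true, rfl, by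
      rw [hk, hl, add_smul, zsmul_two sq_two, zsmul_two sq_two]; simp⟩
  · refine ⟨R.c a, R.c a * R.c b, true, by rw [sy_mul_right, sy_self hj, zero_add], ?_⟩
    rw [hk, hl, add_smul, add_smul, zsmul_two sq_two, zsmul_two sq_two, cl_mul]
    simp [add_comm]

/-- If the specialisation of a sum of `n+1` symbols is `η` and its tame symbol is a nonsquare `b`,
then `η` becomes a sum of `n` symbols over every extension in which `b` is a square. -/
theorem Lead.drop (R : Lead F κ) {j : κˣ} (hj : j * j = -1) {E : Type} [Field E] (φ : κ →+* E)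
    {S : KMmod F 2 2 →+ KMmod κ 2 2} (hS : ∀ a b, S (sy a b) = sy (R.c a) (R.c b))
    {T : KMmod F 2 2 →+ Sq κ} (hT : ∀ a b, T (sy a b) = R.v a • cl (R.c b) + R.v b • cl (R.c a))
    {ξ : KMmod F 2 2} {n : ℕ} (h : IsSumOfSymbols ξ (n + 1)) {b : κˣ} (hb : T ξ = cl b)
    (hb0 : cl b ≠ 0) (hb1 : cl (Units.map (φ : κ →* E) b) = 0) :
    IsSumOfSymbols (kmap φ (S ξ)) n := by
  classical
  rw [isSum_iff] at h ⊢
  obtain ⟨x, y, rfl⟩ := h
  choose u w e h1 h2 using fun i => R.normal hj (x i) (y i)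
  rw [map_sum] at hb
  simp only [hT, h2] at hb
  obtain ⟨i0, hi0⟩ : ∃ i, e i = true := by
    by_contra hcon
    push Not at hcon
    apply hb0
    rw [← hb]
    exact Finset.sum_eq_zero fun i _ => if_neg (hcon i)
  let w' : Fin n → κˣ := fun i => if e (i0.succAbove i) then w (i0.succAbove i) else 1
  have hw : cl (w i0 * (∏ i, w' i) * b) = 0 := by
    rw [cl_mul, cl_mul, cl_prod, ← hb, Fin.sum_univ_succAbove _ i0, if_pos hi0]
    have : ∀ i, cl (w' i) = if e (i0.succAbove i) then cl (w (i0.succAbove i)) else 0 := by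
      intro i
      simp only [w']
      split_ifs
      · rfl
      · exact cl_one
    simp only [this]
    exact sq_two _
  obtain ⟨s, hs⟩ := (cl_eq_zero _).mp hw
  obtain ⟨t, ht⟩ := (cl_eq_zero _).mp hb1
  let ψ : κˣ →* Eˣ := Units.map (φ : κ →* E)
  have hk : sy (ψ (u i0)) (ψ (w i0)) = ∑ i, sy (ψ (u i0)) (ψ (w' i)) := by
    apply eq_of_add_eq_zero_two
    rw [← sy_prod_right, ← map_prod, ← sy_mul_right, ← map_mul]
    have h3 := sy_sq_right (ψ (u i0)) (ψ s)
    rw [← map_mul, ← hs, map_mul, sy_mul_right, ht, sy_sq_right, add_zero] at h3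
    exact h3
  refine ⟨fun i => ψ ((if e (i0.succAbove i) then u i0 else 1) * u (i0.succAbove i)),
    fun i => ψ (w (i0.succAbove i)), ?_⟩
  rw [map_sum, map_sum]
  simp only [hS, h1, kmap_sy]
  rw [Fin.sum_univ_succAbove _ i0]
  change sy (ψ (u i0)) (ψ (w i0)) + ∑ i, sy (ψ (u (i0.succAbove i))) (ψ (w (i0.succAbove i))) = _
  rw [hk, ← Finset.sum_add_distrib]
  refine Finset.sum_congr rfl fun i _ => ?_
  rw [map_mul, sy_mul_left]
  congr 1
  simp only [w']
  split_ifs
  · rfl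
  · rw [map_one, sy_one_left, sy_one_right]

end Pool.Agent.Lib.MP_8363a4_al.H51
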