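import Mathlib
import Pool.Agent.Lib.MP_8363a4_al.H36Tower
import Pool.Agent.Lib.MP_8363a4_al.H51K2

/-!
The tame symbol of a `Res`, presentations of fields as fraction fields, and the swap of the two
variables of `k(X)(Y)`.
-/

namespace Pool.Agent.Lib.MP_8363a4_al.H51

open Polynomial

/-- `ι` presents the field `L` as the fraction field of `R`. -/
def Pres {R L : Type} [CommRing R] [Field L] (ι : R →+* L) : Prop :=
  Function.Injective ι ∧ ∀ z : L, ∃ x y, z = ι x / ι y

theorem Pres.exists_equiv {R L R' L' : Type} [CommRing R] [Field L] [CommRing R'] [Field L']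
    {ι : R →+* L} {ι' : R' →+* L'} (h : Pres ι) (h' : Pres ι') (e : R ≃+* R') :
    ∃ σ : L ≃+* L', ∀ x, σ (ι x) = ι' (e x) := by
  let _ : Algebra R L := ι.toAlgebra
  let _ : Algebra R' L' := ι'.toAlgebra
  have _ : FaithfulSMul R L := (faithfulSMul_iff_algebraMap_injective R L).mpr h.1
  have _ : FaithfulSMul R' L' := (faithfulSMul_iff_algebraMap_injective R' L').mpr h'.1
  have _ : IsFractionRing R L := IsFractionRing.of_field R L h.2
  have _ : IsFractionRing R' L' := IsFractionRing.of_field R' L' h'.2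
  exact ⟨IsFractionRing.ringEquivOfRingEquiv e,
    fun x => IsFractionRing.ringEquivOfRingEquiv_algebraMap e x⟩

theorem pres_algebraMap (R L : Type) [CommRing R] [Field L] [Algebra R L] [IsFractionRing R L] :
    Pres (algebraMap R L) :=
  ⟨IsFractionRing.injective R L, fun z => by
    obtain ⟨x, y, -, h⟩ := IsFractionRing.div_surjective (A := R) z
    exact ⟨x, y, h.symm⟩⟩

theorem pres_id (L : Type) [Field L] : Pres (RingHom.id L) :=
  ⟨Function.injective_id, fun z => ⟨z, 1, by simp⟩⟩

/-- The map `R[X] → L(X)` induced by `R → L`. -/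
noncomputable def polyMap {R L : Type} [CommRing R] [Field L] (ι : R →+* L) :
    R[X] →+* RatFunc L :=
  (algebraMap L[X] (RatFunc L)).comp (mapRingHom ι)

theorem polyMap_X {R L : Type} [CommRing R] [Field L] (ι : R →+* L) :
    polyMap ι X = RatFunc.X := by
  simp [polyMap]

theorem polyMap_C {R L : Type} [CommRing R] [Field L] (ι : R →+* L) (a : R) :
    polyMap ι (C a) = RatFunc.C (ι a) := by
  simp [polyMap]

theorem Pres.poly {R L : Type} [CommRing R] [Field L] {ι : R →+* L} (h : Pres ι) :
    Pres (polyMap ι) := by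
  let _ : Algebra R L := ι.toAlgebra
  have _ : FaithfulSMul R L := (faithfulSMul_iff_algebraMap_injective R L).mpr h.1
  have _ : IsFractionRing R L := IsFractionRing.of_field R L h.2
  have _ : IsDomain R := h.1.isDomain ι
  refine ⟨(IsFractionRing.injective L[X] (RatFunc L)).comp (map_injective ι h.1), fun z => ?_⟩
  have key : ∀ p : L[X], ∃ (q : R[X]) (b : R), b ≠ 0 ∧
      polyMap ι q = polyMap ι (C b) * algebraMap L[X] (RatFunc L) p := by
    intro p
    obtain ⟨b, hb, hp⟩ := IsLocalization.integerNormalization_spec (nonZeroDivisors R) p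
    refine ⟨IsLocalization.integerNormalization (nonZeroDivisors R) p, b,
      nonZeroDivisors.ne_zero hb, ?_⟩
    change algebraMap L[X] (RatFunc L) (Polynomial.map (algebraMap R L) _) =
      algebraMap L[X] (RatFunc L) (Polynomial.map (algebraMap R L) (C b)) * _
    rw [hp, ← map_mul, map_C, ← algebraMap_smul L b p, smul_eq_C_mul]
  obtain ⟨x, y, hy, rfl⟩ := IsFractionRing.div_surjective (A := L[X]) z
  obtain ⟨p, a, ha, hp⟩ := key x
  obtain ⟨q, b, hb, hq⟩ := key y
  have ha' : polyMap ι (C a) ≠ 0 := by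
    rw [polyMap_C]
    exact (_root_.map_ne_zero _).mpr ((map_ne_zero_iff ι h.1).mpr ha)
  have hb' : polyMap ι (C b) ≠ 0 := by
    rw [polyMap_C]
    exact (_root_.map_ne_zero _).mpr ((map_ne_zero_iff ι h.1).mpr hb)
  refine ⟨C b * p, C a * q, ?_⟩
  rw [map_mul, map_mul, hp, hq, ← mul_assoc, ← mul_assoc, mul_comm (polyMap ι (C b)),
    mul_div_mul_left _ _ (mul_ne_zero ha' hb')]

end Pool.Agent.Lib.MP_8363a4_al.H51

namespace Pool.Agent.Lib.MP_8363a4_al.H36

open Polynomial

/-- (T) the tame symbol of a `Res` on `K_2/2`. -/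
theorem exists_tame {F κ : Type} [Field F] [Field κ] (r : Res F κ) (hF : IsSquare (-1 : F)) :
    ∃ T : KMmod F 2 2 →+ Sq κ, ∀ a : Fin 2 → Fˣ,
      T (symbol 2 a) = r.v (a 1) • cls (r.ρ (a 0)) + r.v (a 0) • cls (r.ρ (a 1)) := by
  have hκ := r.isSquare_neg_one hF
  obtain ⟨T, hT⟩ := H51.exists_lift (F := F) (G := Sq κ) sq_add_self
    (fun a b => r.v b • cls (r.ρ a) + r.v a • cls (r.ρ b))
    (by
      intro a b c
      rw [Units.val_mul, map_mul, r.v_mul _ _ a.ne_zero b.ne_zero,
        cls_mul (r.ρ_ne a.ne_zero) (r.ρ_ne b.ne_zero), add_smul, smul_add]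
      abel)
    (by
      intro a b c
      rw [Units.val_mul, map_mul, r.v_mul _ _ b.ne_zero c.ne_zero,
        cls_mul (r.ρ_ne b.ne_zero) (r.ρ_ne c.ne_zero), add_smul, smul_add]
      abel)
    (by
      intro a b h
      rcases lt_trichotomy (r.v a) (r.v b) with h1 | h1 | h1
      · obtain ⟨h2, h3⟩ := r.add_lt _ _ a.ne_zero b.ne_zero h1
        rw [h, r.v_one] at h2
        rw [h, map_one] at h3
        rw [← h2, ← h3, cls_one]
        simp
      · by_cases h0 : r.ρ a + r.ρ b = 0
        · rw [h1, eq_neg_of_add_eq_zero_left h0, cls_neg hκ, sq_add_self]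
        · obtain ⟨h2, -⟩ := r.add_eq _ _ a.ne_zero b.ne_zero h1 h0
          rw [h, r.v_one] at h2
          rw [← h1, ← h2]
          simp
      · obtain ⟨h2, h3⟩ := r.add_lt _ _ b.ne_zero a.ne_zero h1
        rw [add_comm, h, r.v_one] at h2
        rw [add_comm, h, map_one] at h3
        rw [← h2, ← h3, cls_one]
        simp)
  exact ⟨T, fun a => by rw [H51.symbol_eq, hT]⟩

/-- (Sw) swapping the two variables. -/
theorem exists_swap (k : Type) [Field k] :
    ∃ σ : RF (RF k) →+* RF (RF k), σ xx = cc xx ∧ σ (cc xx) = xx := by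
  have h := ((H51.pres_id k).poly).poly
  obtain ⟨σ, hσ⟩ := h.exists_equiv h (Polynomial.Bivariate.swap (R := k)).toRingEquiv
  refine ⟨σ.toRingHom, ?_, ?_⟩
  · have := hσ X
    rw [H51.polyMap_X, show (Polynomial.Bivariate.swap (R := k)).toRingEquiv X = C X from
      Polynomial.Bivariate.swap_Y, H51.polyMap_C, H51.polyMap_X] at this
    exact this
  · have := hσ (C X)
    rw [H51.polyMap_C, H51.polyMap_X,
      show (Polynomial.Bivariate.swap (R := k)).toRingEquiv (C X) = X from
        Polynomial.Bivariate.swap_X, H51.polyMap_X] at this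
    exact this

end Pool.Agent.Lib.MP_8363a4_al.H36
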