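import Pool.Agent.Lib.MP_8363a4_al.H8K1
import Pool.Agent.Lib.MP_8363a4_al.H36Tower

/-!
Step (K): `⟨x, x - 1, x - y², y⟩` over `ℂ(x)(y)` is not of the form `⟨l⟩ + ⟨l δ⟩`; the
endomorphism exchanging the two variables.
-/

namespace Pool.Agent.Lib.MP_8363a4_al.H8

open Polynomial

theorem not_dvd_of_lt {L : Type*} [Field L] {p a : L[X]} (ha : a ≠ 0)
    (h : a.natDegree < p.natDegree) : ¬ p ∣ a := fun k =>
  ha (eq_zero_of_dvd_of_natDegree_lt k h)

theorem sq_eval {L : Type*} [Field L] {r : L} {g a : L[X]} (h : X - C r ∣ g ^ 2 - a) :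
    IsSquare (a.eval r) := by
  have := dvd_iff_isRoot.1 h
  rw [IsRoot.def, eval_sub, eval_pow, sub_eq_zero] at this
  exact ⟨g.eval r, by rw [← this, sq]⟩

variable {W : Type} [AddCommGroup W] {w : RatFunc (RatFunc ℂ) → W}

theorem no_binary
    (hsq : ∀ a b, a ≠ 0 → b ≠ 0 → w (a * b ^ 2) = w a)
    (hadd : ∀ a b, a ≠ 0 → b ≠ 0 → a + b ≠ 0 → w a + w b = w (a + b) + w (a * b * (a + b)))
    (hres : HasRes w) (x y : RatFunc (RatFunc ℂ))
    (hx : x = RatFunc.C (RatFunc.X : RatFunc ℂ)) (hy : y = RatFunc.X) (l : RatFunc (RatFunc ℂ)) (hl : l ≠ 0) :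
    w l + w (l * (y * (x * (x - 1) * (x - y ^ 2)))) ≠ w x + w (x - 1) + w (x - y ^ 2) + w y := by
  intro h
  set t : RatFunc ℂ := RatFunc.X with ht
  have t0 : t ≠ 0 := RatFunc.X_ne_zero
  have t1 : t - 1 ≠ 0 := fun h => not_isSquare_X_sub_one (k := ℂ) ⟨0, by rw [← ht, h, mul_zero]⟩
  have d0 : t * (t - 1) ≠ 0 := mul_ne_zero t0 t1
  set P : (RatFunc ℂ)[X] := X ^ 2 - C t with hP
  have P1 : P.Monic := monic_X_pow_sub_C t two_ne_zero
  have P2 : Irreducible P := X_pow_sub_C_irreducible_of_prime Nat.prime_two fun b hb =>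
    not_isSquare_X (k := ℂ) ⟨b, by rw [← ht, ← hb, sq]⟩
  have P3 : P.natDegree = 2 := natDegree_X_pow_sub_C
  set δ : (RatFunc ℂ)[X] := P * (C (-(t * (t - 1))) * X) with hδ
  have c0 : ∀ {a : RatFunc ℂ}, a ≠ 0 → ∀ {p : (RatFunc ℂ)[X]}, Irreducible p → ¬ p ∣ C a :=
    fun ha p hp k => hp.not_isUnit (isUnit_of_dvd_unit k (isUnit_C.2 ha.isUnit))
  have cX : ∀ {a : RatFunc ℂ}, a ≠ 0 → (C a * X).natDegree = 1 := fun ha => natDegree_C_mul_X _ ha
  have δ3 : δ.natDegree = 3 := by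
    rw [hδ, natDegree_mul P2.ne_zero (mul_ne_zero (C_ne_zero.2 (neg_ne_zero.2 d0)) X_ne_zero), P3,
      cX (neg_ne_zero.2 d0)]
  have e1 : x = algebraMap _ _ (C t) := by rw [hx, RatFunc.algebraMap_C]
  have e2 : x - 1 = algebraMap _ _ (C (t - 1)) := by rw [e1, map_sub C, map_sub, map_one, map_one]
  have e4 : y = algebraMap (RatFunc ℂ)[X] _ (X * 1) := by rw [hy, mul_one, RatFunc.algebraMap_X]
  have e3 : x - y ^ 2 = algebraMap _ _ (P * -1) := by
    rw [e1, e4, ← map_pow, ← map_sub]; congr 1; rw [hP]; ring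
  have e5 : y * (x * (x - 1) * (x - y ^ 2)) = algebraMap _ _ δ := by
    rw [e3, e2, e1, e4, ← map_mul, ← map_mul, ← map_mul]; congr 1
    rw [hδ, map_neg, map_mul]; ring
  rw [e5, e3, e2, e1, e4] at h
  have hi : (RatFunc.C Complex.I : RatFunc ℂ) ^ 2 = -1 := by
    rw [← map_pow, Complex.I_sq, map_neg, map_one]
  have hi' : (RatFunc.C (RatFunc.C Complex.I) : RatFunc (RatFunc ℂ)) ^ 2 = -1 := by
    rw [← map_pow, hi, map_neg, map_one]
  obtain ⟨m, m0, m1, ⟨g, hg⟩, hm⟩ := descent hsq hadd hres hi' δ3 _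
    (fun p _ p2 p3 A _ D hD => by
      rw [map_add, map_add, map_add, hD _ (c0 t0 p2), hD _ (c0 t1 p2),
        hD _ fun k => p3 (k.trans ⟨C (t * (t - 1)) * X, by rw [hδ, map_neg]; ring⟩),
        hD _ fun k => p3 (k.trans ⟨P * C (-(t * (t - 1))), by rw [hδ]; ring⟩)]
      simp) l hl h
  obtain ⟨c, e, rfl⟩ := exists_eq_X_add_C_of_natDegree_le_one m1
  obtain ⟨u, v, h1, h2⟩ : ∃ u v : RatFunc ℂ, u ^ 2 + t * v ^ 2 = c * (t * (t - 1)) * t + 0 ∧
      2 * u * v = e * (t * (t - 1)) := by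
    obtain ⟨A, _, D, cls, d1, d2, -, d4⟩ := hres P P1 P2
    have a1 : ¬ P ∣ C c * X + C e := not_dvd_of_lt m0 (by omega)
    have a2 : ¬ P ∣ X := not_dvd_of_lt X_ne_zero (by rw [natDegree_X]; omega)
    have a3 : ¬ P ∣ (C c * X + C e) * (C (-(t * (t - 1))) * X) := fun k =>
      (P2.prime.dvd_or_dvd k).elim a1 fun k =>
        (P2.prime.dvd_or_dvd k).elim (c0 (neg_ne_zero.2 d0) P2) a2
    have a4 : ¬ P ∣ -1 := fun k => P2.not_isUnit (isUnit_of_dvd_unit k isUnit_one.neg)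
    have := congrArg D hm
    rw [hδ, mul_left_comm, map_add D, map_add D, map_add D, map_add D, d1 _ a1, d2 _ a3,
      d1 _ (c0 t0 P2), d1 _ (c0 t1 P2), d2 _ a4, d1 _ (by rwa [mul_one]), zero_add, zero_add,
      zero_add, add_zero] at this
    obtain ⟨g, hg⟩ := d4 _ _ a3 a4 this
    refine sq_quad (g := g) ?_
    convert hg using 2
    simp only [map_neg, map_mul, map_zero]
    ring
  rw [add_zero] at h1
  by_cases hc : c = 0
  · have e0 : e ≠ 0 := by rintro rfl; simp [hc] at m0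
    have v0 : v ≠ 0 := by
      rintro rfl
      exact mul_ne_zero e0 d0 (by rw [← h2, mul_zero])
    refine not_isSquare_X (k := ℂ) ⟨RatFunc.C Complex.I * u / v, ?_⟩
    rw [← ht]
    rw [hc] at h1
    field_simp
    linear_combination h1 - u ^ 2 * hi
  obtain ⟨r, rfl⟩ : ∃ r, e = -(c * r) := ⟨-e / c, by field_simp⟩
  obtain ⟨A, _, D, cls, d1, d2, -, d4⟩ := hres X monic_X irreducible_X
  have b1 : ∀ a : (RatFunc ℂ)[X], a.eval 0 ≠ 0 → ¬ X ∣ a := fun a ha k =>
    ha (by rw [← coeff_zero_eq_eval_zero]; exact X_dvd_iff.1 k)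
  have b2 : ¬ (X : (RatFunc ℂ)[X]) ∣ 1 := b1 _ (by simp)
  have hD := congrArg D hm
  rw [map_add D, map_add D, map_add D, map_add D, d1 _ (c0 t0 irreducible_X),
    d1 _ (c0 t1 irreducible_X), d1 (P * -1) (b1 _ (by simpa [hP] using t0)), d2 _ b2, zero_add,
    zero_add, zero_add] at hD
  refine final_case _ c r u v hi hc h1 (by rw [h2]; ring) (fun hr => ?_) (fun hr => ?_) ?_
  · have b3 : ¬ X ∣ C c * (P * C (-(t * (t - 1)))) := b1 _ (by simp [hP, hc, t0, t1])
    have k1 : C c * X + C (-(c * r)) = X * C c := by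
      rw [hr, mul_zero, neg_zero, map_zero, add_zero, mul_comm]
    have k2 : algebraMap _ (RatFunc (RatFunc ℂ)) (X * C c * δ) =
        algebraMap _ _ (C c * (P * C (-(t * (t - 1))))) * algebraMap (RatFunc ℂ)[X] _ X ^ 2 := by
      rw [← map_pow, ← map_mul]; congr 1; rw [hδ]; ring
    rw [k1, k2, hsq _ _ (RatFunc.algebraMap_ne_zero fun k => b3 (by rw [k]; exact dvd_zero _))
      (RatFunc.algebraMap_ne_zero X_ne_zero), d1 _ b3, d2 _ (c0 hc irreducible_X), add_zero] at hD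
    obtain ⟨g, hg⟩ := d4 _ _ (c0 hc irreducible_X) b2 hD
    simpa using sq_eval (r := 0) (g := g) (a := C c * 1) (by simpa using hg)
  · have b3 : ¬ X ∣ C c * X + C (-(c * r)) := b1 _ (by simp [hc, hr])
    have b4 : ¬ X ∣ (C c * X + C (-(c * r))) * (P * C (-(t * (t - 1)))) :=
      b1 _ (by simp [hP, hc, hr, t0, t1])
    have k2 : (C c * X + C (-(c * r))) * δ =
        X * ((C c * X + C (-(c * r))) * (P * C (-(t * (t - 1))))) := by rw [hδ]; ring
    rw [k2, d1 _ b3, d2 _ b4, zero_add] at hD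
    obtain ⟨g, hg⟩ := d4 _ _ b4 b2 hD
    have := sq_eval (r := 0) (g := g) (by rw [map_zero, sub_zero]; exact hg)
    refine (congrArg IsSquare ?_).mp this
    simp [hP, ← ht]
    ring
  · have := sq_eval (r := r) (g := g) (Dvd.dvd.trans ⟨C c, by rw [map_neg, map_mul]; ring⟩ hg)
    refine (congrArg IsSquare ?_).mp this
    simp [hδ, hP, ← ht]
    ring

/-- A field endomorphism of `k(s)(t)` exchanging the two variables. -/
theorem exists_swap (k : Type) [Field k] : ∃ φ : RatFunc (RatFunc k) →+* RatFunc (RatFunc k),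
    φ RatFunc.X = RatFunc.C (RatFunc.X : RatFunc k) ∧
      φ (RatFunc.C (RatFunc.X : RatFunc k)) = RatFunc.X := by
  let j : k[X][X] →+* RatFunc (RatFunc k) :=
    (algebraMap (RatFunc k)[X] _).comp (mapRingHom (algebraMap k[X] (RatFunc k)))
  have hj : Function.Injective j :=
    (RatFunc.algebraMap_injective _).comp (map_injective _ (RatFunc.algebraMap_injective k))
  let _ : Algebra k[X][X] (RatFunc (RatFunc k)) := j.toAlgebra
  have _ : FaithfulSMul k[X][X] (RatFunc (RatFunc k)) :=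
    (faithfulSMul_iff_algebraMap_injective _ _).2 hj
  have h1 : ∀ p : (RatFunc k)[X], ∃ a b : k[X][X], j b ≠ 0 ∧ algebraMap _ _ p = j a / j b := by
    intro p
    obtain ⟨b, hb, h⟩ := IsLocalization.integerNormalization_spec (nonZeroDivisors k[X]) p
    have b0 : j (C b) ≠ 0 := (map_ne_zero_iff _ hj).2 (C_ne_zero.2 (nonZeroDivisors.ne_zero hb))
    refine ⟨IsLocalization.integerNormalization (nonZeroDivisors k[X]) p, C b, b0, ?_⟩
    rw [eq_div_iff b0]
    simp only [j, RingHom.comp_apply, coe_mapRingHom]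
    rw [h, map_C, ← map_mul, mul_comm, C_mul', algebraMap_smul]
  have _ : IsFractionRing k[X][X] (RatFunc (RatFunc k)) := by
    refine IsFractionRing.of_field _ _ fun z => ?_
    obtain ⟨a, b, hb, h⟩ := h1 z.num
    obtain ⟨c, d, hd, h'⟩ := h1 z.denom
    refine ⟨a * d, b * c, ?_⟩
    change z = j (a * d) / j (b * c)
    conv_lhs => rw [← z.num_div_denom, h, h']
    rw [map_mul, map_mul, div_div_div_eq]
  have hs : Function.Injective (j.comp (Bivariate.swap (R := k)).toRingEquiv.toRingHom) :=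
    hj.comp (Bivariate.swap (R := k)).injective
  have jX : j X = RatFunc.X := by simp [j]
  have jC : j (C X) = RatFunc.C (RatFunc.X : RatFunc k) := by simp [j]
  refine ⟨IsFractionRing.lift hs, ?_, ?_⟩
  · rw [← jX, ← jC, ← Bivariate.swap_Y]
    exact IsFractionRing.lift_algebraMap hs X
  · rw [← jC, ← jX, ← Bivariate.swap_X]
    exact IsFractionRing.lift_algebraMap hs (C X)

theorem hasRes_gen {L : Type} [Field L] (hL : IsSquare (-1 : L)) :
    HasRes (H36.gen : RatFunc L → H36.W (RatFunc L)) := by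
  intro p _ hp
  have := Fact.mk hp
  have hκ : IsSquare (-1 : AdjoinRoot p) := by simpa using hL.map (AdjoinRoot.of p)
  have key : ∀ a b, ¬ p ∣ a → ¬ p ∣ b →
      H36.gen (AdjoinRoot.mk p a) = H36.gen (AdjoinRoot.mk p b) → ∃ g, p ∣ g ^ 2 - a * b := by
    intro a b ha hb h
    obtain ⟨r, hr⟩ := H36.isSquare_of_gen_eq hκ (mt AdjoinRoot.mk_eq_zero.1 ha)
      (mt AdjoinRoot.mk_eq_zero.1 hb) h
    obtain ⟨g, rfl⟩ := AdjoinRoot.mk_surjective r
    exact ⟨g, AdjoinRoot.mk_eq_mk.1 (by rw [map_pow, map_mul, hr, sq])⟩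
  exact ⟨H36.W (AdjoinRoot p), inferInstance, (H36.pol p).res.d,
    fun a => H36.gen (AdjoinRoot.mk p a), fun a ha => (H36.pol p).d_unit ha,
    fun a ha => (H36.pol p).d_p_mul ha,
    fun a b ha hb h => key a b ha hb ((eq_neg_of_add_eq_zero_left h).trans (H36.neg_eq _)), key⟩

end Pool.Agent.Lib.MP_8363a4_al.H8

namespace Pool.Agent.Lib.MP_8363a4_al.H36

/-- Step (K), with `x` the inner and `y` the outer variable. -/
theorem noK (x y l : K2) (hx : x = cc xx) (hy : y = xx) (hl : l ≠ 0) :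
    gen l + gen (l * (y * x * (x - 1) * (x - y ^ 2))) ≠
      gen x + gen (x - 1) + gen (x - y ^ 2) + gen y := by
  have h := H8.no_binary (w := gen) (fun a b _ hb => gen_mul_sq a b hb)
    (fun a b _ _ _ => gen_chain a b)
    (H8.hasRes_gen (by simpa using (Complex.isSquare (-1)).map (RatFunc.C : ℂ →+* K1)))
    x y hx hy l hl
  rwa [← mul_assoc y, ← mul_assoc y] at h

/-- Exchanging the two variables. -/
theorem exists_swap' (k : Type) [Field k] :
    ∃ σ : RF (RF k) →+* RF (RF k), σ xx = cc xx ∧ σ (cc xx) = xx := H8.exists_swap k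

end Pool.Agent.Lib.MP_8363a4_al.H36
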