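import Mathlib
import Pool.Agent.Lib.MP_8363a4_al.Defs
import Pool.Agent.Lib.MP_8363a4_al.H36Par
import Pool.Agent.Lib.MP_8363a4_al.H8K2
import Pool.Agent.Lib.MP_8363a4_al.H51Tame
import Pool.Agent.Lib.MP_8363a4_al.H36Milnor

/-!
A class in `K₂/2` of `ℂ(t, Y, z)` that is not a sum of two symbols.
-/

namespace Pool.Agent.Lib.MP_8363a4_al.H36

open Polynomial

noncomputable section

theorem lin_d_sum {K ι : Type} [Field K] [Fintype ι] (θ : ι → K) (hθ : Function.Injective θ)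
    (γ : ι → W K) (c : W K) (i : ι) :
    (lin (θ i)).res.d (map RatFunc.C c + ∑ j, scale (xc (θ j)) (map RatFunc.C (γ j))) = γ i := by
  rw [map_add, lin_d_map, zero_add, map_sum, Finset.sum_eq_single i, lin_d_self]
  · intro j _ hj
    exact lin_d_ne (fun h => hj (hθ h).symm) _
  · simp

/-- A form whose residues are concentrated at finitely many rational points. -/
theorem decomp {K ι : Type} [Field K] [Fintype ι] (θ : ι → K) (hθ : Function.Injective θ)
    (w : W (RatFunc K))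
    (h : ∀ (p : K[X]) [Fact (Irreducible p)], p.Monic → (∀ i, p ≠ X - C (θ i)) →
      (pol p).res.d w = 0) :
    ∃ c : W K, w = map RatFunc.C c +
      ∑ i, scale (xc (θ i)) (map RatFunc.C ((lin (θ i)).res.d w)) := by
  obtain ⟨c, hc⟩ := milnor
    (w + ∑ i, scale (xc (θ i)) (map RatFunc.C ((lin (θ i)).res.d w))) (fun p _ mp => by
      by_cases hp : ∀ i, p ≠ X - C (θ i)
      · rw [map_add, h p mp hp, zero_add, map_sum]
        exact Finset.sum_eq_zero fun i _ => pol_d_ne p mp (hp i) _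
      · push Not at hp
        obtain ⟨i, rfl⟩ := hp
        have := lin_d_sum θ hθ (fun i => (lin (θ i)).res.d w) 0 i
        rw [map_zero, zero_add] at this
        rw [pol_d_lin, map_add, this, add_self, map_zero])
  refine ⟨c, ?_⟩
  rw [← hc, add_assoc, add_self, add_zero]

theorem complex_sq (a : ℂ) : IsSquare a := by
  obtain ⟨b, hb⟩ := IsAlgClosed.exists_eq_mul_self a
  exact ⟨b, hb⟩

/-- A form over `ℂ(t)` is determined by the dimensions of itself and of its residues. -/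
theorem eq_zero_K1 (w : W K1) (h : ∀ e : ℂ, dim ((lin e).res.d w) = 0) (h0 : dim w = 0) :
    w = 0 := by
  obtain ⟨c, hc⟩ := milnor w (fun p hp mp => by
    obtain ⟨e, rfl⟩ : ∃ e : ℂ, p = X - C e := by
      have h1 := IsAlgClosed.degree_eq_one_of_irreducible ℂ hp.out
      refine ⟨-p.coeff 0, ?_⟩
      rw [map_neg, sub_neg_eq_add]
      exact mp.eq_X_add_C (natDegree_eq_of_degree_eq_some h1)
    rw [pol_d_lin, eq_zero_of_dim complex_sq _ (h e), map_zero])
  rw [hc, dim_map] at h0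
  rw [hc, eq_zero_of_dim complex_sq _ h0, map_zero]

theorem lin_v_prod {κ ι : Type} [Field κ] [DecidableEq ι] (φ : ι → κ) (hφ : Function.Injective φ)
    (S : Finset ι) (i : ι) :
    (lin (φ i)).res.v (∏ j ∈ S, xc (φ j)) = if i ∈ S then 1 else 0 := by
  rw [Res.v_prod _ _ _ (fun j => xc_ne _), ← Finset.sum_ite_eq S i (fun _ => (1 : ℤ))]
  refine Finset.sum_congr rfl fun j _ => ?_
  by_cases hij : i = j
  · rw [if_pos hij, hij, (lin_xc_self _).1]
  · rw [if_neg hij, (lin_xc_ne (fun h => hij (hφ h))).1]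

theorem lin_ρ_prod {κ ι : Type} [Field κ] (j : ℂ →+* κ) (θ : ι → ℂ) (hθ : Function.Injective θ)
    (S : Finset ι) (i : ι) (hi : i ∉ S) :
    IsSquare ((lin (j (θ i))).res.ρ (∏ l ∈ S, xc (j (θ l)))) := by
  rw [map_prod]
  refine Finset.prod_induction _ _ (fun _ _ => IsSquare.mul) IsSquare.one fun l hl => ?_
  have : j (θ i) ≠ j (θ l) := fun h => hi (by rwa [hθ (j.injective h)])
  rw [(lin_xc_ne this).2, ← map_sub]
  exact (complex_sq _).map j

/-- The shape of all residues of the scaled Albert form. -/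
structure Data (ι : Type) [Fintype ι] (θ : ι → ℂ) (A : ι → K2) (ψ : W K3) : Prop where
  hZ : ∀ (p : K2[X]) [Fact (Irreducible p)], p.Monic → (∀ i, p ≠ X - C (cc (cc (θ i)) : K2)) →
    (pol p).res.d ψ = 0
  hθ : ∀ i, ∃ l : K2, l ≠ 0 ∧ (lin (cc (cc (θ i)) : K2)).res.d ψ = gen l + gen (l * A i)
  hY : ∀ (κ : Type) [Field κ] (D : PD K1[X] K2 κ), D.ι = ι2 → D.p.Monic → ∀ δ : RF κ, δ ≠ 0 →
    cls δ = ∑ i, D.res.v (A i) • cls (xc (D.ev (C (cc (θ i))))) →
    ∃ μ : RF κ, μ ≠ 0 ∧ D.gauss.res.d ψ = gen μ + gen (μ * δ)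
  hT : ∀ e : ℂ, ∀ δ : RF (RF ℂ), δ ≠ 0 →
    cls δ = ∑ i, (lin e).gauss.res.v (A i) • cls (xc ((lin e).gauss.ev (C (C (θ i))))) →
    ∃ μ : RF (RF ℂ), μ ≠ 0 ∧ (lin e).gauss.gauss.res.d ψ = gen μ + gen (μ * δ)

theorem cls_filter {κ ι : Type} [Field κ] [Fintype ι] (n : ι → ℤ) (f : ι → κ) (hf : ∀ i, f i ≠ 0) :
    cls (∏ i ∈ Finset.univ.filter (fun i => Odd (n i)), f i) = ∑ i, n i • cls (f i) := by
  rw [cls_prod _ _ hf, Finset.sum_filter]
  refine Finset.sum_congr rfl fun i _ => ?_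
  split_ifs with h
  · rw [zsmul_odd _ h]
  · rw [zsmul_even _ (Int.not_odd_iff_even.1 h)]

theorem data_of_tame {ι : Type} [Fintype ι] (θ : ι → ℂ) (hθ : Function.Injective θ) (A : ι → K2)
    (hA : ∀ i, A i ≠ 0) {a b c d : K3} (ha : a ≠ 0) (hb : b ≠ 0) (hc : c ≠ 0) (hd : d ≠ 0)
    (H : ∀ (κ : Type) [Field κ] (r : Res K3 κ),
      tm r a b + tm r c d = ∑ i, tm r (xc (cc (cc (θ i)) : K2)) (cc (A i))) :
    ∃ ψ, Data ι θ A ψ := by
  classical
  obtain ⟨s, hs, e1, e2, e3⟩ := exists_s (c := c) (d := d) ha hb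
  have inj : Function.Injective (fun i => (cc (cc (θ i)) : K2)) := fun i j h =>
    hθ ((cc : ℂ →+* K1).injective ((cc : K1 →+* K2).injective h))
  refine ⟨tri s a b + tri s c d, fun p hp mp h => ?_, fun i => ?_, fun κ _ D h1 h2 δ hδ h => ?_,
    fun e δ hδ h => ?_⟩
  · obtain ⟨μ, -, hμ⟩ := (pol p).res.good hs ha hb hc hd (e1 ⟨p, hp.out, mp⟩) one_ne_zero (by
      rw [H, cls_one]
      refine (Finset.sum_eq_zero fun i _ => ?_).symm
      have v1 : (pol p).res.v (cc (A i)) = 0 := val_C hp.out.prime (hA i)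
      have v2 : (pol p).res.v (xc (cc (cc (θ i)) : K2)) = 0 := by
        rw [xc_eq]
        exact (pol p).v_unit
          (not_dvd_of_monic hp.out (irreducible_X_sub_C _) mp (monic_X_sub_C _) (h i))
      rw [tm, v1, v2, zero_smul, zero_smul, add_zero])
    rw [hμ, mul_one, gen_add_self]
  · refine (lin _).res.good hs ha hb hc hd
      (e1 ⟨_, irreducible_X_sub_C _, monic_X_sub_C _⟩) (hA i) ?_
    rw [H, Finset.sum_eq_single i]
    · rw [tm, (lin_C _ (hA i)).1, (lin_C _ (hA i)).2, (lin_xc_self _).1, zero_smul, one_smul,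
        zero_add]
    · intro j _ hj
      rw [tm, (lin_C _ (hA j)).1, (lin_xc_ne (fun h => hj (inj h).symm)).1, zero_smul, zero_smul,
        add_zero]
    · simp
  · refine D.gauss.res.good hs ha hb hc hd ?_ hδ ?_
    · have : D.gauss.res.v = val (gι ι2) (C D.p) := by
        rw [← h1]
        rfl
      rw [this]
      exact e2 ⟨D.p, D.prime.irreducible, h2⟩
    · rw [H, h]
      refine Finset.sum_congr rfl fun i _ => ?_
      have : (cc (cc (θ i)) : K2) = D.ι (C (cc (θ i))) := by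
        rw [h1, RatFunc.algebraMap_C]
      rw [tm, this, (D.gauss_xc _).1, (D.gauss_xc _).2, (D.gauss_C (hA i)).1, zero_smul, add_zero]
  · refine (lin e).gauss.gauss.res.good hs ha hb hc hd (e3 e) hδ ?_
    rw [H, h]
    refine Finset.sum_congr rfl fun i _ => ?_
    have : (cc (cc (θ i)) : K2) = (lin e).gauss.ι (C (C (θ i))) := by
      change _ = gι ι1 _
      rw [gι_C, RatFunc.algebraMap_C]
    rw [tm, this, ((lin e).gauss.gauss_xc _).1, ((lin e).gauss.gauss_xc _).2,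
      ((lin e).gauss.gauss_C (hA i)).1, zero_smul, add_zero]

/-- What a vertical prime sees. -/
theorem vertical {ι R κ : Type} [Fintype ι] [CommRing R] [IsDomain R] [WfDvdMonoid R] [Field κ]
    (θ : ι → ℂ) (A : ι → K2) (D : PD R K2 κ) (e : ℂ →+* R)
    (he : ∀ x, D.ι (e x) = cc (cc x)) (ψ : W K3) (ψ0 : W K2) (γ : ι → W K2)
    (hψ : ψ = map cc ψ0 + ∑ i, scale (xc (cc (cc (θ i)) : K2)) (map cc (γ i)))
    (h : ∀ δ : RF κ, δ ≠ 0 → cls δ = ∑ i, D.res.v (A i) • cls (xc (D.ev (e (θ i)))) →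
      ∃ μ : RF κ, μ ≠ 0 ∧ D.gauss.res.d ψ = gen μ + gen (μ * δ)) :
    ∃ μ : RF κ, μ ≠ 0 ∧
      gen μ + gen (μ * ∏ i ∈ Finset.univ.filter (fun i => Odd (D.res.v (A i))),
        xc (D.ev (e (θ i)))) =
      map cc (D.res.d ψ0) + ∑ i, scale (xc (D.ev (e (θ i)))) (map cc (D.res.d (γ i))) := by
  obtain ⟨μ, hμ, h1⟩ := h _ (Finset.prod_ne_zero_iff.2 fun i _ => xc_ne _)
    (cls_filter (fun i => D.res.v (A i)) _ (fun i => xc_ne _))
  refine ⟨μ, hμ, ?_⟩
  rw [← h1, hψ, map_add, map_sum, D.gauss_d_map]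
  congr 1
  refine Finset.sum_congr rfl fun i _ => ?_
  rw [← he, D.gauss_d_scale]

theorem g_one {ι R κ : Type} [Fintype ι] [CommRing R] [IsDomain R] [WfDvdMonoid R] [Field κ]
    (θ : ι → ℂ) (hθ : Function.Injective θ) (A : ι → K2) (D : PD R K2 κ) (e : ℂ →+* R)
    (he : ∀ x, D.ι (e x) = cc (cc x)) (ψ : W K3) (ψ0 : W K2) (γ : ι → W K2)
    (hψ : ψ = map cc ψ0 + ∑ i, scale (xc (cc (cc (θ i)) : K2)) (map cc (γ i)))
    (h : ∀ δ : RF κ, δ ≠ 0 → cls δ = ∑ i, D.res.v (A i) • cls (xc (D.ev (e (θ i)))) →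
      ∃ μ : RF κ, μ ≠ 0 ∧ D.gauss.res.d ψ = gen μ + gen (μ * δ))
    (i : ι) (hi : Even (D.res.v (A i))) : D.res.d (γ i) = 0 := by
  classical
  obtain ⟨μ, hμ, h1⟩ := vertical θ A D e he ψ ψ0 γ hψ h
  have inj : Function.Injective (fun i => D.ev (e (θ i))) := fun i j h =>
    hθ ((D.ev.comp e).injective h)
  have hi' : i ∉ Finset.univ.filter (fun i => Odd (D.res.v (A i))) := by
    simpa using hi
  rw [← lin_d_sum _ inj (fun i => D.res.d (γ i)) (D.res.d ψ0) i, ← h1]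
  refine Res.d_pair_zero _ hμ (Finset.prod_ne_zero_iff.2 fun i _ => xc_ne _) ?_
    (lin_ρ_prod (D.ev.comp e) θ hθ _ i hi')
  rw [lin_v_prod _ inj, if_neg hi']
  simp

/-- Two points that occur in the determinant have second order residues of the same parity. -/
theorem g_three {ι : Type} [Fintype ι] (θ : ι → ℂ) (hθ : Function.Injective θ) (S : Finset ι)
    (μ : K2) (hμ : μ ≠ 0) (c : W K1) (ρ : ι → W K1)
    (h : gen μ + gen (μ * ∏ i ∈ S, xc (cc (θ i) : K1)) =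
      map cc c + ∑ i, scale (xc (cc (θ i) : K1)) (map cc (ρ i)))
    (e : ℂ) (i j : ι) (hi : i ∈ S) (hj : j ∈ S) :
    dim ((lin e).res.d (ρ i)) = dim ((lin e).res.d (ρ j)) := by
  classical
  have hc : ∀ x : ℂ, (cc x : K1) = (lin e).ι (C x) := fun x => (RatFunc.algebraMap_C x).symm
  have hev : ∀ x : ℂ, (lin e).ev (C x) = x := fun x => eval_C
  have hg : (∏ i ∈ S, xc (cc (θ i) : K1)) ≠ 0 := Finset.prod_ne_zero_iff.2 fun i _ => xc_ne _
  have hg' : (∏ i ∈ S, xc (θ i)) ≠ 0 := Finset.prod_ne_zero_iff.2 fun i _ => xc_ne _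
  have h1 := congrArg (lin e).gauss.res.d h
  have h2 : (lin e).gauss.res.d (map cc c + ∑ i, scale (xc (cc (θ i) : K1)) (map cc (ρ i))) =
      map cc ((lin e).res.d c) + ∑ i, scale (xc (θ i)) (map cc ((lin e).res.d (ρ i))) := by
    rw [map_add, map_sum, (lin e).gauss_d_map]
    congr 1
    refine Finset.sum_congr rfl fun i _ => ?_
    rw [hc, (lin e).gauss_d_scale, hev]
  have v1 : (lin e).gauss.res.v (∏ i ∈ S, xc (cc (θ i) : K1)) = 0 := by
    rw [Res.v_prod _ _ _ (fun j => xc_ne _)]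
    exact Finset.sum_eq_zero fun i _ => by rw [hc, ((lin e).gauss_xc _).1]
  have v2 : (lin e).gauss.res.ρ (∏ i ∈ S, xc (cc (θ i) : K1)) = ∏ i ∈ S, xc (θ i) := by
    rw [map_prod]
    exact Finset.prod_congr rfl fun i _ => by rw [hc, ((lin e).gauss_xc _).2, hev]
  rw [h2] at h1
  rw [← lin_d_sum θ hθ (fun i => (lin e).res.d (ρ i)) ((lin e).res.d c) i,
    ← lin_d_sum θ hθ (fun i => (lin e).res.d (ρ i)) ((lin e).res.d c) j, ← h1]
  rcases (lin e).gauss.res.d_pair_even hμ hg (by rw [v1]; simp) with ⟨-, h3⟩ | ⟨-, h3⟩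
  · rw [h3, v2, Res.dim_d_pair _ (Res.ρ_ne _ hμ) hg', Res.dim_d_pair _ (Res.ρ_ne _ hμ) hg',
      lin_v_prod _ hθ, lin_v_prod _ hθ, if_pos hi, if_pos hj]
  · simp only [h3, map_zero]

section Core

variable {ι : Type} [Fintype ι] {θ : ι → ℂ} {A : ι → K2} {ψ : W K3}

theorem heY {κ : Type} [Field κ] (D : PD K1[X] K2 κ) (h : D.ι = ι2) (x : ℂ) :
    D.ι ((C.comp cc : ℂ →+* K1[X]) x) = cc (cc x) := by
  rw [h]
  exact RatFunc.algebraMap_C _

theorem heT (e x : ℂ) : (lin e).gauss.ι ((C.comp C : ℂ →+* ℂ[X][X]) x) = (cc (cc x) : K2) := by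
  change gι ι1 (C (C x)) = _
  rw [gι_C, RatFunc.algebraMap_C]

theorem pol_xc {K : Type} [Field K] (q : K[X]) [hq : Fact (Irreducible q)] (mq : q.Monic) {g : K}
    (h : q ≠ X - C g) : (pol q).res.v (xc g) = 0 := by
  rw [xc_eq]
  exact (pol q).v_unit (not_dvd_of_monic hq.out (irreducible_X_sub_C _) mq (monic_X_sub_C _) h)

/-- The residue of the first binary form along a graph is trivial. -/
theorem graph_res (hθ : Function.Injective θ) (hA : ∀ i, A i ≠ 0) (h : Data ι θ A ψ)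
    (i j : ι) (G : ℂ[X]) (hj : A j = xc (ι1 G)) (hi : Odd ((lin (ι1 G)).res.v (A i))) :
    (lin (ι1 G)).res.d ((lin (cc (cc (θ i)) : K2)).res.d ψ) = gen 1 := by
  classical
  have inj : Function.Injective (fun i => (cc (cc (θ i)) : K2)) := fun i j h =>
    hθ ((cc : ℂ →+* K1).injective ((cc : K1 →+* K2).injective h))
  obtain ⟨ψ0, hψ⟩ := decomp _ inj ψ h.hZ
  set γ : ι → W K2 := fun i => (lin (cc (cc (θ i)) : K2)).res.d ψ with hγ
  have g2 : ∀ e : ℂ, (lin e).res.d ((lin (ι1 G)).res.d (γ j)) = 0 := by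
    intro e
    obtain ⟨c, hc⟩ := decomp (fun _ : Unit => ι1 G) (fun _ _ _ => rfl) (γ j) (fun q _ mq hq =>
      g_one θ hθ A (pol q) _ (heY _ rfl) ψ ψ0 γ hψ (h.hY _ _ rfl mq) j
        (by rw [hj, pol_xc q mq (hq ())]; simp))
    have h1 : (lin e).gauss.res.d (γ j) = 0 :=
      g_one θ hθ A (lin e).gauss _ (heT e) ψ ψ0 γ hψ (h.hT e) j
        (by rw [hj, show ι1 G = (lin e).ι G from rfl, ((lin e).gauss_xc G).1]; simp)
    rw [Fintype.sum_unique] at hc
    have h2 := congrArg (lin e).gauss.res.d hc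
    have h4 := (lin e).gauss_d_scale G ((lin (ι1 G)).res.d (γ j))
    rw [show (lin e).ι G = ι1 G from rfl] at h4
    rw [h1, map_add, (lin e).gauss_d_map, h4] at h2
    have h3 := congrArg (lin ((lin e).ev G)).res.d h2
    rw [map_zero, map_add, lin_d_map, lin_d_self, zero_add] at h3
    exact h3.symm
  obtain ⟨μ, hμ, h1⟩ := vertical θ A (lin (ι1 G)) _ (heY _ rfl) ψ ψ0 γ hψ
    (h.hY _ _ rfl (monic_X_sub_C _))
  have hev : ∀ x : ℂ, (lin (ι1 G)).ev ((C.comp cc : ℂ →+* K1[X]) x) = cc x := fun x => eval_C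
  simp only [hev] at h1
  have g3 : ∀ e : ℂ, dim ((lin e).res.d ((lin (ι1 G)).res.d (γ i))) = 0 := by
    intro e
    rw [g_three θ hθ _ μ hμ _ _ h1 e i j (by simpa using hi)
      (by rw [Finset.mem_filter, hj, (lin_xc_self _).1]; simp), g2, map_zero]
  obtain ⟨l, hl, e1⟩ := h.hθ i
  have g4 : dim ((lin (ι1 G)).res.d (γ i)) = 1 := by
    simp only [hγ]
    rw [e1, Res.dim_d_pair _ hl (hA i)]
    exact ZMod.intCast_eq_one_iff_odd.2 hi
  have g5 : (lin (ι1 G)).res.d (γ i) + gen 1 = 0 := by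
    refine eq_zero_K1 _ (fun e => ?_) ?_
    · rw [map_add, map_add, g3, Res.d_gen_even _ (by rw [Res.v_one]; simp), map_zero, add_zero]
    · rw [map_add, g4, dim_gen one_ne_zero]
      decide
  rw [← neg_eq (gen 1)]
  exact eq_neg_of_add_eq_zero_left g5

theorem core (hθ : Function.Injective θ) (hA : ∀ i, A i ≠ 0) (h : Data ι θ A ψ) (i0 i1 i2 i3 : ι)
    (h0 : A i0 = cc xx * xc (0 : K1) * xc (1 : K1) * xc (xx ^ 2 : K1))
    (h1 : A i1 = xc (0 : K1)) (h2 : A i2 = xc (1 : K1)) (h3 : A i3 = xc (xx ^ 2 : K1)) :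
    False := by
  classical
  have inj : Function.Injective (fun i => (cc (cc (θ i)) : K2)) := fun i j h =>
    hθ ((cc : ℂ →+* K1).injective ((cc : K1 →+* K2).injective h))
  obtain ⟨ψ0, hψ⟩ := decomp _ inj ψ h.hZ
  obtain ⟨l, hl, e1⟩ := h.hθ i0
  have f1 : Frac ι1 := frac_ratFunc ℂ
  have c0 : ι1 0 = (0 : K1) := map_zero _
  have c1 : ι1 1 = (1 : K1) := map_one _
  have c2 : ι1 (X ^ 2) = (xx ^ 2 : K1) := by rw [map_pow, RatFunc.algebraMap_X]
  have n01 : (0 : K1) ≠ 1 := zero_ne_one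
  have ht : (xx : K1) ≠ 0 := RatFunc.X_ne_zero
  have n02 : (0 : K1) ≠ xx ^ 2 := (pow_ne_zero 2 ht).symm
  have n12 : (1 : K1) ≠ xx ^ 2 := by
    rw [← c1, ← c2]
    intro h
    have := congrArg natDegree (f1.inj h)
    simp at this
  have ht2 : (cc xx : K2) ≠ 0 := (_root_.map_ne_zero _).2 ht
  have hv : ∀ {κ : Type} [Field κ] (r : Res K2 κ), r.v (A i0) =
      r.v (cc xx) + r.v (xc (0 : K1)) + r.v (xc (1 : K1)) + r.v (xc (xx ^ 2 : K1)) := by
    intro κ _ r
    rw [h0, r.v_mul _ _ (mul_ne_zero (mul_ne_zero ht2 (xc_ne _)) (xc_ne _)) (xc_ne _),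
      r.v_mul _ _ (mul_ne_zero ht2 (xc_ne _)) (xc_ne _), r.v_mul _ _ ht2 (xc_ne _)]
  have self : ∀ g : K1, (lin g).res.d (gen (xc g)) = gen 1 := fun g => by
    rw [Res.d_gen_odd _ (by rw [(lin_xc_self g).1]; simp), (lin_xc_self g).2]
  have other : ∀ {g g' : K1}, g ≠ g' → (lin g).res.d (gen (xc g')) = 0 := fun h =>
    Res.d_gen_even _ (by rw [(lin_xc_ne h).1]; simp)
  have const : ∀ g : K1, (lin g).res.d (gen (cc xx)) = 0 := fun g =>
    Res.d_gen_even _ (by rw [(lin_C g ht).1]; simp)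
  have r0 := graph_res hθ hA h i0 i1 0 (by rw [h1, c0]) (by
    rw [c0, hv, (lin_C _ ht).1, (lin_xc_self _).1, (lin_xc_ne n01).1, (lin_xc_ne n02).1]; simp)
  have r1 := graph_res hθ hA h i0 i2 1 (by rw [h2, c1]) (by
    rw [c1, hv, (lin_C _ ht).1, (lin_xc_self _).1, (lin_xc_ne n01.symm).1, (lin_xc_ne n12).1]
    simp)
  have r2 := graph_res hθ hA h i0 i3 (X ^ 2) (by rw [h3, c2]) (by
    rw [c2, hv, (lin_C _ ht).1, (lin_xc_self _).1, (lin_xc_ne n02.symm).1, (lin_xc_ne n12.symm).1]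
    simp)
  rw [c0, e1] at r0
  rw [c1, e1] at r1
  rw [c2, e1] at r2
  set η : W K2 := gen l + gen (l * A i0) +
    (gen (xc (0 : K1)) + gen (xc (1 : K1)) + gen (xc (xx ^ 2 : K1)) + gen (cc xx)) with hη
  obtain ⟨c, hc⟩ := milnor η (fun q hq mq => by
    by_cases q0 : q = X - C 0
    · subst q0
      rw [pol_d_lin, hη, (lin _).res.d.map_add, r0, (lin _).res.d.map_add, (lin _).res.d.map_add,
        (lin _).res.d.map_add, self, other n01, other n02, const]
      simp [add_self]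
    by_cases q1 : q = X - C 1
    · subst q1
      rw [pol_d_lin, hη, (lin _).res.d.map_add, r1, (lin _).res.d.map_add, (lin _).res.d.map_add,
        (lin _).res.d.map_add, self, other n01.symm, other n12, const]
      simp [add_self]
    by_cases q2 : q = X - C (xx ^ 2)
    · subst q2
      rw [pol_d_lin, hη, (lin _).res.d.map_add, r2, (lin _).res.d.map_add, (lin _).res.d.map_add,
        (lin _).res.d.map_add, self, other n02.symm, other n12.symm, const]
      simp [add_self]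
    have v0 : (pol q).res.v (cc xx) = 0 := val_C hq.out.prime ht
    have w := g_one θ hθ A (pol q) _ (heY _ rfl) ψ ψ0 _ hψ (h.hY _ _ rfl mq) i0
      (by rw [hv, v0, pol_xc q mq q0, pol_xc q mq q1, pol_xc q mq q2]; simp)
    rw [e1] at w
    rw [hη, map_add, w, map_add, map_add, map_add,
      Res.d_gen_even _ (by rw [pol_xc q mq q0]; simp),
      Res.d_gen_even _ (by rw [pol_xc q mq q1]; simp),
      Res.d_gen_even _ (by rw [pol_xc q mq q2]; simp), Res.d_gen_even _ (by rw [v0]; simp)]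
    simp)
  have hc0 : c = 0 := by
    refine eq_zero_K1 c (fun e => ?_) ?_
    · rw [← dim_map (cc : ℂ →+* K1), ← (lin e).gauss_d_map, ← hc, hη, map_add, map_add,
        Res.dim_d_pair _ hl (hA i0), hv]
      simp only [map_add]
      rw [Res.dim_d_gen _ (xc_ne _), Res.dim_d_gen _ (xc_ne _), Res.dim_d_gen _ (xc_ne _),
        Res.dim_d_gen _ ht2]
      push_cast
      rw [← CharTwo.add_self_eq_zero ((((lin e).gauss.res.v (cc xx) : ℤ) : ZMod 2) +
        ((lin e).gauss.res.v (xc (0 : K1)) : ℤ) + ((lin e).gauss.res.v (xc (1 : K1)) : ℤ) +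
        ((lin e).gauss.res.v (xc (xx ^ 2 : K1)) : ℤ))]
      ring
    · rw [← dim_map (cc : K1 →+* K2), ← hc, hη]
      simp only [map_add]
      rw [dim_gen hl, dim_gen (mul_ne_zero hl (hA i0)), dim_gen (xc_ne _), dim_gen (xc_ne _),
        dim_gen (xc_ne _), dim_gen ht2]
      decide
  rw [hc0, map_zero, hη] at hc
  obtain ⟨σ, s1, s2⟩ := exists_swap ℂ
  have h4 := congrArg (map σ) hc
  simp only [map_add, map_gen, map_zero, h0, xc, map_mul, map_sub, map_one, map_pow, s1, s2,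
    sub_zero] at h4
  refine noK _ _ (σ l) rfl rfl ((_root_.map_ne_zero σ).2 hl) ?_
  rw [← neg_eq (gen _ + gen _ + gen _ + gen _)]
  exact eq_neg_of_add_eq_zero_left h4

end Core

theorem main {ι : Type} [Fintype ι] (θ : ι → ℂ) (hθ : Function.Injective θ)
    (u : ι → Fin 2 → K3ˣ) (A : ι → K2)
    (hu0 : ∀ i, (u i 0 : K3) = xc (cc (cc (θ i)) : K2))
    (hu1 : ∀ i, (u i 1 : K3) = cc (A i))
    (i0 i1 i2 i3 : ι)
    (h0 : A i0 = cc xx * xc (0 : K1) * xc (1 : K1) * xc (xx ^ 2 : K1))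
    (h1 : A i1 = xc (0 : K1)) (h2 : A i2 = xc (1 : K1)) (h3 : A i3 = xc (xx ^ 2 : K1)) :
    ¬ IsSumOfSymbols (∑ i, symbol 2 (u i)) 2 := by
  rintro ⟨w, hw⟩
  have hA : ∀ i, A i ≠ 0 := fun i h => (u i 1).ne_zero (by rw [hu1, h, map_zero])
  have hF : IsSquare (-1 : K3) := by
    have := (complex_sq (-1)).map ((cc : K2 →+* K3).comp ((cc : K1 →+* K2).comp cc))
    rwa [map_neg, map_one] at this
  obtain ⟨ψ, hψ⟩ := data_of_tame θ hθ A hA (w 0 0).ne_zero (w 0 1).ne_zero (w 1 0).ne_zero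
    (w 1 1).ne_zero (fun κ _ r => by
      obtain ⟨T, hT⟩ := exists_tame r hF
      have := congrArg T hw
      simp only [map_sum, map_add, hT, hu0, hu1, Fin.sum_univ_two] at this
      exact this.symm)
  exact core hθ hA hψ i0 i1 i2 i3 h0 h1 h2 h3

end

end Pool.Agent.Lib.MP_8363a4_al.H36
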