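import Mathlib
import Pool.Agent.Lib.MP_8363a4_al.H51K2

/-!
One more variable raises the symbol length in `K^M_2/2` by one.
-/

namespace Pool.Agent.Lib.MP_8363a4_al.H51

open Pool.Agent.Lib.MP_8363a4_al H23 HahnSeries Polynomial
open scoped RatFunc

variable {E : Type} [Field E]

theorem order_add_of_lt {x y : LaurentSeries E} (hx : x ≠ 0) (hy : y ≠ 0)
    (h : x.order < y.order) :
    (x + y).order = x.order ∧ (x + y).leadingCoeff = x.leadingCoeff := by
  have h1 : x.orderTop < y.orderTop := by
    rw [← order_eq_orderTop_of_ne_zero hx, ← order_eq_orderTop_of_ne_zero hy]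
    exact_mod_cast h
  have h2 := orderTop_add_eq_left h1
  have h3 := leadingCoeff_add_eq_left h1
  have h4 : x + y ≠ 0 := by
    rw [← HahnSeries.leadingCoeff_ne_zero, h3]
    exact HahnSeries.leadingCoeff_ne_zero.mpr hx
  rw [← order_eq_orderTop_of_ne_zero hx, ← order_eq_orderTop_of_ne_zero h4] at h2
  exact ⟨by exact_mod_cast h2, h3⟩

/-- Order and leading coefficient of Laurent series. -/
noncomputable def laurent (E : Type) [Field E] : Lead (LaurentSeries E) E where
  v a := (a : LaurentSeries E).order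
  c a := Units.mk0 (a : LaurentSeries E).leadingCoeff
    (HahnSeries.leadingCoeff_ne_zero.mpr a.ne_zero)
  v_mul a b := by
    rw [Units.val_mul]
    exact order_mul_of_ne_zero (mul_ne_zero (HahnSeries.leadingCoeff_ne_zero.mpr a.ne_zero)
      (HahnSeries.leadingCoeff_ne_zero.mpr b.ne_zero))
  c_mul a b := by
    apply Units.ext
    simp only [Units.val_mul, Units.val_mk0]
    exact HahnSeries.leadingCoeff_mul _ _
  st a b h := by
    rcases lt_trichotomy (a : LaurentSeries E).order (b : LaurentSeries E).order with h1 | h1 | h1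
    · obtain ⟨h2, h3⟩ := order_add_of_lt a.ne_zero b.ne_zero h1
      rw [h] at h2 h3
      left
      exact ⟨by rw [← h2, order_one], Units.ext (by
        rw [Units.val_mk0, ← h3, HahnSeries.leadingCoeff_one, Units.val_one])⟩
    · have h2 := congrArg (fun z : LaurentSeries E => z.coeff (a : LaurentSeries E).order) h
      simp only [HahnSeries.coeff_add] at h2
      rw [← HahnSeries.leadingCoeff_eq, h1, ← HahnSeries.leadingCoeff_eq,
        HahnSeries.coeff_one] at h2
      by_cases h0 : (b : LaurentSeries E).order = 0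
      · right; right; left
        rw [if_pos h0] at h2
        exact ⟨h1.trans h0, h0, h2⟩
      · right; right; right
        rw [if_neg h0] at h2
        refine ⟨h1, Units.ext ?_⟩
        simp only [Units.val_mk0, Units.val_neg]
        linear_combination h2
    · obtain ⟨h2, h3⟩ := order_add_of_lt b.ne_zero a.ne_zero h1
      rw [add_comm, h] at h2 h3
      right; left
      exact ⟨by rw [← h2, order_one], Units.ext (by
        rw [Units.val_mk0, ← h3, HahnSeries.leadingCoeff_one, Units.val_one])⟩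

theorem laurent_v_C (a : Eˣ) :
    (laurent E).v (Units.map (HahnSeries.C : E →+* LaurentSeries E) a) = 0 := order_C

theorem laurent_c_C (a : Eˣ) :
    (laurent E).c (Units.map (HahnSeries.C : E →+* LaurentSeries E) a) = a :=
  Units.ext (leadingCoeff_of_single (a := (0 : ℤ)) (r := (a : E)))

/-- Substitution of a nonconstant polynomial in rational functions. -/
noncomputable def subst (q : E[X]) (hq : q.natDegree ≠ 0) : RatFunc E →+* RatFunc E :=
  IsFractionRing.lift (A := E[X]) (g := (algebraMap E[X] (RatFunc E)).comp (compRingHom q)) (by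
    rw [injective_iff_map_eq_zero]
    intro p hp
    rw [RingHom.comp_apply, map_eq_zero_iff _ (IsFractionRing.injective E[X] (RatFunc E)),
      coe_compRingHom_apply, comp_eq_zero_iff] at hp
    rcases hp with hp | hp
    · exact hp
    · exact absurd (by rw [hp.2, natDegree_C]) hq)

theorem subst_algebraMap (q : E[X]) (hq : q.natDegree ≠ 0) (p : E[X]) :
    subst q hq (algebraMap E[X] (RatFunc E) p) = algebraMap E[X] (RatFunc E) (p.comp q) :=
  IsFractionRing.lift_algebraMap _ _

theorem subst_C (q : E[X]) (hq : q.natDegree ≠ 0) (a : E) :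
    subst q hq (RatFunc.C a) = RatFunc.C a := by
  rw [← RatFunc.algebraMap_C, subst_algebraMap, C_comp]

theorem subst_X (q : E[X]) (hq : q.natDegree ≠ 0) :
    subst q hq RatFunc.X = algebraMap E[X] (RatFunc E) q := by
  rw [← RatFunc.algebraMap_X, subst_algebraMap, X_comp]

theorem X_add_C_ne (c : E) : (RatFunc.X + RatFunc.C c : RatFunc E) ≠ 0 := by
  rw [← RatFunc.algebraMap_X, ← RatFunc.algebraMap_C, ← map_add]
  exact (map_ne_zero_iff _ (IsFractionRing.injective E[X] (RatFunc E))).mpr (X_add_C_ne_zero c)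

theorem cl_ne_of_linear (c : E) (u : (RatFunc E)ˣ)
    (hu : (u : RatFunc E) = RatFunc.X + RatFunc.C c) : cl u ≠ 0 := by
  rw [Ne, cl_eq_zero]
  rintro ⟨s, hs⟩
  have h1 := congrArg (fun z : (RatFunc E)ˣ => (z : RatFunc E).intDegree) hs
  simp only [Units.val_mul] at h1
  rw [RatFunc.intDegree_mul s.ne_zero s.ne_zero, hu, ← RatFunc.algebraMap_X,
    ← RatFunc.algebraMap_C, ← map_add, RatFunc.intDegree_polynomial, natDegree_X_add_C] at h1
  omega

/-- There is a class that is not a sum of `n` symbols over an extension in which some nonsquare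
becomes a square. -/
def Good (E : Type) [Field E] (n : ℕ) : Prop :=
  ∃ (ξ : KMmod E 2 2) (E' : Type) (_ : Field E') (φ : E →+* E') (b : Eˣ),
    cl b ≠ 0 ∧ cl (Units.map (φ : E →* E') b) = 0 ∧ ¬ IsSumOfSymbols (kmap φ ξ) n

theorem Good.exists_not {n : ℕ} (h : Good E n) : ∃ ξ : KMmod E 2 2, ¬ IsSumOfSymbols ξ n := by
  obtain ⟨ξ, E', _, φ, b, -, -, h⟩ := h
  exact ⟨ξ, fun h' => h (IsSum.map φ h')⟩

theorem Good.equiv {F : Type} [Field F] (e : E ≃+* F) {n : ℕ} (h : Good E n) : Good F n := by
  obtain ⟨ξ, E', _, φ, b, h1, h2, h3⟩ := h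
  refine ⟨kmap e.toRingHom ξ, E', inferInstance, φ.comp e.symm.toRingHom,
    Units.map (e.toRingHom : E →* F) b, ?_, ?_, ?_⟩
  · intro h
    obtain ⟨s, hs⟩ := (cl_eq_zero _).mp h
    apply h1
    rw [cl_eq_zero]
    refine ⟨Units.map (e.symm.toRingHom : F →* E) s, ?_⟩
    rw [← map_mul, ← hs]
    ext
    simp
  · rw [← h2]
    congr 1
    ext
    simp
  · rw [kmap_kmap, RingHom.comp_assoc, RingEquiv.symm_toRingHom_comp_toRingHom, RingHom.comp_id]
    exact h3

theorem Good.step {n : ℕ} (h2 : (2 : E) ≠ 0) {j : Eˣ} (hj : j * j = -1) (h : Good E n) :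
    Good (RatFunc E) (n + 1) := by
  obtain ⟨ξ, E', _, φ, b, hb0, hb1, hξ⟩ := h
  have hq : (X * (X + Polynomial.C 2) : E[X]).natDegree ≠ 0 := by
    rw [natDegree_mul X_ne_zero (X_add_C_ne_zero 2), natDegree_X]
    omega
  let ψ : RatFunc E →+* LaurentSeries E :=
    (algebraMap (RatFunc E) (LaurentSeries E)).comp (subst _ hq)
  have hC : ∀ a : E, algebraMap (RatFunc E) (LaurentSeries E) (RatFunc.C a) = HahnSeries.C a := by
    intro a
    rw [← RatFunc.algebraMap_C, ← IsScalarTower.algebraMap_apply E[X] (RatFunc E) (LaurentSeries E)]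
    simp
  have hψC : ψ.comp RatFunc.C = HahnSeries.C := by
    ext1 a
    simp only [ψ, RingHom.comp_apply, subst_C, hC]
  have hψX : ψ RatFunc.X = single 1 1 * (single 1 1 + HahnSeries.C 2) := by
    simp only [ψ, RingHom.comp_apply, subst_X, map_mul, map_add, RatFunc.algebraMap_X,
      RatFunc.algebraMap_C, hC]
    rw [RatFunc.coe_X]
  let T : (RatFunc E)ˣ := Units.mk0 RatFunc.X RatFunc.X_ne_zero
  let b' : (RatFunc E)ˣ := Units.mk0 _ (X_add_C_ne (1 : E))
  have hvT : (laurent E).v (Units.map (ψ : RatFunc E →* LaurentSeries E) T) = 1 := by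
    change (ψ RatFunc.X).order = 1
    have e1 : (single (1 : ℤ) (1 : E)) ≠ 0 := single_ne_zero one_ne_zero
    have e2 : (HahnSeries.C (2 : E) : LaurentSeries E) ≠ 0 := C_ne_zero h2
    obtain ⟨e3, e4⟩ := order_add_of_lt e2 e1 (by rw [order_C, order_single one_ne_zero]; omega)
    rw [hψX, add_comm, order_mul_of_ne_zero (mul_ne_zero (HahnSeries.leadingCoeff_ne_zero.mpr e1)
      (by rw [e4]; exact HahnSeries.leadingCoeff_ne_zero.mpr e2)), e3, order_C,
      order_single one_ne_zero, add_zero]
  refine ⟨kmap RatFunc.C ξ + sy T (Units.map (RatFunc.C : E →+* RatFunc E) b), LaurentSeries E,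
    inferInstance, ψ, b', cl_ne_of_linear 1 b' rfl, ?_, ?_⟩
  · have e1 : (single (1 : ℤ) (1 : E) + 1 : LaurentSeries E) * (single 1 1 + 1) =
        ψ (RatFunc.X + RatFunc.C 1) := by
      rw [map_add, hψX, map_one RatFunc.C, map_one ψ, map_ofNat]
      ring
    have e2 : (single (1 : ℤ) (1 : E) + 1 : LaurentSeries E) ≠ 0 := by
      intro h
      rw [h, mul_zero] at e1
      exact X_add_C_ne (1 : E) ((map_eq_zero ψ).mp e1.symm)
    rw [cl_eq_zero]
    exact ⟨Units.mk0 _ e2, Units.ext e1.symm⟩
  · intro hsum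
    obtain ⟨S, hS⟩ := (laurent E).exists_spec
    obtain ⟨D, hD⟩ := (laurent E).exists_tame hj
    have hb : Units.map (ψ : RatFunc E →* LaurentSeries E)
        (Units.map (RatFunc.C : E →+* RatFunc E) b) =
        Units.map (HahnSeries.C : E →+* LaurentSeries E) b := by
      rw [← hψC]
      rfl
    have hS0 : S (kmap HahnSeries.C ξ) = ξ := by
      refine hom_ext (L := S.comp (kmap HahnSeries.C)) (L' := AddMonoidHom.id _)
        (fun x y => ?_) ξ
      rw [AddMonoidHom.comp_apply, kmap_sy, hS, laurent_c_C, laurent_c_C]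
      rfl
    have hD0 : D (kmap HahnSeries.C ξ) = 0 := by
      refine hom_ext (L := D.comp (kmap HahnSeries.C)) (L' := 0) (fun x y => ?_) ξ
      rw [AddMonoidHom.comp_apply, kmap_sy, hD, laurent_v_C, laurent_v_C]
      simp
    have key := (laurent E).drop hj φ hS hD hsum (b := b) (by
      rw [map_add, map_add, kmap_kmap, hψC, hD0, kmap_sy, hb, hD, hvT, laurent_v_C, laurent_c_C]
      simp) hb0 hb1
    rw [map_add, map_add, kmap_kmap, hψC, hS0, kmap_sy, hb, hS, laurent_c_C, map_add,
      kmap_sy] at key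
    obtain ⟨t, ht⟩ := (cl_eq_zero _).mp hb1
    rw [ht, sy_sq_right, add_zero] at key
    exact hξ key

end Pool.Agent.Lib.MP_8363a4_al.H51
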