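import Mathlib
import Pool.Agent.Lib.MP_8363a4_al.H51Tame
import Pool.Agent.Lib.MP_8363a4_al.H51Step

/-!
From the three-variable statement to `ℂ(x₁, …, xₘ)` for all `m ≥ 3`.
-/

namespace Pool.Agent.Lib.MP_8363a4_al.H51

open Pool.Agent.Lib.MP_8363a4_al H23 H36 Polynomial

/-- The three-variable statement for a finite family of points. -/
def Main : Prop :=
  ∀ {ι : Type} [Fintype ι] (θ : ι → ℂ) (_ : Function.Injective θ)
    (u : ι → Fin 2 → K3ˣ) (A : ι → K2)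
    (_ : ∀ i, (u i 0 : K3) = xc (cc (cc (θ i)) : K2))
    (_ : ∀ i, (u i 1 : K3) = cc (A i))
    (i0 i1 i2 i3 : ι)
    (_ : A i0 = cc xx * xc (0 : K1) * xc (1 : K1) * xc (xx ^ 2 : K1))
    (_ : A i1 = xc (0 : K1)) (_ : A i2 = xc (1 : K1)) (_ : A i3 = xc (xx ^ 2 : K1)),
    ¬ IsSumOfSymbols (∑ i, symbol 2 (u i)) 2

theorem ratFunc_congr {E E' : Type} [Field E] [Field E'] (σ : E ≃+* E') :
    Nonempty (RatFunc E ≃+* RatFunc E') := by
  have h : Pres σ.toRingHom := ⟨σ.injective, fun z => ⟨σ.symm z, 1, by simp⟩⟩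
  obtain ⟨τ, -⟩ := (pres_id E).poly.exists_equiv h.poly (RingEquiv.refl _)
  exact ⟨τ⟩

theorem ratFun_succ (m : ℕ) : Nonempty (RatFunc (RatFun m) ≃+* RatFun (m + 1)) := by
  obtain ⟨τ, -⟩ := (pres_algebraMap (MvPolynomial (Fin m) ℂ) (RatFun m)).poly.exists_equiv
    (pres_algebraMap (MvPolynomial (Fin (m + 1)) ℂ) (RatFun (m + 1)))
    (MvPolynomial.finSuccEquiv ℂ m).symm.toRingEquiv
  exact ⟨τ⟩

theorem ratFun_zero : Nonempty (ℂ ≃+* RatFun 0) := by
  obtain ⟨τ, -⟩ := (pres_id ℂ).exists_equiv (pres_algebraMap (MvPolynomial (Fin 0) ℂ) (RatFun 0))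
    (MvPolynomial.isEmptyRingEquiv ℂ (Fin 0)).symm
  exact ⟨τ⟩

theorem tower_succ {E : Type} [Field E] {m : ℕ} (h : Nonempty (E ≃+* RatFun m)) :
    Nonempty (RF E ≃+* RatFun (m + 1)) := by
  obtain ⟨σ⟩ := h
  obtain ⟨τ⟩ := ratFunc_congr σ
  obtain ⟨ρ⟩ := ratFun_succ m
  exact ⟨τ.trans ρ⟩

theorem equivK3 : Nonempty (K3 ≃+* RatFun 3) :=
  tower_succ (tower_succ (tower_succ ratFun_zero))

/-- The four coefficients. -/
noncomputable def coef : Fin 4 → K2 :=
  ![cc xx * xc (0 : K1) * xc (1 : K1) * xc (xx ^ 2 : K1), xc (0 : K1), xc (1 : K1),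
    xc (xx ^ 2 : K1)]

theorem coef_ne (i : Fin 4) : coef i ≠ 0 := by
  fin_cases i
  · exact mul_ne_zero (mul_ne_zero (mul_ne_zero
      ((_root_.map_ne_zero _).mpr RatFunc.X_ne_zero) (xc_ne _)) (xc_ne _)) (xc_ne _)
  · exact xc_ne _
  · exact xc_ne _
  · exact xc_ne _

theorem base (hmain : Main) : Good K3 2 := by
  have hq : (X ^ 2 : K2[X]).natDegree ≠ 0 := by
    rw [natDegree_X_pow]
    omega
  let φ : K3 →+* K3 := subst _ hq
  have hX : φ xx = xx ^ 2 := by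
    simp only [φ, subst_X, map_pow, RatFunc.algebraMap_X]
  have hC : ∀ a : K2, φ (cc a) = cc a := fun a => subst_C _ hq a
  let lin : ℂ → K3ˣ := fun c => Units.mk0 _ (xc_ne (cc (cc c) : K2))
  let a : Fin 4 → K3ˣ := fun i => Units.mk0 (cc (coef i)) ((_root_.map_ne_zero _).mpr (coef_ne i))
  let θ : Fin 4 × Bool → ℂ := fun p => if p.2 then (p.1 : ℕ) + 1 else -((p.1 : ℕ) + 1)
  have hθ : Function.Injective θ := by
    rintro ⟨i, s⟩ ⟨j, t⟩ h
    cases s <;> cases t <;> simp only [θ, if_true, Bool.false_eq_true, if_false] at h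
    · have h1 : (i : ℕ) = j := by exact_mod_cast add_right_cancel (neg_injective h)
      rw [Fin.ext h1]
    · have h1 : (-((i : ℕ) + 1) : ℤ) = (j : ℕ) + 1 := by exact_mod_cast h
      omega
    · have h1 : (((i : ℕ) + 1) : ℤ) = -((j : ℕ) + 1) := by exact_mod_cast h
      omega
    · have h1 : (i : ℕ) = j := by exact_mod_cast add_right_cancel h
      rw [Fin.ext h1]
  refine ⟨∑ i : Fin 4, sy (lin (((i : ℕ) + 1) ^ 2)) (a i), K3, inferInstance, φ,
    Units.mk0 xx RatFunc.X_ne_zero, cl_ne_of_linear 0 _ (by simp), ?_, ?_⟩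
  · rw [cl_eq_zero]
    exact ⟨Units.mk0 xx RatFunc.X_ne_zero, Units.ext (hX.trans (sq _))⟩
  · have key := hmain θ hθ (fun p => ![lin (θ p), a p.1]) (fun p => coef p.1) (fun _ => rfl)
      (fun _ => rfl) (0, true) (1, true) (2, true) (3, true) rfl rfl rfl rfl
    convert key using 2
    rw [map_sum, Fintype.sum_prod_type]
    refine Finset.sum_congr rfl fun i _ => ?_
    have h1 : Units.map (φ : K3 →* K3) (a i) = a i := Units.ext (hC _)
    have h2 : Units.map (φ : K3 →* K3) (lin (((i : ℕ) + 1) ^ 2)) =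
        lin (θ (i, true)) * lin (θ (i, false)) := by
      apply Units.ext
      change φ (xx - cc _) = (xx - cc (cc (cc ((i : ℕ) + 1 : ℂ)))) *
        (xx - cc (cc (cc (-((i : ℕ) + 1 : ℂ)))))
      rw [map_sub, hX, hC, map_pow, map_pow, map_pow, map_neg, map_neg, map_neg]
      ring
    rw [kmap_sy, h1, h2, sy_mul_left, Fintype.sum_bool]
    rfl

theorem ratFun_two_ne (m : ℕ) : (2 : RatFun m) ≠ 0 := by
  have := (_root_.map_ne_zero (algebraMap ℂ (RatFun m))).mpr (two_ne_zero (α := ℂ))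
  rwa [map_ofNat] at this

theorem ratFun_sqrt (m : ℕ) : ∃ j : (RatFun m)ˣ, j * j = -1 := by
  refine ⟨Units.mk0 (algebraMap ℂ (RatFun m) Complex.I)
    ((_root_.map_ne_zero _).mpr Complex.I_ne_zero), Units.ext ?_⟩
  simp only [Units.val_mul, Units.val_mk0, Units.val_neg, Units.val_one]
  rw [← map_mul, Complex.I_mul_I, map_neg, map_one]

theorem good_add {m n : ℕ} (h : Good (RatFun m) n) (k : ℕ) : Good (RatFun (m + k)) (n + k) := by
  induction k with
  | zero => exact h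
  | succ k ih =>
    obtain ⟨j, hj⟩ := ratFun_sqrt (m + k)
    obtain ⟨ρ⟩ := ratFun_succ (m + k)
    exact (ih.step (ratFun_two_ne _) hj).equiv ρ

theorem lower (hmain : Main) (m : ℕ) (hm : 3 ≤ m) :
    ∃ ξ : KMmod (RatFun m) 2 2, ¬ IsSumOfSymbols ξ (m - 1) := by
  obtain ⟨k, rfl⟩ := Nat.exists_eq_add_of_le hm
  obtain ⟨σ⟩ := equivK3
  have := (good_add ((base hmain).equiv σ) k).exists_not
  rwa [show 3 + k - 1 = 2 + k by omega]

/-- A sum of `r` symbols is a sum of `s` symbols for every `s ≥ r`. -/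
theorem IsSum.mono {F : Type} [Field F] {ξ : KMmod F 2 2} {r s : ℕ} (h : IsSumOfSymbols ξ r)
    (hrs : r ≤ s) : IsSumOfSymbols ξ s := by
  induction s, hrs using Nat.le_induction with
  | base => exact h
  | succ s _ ih =>
    rw [isSum_iff] at ih ⊢
    obtain ⟨a, b, rfl⟩ := ih
    exact ⟨Fin.cons 1 a, Fin.cons 1 b, by simp [Fin.sum_univ_succ, sy_one_left]⟩

theorem lower' (hmain : Main) (m : ℕ) (hm : 3 ≤ m) :
    ∃ ξ : KMmod (RatFun m) 2 2, ∀ r, IsSumOfSymbols ξ r → m ≤ r := by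
  obtain ⟨ξ, hξ⟩ := lower hmain m hm
  refine ⟨ξ, fun r hr => ?_⟩
  by_contra hlt
  exact hξ (IsSum.mono hr (by omega))

end Pool.Agent.Lib.MP_8363a4_al.H51
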