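import Pool.Agent.Lib.MP_8363a4_al.H8Res
import Pool.Agent.Lib.MP_8363a4_al.H51Final

/-!
The lower bound `m - n + 2` for the symbol length of `K_n(ℂ(x₁, …, xₘ))/2`, `2 ≤ n < m`.
-/

namespace Pool.Agent.Lib.MP_8363a4_al.H8

variable {F E : Type} [Field F] [Field E] {n : ℕ}

theorem exists_map (φ : F →+* E) : ∃ L : KMmod F n 2 →ₗ[ℤ] KMmod E n 2,
    ∀ a, L (symbol 2 a) = symbol 2 fun i => Units.map φ.toMonoidHom (a i) := by
  let f := (ml E n).compLinearMap fun _ =>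
    (MonoidHom.toAdditive (Units.map φ.toMonoidHom)).toIntLinearMap
  refine ⟨(multiples F n 2).liftQ ((steinberg F n).liftQ (PiTensorProduct.lift f) ?_) ?_,
    fun a => PiTensorProduct.lift.tprod (φ := f) _⟩
  · rw [steinberg, Submodule.span_le]
    rintro _ ⟨a, ⟨i, j, hij, h⟩, rfl⟩
    refine (PiTensorProduct.lift.tprod _).trans (ml_st _ hij ?_)
    change φ (a i) + φ (a j) = 1
    rw [← map_add, h, map_one]
  · rintro _ ⟨x, rfl⟩
    rw [LinearMap.mem_ker, LinearMap.smul_apply, map_smul]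
    exact km_two _

theorem not_of_equiv (e : F ≃+* E) {s : ℕ} (h : ∃ ξ : KMmod F n 2, ¬ IsSumOfSymbols ξ s) :
    ∃ ξ : KMmod E n 2, ¬ IsSumOfSymbols ξ s := by
  obtain ⟨ξ, hξ⟩ := h
  obtain ⟨t, a, rfl⟩ := exists_sum ξ
  obtain ⟨L, hL⟩ := exists_map (n := n) e.symm.toRingHom
  refine ⟨∑ j, symbol 2 fun i => Units.map e.toRingHom.toMonoidHom (a j i),
    fun ⟨b, hb⟩ => hξ ⟨fun j i => Units.map e.symm.toRingHom.toMonoidHom (b j i), ?_⟩⟩
  have := congrArg L hb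
  simp only [map_sum, hL] at this
  rw [← this]
  refine Finset.sum_congr rfl fun j _ => ?_
  congr 1
  funext i
  exact Units.ext (e.symm_apply_apply _).symm

theorem isSum_mono {ξ : KMmod F (n + 1) 2} {r s : ℕ} (h : IsSumOfSymbols ξ r) (hrs : r ≤ s) :
    IsSumOfSymbols ξ s := by
  obtain ⟨k, rfl⟩ := Nat.exists_eq_add_of_le hrs
  obtain ⟨a, rfl⟩ := h
  have h0 : symbol 2 (fun _ : Fin (n + 1) => (1 : Fˣ)) = 0 :=
    (ml F (n + 1)).map_coord_zero (m := fun _ => 0) 0 rfl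
  exact ⟨Fin.append a fun _ _ => 1, by simp [Fin.sum_univ_add, h0]⟩

theorem sq_of_unit (h : ∃ j : Fˣ, j * j = -1) : IsSquare (-1 : F) := by
  obtain ⟨j, hj⟩ := h
  exact ⟨j, by simpa using congrArg Units.val hj.symm⟩

theorem up_add {m s : ℕ} (h : ∃ ξ : KMmod (RatFun m) (n + 1) 2, ¬ IsSumOfSymbols ξ s) (k : ℕ) :
    ∃ ξ : KMmod (RatFun (m + k)) (n + k + 1) 2, ¬ IsSumOfSymbols ξ s := by
  induction k with
  | zero => exact h
  | succ k ih =>
    obtain ⟨σ⟩ := H51.ratFun_succ (m + k)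
    exact not_of_equiv σ (up (sq_of_unit (H51.ratFun_sqrt (m + k))) ih)

theorem lowerAll (hmain : H51.Main) (m n : ℕ) (hn : 2 ≤ n) (hm : n < m) :
    ∃ ξ : KMmod (RatFun m) n 2, ∀ r, IsSumOfSymbols ξ r → m - n + 2 ≤ r := by
  obtain ⟨k, rfl⟩ : ∃ k, n = 1 + k + 1 := ⟨n - 2, by omega⟩
  obtain ⟨l, rfl⟩ : ∃ l, m = l + k := ⟨m - k, by omega⟩
  obtain ⟨ξ, hξ⟩ := up_add (n := 1) (H51.lower hmain l (by omega)) k
  exact ⟨ξ, fun r hr => by_contra fun hc => hξ (isSum_mono hr (by omega))⟩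

end Pool.Agent.Lib.MP_8363a4_al.H8
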