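import Mathlib

/-!
The equation `x w⁴ + 1 = x (x - 1) n²` has no solution in `ℂ(x)`, and consequences for squares in
`ℂ(x)[y] / (y² - x)`.
-/

namespace Pool.Agent.Lib.MP_8363a4_al.H8

open Polynomial UniqueFactorizationMonoid

variable {k : Type*} [Field k]

theorem no_poly [CharZero k] (A B V : k[X]) (h : IsCoprime A (X * B)) :
    A ^ 4 + X ^ 3 * B ^ 4 ≠ (X - 1) * V ^ 2 := by
  classical
  intro e
  have hX1 : (X - 1 : k[X]) ≠ 0 := by simpa using X_sub_C_ne_zero (1 : k)
  have d1 : (X - 1 : k[X]).natDegree = 1 := by simpa using natDegree_X_sub_C (1 : k)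
  have hA : A ≠ 0 := by
    rintro rfl
    exact not_isUnit_X (isUnit_of_mul_isUnit_left (isCoprime_zero_left.1 h))
  have dA : (A ^ 4).natDegree = 4 * A.natDegree := natDegree_pow _ _
  have hV : V ≠ 0 → ((X - 1) * V ^ 2).natDegree = 1 + 2 * V.natDegree := fun hV => by
    rw [natDegree_mul hX1 (pow_ne_zero _ hV), d1, natDegree_pow]
  have hB : B ≠ 0 := by
    rintro rfl
    rw [zero_pow (by norm_num), mul_zero, add_zero] at e
    have hV0 : V ≠ 0 := by
      rintro rfl
      exact pow_ne_zero 4 hA (by simpa using e)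
    have := hV hV0
    rw [← e, dA] at this
    omega
  have hB' : (X ^ 3 * B ^ 4 : k[X]) ≠ 0 := mul_ne_zero (pow_ne_zero _ X_ne_zero) (pow_ne_zero _ hB)
  have dB : (X ^ 3 * B ^ 4 : k[X]).natDegree = 3 + 4 * B.natDegree := by
    rw [natDegree_mul (pow_ne_zero _ X_ne_zero) (pow_ne_zero _ hB), natDegree_pow, natDegree_pow,
      natDegree_X]
  have hV0 : V ≠ 0 := by
    rintro rfl
    have : A ^ 4 = -(X ^ 3 * B ^ 4) := eq_neg_of_add_eq_zero_left (by simpa using e)
    have := congrArg natDegree this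
    rw [natDegree_neg, dA, dB] at this
    omega
  have dV := hV hV0
  have hlt : (A ^ 4).natDegree < (X ^ 3 * B ^ 4 : k[X]).natDegree := by
    by_contra hc
    have : (X ^ 3 * B ^ 4 : k[X]).natDegree < (A ^ 4).natDegree := by omega
    have := natDegree_add_eq_left_of_natDegree_lt this
    rw [e, dV, dA] at this
    omega
  have dS := natDegree_add_eq_right_of_natDegree_lt hlt
  rw [e, dV, dB] at dS
  have hc : IsCoprime (A ^ 4) (X ^ 3 * B ^ 4) :=
    IsCoprime.pow_left (IsCoprime.mul_right h.of_mul_right_left.pow_right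
      h.of_mul_right_right.pow_right)
  have hC : -((X - 1) * V ^ 2) ≠ 0 := neg_ne_zero.2 (mul_ne_zero hX1 (pow_ne_zero _ hV0))
  rcases Polynomial.abc (pow_ne_zero 4 hA) hB' hC hc (by rw [e, add_neg_cancel]) with h1 | h1
  · have h2 : radical (A ^ 4 * (X ^ 3 * B ^ 4) * -((X - 1) * V ^ 2)) ∣ A * X * B * (X - 1) * V :=
      (exists_dvd_pow_iff_radical_dvd (mul_ne_zero (mul_ne_zero (pow_ne_zero 4 hA) hB') hC)).1
        ⟨4, -(X * (X - 1) ^ 3 * V ^ 2), by ring⟩
    have h3 : (A * X * B * (X - 1) * V).natDegree =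
        A.natDegree + 1 + B.natDegree + 1 + V.natDegree := by
      have a1 := mul_ne_zero hA (X_ne_zero (R := k))
      have a2 := mul_ne_zero a1 hB
      rw [natDegree_mul (mul_ne_zero a2 hX1) hV0, natDegree_mul a2 hX1, natDegree_mul a1 hB,
        natDegree_mul hA X_ne_zero, natDegree_X, d1]
    have h4 := natDegree_le_of_dvd h2
      (mul_ne_zero (mul_ne_zero (mul_ne_zero (mul_ne_zero hA X_ne_zero) hB) hX1) hV0)
    have h5 := h1.2.1
    omega
  · have := derivative_eq_zero.1 h1.2.1
    omega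

/-- A rational function `r` with `D r² ` a polynomial, `D` squarefree, is a polynomial. -/
theorem poly_of_sq {D P : k[X]} (hD : Squarefree D) {r : RatFunc k}
    (h : algebraMap k[X] (RatFunc k) D * r ^ 2 = algebraMap k[X] (RatFunc k) P) :
    ∃ V : k[X], r = algebraMap k[X] (RatFunc k) V := by
  have h0 : algebraMap k[X] (RatFunc k) r.denom ≠ 0 := RatFunc.algebraMap_ne_zero r.denom_ne_zero
  have h1 : D * r.num ^ 2 = P * r.denom ^ 2 := by
    apply RatFunc.algebraMap_injective k
    rw [map_mul, map_mul, map_pow, map_pow, ← h]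
    conv_rhs => rw [← r.num_div_denom]
    simp only [RatFunc.num_div_denom]
    have : algebraMap k[X] (RatFunc k) r.num = r * algebraMap k[X] (RatFunc k) r.denom := by
      rw [← div_eq_iff h0, RatFunc.num_div_denom]
    rw [this]; ring
  have h2 : r.denom * r.denom ∣ D := by
    rw [← sq]
    exact (r.isCoprime_num_denom.symm.pow (m := 2) (n := 2)).dvd_of_dvd_mul_right ⟨P, by
      rw [h1]; ring⟩
  have h3 : r.denom = 1 := r.monic_denom.eq_one_of_isUnit (hD _ h2)
  exact ⟨r.num, by conv_lhs => rw [← r.num_div_denom, h3, map_one, div_one]⟩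

theorem sqfree_d : Squarefree (X * (X - 1) : k[X]) := by
  have h1 : Irreducible (X - 1 : k[X]) := by simpa using irreducible_X_sub_C (1 : k)
  exact squarefree_mul_iff.2 ⟨IsCoprime.isRelPrime ⟨1, -1, by ring⟩, irreducible_X.squarefree,
    h1.squarefree⟩

theorem no_rat [CharZero k] (w n : RatFunc k) :
    RatFunc.X * w ^ 4 + 1 ≠ RatFunc.X * (RatFunc.X - 1) * n ^ 2 := by
  intro e
  have h0 : algebraMap k[X] (RatFunc k) w.denom ≠ 0 := RatFunc.algebraMap_ne_zero w.denom_ne_zero
  have hw : algebraMap k[X] (RatFunc k) w.num = w * algebraMap k[X] (RatFunc k) w.denom := by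
    rw [← div_eq_iff h0, RatFunc.num_div_denom]
  have h1 : algebraMap k[X] (RatFunc k) (X * (X - 1)) *
      (n * algebraMap k[X] (RatFunc k) w.denom ^ 2) ^ 2 =
      algebraMap k[X] (RatFunc k) (X * w.num ^ 4 + w.denom ^ 4) := by
    simp only [map_mul, map_sub, map_add, map_pow, map_one, RatFunc.algebraMap_X, hw]
    linear_combination (-(algebraMap k[X] (RatFunc k) w.denom) ^ 4) * e
  obtain ⟨V, hV⟩ := poly_of_sq sqfree_d h1
  rw [hV, ← map_pow, ← map_mul] at h1
  have h2 := RatFunc.algebraMap_injective k h1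
  have h3 : (X : k[X]) ∣ w.denom :=
    prime_X.dvd_of_dvd_pow (n := 4) ⟨(X - 1) * V ^ 2 - w.num ^ 4, by linear_combination -h2⟩
  obtain ⟨B, hB⟩ := h3
  refine no_poly w.num B V (hB ▸ w.isCoprime_num_denom) (mul_left_cancel₀ X_ne_zero ?_)
  rw [hB] at h2
  linear_combination -h2

/-- A non-constant squarefree polynomial is not a square in the field of rational functions. -/
theorem not_isSquare {D : k[X]} (hD : Squarefree D) (hu : ¬ IsUnit D) :
    ¬ IsSquare (algebraMap k[X] (RatFunc k) D) := by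
  rintro ⟨r, hr⟩
  obtain ⟨V, rfl⟩ := poly_of_sq (D := 1) (P := D) squarefree_one (r := r)
    (by rw [map_one, one_mul, hr, sq])
  rw [← map_mul] at hr
  have h1 := RatFunc.algebraMap_injective k hr
  exact hu (h1 ▸ (hD V h1.symm.dvd).mul (hD V h1.symm.dvd))

theorem not_isSquare_X : ¬ IsSquare (RatFunc.X : RatFunc k) := by
  simpa using not_isSquare (k := k) irreducible_X.squarefree not_isUnit_X

theorem not_isSquare_X_sub_one : ¬ IsSquare (RatFunc.X - 1 : RatFunc k) := by
  have h1 : Irreducible (X - 1 : k[X]) := by simpa using irreducible_X_sub_C (1 : k)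
  simpa using not_isSquare h1.squarefree h1.not_isUnit

theorem not_isSquare_d : ¬ IsSquare (RatFunc.X * (RatFunc.X - 1) : RatFunc k) := by
  simpa using not_isSquare (k := k) sqfree_d fun h => not_isUnit_X (isUnit_of_mul_isUnit_left h)

end Pool.Agent.Lib.MP_8363a4_al.H8
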