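import Pool.Agent.Lib.MP_8363a4_al.H8K0

/-!
The form `⟨x, x - 1, x - y², y⟩` over `ℂ(x)(y)` is not Witt equivalent to a binary form, stated for
an abstract group `W` with residue homomorphisms.
-/

namespace Pool.Agent.Lib.MP_8363a4_al.H8

open Polynomial

theorem final_case (i c r u v : RatFunc ℂ) (hi : i ^ 2 = -1) (hc : c ≠ 0)
    (h1 : u ^ 2 + RatFunc.X * v ^ 2 = c * (RatFunc.X * (RatFunc.X - 1)) * RatFunc.X)
    (h2 : 2 * u * v = -(c * (RatFunc.X * (RatFunc.X - 1)) * r))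
    (h0 : r = 0 → IsSquare c)
    (h3 : r ≠ 0 → IsSquare (-(c * r * (RatFunc.X * (RatFunc.X - 1)) * RatFunc.X)))
    (h4 : IsSquare (RatFunc.X * (RatFunc.X - 1) * r * (RatFunc.X - r ^ 2))) : False := by
  set x : RatFunc ℂ := RatFunc.X with hx
  have x0 : x ≠ 0 := RatFunc.X_ne_zero
  have x1 : x - 1 ≠ 0 := fun h => not_isSquare_X_sub_one (k := ℂ) ⟨0, by rw [← hx, h, mul_zero]⟩
  by_cases hr : r = 0
  · obtain ⟨e, he⟩ := h0 hr
    have e0 : e ≠ 0 := by rintro rfl; exact hc (by simpa using he)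
    rw [hr, mul_zero, neg_zero, mul_assoc, mul_eq_zero, mul_eq_zero] at h2
    rcases h2 with h | h | h
    · exact two_ne_zero h
    · refine not_isSquare_d (k := ℂ) ⟨v / e, ?_⟩
      rw [← hx]
      rw [h, he] at h1
      field_simp
      apply mul_left_cancel₀ x0
      linear_combination -h1
    · refine not_isSquare_X_sub_one (k := ℂ) ⟨u / (e * x), ?_⟩
      rw [← hx]
      rw [h, he] at h1
      field_simp
      linear_combination -h1
  obtain ⟨a, ha⟩ := h3 hr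
  obtain ⟨b, hb⟩ := h4
  have xr : x - r ^ 2 ≠ 0 := fun h =>
    not_isSquare_X (k := ℂ) ⟨r, by rw [← hx]; linear_combination h⟩
  have uv : 2 * u * v ≠ 0 := by
    rw [h2]; exact neg_ne_zero.2 (mul_ne_zero (mul_ne_zero hc (mul_ne_zero x0 x1)) hr)
  have u0 : u ≠ 0 := by rintro rfl; simp at uv
  have v0 : v ≠ 0 := by rintro rfl; simp at uv
  have b0 : b ≠ 0 := by
    rintro rfl
    exact mul_ne_zero (mul_ne_zero (mul_ne_zero x0 x1) hr) xr (by simpa using hb)
  have hn : (u ^ 2 - x * v ^ 2) ^ 2 = (c * (x * (x - 1))) ^ 2 * (x * (x - r ^ 2)) := by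
    linear_combination (u ^ 2 + x * v ^ 2 + c * (x * (x - 1)) * x) * h1 -
      x * (2 * u * v - c * (x * (x - 1)) * r) * h2
  obtain ⟨s, hs⟩ : ∃ s : RatFunc ℂ, s ^ 2 = 2 := by
    obtain ⟨z, hz⟩ := IsAlgClosed.exists_pow_nat_eq (2 : ℂ) two_pos
    exact ⟨RatFunc.C z, by rw [← map_pow, hz]; exact map_ofNat _ 2⟩
  have s0 : s ≠ 0 := by rintro rfl; simp at hs
  have hu : u = x * (a / (s * x * v)) ^ 2 * v := by
    field_simp
    linear_combination (x * u * v) * hs + x * h2 + ha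
  have hcs : c = (i * a * (u ^ 2 - x * v ^ 2) / (c * (x * (x - 1)) * x * b)) ^ 2 := by
    rw [div_pow, eq_div_iff (pow_ne_zero 2 (mul_ne_zero (mul_ne_zero (mul_ne_zero hc
      (mul_ne_zero x0 x1)) x0) b0)), mul_pow (i * a), mul_pow i, mul_pow _ b, hn, hi, sq a, sq b,
      ← ha, ← hb]
    ring
  refine no_rat (k := ℂ) (a / (s * x * v))
    (i * a * (u ^ 2 - x * v ^ 2) / (c * (x * (x - 1)) * x * b) / v) ?_
  rw [← hx, div_pow _ v, ← hcs]
  generalize a / (s * x * v) = w at hu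
  rw [hu] at h1
  field_simp
  apply mul_left_cancel₀ x0
  linear_combination h1

section
variable {L : Type*} [Field L]

theorem sq_mod (δ : L[X]) (m : L[X]) (hm : Squarefree m)
    (h : ∀ p : L[X], p.Monic → Irreducible p → p ∣ m → ∃ g, p ∣ g ^ 2 - δ) :
    ∃ g, m ∣ g ^ 2 - δ := by
  induction m using UniqueFactorizationMonoid.induction_on_prime with
  | h₁ => exact absurd rfl hm.ne_zero
  | h₂ x hx => exact ⟨0, hx.dvd⟩
  | h₃ a p ha hp ih =>
    obtain ⟨g2, h2⟩ := ih hm.of_mul_right fun q q1 q2 q3 => h q q1 q2 (q3.mul_left p)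
    have hu : IsUnit (C p.leadingCoeff⁻¹) :=
      isUnit_C.2 (Ne.isUnit (inv_ne_zero (leadingCoeff_ne_zero.2 hp.ne_zero)))
    have hA : Associated p (p * C p.leadingCoeff⁻¹) := associated_mul_unit_right _ _ hu
    obtain ⟨g1, h1⟩ := h _ (monic_mul_leadingCoeff_inv hp.ne_zero) (hA.irreducible hp.irreducible)
      (hA.symm.dvd.mul_right a)
    have h1 := hA.dvd.trans h1
    have hc : IsCoprime p a := (squarefree_mul_iff.1 hm).1.isCoprime
    obtain ⟨s, t, hst⟩ := id hc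
    refine ⟨g1 * (t * a) + g2 * (s * p), hc.mul_dvd ?_ ?_⟩
    · have : (g1 * (t * a) + g2 * (s * p)) ^ 2 - δ = (g1 ^ 2 - δ) +
          p * (s * (g2 - g1) * (g1 + g1 * (t * a) + g2 * (s * p))) := by
        linear_combination (g1 * (g1 + g1 * (t * a) + g2 * (s * p))) * hst
      rw [this]; exact dvd_add h1 (dvd_mul_right _ _)
    · have : (g1 * (t * a) + g2 * (s * p)) ^ 2 - δ = (g2 ^ 2 - δ) +
          a * (t * (g1 - g2) * (g2 + g1 * (t * a) + g2 * (s * p))) := by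
        linear_combination (g2 * (g2 + g1 * (t * a) + g2 * (s * p))) * hst
      rw [this]; exact dvd_add h2 (dvd_mul_right _ _)

theorem lin_zero {x a b : L} (h : X ^ 2 - C x ∣ C a * X + C b) : a = 0 ∧ b = 0 := by
  have h1 : C a * X + C b = 0 := by
    refine eq_zero_of_dvd_of_natDegree_lt h ?_
    rw [natDegree_X_pow_sub_C]
    exact lt_of_le_of_lt natDegree_linear_le one_lt_two
  have h2 := congrArg (coeff · 1) h1
  have h3 := congrArg (coeff · 0) h1
  simp at h2 h3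
  exact ⟨h2, h3⟩

theorem sq_quad {x a b e : L} {g : L[X]}
    (h : X ^ 2 - C x ∣ g ^ 2 - (C a * X ^ 2 + C b * X + C e)) :
    ∃ u v : L, u ^ 2 + x * v ^ 2 = a * x + e ∧ 2 * u * v = b := by
  have hn : (X ^ 2 - C x : L[X]).natDegree = 2 := natDegree_X_pow_sub_C
  obtain ⟨v, u, huv⟩ := exists_eq_X_add_C_of_natDegree_le_one (p := g % (X ^ 2 - C x))
    (by have := natDegree_mod_lt g (q := X ^ 2 - C x) (by omega); omega)
  have hg := EuclideanDomain.div_add_mod g (X ^ 2 - C x)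
  rw [huv] at hg
  generalize g / (X ^ 2 - C x) = q at hg
  have h2 : X ^ 2 - C x ∣ C (2 * u * v - b) * X + C (u ^ 2 + x * v ^ 2 - (a * x + e)) := by
    have : C (2 * u * v - b) * X + C (u ^ 2 + x * v ^ 2 - (a * x + e)) =
        (g ^ 2 - (C a * X ^ 2 + C b * X + C e)) -
          (X ^ 2 - C x) * (q * (g + (C v * X + C u)) + C v ^ 2 - C a) := by
      rw [← hg]
      simp only [map_sub, map_add, map_mul, map_pow, map_ofNat]
      ring
    rw [this]
    exact dvd_sub h (dvd_mul_right _ _)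
  obtain ⟨h3, h4⟩ := lin_zero h2
  exact ⟨u, v, sub_eq_zero.1 h4, sub_eq_zero.1 h3⟩

end

/-- Residue homomorphisms at the monic irreducible polynomials, in abstract form. -/
def HasRes {L : Type} [Field L] {W : Type} [AddCommGroup W] (w : RatFunc L → W) : Prop :=
  ∀ p : L[X], p.Monic → Irreducible p →
    ∃ (A : Type) (_ : AddCommGroup A) (D : W →+ A) (cls : L[X] → A),
      (∀ a, ¬ p ∣ a → D (w (algebraMap _ _ a)) = 0) ∧
      (∀ a, ¬ p ∣ a → D (w (algebraMap _ _ (p * a))) = cls a) ∧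
      (∀ a b, ¬ p ∣ a → ¬ p ∣ b → cls a + cls b = 0 → ∃ g, p ∣ g ^ 2 - a * b) ∧
      ∀ a b, ¬ p ∣ a → ¬ p ∣ b → cls a = cls b → ∃ g, p ∣ g ^ 2 - a * b

section
variable {L : Type} [Field L] {W : Type} [AddCommGroup W] {w : RatFunc L → W}

theorem norm_move {F : Type} [Field F] {w : F → W}
    (hsq : ∀ a b, a ≠ 0 → b ≠ 0 → w (a * b ^ 2) = w a)
    (hadd : ∀ a b, a ≠ 0 → b ≠ 0 → a + b ≠ 0 → w a + w b = w (a + b) + w (a * b * (a + b)))
    {i l l' g δ : F} (hi : i ^ 2 = -1) (hl : l ≠ 0) (hl' : l' ≠ 0) (hδ : δ ≠ 0)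
    (h : l * l' = g ^ 2 - δ) : w l' + w (l' * δ) = w l + w (l * δ) := by
  have i0 : i ≠ 0 := by rintro rfl; simp at hi
  by_cases hg : g = 0
  · rw [hg, zero_pow two_ne_zero, zero_sub] at h
    have e1 : l' = l * δ * (i / l) ^ 2 := by
      field_simp; linear_combination h - δ * hi
    have e2 : l' * δ = l * (i * δ / l) ^ 2 := by
      field_simp; linear_combination h - δ * hi
    rw [e2, hsq _ _ hl (div_ne_zero (mul_ne_zero i0 hδ) hl), e1,
      hsq _ _ (mul_ne_zero hl hδ) (div_ne_zero i0 hl), add_comm]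
  · have e1 : l * g ^ 2 + l * δ * i ^ 2 = l' * l ^ 2 := by linear_combination -l * h + l * δ * hi
    have := hadd (l * g ^ 2) (l * δ * i ^ 2) (mul_ne_zero hl (pow_ne_zero _ hg))
      (mul_ne_zero (mul_ne_zero hl hδ) (pow_ne_zero _ i0))
      (e1 ▸ mul_ne_zero hl' (pow_ne_zero _ hl))
    rw [e1, hsq _ _ hl hg, hsq _ _ (mul_ne_zero hl hδ) i0, hsq _ _ hl' hl,
      show l * g ^ 2 * (l * δ * i ^ 2) * (l' * l ^ 2) = l' * δ * (l * l * g * i) ^ 2 by ring,
      hsq _ _ (mul_ne_zero hl' hδ) (mul_ne_zero (mul_ne_zero (mul_ne_zero hl hl) hg) i0)] at this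
    exact this.symm

/-- Descent on the degree of `l` for a cubic `δ`. -/
theorem descent
    (hsq : ∀ a b, a ≠ 0 → b ≠ 0 → w (a * b ^ 2) = w a)
    (hadd : ∀ a b, a ≠ 0 → b ≠ 0 → a + b ≠ 0 → w a + w b = w (a + b) + w (a * b * (a + b)))
    (hres : HasRes w) {i : RatFunc L} (hi : i ^ 2 = -1) {δ : L[X]} (hδ : δ.natDegree = 3) (ρ : W)
    (hρ : ∀ p : L[X], p.Monic → Irreducible p → ¬ p ∣ δ → ∀ (A : Type) [AddCommGroup A]
      (D : W →+ A), (∀ a, ¬ p ∣ a → D (w (algebraMap _ _ a)) = 0) → D ρ = 0)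
    (l : RatFunc L) (hl : l ≠ 0) (h : w l + w (l * algebraMap _ _ δ) = ρ) :
    ∃ m : L[X], m ≠ 0 ∧ m.natDegree ≤ 1 ∧ (∃ g, m ∣ g ^ 2 - δ) ∧
      w (algebraMap _ _ m) + w (algebraMap _ _ (m * δ)) = ρ := by
  have δ0 : δ ≠ 0 := by rintro rfl; simp at hδ
  have nz : ∀ {a : L[X]}, a ≠ 0 → algebraMap L[X] (RatFunc L) a ≠ 0 := RatFunc.algebraMap_ne_zero
  have main : ∀ n, ∀ l : L[X], l.natDegree = n → l ≠ 0 →
      w (algebraMap _ _ l) + w (algebraMap _ _ (l * δ)) = ρ →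
      ∃ m : L[X], m ≠ 0 ∧ m.natDegree ≤ 1 ∧ (∃ g, m ∣ g ^ 2 - δ) ∧
        w (algebraMap _ _ m) + w (algebraMap _ _ (m * δ)) = ρ := by
    intro n
    induction n using Nat.strong_induction_on with
    | _ n ih =>
    intro l hn l0 h
    by_cases hs : Squarefree l
    swap
    · obtain ⟨q, ⟨l1, hq⟩, hu⟩ : ∃ q, q * q ∣ l ∧ ¬ IsUnit q := by
        by_contra hc
        exact hs fun q hq => by_contra fun hu => hc ⟨q, hq, hu⟩
      have q0 : q ≠ 0 := by rintro rfl; simp [hq] at l0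
      have l10 : l1 ≠ 0 := by rintro rfl; simp [hq] at l0
      have hd : 0 < q.natDegree :=
        natDegree_pos_iff_degree_pos.2 (degree_pos_of_ne_zero_of_nonunit q0 hu)
      refine ih l1.natDegree ?_ l1 rfl l10 ?_
      · rw [← hn, hq, natDegree_mul (mul_ne_zero q0 q0) l10, natDegree_mul q0 q0]; omega
      · rw [← h, hq, ← hsq _ _ (nz l10) (nz q0), ← hsq _ _ (nz (mul_ne_zero l10 δ0)) (nz q0)]
        simp only [map_mul]
        congr 2 <;> ring
    obtain ⟨g, hg⟩ : ∃ g, l ∣ g ^ 2 - δ := by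
      refine sq_mod δ l hs fun p p1 p2 p3 => ?_
      by_cases hp : p ∣ δ
      · exact ⟨0, by simpa using hp⟩
      obtain ⟨A, _, D, cls, d1, d2, d3, -⟩ := hres p p1 p2
      obtain ⟨a, rfl⟩ := p3
      have ha : ¬ p ∣ a := fun k => p2.not_isUnit (hs p (mul_dvd_mul_left p k))
      have haδ : ¬ p ∣ a * δ := fun k => (p2.prime.dvd_or_dvd k).elim ha hp
      have h1 := congrArg D h
      rw [map_add, mul_assoc, d2 a ha, d2 _ haδ, hρ p p1 p2 hp A D d1] at h1
      obtain ⟨g, hg⟩ := d3 _ _ ha haδ h1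
      obtain ⟨s, t, hst⟩ := p2.coprime_iff_not_dvd.2 ha
      refine ⟨g * t, ?_⟩
      have : (g * t) ^ 2 - δ = (g ^ 2 - a * (a * δ)) * t ^ 2 - p * (s * δ * (1 + t * a)) := by
        linear_combination (δ * (1 + t * a)) * hst
      rw [this]
      exact dvd_sub (hg.mul_right _) (dvd_mul_right _ _)
    by_cases h1 : l.natDegree ≤ 1
    · exact ⟨l, l0, h1, ⟨g, hg⟩, h⟩
    have hg' : l ∣ (g % l) ^ 2 - δ := by
      have e := EuclideanDomain.div_add_mod g l
      have : (g % l) ^ 2 - δ = (g ^ 2 - δ) - l * (g / l * (g + g % l)) := by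
        linear_combination (g + g % l) * e
      rw [this]
      exact dvd_sub hg (dvd_mul_right _ _)
    have hd := natDegree_mod_lt g (q := l) (by omega)
    generalize g % l = g' at hg' hd
    obtain ⟨l', hl'⟩ := hg'
    have n0 : g' ^ 2 - δ ≠ 0 := fun k => by
      have := congrArg natDegree (sub_eq_zero.1 k)
      rw [natDegree_pow] at this
      omega
    have l'0 : l' ≠ 0 := by rintro rfl; simp [hl'] at n0
    have hd2 := natDegree_sub_le (g' ^ 2) δ
    rw [hl', natDegree_mul l0 l'0, natDegree_pow, hδ] at hd2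
    refine ih l'.natDegree (by omega) l' rfl l'0 ?_
    rw [← h, map_mul, map_mul]
    exact norm_move hsq hadd (g := algebraMap _ _ g') hi (nz l0) (nz l'0) (nz δ0)
      (by rw [← map_mul, ← hl', map_sub, map_pow])
  have d0 := nz l.denom_ne_zero
  have e : algebraMap L[X] (RatFunc L) (l.num * l.denom) = l * algebraMap _ _ l.denom ^ 2 := by
    rw [map_mul, sq, ← mul_assoc]
    congr 1
    rw [← div_eq_iff d0, RatFunc.num_div_denom]
  refine main _ (l.num * l.denom) rfl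
    (mul_ne_zero (RatFunc.num_ne_zero hl) l.denom_ne_zero) ?_
  rw [map_mul _ _ δ, e, mul_right_comm, hsq _ _ hl d0, hsq _ _ (mul_ne_zero hl (nz δ0)) d0, h]

end

end Pool.Agent.Lib.MP_8363a4_al.H8
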