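import Pool.Agent.Lib.MP_8363a4_al.Defs
import Pool.Agent.Lib.MP_8363a4_al.H36Tower

/-!
The residue map `K_{n+1}(F)/2 → K_n(κ)/2` of a discrete valuation sends symbols to symbols. Hence
the symbol length of `K_{n+1}(E(T))/2` is at least the symbol length of `K_n(E)/2`.
-/

namespace Pool.Agent.Lib.MP_8363a4_al.H8

open Function H36

noncomputable section

variable {F κ : Type} [Field F] [Field κ] {n : ℕ}

theorem km_two (g : KMmod F n 2) : (2 : ℤ) • g = 0 := by
  obtain ⟨x, rfl⟩ := (multiples F n 2).mkQ_surjective g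
  rw [← map_smul, Submodule.mkQ_apply, Submodule.Quotient.mk_eq_zero]
  exact ⟨x, rfl⟩

theorem km_even (g : KMmod F n 2) {c : ℤ} (hc : Even c) : c • g = 0 := by
  obtain ⟨d, rfl⟩ := hc
  rw [← mul_two, mul_smul, km_two, smul_zero]

theorem km_odd (g : KMmod F n 2) {c : ℤ} (hc : Odd c) : c • g = g := by
  obtain ⟨d, rfl⟩ := hc
  rw [add_smul, km_even g (even_two_mul d), zero_add, one_smul]

variable (F n) in
/-- The symbol as a multilinear map. -/
def ml : MultilinearMap ℤ (fun _ : Fin n => Additive Fˣ) (KMmod F n 2) :=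
  ((multiples F n 2).mkQ.comp (steinberg F n).mkQ).compMultilinearMap (PiTensorProduct.tprod ℤ)

theorem ml_eq (a : Fin n → Additive Fˣ) : ml F n a = symbol 2 fun i => (a i).toMul := rfl

theorem ml_st (a : Fin n → Additive Fˣ) {i j : Fin n} (hij : i ≠ j)
    (h : ((a i).toMul : F) + ((a j).toMul : F) = 1) : ml F n a = 0 := by
  have : (steinberg F n).mkQ (pure fun i => (a i).toMul) = 0 :=
    (Submodule.Quotient.mk_eq_zero _).2 (Submodule.subset_span ⟨_, ⟨i, j, hij, h⟩, rfl⟩)
  rw [ml_eq, symbol, this, map_zero]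

theorem neg_one_eq (hF : IsSquare (-1 : F)) :
    ∃ s : Additive Fˣ, Additive.ofMul (-1 : Fˣ) = (2 : ℤ) • s := by
  obtain ⟨s, hs⟩ := hF
  have s0 : s ≠ 0 := by rintro rfl; simp at hs
  refine ⟨Additive.ofMul (Units.mk0 s s0), ?_⟩
  rw [two_zsmul, ← ofMul_mul]
  congr 1
  exact Units.ext (by simpa using hs)

theorem ml_alt (hF : IsSquare (-1 : F)) (a : Fin n → Additive Fˣ) {i j : Fin n} (h : a i = a j)
    (hij : i ≠ j) : ml F n a = 0 := by
  by_cases h1 : a i = 0
  · exact (ml F n).map_coord_zero i h1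
  have h2 : (1 : F) - (a i).toMul ≠ 0 := fun k =>
    h1 (Additive.toMul.injective (Units.ext (sub_eq_zero.1 k).symm))
  have h3 : (1 : F) - ((a i).toMul : F)⁻¹ ≠ 0 := fun k => h2 (by
    rw [inv_eq_one.1 (sub_eq_zero.1 k).symm, sub_self])
  obtain ⟨s, hs⟩ := neg_one_eq hF
  have e : a j =
      Additive.ofMul (Units.mk0 _ h2) - Additive.ofMul (Units.mk0 _ h3) + (2 : ℤ) • s := by
    rw [← hs, ← h]
    apply Additive.toMul.injective
    apply Units.ext
    have := (a i).toMul.ne_zero
    simp only [toMul_add, toMul_sub, toMul_ofMul, Units.val_mul, Units.val_div_eq_div_val,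
      Units.val_mk0, Units.val_neg, Units.val_one]
    rw [mul_neg_one, ← neg_div, eq_div_iff h3]
    field_simp
    ring
  have k1 : ml F n (update a j (Additive.ofMul (Units.mk0 _ h2))) = 0 :=
    ml_st _ hij (by simp [update_of_ne hij])
  have k2 : ml F n (update (update a j (Additive.ofMul (Units.mk0 _ h3))) i (-a i)) = 0 :=
    ml_st _ hij (by simp [update_of_ne hij.symm])
  rw [MultilinearMap.map_update_neg, neg_eq_zero,
    update_eq_self_iff.2 (update_of_ne hij _ _).symm] at k2
  rw [← update_eq_self j a, e, MultilinearMap.map_update_add, MultilinearMap.map_update_sub,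
    MultilinearMap.map_update_smul, k1, k2, km_two, sub_zero, add_zero]

variable (n) in
/-- The symbol as an alternating map. -/
def alt (hF : IsSquare (-1 : F)) : Additive Fˣ [⋀^Fin n]→ₗ[ℤ] KMmod F n 2 :=
  { ml F n with map_eq_zero_of_eq' := fun a _ _ h hij => ml_alt hF a h hij }

theorem alt_shear {M N : Type} [AddCommGroup M] [AddCommGroup N] (f : M [⋀^Fin n]→ₗ[ℤ] N)
    (a : Fin n → M) (i : Fin n) (c : Fin n → ℤ) (s : Finset (Fin n)) (hs : i ∉ s) :
    f (fun j => if j ∈ s then a j + c j • a i else a j) = f a := by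
  induction s using Finset.induction_on with
  | empty => simp
  | insert k s hk ih =>
    rw [Finset.mem_insert, not_or] at hs
    set b := fun j => if j ∈ s then a j + c j • a i else a j with hb
    have e : (fun j => if j ∈ insert k s then a j + c j • a i else a j) =
        update b k (b k + c k • b i) := by
      funext j
      by_cases hj : j = k
      · simp [hj, hb, hk, hs.2]
      · simp [hj, hb]
    rw [e, f.map_update_add, f.map_update_smul, update_eq_self, f.map_update_self b (Ne.symm hs.1),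
      smul_zero, add_zero, ih hs.2]

variable (r : Res F κ)

/-- The valuation as a linear map. -/
def vL : Additive Fˣ →ₗ[ℤ] ℤ :=
  (AddMonoidHom.mk' (fun x : Additive Fˣ => r.v x.toMul) fun x y =>
    r.v_mul _ _ x.toMul.ne_zero y.toMul.ne_zero).toIntLinearMap

/-- The angular component as a linear map. -/
def ρL : Additive Fˣ →ₗ[ℤ] Additive κˣ :=
  (MonoidHom.toAdditive (Units.map r.ρ.toMonoidHom)).toIntLinearMap

theorem vL_apply (x : Additive Fˣ) : vL r x = r.v x.toMul := rfl

theorem ρL_apply (x : Additive Fˣ) : ((ρL r x).toMul : κ) = r.ρ x.toMul := rfl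

variable (n) in
/-- The residue of a symbol. -/
def del (hF : IsSquare (-1 : F)) : Additive Fˣ [⋀^Fin (n + 1)]→ₗ[ℤ] KMmod κ n 2 :=
  AlternatingMap.alternatizeUncurryFin
    ((vL r).smulRight ((alt n (r.isSquare_neg_one hF)).compLinearMap (ρL r)))

theorem del_apply (hF : IsSquare (-1 : F)) (a : Fin (n + 1) → Additive Fˣ) :
    del n r hF a = ∑ i : Fin (n + 1), vL r (a i) • ml κ n fun k => ρL r (a (i.succAbove k)) := by
  rw [del, AlternatingMap.alternatizeUncurryFin_apply]
  exact Finset.sum_congr rfl fun i _ => km_odd _ (odd_neg_one.pow)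

theorem del_kill (hF : IsSquare (-1 : F)) (a : Fin (n + 1) → Additive Fˣ) (j : Fin (n + 1))
    (h1 : r.v (a j).toMul = 0) (h2 : r.ρ (a j).toMul = 1) : del n r hF a = 0 := by
  rw [del_apply]
  refine Finset.sum_eq_zero fun i _ => ?_
  by_cases h : j = i
  · rw [← h, vL_apply, h1, zero_smul]
  · obtain ⟨k, rfl⟩ := Fin.exists_succAbove_eq h
    have h3 : ρL r (a (i.succAbove k)) = 0 := Additive.toMul.injective (Units.ext h2)
    rw [(ml κ n).map_coord_zero (m := fun k => ρL r (a (i.succAbove k))) k h3, smul_zero]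

theorem one_sub {x : F} (hx : x ≠ 0) (h : 0 < r.v x) : r.v (1 - x) = 0 ∧ r.ρ (1 - x) = 1 := by
  have := r.add_lt 1 (-x) one_ne_zero (neg_ne_zero.2 hx) (by rwa [r.v_one, r.v_neg])
  rwa [r.v_one, map_one, ← sub_eq_add_neg] at this

theorem del_st_aux (hF : IsSquare (-1 : F)) (a : Fin (n + 1) → Additive Fˣ) {i j : Fin (n + 1)}
    (hij : i ≠ j) (h : ((a i).toMul : F) + ((a j).toMul : F) = 1) (hv : r.v (a i).toMul ≠ 0) :
    del n r hF a = 0 := by
  have x0 := (a i).toMul.ne_zero
  have e0 : ((a j).toMul : F) = 1 - (a i).toMul := eq_sub_of_add_eq' h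
  rcases lt_or_gt_of_ne hv with hv | hv
  swap
  · exact del_kill r hF a j (e0 ▸ (one_sub r x0 hv).1) (e0 ▸ (one_sub r x0 hv).2)
  have h1 : 0 < r.v ((a i).toMul : F)⁻¹ := by
    have := r.v_mul _ _ x0 (inv_ne_zero x0)
    rw [mul_inv_cancel₀ x0, r.v_one] at this
    omega
  obtain ⟨h2, h3⟩ := one_sub r (inv_ne_zero x0) h1
  have h4 : (1 : F) - ((a i).toMul : F)⁻¹ ≠ 0 := fun k => by simp [k] at h3
  obtain ⟨s, hs⟩ := neg_one_eq hF
  have e : a j = a i + Additive.ofMul (Units.mk0 _ h4) + (2 : ℤ) • s := by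
    rw [← hs]
    apply Additive.toMul.injective
    apply Units.ext
    simp only [toMul_add, toMul_ofMul, Units.val_mul, Units.val_mk0, Units.val_neg, Units.val_one]
    rw [e0]
    field_simp
    ring
  rw [← update_eq_self j a, e, AlternatingMap.map_update_add, AlternatingMap.map_update_add,
    AlternatingMap.map_update_smul, km_two, AlternatingMap.map_update_self _ _ hij.symm,
    del_kill r hF _ j (by simpa using h2) (by simpa using h3), add_zero, add_zero]

theorem del_st (hF : IsSquare (-1 : F)) (a : Fin (n + 1) → Additive Fˣ) {i j : Fin (n + 1)}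
    (hij : i ≠ j) (h : ((a i).toMul : F) + ((a j).toMul : F) = 1) : del n r hF a = 0 := by
  by_cases h1 : r.v (a i).toMul = 0
  swap
  · exact del_st_aux r hF a hij h h1
  by_cases h2 : r.v (a j).toMul = 0
  swap
  · exact del_st_aux r hF a hij.symm (by rwa [add_comm]) h2
  by_cases h3 : r.ρ (a i).toMul = 1
  · exact del_kill r hF a i h1 h3
  have h4 : r.ρ (a i).toMul + r.ρ (a j).toMul = 1 := by
    have := (r.add_eq 1 (-(a i).toMul) one_ne_zero (neg_ne_zero.2 (a i).toMul.ne_zero)
      (by rw [r.v_one, r.v_neg, h1]) (by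
        rw [map_one, r.ρ_neg, ← sub_eq_add_neg]; exact sub_ne_zero.2 (Ne.symm h3))).2
    rw [← sub_eq_add_neg, ← eq_sub_of_add_eq' h, map_one, r.ρ_neg] at this
    rw [this]; ring
  rw [del_apply]
  refine Finset.sum_eq_zero fun k _ => ?_
  by_cases hi : i = k
  · rw [← hi, vL_apply, h1, zero_smul]
  by_cases hj : j = k
  · rw [← hj, vL_apply, h2, zero_smul]
  obtain ⟨i', rfl⟩ := Fin.exists_succAbove_eq hi
  obtain ⟨j', rfl⟩ := Fin.exists_succAbove_eq hj
  rw [ml_st _ (i := i') (j := j') (fun e => hij (by rw [e])) h4, smul_zero]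

theorem del_symbol (hF : IsSquare (-1 : F)) (a : Fin (n + 2) → Additive Fˣ) :
    ∃ b, del (n + 1) r hF a = symbol 2 b := by
  by_cases h : ∀ i, Even (vL r (a i))
  · refine ⟨fun _ => 1, ?_⟩
    rw [del_apply, Finset.sum_eq_zero fun i _ => km_even _ (h i)]
    exact ((ml κ (n + 1)).map_coord_zero (m := fun _ => 0) 0 rfl).symm
  obtain ⟨i, hi⟩ := not_forall.1 h
  rw [Int.not_even_iff_odd] at hi
  rw [← alt_shear _ a i (fun j => vL r (a j)) (Finset.univ.erase i) (Finset.notMem_erase _ _),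
    del_apply, Finset.sum_eq_single i]
  · rw [if_neg (Finset.notMem_erase _ _), km_odd _ hi]
    exact ⟨_, ml_eq _⟩
  · intro j _ hj
    refine km_even _ ?_
    rw [if_pos (by simpa using hj), map_add, map_smul, smul_eq_mul, ← mul_one_add]
    exact (hi.add_odd odd_one |>.mul_left _ |> fun k => by rwa [add_comm] at k)
  · simp

theorem exists_del (hF : IsSquare (-1 : F)) : ∃ T : KMmod F (n + 1) 2 →ₗ[ℤ] KMmod κ n 2,
    ∀ a, T (symbol 2 a) = del n r hF fun i => Additive.ofMul (a i) := by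
  refine ⟨(multiples F (n + 1) 2).liftQ ((steinberg F (n + 1)).liftQ
    (PiTensorProduct.lift (del n r hF).toMultilinearMap) ?_) ?_, fun a => ?_⟩
  · rw [steinberg, Submodule.span_le]
    rintro _ ⟨a, ⟨i, j, hij, h⟩, rfl⟩
    exact (PiTensorProduct.lift.tprod _).trans (del_st r hF _ hij h)
  · rintro _ ⟨x, rfl⟩
    rw [LinearMap.mem_ker, LinearMap.smul_apply, map_smul]
    exact km_two _
  · exact PiTensorProduct.lift.tprod (φ := (del n r hF).toMultilinearMap) _

theorem exists_sum (ξ : KMmod F n 2) : ∃ s, IsSumOfSymbols ξ s := by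
  obtain ⟨x, rfl⟩ := (multiples F n 2).mkQ_surjective ξ
  obtain ⟨t, rfl⟩ := (steinberg F n).mkQ_surjective x
  induction t using PiTensorProduct.induction_on with
  | smul_tprod c a =>
    rw [map_smul, map_smul]
    rcases Int.even_or_odd c with h | h
    · exact ⟨0, Fin.elim0, by rw [km_even _ h]; simp⟩
    · exact ⟨1, fun _ i => (a i).toMul, by rw [km_odd _ h, Fin.sum_univ_one]; rfl⟩
  | add x y hx hy =>
    obtain ⟨s, a, ha⟩ := hx
    obtain ⟨t, b, hb⟩ := hy
    exact ⟨s + t, Fin.append a b, by simp [Fin.sum_univ_add, map_add, ← ha, ← hb]⟩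

/-- One more variable and one more slot do not decrease the symbol length. -/
theorem up (hF : IsSquare (-1 : F)) {s : ℕ} (h : ∃ ξ : KMmod F (n + 1) 2, ¬ IsSumOfSymbols ξ s) :
    ∃ ξ : KMmod (RF F) (n + 2) 2, ¬ IsSumOfSymbols ξ s := by
  obtain ⟨ξ, hξ⟩ := h
  obtain ⟨t, a, rfl⟩ := exists_sum ξ
  have hF' : IsSquare (-1 : RF F) := by simpa using hF.map (cc : F →+* RF F)
  obtain ⟨T, hT⟩ := exists_del (n := n + 1) (lin (0 : F)).res hF'
  refine ⟨∑ j, symbol 2 (Fin.cons (Units.mk0 _ (xc_ne (0 : F)))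
    fun i => Units.map (cc : F →+* RF F).toMonoidHom (a j i)), fun ⟨b, hb⟩ => hξ ?_⟩
  choose c hc using fun j => del_symbol (lin (0 : F)).res hF' fun i => Additive.ofMul (b j i)
  refine ⟨c, ?_⟩
  have := congrArg T hb
  simp only [map_sum, hT, hc] at this
  rw [← this]
  refine Finset.sum_congr rfl fun j _ => ?_
  rw [del_apply, Fin.sum_univ_succ, Finset.sum_eq_zero fun i _ => ?_, add_zero]
  · rw [km_odd _ (by rw [vL_apply]; exact (lin_xc_self (0 : F)).1 ▸ odd_one), ml_eq]
    congr 1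
    funext i
    exact Units.ext (lin_C 0 (a j i).ne_zero).2.symm
  · rw [vL_apply]
    exact km_even _ ((lin_C 0 (a j i).ne_zero).1 ▸ Even.zero)

end

end Pool.Agent.Lib.MP_8363a4_al.H8
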