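import Mathlib
import Pool.Agent.Lib.MP_8363a4_al.H2Tsen

/-!
The Tsen-Lang theorem for systems of cubic forms in four variables, and families of values of
cubic forms.
-/

namespace Pool.Agent.Lib.MP_8363a4_al.H2

open MvPolynomial

/-- The exponent vector attached to a point of a box. -/
noncomputable def mu4 {m : ℕ} (d : Fin 4 → Fin m) : Fin 4 →₀ ℕ :=
  Finsupp.equivFunOnFinite.symm (fun s => (d s : ℕ))

theorem mu4_apply {m : ℕ} (d : Fin 4 → Fin m) (s : Fin 4) : mu4 d s = d s := rfl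

theorem mu4_inj {m : ℕ} : Function.Injective (mu4 (m := m)) := by
  intro d d' h
  funext s
  apply Fin.ext
  rw [← mu4_apply, ← mu4_apply, h]

theorem count_ineq4 (n r e : ℕ) (h : 81 * r < n) :
    ∃ D : ℕ, r * (3 * D + e + 1) ^ 4 < n * (D + 1) ^ 4 := by
  refine ⟨108 * r * e + 54 * r * e ^ 2 + 12 * r * e ^ 3 + r * e ^ 4, ?_⟩
  set D := 108 * r * e + 54 * r * e ^ 2 + 12 * r * e ^ 3 + r * e ^ 4 with hD
  set m := D + 1 with hm
  have h0 : 3 * D + e + 1 ≤ 3 * m + e := by omega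
  have h1 : r * (3 * D + e + 1) ^ 4 ≤ r * (3 * m + e) ^ 4 :=
    Nat.mul_le_mul_left _ (Nat.pow_le_pow_left h0 4)
  have h2 : (81 * r + 1) * m ^ 4 ≤ n * m ^ 4 := by
    gcongr
    omega
  have hm1 : 1 ≤ m := by omega
  have h3 : m ^ 1 ≤ m ^ 3 := Nat.pow_le_pow_right hm1 (by norm_num)
  have h3' : m ^ 2 ≤ m ^ 3 := Nat.pow_le_pow_right hm1 (by norm_num)
  have h4 : 1 ≤ m ^ 3 := Nat.one_le_pow _ _ hm1
  have h5 : 54 * r * e ^ 2 * m ^ 2 ≤ 54 * r * e ^ 2 * m ^ 3 := by gcongr
  have h5' : 12 * r * e ^ 3 * m ^ 1 ≤ 12 * r * e ^ 3 * m ^ 3 := by gcongr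
  have h6 : r * e ^ 4 * 1 ≤ r * e ^ 4 * m ^ 3 := by gcongr
  have h7 : m ^ 4 = D * m ^ 3 + m ^ 3 := by rw [hm]; ring
  have h8 : D * m ^ 3 = 108 * r * e * m ^ 3 + 54 * r * e ^ 2 * m ^ 3 + 12 * r * e ^ 3 * m ^ 3
      + r * e ^ 4 * m ^ 3 := by
    rw [hD]; ring
  have h9 : r * (3 * m + e) ^ 4 = 81 * r * m ^ 4 + 108 * r * e * m ^ 3 + 54 * r * e ^ 2 * m ^ 2
      + 12 * r * e ^ 3 * m ^ 1 + r * e ^ 4 * 1 := by ring
  have h10 : (81 * r + 1) * m ^ 4 = 81 * r * m ^ 4 + m ^ 4 := by ring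
  omega

theorem tsen_poly4 {k : Type} [Field k] [IsAlgClosed k] (n r : ℕ)
    (c : Fin r → Fin n → Fin n → Fin n → MvPolynomial (Fin 4) k) (h : 81 * r < n) :
    ∃ x : Fin n → MvPolynomial (Fin 4) k, x ≠ 0 ∧
      ∀ j, ∑ i1, ∑ i2, ∑ i3, c j i1 i2 i3 * (x i1 * x i2 * x i3) = 0 := by
  classical
  obtain ⟨e, he⟩ : ∃ e : ℕ, ∀ j i1 i2 i3 s, degreeOf s (c j i1 i2 i3) ≤ e := by
    refine ⟨Finset.univ.sup (fun p : Fin r × Fin n × Fin n × Fin n × Fin 4 =>
      degreeOf p.2.2.2.2 (c p.1 p.2.1 p.2.2.1 p.2.2.2.1)), ?_⟩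
    intro j i1 i2 i3 s
    exact Finset.le_sup (f := fun p : Fin r × Fin n × Fin n × Fin n × Fin 4 =>
      degreeOf p.2.2.2.2 (c p.1 p.2.1 p.2.2.1 p.2.2.2.1)) (Finset.mem_univ (j, i1, i2, i3, s))
  obtain ⟨D, hD⟩ := count_ineq4 n r e h
  let κ := Fin n × (Fin 4 → Fin (D + 1))
  let Xg : Fin n → MvPolynomial (Fin 4) (MvPolynomial κ k) :=
    fun i => ∑ d : Fin 4 → Fin (D + 1), monomial (mu4 d) (X (i, d))
  let P : Fin r → MvPolynomial (Fin 4) (MvPolynomial κ k) :=
    fun j => ∑ i1, ∑ i2, ∑ i3, map C (c j i1 i2 i3) * (Xg i1 * Xg i2 * Xg i3)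
  have hX : ∀ i s, degreeOf s (Xg i) ≤ D := by
    intro i s
    refine (degreeOf_sum_le _ _ _).trans (Finset.sup_le fun d _ => ?_)
    rw [degreeOf_monomial_eq _ _ (X_ne_zero _), mu4_apply]
    exact Nat.lt_succ_iff.mp (d s).2
  have hc : ∀ j i1 i2 i3 s,
      degreeOf s (map (C : k →+* MvPolynomial κ k) (c j i1 i2 i3)) ≤ e := by
    intro j i1 i2 i3 s
    have := he j i1 i2 i3 s
    rw [degreeOf_le_iff] at this ⊢
    intro m hm
    exact this m (support_map_subset _ _ hm)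
  have hP : ∀ j s, degreeOf s (P j) ≤ 3 * D + e := by
    intro j s
    refine (degreeOf_sum_le _ _ _).trans (Finset.sup_le fun i1 _ => ?_)
    refine (degreeOf_sum_le _ _ _).trans (Finset.sup_le fun i2 _ => ?_)
    refine (degreeOf_sum_le _ _ _).trans (Finset.sup_le fun i3 _ => ?_)
    have a1 := degreeOf_mul_le s (map (C : k →+* MvPolynomial κ k) (c j i1 i2 i3))
      (Xg i1 * Xg i2 * Xg i3)
    have a2 := degreeOf_mul_le s (Xg i1 * Xg i2) (Xg i3)
    have a3 := degreeOf_mul_le s (Xg i1) (Xg i2)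
    have := hX i1 s
    have := hX i2 s
    have := hX i3 s
    have := hc j i1 i2 i3 s
    omega
  have hev : ∀ (y : κ → k) j, map (eval y) (P j) =
      ∑ i1, ∑ i2, ∑ i3, c j i1 i2 i3 *
        (map (eval y) (Xg i1) * map (eval y) (Xg i2) * map (eval y) (Xg i3)) := by
    intro y j
    have hid : (eval y).comp (C : k →+* MvPolynomial κ k) = RingHom.id k := by
      ext a
      simp
    simp only [P, map_sum, map_mul, map_map, hid, map_id]
  have hco : ∀ (y : κ → k) i d, coeff (mu4 d) (map (eval y) (Xg i)) = y (i, d) := by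
    intro y i d
    simp only [Xg, map_sum, map_monomial, eval_X, coeff_sum, coeff_monomial]
    rw [Finset.sum_eq_single d]
    · simp
    · intro d' _ hd
      rw [if_neg (fun hh => hd (mu4_inj hh))]
    · simp
  obtain ⟨y, hy0, hy⟩ := exists_nonzero_zero
    (fun p : Fin r × (Fin 4 → Fin (3 * D + e + 1)) => coeff (mu4 p.2) (P p.1))
    (by
      intro p
      have h0 : ∀ i, map (eval (0 : κ → k)) (Xg i) = 0 := by
        intro i
        simp [Xg, map_sum, map_monomial]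
      have := hev 0 p.1
      simp only [h0, mul_zero, Finset.sum_const_zero] at this
      rw [← coeff_map, this, coeff_zero])
    (by simpa [κ] using hD)
  refine ⟨fun i => map (eval y) (Xg i), ?_, ?_⟩
  · intro hx
    apply hy0
    funext ⟨i, d⟩
    rw [← hco y i d, congrFun hx i]
    simp
  · intro j
    rw [← hev y j]
    ext ν
    rw [coeff_map, coeff_zero]
    by_cases hν : ∀ s, ν s < 3 * D + e + 1
    · have : ν = mu4 (fun s => (⟨ν s, hν s⟩ : Fin (3 * D + e + 1))) := by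
        ext s
        rfl
      rw [this]
      exact hy (j, _)
    · push Not at hν
      obtain ⟨s, hs⟩ := hν
      have : coeff ν (P j) = 0 := by
        by_contra hne
        have := (degreeOf_le_iff.mp (hP j s)) ν (mem_support_iff.mpr hne)
        omega
      rw [this, map_zero]

theorem tsen_frac4 {k : Type} [Field k] [IsAlgClosed k] (n r : ℕ)
    (c : Fin r → Fin n → Fin n → Fin n → FractionRing (MvPolynomial (Fin 4) k))
    (h : 81 * r < n) :
    ∃ x : Fin n → FractionRing (MvPolynomial (Fin 4) k), x ≠ 0 ∧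
      ∀ j, ∑ i1, ∑ i2, ∑ i3, c j i1 i2 i3 * (x i1 * x i2 * x i3) = 0 := by
  obtain ⟨b, hb⟩ := IsLocalization.exist_integer_multiples_of_finite
    (nonZeroDivisors (MvPolynomial (Fin 4) k))
    (fun p : Fin r × Fin n × Fin n × Fin n => c p.1 p.2.1 p.2.2.1 p.2.2.2)
  choose c' hc' using hb
  obtain ⟨x, hx0, hx⟩ := tsen_poly4 n r (fun j i1 i2 i3 => c' (j, i1, i2, i3)) h
  have hinj := IsFractionRing.injective (MvPolynomial (Fin 4) k)
    (FractionRing (MvPolynomial (Fin 4) k))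
  refine ⟨fun i => algebraMap _ _ (x i), ?_, ?_⟩
  · intro h0
    apply hx0
    funext i
    apply hinj
    rw [congrFun h0 i]
    simp
  · intro j
    have h1 := congrArg (algebraMap _ (FractionRing (MvPolynomial (Fin 4) k))) (hx j)
    simp only [map_sum, map_mul, map_zero, hc', Algebra.smul_def] at h1
    have hb0 : algebraMap _ (FractionRing (MvPolynomial (Fin 4) k))
        (b : MvPolynomial (Fin 4) k) ≠ 0 := by
      intro h0
      exact nonZeroDivisors.ne_zero b.2 (hinj (by rw [h0, map_zero]))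
    apply mul_left_cancel₀ hb0
    rw [mul_zero, ← h1]
    simp only [Finset.mul_sum, mul_assoc]

/-- Any `r` cubic forms in more than `81 r` variables have a nontrivial common zero. -/
def C4 (F : Type) [Field F] : Prop :=
  ∀ (W : Type) [AddCommGroup W] [Module F W] [FiniteDimensional F W] (r : ℕ) (f : Fin r → W → F),
    (∀ j, IsCub (f j)) → 81 * r < Module.finrank F W → ∃ x : W, x ≠ 0 ∧ ∀ j, f j x = 0

theorem c4_frac (k : Type) [Field k] [IsAlgClosed k] :
    C4 (FractionRing (MvPolynomial (Fin 4) k)) := by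
  intro W _ _ _ r f hf h
  let e := (Module.finBasis (FractionRing (MvPolynomial (Fin 4) k)) W).equivFun
  have := fun j => ((hf j).comp e.symm.toLinearMap).coords
  choose c hc using this
  obtain ⟨x, hx0, hx⟩ := tsen_frac4 _ r c h
  refine ⟨e.symm x, ?_, fun j => ?_⟩
  · intro h0
    apply hx0
    simpa using h0
  · have := hc j x
    rw [hx j] at this
    exact this

/-- There are a cubic form `f` and cubic equations, with at least `v` variables left after paying
`81` for each equation, such that the value of `f` at each nonzero solution is nonzero and has the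
property `P`. -/
def Sol {F : Type} [Field F] (v : ℕ) (P : F → Prop) : Prop :=
  ∃ (W : Type) (_ : AddCommGroup W) (_ : Module F W) (_ : FiniteDimensional F W) (J : Type)
    (_ : Fintype J) (g : J → W → F) (f : W → F), (∀ j, IsCub (g j)) ∧ IsCub f ∧
      81 * Fintype.card J + v ≤ Module.finrank F W ∧
      ∀ x, x ≠ 0 → (∀ j, g j x = 0) → f x ≠ 0 ∧ P (f x)

section sol

variable {F : Type} [Field F] {v v1 v2 : ℕ} {P P1 P2 : F → Prop}

theorem Sol.of_form {W : Type} [AddCommGroup W] [Module F W] [FiniteDimensional F W] {f : W → F}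
    (hf : IsCub f) (hv : v ≤ Module.finrank F W) (h : ∀ x, x ≠ 0 → f x ≠ 0 ∧ P (f x)) :
    Sol v P :=
  ⟨W, _, _, inferInstance, Empty, inferInstance, fun j => j.elim, f, fun j => j.elim, hf,
    by simpa using hv, fun x hx _ => h x hx⟩

theorem Sol.mono (h : Sol v1 P1) (hv : v ≤ v1) (hP : ∀ s, s ≠ 0 → P1 s → P s) : Sol v P := by
  obtain ⟨W, _, _, _, J, _, g, f, hg, hf, hd, h⟩ := h
  exact ⟨W, _, _, inferInstance, J, _, g, f, hg, hf, by omega, fun x hx e =>
    ⟨(h x hx e).1, hP _ (h x hx e).1 (h x hx e).2⟩⟩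

theorem Sol.exists (hF : C4 F) (h : Sol v P) (hv : 0 < v) : ∃ s, s ≠ 0 ∧ P s := by
  obtain ⟨W, _, _, _, J, _, g, f, hg, hf, hd, h⟩ := h
  obtain ⟨x, hx, e⟩ := hF W _ (fun j => g ((Fintype.equivFin J).symm j)) (fun j => hg _)
    (by omega)
  exact ⟨_, h x hx fun j => by simpa using e (Fintype.equivFin J j)⟩

/-- A combination of two forms in disjoint variables. -/
theorem Sol.join (a b : F) (ha : a ≠ 0) (hb : b ≠ 0) (h1 : Sol v1 P1) (h2 : Sol v2 P2)
    (k1 : ∀ s, s ≠ 0 → P1 s → P (a * s)) (k2 : ∀ s, s ≠ 0 → P2 s → P (b * s))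
    (k : ∀ s t, s ≠ 0 → t ≠ 0 → P1 s → P2 t → a * s + b * t ≠ 0 ∧ P (a * s + b * t)) :
    Sol (v1 + v2) P := by
  obtain ⟨W, _, _, _, J, _, g, f, hg, hf, hd, h⟩ := h1
  obtain ⟨W', _, _, _, J', _, g', f', hg', hf', hd', h'⟩ := h2
  refine ⟨W × W', _, _, inferInstance, J ⊕ J', inferInstance,
    Sum.elim (fun j x => g j x.1) (fun j x => g' j x.2), fun x => a * f x.1 + b * f' x.2, ?_,
    ((hf.comp (LinearMap.fst F W W')).cmul a).add ((hf'.comp (LinearMap.snd F W W')).cmul b),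
    by rw [Module.finrank_prod, Fintype.card_sum]; omega, fun x hx e => ?_⟩
  · rintro (j | j)
    · exact (hg j).comp (LinearMap.fst F W W')
    · exact (hg' j).comp (LinearMap.snd F W W')
  have e1 := fun k => h x.1 k fun j => e (.inl j)
  have e2 := fun k => h' x.2 k fun j => e (.inr j)
  beta_reduce
  by_cases x1 : x.1 = 0
  · have x2 : x.2 ≠ 0 := fun x2 => hx (Prod.ext x1 x2)
    rw [x1, hf.zero, mul_zero, zero_add]
    exact ⟨mul_ne_zero hb (e2 x2).1, k2 _ (e2 x2).1 (e2 x2).2⟩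
  by_cases x2 : x.2 = 0
  · rw [x2, hf'.zero, mul_zero, add_zero]
    exact ⟨mul_ne_zero ha (e1 x1).1, k1 _ (e1 x1).1 (e1 x1).2⟩
  exact k _ _ (e1 x1).1 (e2 x2).1 (e1 x1).2 (e2 x2).2

/-- One more equation makes two forms take the same value. -/
theorem Sol.link (h1 : Sol v1 P1) (h2 : Sol v2 P2) (hv : v + 81 ≤ v1 + v2) :
    Sol v fun s => P1 s ∧ P2 s := by
  obtain ⟨W, _, _, _, J, _, g, f, hg, hf, hd, h⟩ := h1
  obtain ⟨W', _, _, _, J', _, g', f', hg', hf', hd', h'⟩ := h2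
  refine ⟨W × W', _, _, inferInstance, Option (J ⊕ J'), inferInstance,
    fun o => o.elim (fun x => f x.1 - f' x.2)
      (Sum.elim (fun j x => g j x.1) (fun j x => g' j x.2)), fun x => f x.1, ?_,
    hf.comp (LinearMap.fst F W W'),
    by rw [Module.finrank_prod, Fintype.card_option, Fintype.card_sum]; omega, fun x hx e => ?_⟩
  · rintro (_ | j | j)
    · exact (hf.comp (LinearMap.fst F W W')).sub (hf'.comp (LinearMap.snd F W W'))
    · exact (hg j).comp (LinearMap.fst F W W')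
    · exact (hg' j).comp (LinearMap.snd F W W')
  have e1 := fun k => h x.1 k fun j => e (some (.inl j))
  have e2 := fun k => h' x.2 k fun j => e (some (.inr j))
  have e0 : f x.1 = f' x.2 := sub_eq_zero.1 (e none)
  have x1 : x.1 ≠ 0 := fun x1 => by
    have x2 : x.2 ≠ 0 := fun x2 => hx (Prod.ext x1 x2)
    exact (e2 x2).1 (by rw [← e0, x1, hf.zero])
  have x2 : x.2 ≠ 0 := fun x2 => (e1 x1).1 (by rw [e0, x2, hf'.zero])
  exact ⟨(e1 x1).1, (e1 x1).2, by have := (e2 x2).2; rwa [← e0] at this⟩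

end sol

end Pool.Agent.Lib.MP_8363a4_al.H2
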