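import Mathlib
import Pool.Agent.Lib.MP_8363a4_al.H2Moves
import Pool.Agent.Lib.MP_8363a4_al.H91Sol

/-!
The norm form of the first Tits construction kills the symbol of degree three.
-/

namespace Pool.Agent.Lib.MP_8363a4_al.H2

open Cub Matrix

section mat

variable {R : Type} [CommRing R]

theorem det_add3 (U W : Matrix (Fin 3) (Fin 3) R) :
    (U + W).det = U.det + (U.adjugate * W).trace + (U * W.adjugate).trace + W.det := by
  simp only [trace_fin_three, mul_apply, Fin.sum_univ_three]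
  simp [det_fin_three, adjugate_fin_three]
  ring

theorem adj_adj3 (U : Matrix (Fin 3) (Fin 3) R) : U.adjugate.adjugate = U.det • U := by
  simpa using adjugate_adjugate U (by simp)

theorem det_adj3 (U : Matrix (Fin 3) (Fin 3) R) : U.adjugate.det = U.det ^ 2 := by
  simpa using det_adjugate U

theorem tits_mul (c : R) (X Y Z : Matrix (Fin 3) (Fin 3) R) :
    (X.det + c * Y.det + c ^ 2 * Z.det - c * (X * Y * Z).trace) * (Y.det + c * ((-1 : R) • Z).det)
      = (X * Y + (-c) • Z.adjugate).det + c * (Y.adjugate + (-1 : R) • (Z * X)).det := by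
  have t1 : (X * Y * Z).trace = (Y * (Z * X)).trace := by
    rw [Matrix.mul_assoc X, trace_mul_comm X, Matrix.mul_assoc]
  have t2 : (Y.adjugate * X.adjugate * Z.adjugate).trace
      = (Y.adjugate * (X.adjugate * Z.adjugate)).trace := by rw [Matrix.mul_assoc]
  simp only [det_add3, det_smul, adjugate_smul, adj_adj3, det_adj3, adjugate_mul_distrib, det_mul,
    Matrix.mul_smul, Matrix.smul_mul, trace_smul, smul_eq_mul, Fintype.card_fin, t1, t2]
  ring

theorem tits_deg (c : R) (X Y Z : Matrix (Fin 3) (Fin 3) R)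
    (h1 : X * Y + (-c) • Z.adjugate = 0) (h2 : Y.adjugate + (-1 : R) • (Z * X) = 0) :
    Y.det + c * ((-1 : R) • Z).det = 0 := by
  have e1 : X * Y = c • Z.adjugate := by
    rw [neg_smul] at h1
    exact eq_of_sub_eq_zero (by rw [sub_eq_add_neg]; exact h1)
  have e2 : Y.adjugate = Z * X := by
    rw [neg_smul, one_smul] at h2
    exact eq_of_sub_eq_zero (by rw [sub_eq_add_neg]; exact h2)
  have := adjugate_mul Y
  rw [e2, Matrix.mul_assoc, e1, Matrix.mul_smul, mul_adjugate] at this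
  have h := congrFun (congrFun this 0) 0
  simp only [Matrix.smul_apply, one_apply_eq, smul_eq_mul, mul_one] at h
  simp only [det_smul, Fintype.card_fin]
  linear_combination -h

end mat

section alg

variable {F : Type} [Field F] {o : F} (ho : o ^ 2 + o + 1 = 0) {a : F} (b : F)

/-- The matrix of an element `u₀ + u₁ y + u₂ y²` of the symbol algebra `(a, b)`. -/
def mx (u0 u1 u2 : Cub a) : Matrix (Fin 3) (Fin 3) (Cub a) :=
  !![u0, u1, u2; c a b * sg a o ho u2, sg a o ho u0, sg a o ho u1;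
    c a b * sg a o ho (sg a o ho u1), c a b * sg a o ho (sg a o ho u2), sg a o ho (sg a o ho u0)]

/-- The matrices that come from the symbol algebra. -/
def IsA (X : Matrix (Fin 3) (Fin 3) (Cub a)) : Prop := ∃ u0 u1 u2, X = mx ho b u0 u1 u2

theorem mx_det (u0 u1 u2 : Cub a) : (mx ho b u0 u1 u2).det = c a (Nrd b o ho u0 u1 u2) := by
  simp only [Nrd, map_add, map_sub, map_mul, map_pow, c_N (o := o) (ho := ho),
    c_Tr (o := o) (ho := ho), sg3]
  simp [mx, det_fin_three]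
  ring

theorem mx_trace (u0 u1 u2 : Cub a) : (mx ho b u0 u1 u2).trace = c a (Tr u0) := by
  rw [c_Tr (o := o) (ho := ho)]
  simp [mx, trace_fin_three]

theorem mx_zero : mx ho b (0 : Cub a) 0 0 = 0 := by
  refine Matrix.ext fun i j => ?_
  fin_cases i <;> fin_cases j <;> simp [mx]

theorem mx_ne {u0 u1 u2 : Cub a} : mx ho b u0 u1 u2 ≠ 0 ↔ u0 ≠ 0 ∨ u1 ≠ 0 ∨ u2 ≠ 0 := by
  constructor
  · intro h
    by_contra hc
    push Not at hc
    exact h (by rw [hc.1, hc.2.1, hc.2.2, mx_zero])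
  · rintro (h | h | h) e
    · exact h (congrFun (congrFun e 0) 0)
    · exact h (congrFun (congrFun e 0) 1)
    · exact h (congrFun (congrFun e 0) 2)

variable {ho b} {X Y : Matrix (Fin 3) (Fin 3) (Cub a)}

theorem IsA.add (hX : IsA ho b X) (hY : IsA ho b Y) : IsA ho b (X + Y) := by
  obtain ⟨u0, u1, u2, rfl⟩ := hX
  obtain ⟨v0, v1, v2, rfl⟩ := hY
  refine ⟨u0 + v0, u1 + v1, u2 + v2, ?_⟩
  refine Matrix.ext fun i j => ?_
  fin_cases i <;> fin_cases j <;> simp [mx, mul_add]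

theorem IsA.smul (r : F) (hX : IsA ho b X) : IsA ho b (c a r • X) := by
  obtain ⟨u0, u1, u2, rfl⟩ := hX
  refine ⟨c a r * u0, c a r * u1, c a r * u2, ?_⟩
  refine Matrix.ext fun i j => ?_
  fin_cases i <;> fin_cases j <;> simp [mx, sg_c] <;> ring

theorem IsA.mul (hX : IsA ho b X) (hY : IsA ho b Y) : IsA ho b (X * Y) := by
  obtain ⟨u0, u1, u2, rfl⟩ := hX
  obtain ⟨v0, v1, v2, rfl⟩ := hY
  refine ⟨(mx ho b u0 u1 u2 * mx ho b v0 v1 v2) 0 0, (mx ho b u0 u1 u2 * mx ho b v0 v1 v2) 0 1,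
    (mx ho b u0 u1 u2 * mx ho b v0 v1 v2) 0 2, ?_⟩
  refine Matrix.ext fun i j => ?_
  fin_cases i <;> fin_cases j <;>
    simp [mx, sg_c, sg3, mul_apply, Fin.sum_univ_three] <;> ring

theorem IsA.adj (hX : IsA ho b X) : IsA ho b X.adjugate := by
  obtain ⟨u0, u1, u2, rfl⟩ := hX
  refine ⟨(mx ho b u0 u1 u2).adjugate 0 0, (mx ho b u0 u1 u2).adjugate 0 1,
    (mx ho b u0 u1 u2).adjugate 0 2, ?_⟩
  refine Matrix.ext fun i j => ?_
  fin_cases i <;> fin_cases j <;> simp [mx, sg_c, sg3, adjugate_fin_three] <;> ring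

theorem IsA.trace (hX : IsA ho b X) : c a X.trace.x = X.trace := by
  obtain ⟨u0, u1, u2, rfl⟩ := hX
  rw [mx_trace, c_x]

theorem IsA.det (hX : IsA ho b X) : c a X.det.x = X.det := by
  obtain ⟨u0, u1, u2, rfl⟩ := hX
  rw [mx_det, c_x]

variable (ho b)

/-- The matrix attached to nine coordinates. -/
def mw (a b : F) (w : E9 F) : Matrix (Fin 3) (Fin 3) (Cub a) :=
  mx ho b (cub a w.1) (cub a w.2.1) (cub a w.2.2)

theorem mw_isA (w : E9 F) : IsA ho b (mw ho a b w) := ⟨_, _, _, rfl⟩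

theorem mw_det (w : E9 F) : (mw ho a b w).det.x = fR ho a b w := by
  rw [mw, mx_det, c_x, fR]

theorem mw_ne {w : E9 F} (hw : w ≠ 0) : mw ho a b w ≠ 0 := by
  rw [mw, mx_ne]
  rcases prod_ne (W := E3 F) (W' := E3 F × E3 F) hw with h | h
  · exact Or.inl (cub_ne _ _ h)
  · rcases prod_ne h with h | h
    · exact Or.inr (Or.inl (cub_ne _ _ h))
    · exact Or.inr (Or.inr (cub_ne _ _ h))

section lin

variable {W : Type} [AddCommGroup W] [Module F W]

/-- Maps into the cubic ring with linear coordinates. -/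
def Lin3 (f : W → Cub a) : Prop := ∃ p q r : W →ₗ[F] F, ∀ w, f w = ⟨p w, q w, r w⟩

theorem Lin3.sg {f : W → Cub a} (h : Lin3 f) : Lin3 fun w => sg a o ho (f w) := by
  obtain ⟨p, q, r, h⟩ := h
  exact ⟨p, o • q, o ^ 2 • r, fun w => by beta_reduce; rw [h]; rfl⟩

theorem Lin3.cmul {f : W → Cub a} (h : Lin3 f) : Lin3 fun w => c a b * f w := by
  obtain ⟨p, q, r, h⟩ := h
  refine ⟨b • p, b • q, b • r, fun w => ?_⟩
  beta_reduce
  rw [h]
  ext <;> simp [mul_x, mul_y, mul_z, c_x, c_y, c_z]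

theorem lin3_cub (π : W →ₗ[F] E3 F) : Lin3 fun w => cub a (π w) :=
  ⟨(LinearMap.fst F F (F × F)).comp π,
    ((LinearMap.fst F F F).comp (LinearMap.snd F F (F × F))).comp π,
    ((LinearMap.snd F F F).comp (LinearMap.snd F F (F × F))).comp π, fun _ => rfl⟩

theorem lin3_mw (π : W →ₗ[F] E9 F) (i j : Fin 3) : Lin3 fun w => mw ho a b (π w) i j := by
  have h0 := lin3_cub (a := a) ((LinearMap.fst F (E3 F) (E3 F × E3 F)).comp π)
  have h1 := lin3_cub (a := a)
    (((LinearMap.fst F (E3 F) (E3 F)).comp (LinearMap.snd F (E3 F) (E3 F × E3 F))).comp π)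
  have h2 := lin3_cub (a := a)
    (((LinearMap.snd F (E3 F) (E3 F)).comp (LinearMap.snd F (E3 F) (E3 F × E3 F))).comp π)
  fin_cases i <;> fin_cases j
  exacts [h0, h1, h2, (h2.sg ho).cmul b, h0.sg ho, h1.sg ho, ((h1.sg ho).sg ho).cmul b,
    ((h2.sg ho).sg ho).cmul b, (h0.sg ho).sg ho]

theorem Lin3.cub {f g h : W → Cub a} (hf : Lin3 f) (hg : Lin3 g) (hh : Lin3 h) :
    IsCub fun w => (f w * g w * h w).x := by
  obtain ⟨p, q, r, hf⟩ := hf
  obtain ⟨p', q', r', hg⟩ := hg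
  obtain ⟨p'', q'', r'', hh⟩ := hh
  have m := fun (u v w : W →ₗ[F] F) (k : F) => (IsCub.mul3 u v w).cmul k
  have := ((((((((m p p' p'' 1).add (m q r' p'' a)).add (m r q' p'' a)).add (m p q' r'' a)).add
    (m q p' r'' a)).add (m r r' r'' (a ^ 2))).add (m p r' q'' a)).add (m q q' q'' a)).add
    (m r p' q'' a)
  convert this using 2
  simp only [hf, hg, hh, mul_x, mul_y, mul_z]
  ring

end lin

abbrev E27 (F : Type) : Type := E9 F × E9 F × E9 F

/-- The norm form of the first Tits construction. -/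
def fJ (a b d : F) (w : E27 F) : F :=
  fR ho a b w.1 + d * fR ho a b w.2.1 + d ^ 2 * fR ho a b w.2.2 -
    d * (mw ho a b w.1 * mw ho a b w.2.1 * mw ho a b w.2.2).trace.x

theorem isCub_fJ (a b d : F) : IsCub (fJ ho a b d) := by
  let P : E27 F →ₗ[F] E9 F := LinearMap.fst F _ _
  let Q : E27 F →ₗ[F] E9 F := (LinearMap.fst F _ _).comp (LinearMap.snd F _ _)
  let R : E27 F →ₗ[F] E9 F := (LinearMap.snd F _ _).comp (LinearMap.snd F _ _)
  have m := fun i j k : Fin 3 =>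
    (lin3_mw ho b (a := a) P i j).cub (lin3_mw ho b Q j k) (lin3_mw ho b R k i)
  have s3 : ∀ f : Fin 3 → E27 F → F, (∀ i, IsCub (f i)) → IsCub fun w => f 0 w + f 1 w + f 2 w :=
    fun f h => ((h 0).add (h 1)).add (h 2)
  have t := s3 _ fun i => s3 _ fun k => s3 _ fun j => m i j k
  have := ((((isCub_fR ho a b).comp P).add (((isCub_fR ho a b).comp Q).cmul d)).add
    (((isCub_fR ho a b).comp R).cmul (d ^ 2))).sub (t.cmul d)
  convert this using 2
  simp only [fJ, trace_fin_three, mul_apply, Fin.sum_univ_three, add_mul, add_x]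
  rfl

end alg

namespace Sys

variable {F V G : Type} [Field F] [AddCommGroup V] [AddCommGroup G]

/-- The sum of a killed element and a slot is killed. -/
theorem bin (S : Sys F V G) {p q : V} {u v : F} (hu : u ≠ 0) (hv : v ≠ 0) (hT : S.T p q ≠ 0)
    (h1 : S.T p (S.l u) = 0) (h2 : S.T p (S.l v) = S.T p q) :
    u + v ≠ 0 ∧ S.T p q (S.l (u + v)) = 0 := by
  have hn : u + v ≠ 0 := fun h0 => hT (by rw [← h2, S.l_eq_of_add_eq_zero _ _ hu h0, h1])
  refine ⟨hn, ?_⟩
  have h := S.rule23 _ _ hu hv hn p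
  rw [h1, S.swap23, map_sub, h2, h1, sub_zero] at h
  simpa using h.symm

end Sys

/-- A logarithm and a quadri-additive Steinberg map. -/
structure Sys4 (F V G : Type) [Field F] [AddCommGroup V] [AddCommGroup G]
    extends Sys F V (V →+ G) where
  st34 : ∀ a b : F, a ≠ 0 → b ≠ 0 → a + b = 1 → ∀ u v, T u v (l a) (l b) = 0

namespace Sys4

variable {F V G : Type} [Field F] [AddCommGroup V] [AddCommGroup G] (S : Sys4 F V G)
  {o : F} (ho : o ^ 2 + o + 1 = 0)

/-- The system of degree three obtained by fixing the first slot. -/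
def pre (t : V) : Sys F V G where
  l := S.l
  T := S.T t
  l_mul := S.l_mul
  three := S.three
  surj := S.surj
  st12 a b ha hb h := S.st23 a b ha hb h t
  st23 a b ha hb h u := S.st34 a b ha hb h t u

theorem K2m {a b : F} (ha : a ≠ 0) (hb : b ≠ 0) (hT : S.T (S.l a) (S.l b) ≠ 0)
    {X : Matrix (Fin 3) (Fin 3) (Cub a)} (hX : IsA ho b X) (h : X ≠ 0) :
    X.det.x ≠ 0 ∧ S.T (S.l a) (S.l b) (S.l X.det.x) = 0 := by
  obtain ⟨u0, u1, u2, rfl⟩ := hX
  rw [mx_det, c_x]
  exact S.toSys.K2 ho a b ha hb hT u0 u1 u2 ((mx_ne ho b).1 h)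

theorem bin3 {a b d : F} (ha : a ≠ 0) (hb : b ≠ 0) (hd : d ≠ 0)
    (hT : S.T (S.l a) (S.l b) (S.l d) ≠ 0) {X Y : Matrix (Fin 3) (Fin 3) (Cub a)}
    (hX : IsA ho b X) (hY : IsA ho b Y) (h : X ≠ 0 ∨ Y ≠ 0) :
    X.det.x + d * Y.det.x ≠ 0 ∧
      S.T (S.l a) (S.l b) (S.l d) (S.l (X.det.x + d * Y.det.x)) = 0 := by
  have hT' : S.T (S.l a) (S.l b) ≠ 0 := fun h0 => hT (by rw [h0]; rfl)
  have z : (0 : Matrix (Fin 3) (Fin 3) (Cub a)).det.x = 0 := by rw [det_zero]; rfl
  by_cases hy : Y = 0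
  · obtain ⟨h1, h2⟩ := S.K2m ho ha hb hT' hX (h.resolve_right (not_not.mpr hy))
    rw [hy, z, mul_zero, add_zero]
    refine ⟨h1, ?_⟩
    have := (S.pre (S.l a)).swap23 (S.l b) (S.l d) (S.l X.det.x)
    simp only [pre, h2] at this
    simpa using this
  obtain ⟨v1, v2⟩ := S.K2m ho ha hb hT' hY hy
  have e : S.T (S.l a) (S.l b) (S.l (d * Y.det.x)) = S.T (S.l a) (S.l b) (S.l d) := by
    rw [S.l_mul _ _ hd v1, map_add, v2, add_zero]
  by_cases hx : X = 0
  · rw [hx, z, zero_add]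
    refine ⟨mul_ne_zero hd v1, ?_⟩
    rw [← e]
    exact (S.pre (S.l a)).self23 _ _
  obtain ⟨u1, u2⟩ := S.K2m ho ha hb hT' hX hx
  exact (S.pre (S.l a)).bin u1 (mul_ne_zero hd v1) hT u2 e

/-- Norms from the Albert algebra are killed. -/
theorem K3 {a b d : F} (ha : a ≠ 0) (hb : b ≠ 0) (hd : d ≠ 0)
    (hT : S.T (S.l a) (S.l b) (S.l d) ≠ 0) (w : E27 F) (hw : w ≠ 0) :
    fJ ho a b d w ≠ 0 ∧ S.T (S.l a) (S.l b) (S.l d) (S.l (fJ ho a b d w)) = 0 := by
  obtain ⟨w0, w1, w2⟩ := w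
  have hX := mw_isA ho b (a := a) w0
  have hY := mw_isA ho b (a := a) w1
  have hZ := mw_isA ho b (a := a) w2
  have hJ : c a (fJ ho a b d (w0, w1, w2)) = (mw ho a b w0).det + c a d * (mw ho a b w1).det +
      c a d ^ 2 * (mw ho a b w2).det -
        c a d * (mw ho a b w0 * mw ho a b w1 * mw ho a b w2).trace := by
    simp only [fJ, map_sub, map_add, map_mul, map_pow, ← mw_det, hX.det, hY.det, hZ.det,
      ((hX.mul hY).mul hZ).trace]
  have z : mw ho a b (0 : E9 F) = 0 := mx_zero ho b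
  by_cases h12 : w1 = 0 ∧ w2 = 0
  · have h0 : w0 ≠ 0 := fun h0 => hw (by rw [h0, h12.1, h12.2]; rfl)
    have := S.bin3 ho ha hb hd hT hX hY (Or.inl (mw_ne ho b h0))
    have e : fJ ho a b d (w0, w1, w2) = (mw ho a b w0).det.x + d * (mw ho a b w1).det.x := by
      apply c_inj (a := a)
      rw [hJ, map_add, map_mul, hX.det, hY.det, h12.2, z]
      simp
    rwa [e]
  have n1 : (-1 : Cub a) = c a (-1) := by simp
  have nd : -c a d = c a (-d) := by simp
  have hZ' : IsA ho b ((-1 : Cub a) • mw ho a b w2) := n1 ▸ hZ.smul (-1)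
  have h1 := S.bin3 ho ha hb hd hT hY hZ' (by
    by_cases k : w1 = 0
    · refine Or.inr fun e => mw_ne ho b (a := a) (fun k' => h12 ⟨k, k'⟩) ?_
      simpa using e
    · exact Or.inl (mw_ne ho b k))
  have hU : IsA ho b (mw ho a b w0 * mw ho a b w1 + (-c a d) • (mw ho a b w2).adjugate) :=
    (hX.mul hY).add (nd ▸ hZ.adj.smul (-d))
  have hW : IsA ho b ((mw ho a b w1).adjugate + (-1 : Cub a) • (mw ho a b w2 * mw ho a b w0)) :=
    hY.adj.add (n1 ▸ (hZ.mul hX).smul (-1))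
  have h2 := S.bin3 ho ha hb hd hT hU hW (by
    by_contra hc
    push Not at hc
    apply h1.1
    apply c_inj (a := a)
    rw [map_add, map_mul, hY.det, hZ'.det, map_zero]
    exact tits_deg _ _ _ _ hc.1 hc.2)
  have id := tits_mul (c a d) (mw ho a b w0) (mw ho a b w1) (mw ho a b w2)
  rw [← hJ, ← hY.det, ← hZ'.det, ← hU.det, ← hW.det, ← map_mul, ← map_add, ← map_mul, ← map_mul,
    ← map_add] at id
  have id' := c_inj id
  have hn : fJ ho a b d (w0, w1, w2) ≠ 0 := by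
    intro h0
    rw [h0, zero_mul] at id'
    exact h2.1 id'.symm
  refine ⟨hn, ?_⟩
  have h3 := h2.2
  rw [← id', S.l_mul _ _ hn h1.1, map_add, h1.2, add_zero] at h3
  exact h3

end Sys4

end Pool.Agent.Lib.MP_8363a4_al.H2
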