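import Mathlib
import Pool.Agent.Lib.MP_8363a4_al.H91Alb

/-!
The rewriting moves on degree three symbols, with norm forms in 3, 9 and 27 variables and the
price 81 for an equation.
-/

namespace Pool.Agent.Lib.MP_8363a4_al.H2

namespace Sys

variable {F V G : Type} [Field F] [AddCommGroup V] [AddCommGroup G] {S : Sys F V G}

/-- Cubic forms in 3, 9 and 27 variables whose values are killed. -/
structure Nrm (S : Sys F V G) : Prop where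
  k0 : ∀ u v w, S.T u v w ≠ 0 → Sol 3 fun s => S.T (S.l s) = 0
  k1 : ∀ u v w, S.T u v w ≠ 0 → Sol 9 fun s => S.T u (S.l s) = 0
  k2 : ∀ u v w, S.T u v w ≠ 0 → Sol 27 fun s => S.T u v (S.l s) = 0

theorem Nrm.g36 (N : S.Nrm) {u v w : V} (h : S.T u v w ≠ 0) :
    Sol 36 fun s => ∃ e, S.T u v w = S.T u (S.l s) e := by
  obtain ⟨a, ha, rfl⟩ := S.surj v
  obtain ⟨b, hb, rfl⟩ := S.surj w
  have eN : ∀ s, s ≠ 0 → S.T u (S.l s) = 0 → S.T u (S.l (a * s)) = S.T u (S.l a) :=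
    fun s hs k => by rw [S.l_mul _ _ ha hs, map_add, k, add_zero]
  have eR : ∀ s, s ≠ 0 → S.T u (S.l a) (S.l s) = 0 →
      S.T u (S.l a) (S.l (b * s)) = S.T u (S.l a) (S.l b) :=
    fun s hs k => by rw [S.l_mul _ _ hb hs, map_add, k, add_zero]
  refine Sol.join (v1 := 9) (v2 := 27) a b ha hb (N.k1 _ _ _ h) (N.k2 _ _ _ h)
    (fun s hs k => ⟨S.l b, by rw [eN s hs k]⟩)
    (fun s hs k => ⟨-S.l a, by rw [← eR s hs k, S.swap23, map_neg]⟩) fun s t hs ht k k' => ?_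
  have e : S.T u (S.l a) (S.l b) = S.T u (S.l (a * s)) (S.l (b * t)) := by
    rw [eN s hs k, eR t ht k']
  have n1 := mul_ne_zero ha hs
  have hn : a * s + b * t ≠ 0 := fun h0 =>
    h (by rw [e, S.l_eq_of_add_eq_zero _ _ n1 h0, S.self23])
  exact ⟨hn, _, by rw [e, S.rule23 _ _ n1 (mul_ne_zero hb ht) hn]⟩

/-- From a second slot to a first slot. -/
theorem lift {k0 k : ℕ} {R : G → Prop} {ξ : G} {u : V} (K : Sol k0 fun s => S.T (S.l s) = 0)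
    (h : Sol k fun s => ∃ e ρ, R ρ ∧ ξ = S.T u (S.l s) e + ρ) (hR : ¬ R ξ)
    (h0 : ∃ e e' ρ, R ρ ∧ ξ = S.T u e e' + ρ) :
    Sol (k0 + k) fun s => ∃ e e' ρ, R ρ ∧ ξ = S.T (S.l s) e e' + ρ := by
  obtain ⟨t, ht, rfl⟩ := S.surj u
  have e0 : ∀ s, s ≠ 0 → S.T (S.l s) = 0 → S.T (S.l (t * s)) = S.T (S.l t) :=
    fun s hs k => by rw [S.l_mul _ _ ht hs, map_add, k, add_zero]
  refine Sol.join t 1 ht one_ne_zero K h (fun s hs k => by rw [e0 s hs k]; exact h0) ?_ ?_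
  · rintro s - ⟨e, ρ, hρ, rfl⟩
    refine ⟨-S.l t, e, ρ, hρ, ?_⟩
    rw [one_mul, S.swap12, map_neg]
    rfl
  · rintro s v hs hv k ⟨e, ρ, hρ, rfl⟩
    have n1 := mul_ne_zero ht hs
    rw [one_mul]
    have hn : t * s + v ≠ 0 := fun h0 => hR (by
      rw [← e0 s hs k, S.l_eq_of_add_eq_zero _ _ n1 h0, S.self12', zero_add]
      exact hρ)
    exact ⟨hn, _, e, ρ, hρ, by rw [← e0 s hs k, S.rule12 _ _ n1 hv hn]⟩

theorem Nrm.g39 (N : S.Nrm) {ξ : G} (hs : S.sym ξ) (h : ξ ≠ 0) :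
    Sol 39 fun s => ∃ e e', ξ = S.T (S.l s) e e' := by
  obtain ⟨u, v, w, rfl⟩ := hs
  refine (lift (k0 := 3) (k := 36) (R := (· = 0)) (u := u) (N.k0 _ _ _ h)
    ((N.g36 h).mono le_rfl fun s _ ⟨e, he⟩ => ⟨e, 0, rfl, by rw [add_zero, he]⟩) h
    ⟨v, w, 0, rfl, by rw [add_zero]⟩).mono le_rfl ?_
  rintro s - ⟨e, e', _, rfl, he⟩
  exact ⟨e, e', by rw [he, add_zero]⟩

theorem Nrm.g63 (N : S.Nrm) {u v1 w1 v2 w2 : V}
    (h : ¬ ∃ v w, S.T u v1 w1 + S.T u v2 w2 = S.T u v w) :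
    Sol 63 fun s => ∃ e v w, S.T u v1 w1 + S.T u v2 w2 = S.T u (S.l s) e + S.T u v w := by
  have hS1 : S.T u v1 w1 ≠ 0 := fun h0 => h ⟨v2, w2, by rw [h0, zero_add]⟩
  have hS2 : S.T u v2 w2 ≠ 0 := fun h0 => h ⟨v1, w1, by rw [h0, add_zero]⟩
  obtain ⟨a1, ha1, rfl⟩ := S.surj v1
  obtain ⟨b1, hb1, rfl⟩ := S.surj w1
  have eR : ∀ s, s ≠ 0 → S.T u (S.l a1) (S.l s) = 0 →
      S.T u (S.l a1) (S.l (b1 * s)) = S.T u (S.l a1) (S.l b1) :=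
    fun s hs k => by rw [S.l_mul _ _ hb1 hs, map_add, k, add_zero]
  refine Sol.join (v1 := 27) (v2 := 36) b1 a1 hb1 ha1 (N.k2 _ _ _ hS1) (N.g36 hS2)
    (fun s hs k => ⟨-S.l a1, v2, w2, by rw [← eR s hs k, S.swap23, map_neg]⟩) ?_ ?_
  · rintro s hs ⟨e, he⟩
    refine ⟨e, S.l a1, S.l b1 - e, ?_⟩
    rw [he, S.l_mul _ _ ha1 hs]
    simp only [map_sub, map_add, AddMonoidHom.add_apply]
    abel
  · rintro s t hs ht k ⟨e, he⟩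
    have r1 := mul_ne_zero hb1 hs
    have hn : b1 * s + a1 * t ≠ 0 := by
      intro h0
      apply h
      have := S.l_eq_of_add_eq_zero _ _ r1 h0
      refine ⟨S.l t, e - S.l a1, ?_⟩
      rw [← eR s hs k, ← this, S.l_mul _ _ ha1 ht, he, map_add, S.self23, zero_add, map_sub,
        S.swap23 _ (S.l a1)]
      abel
    refine ⟨hn, ?_⟩
    rw [← eR s hs k, he]
    exact S.chain_common _ a1 _ _ ha1 r1 ht e hn

theorem Nrm.g66 (N : S.Nrm) {ξ : G} (hp : S.pair ξ) (h : ¬ S.sym ξ) :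
    Sol 66 fun s => ∃ e e' ρ, S.sym ρ ∧ ξ = S.T (S.l s) e e' + ρ := by
  obtain ⟨u, v1, w1, v2, w2, rfl⟩ := hp
  have hS1 : S.T u v1 w1 ≠ 0 := fun h0 => h ⟨u, v2, w2, by rw [h0, zero_add]⟩
  exact lift (k0 := 3) (k := 63) (u := u) (N.k0 _ _ _ hS1)
    ((N.g63 fun ⟨v, w, e⟩ => h ⟨u, v, w, e⟩).mono le_rfl
      fun s _ ⟨e, v, w, he⟩ => ⟨e, _, ⟨u, v, w, rfl⟩, he⟩) h ⟨v1, w1, _, ⟨u, v2, w2, rfl⟩, rfl⟩

theorem Nrm.g75 (N : S.Nrm) {ξ η : G} (h1 : S.sym ξ) (h2 : S.sym η) (h : ¬ S.pair (ξ + η)) :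
    Sol 75 fun s => ∃ e1 e2 e3 e4 ρ, S.pair ρ ∧
      ξ + η = S.T (S.l s) e1 e2 + S.T (S.l s) e3 e4 + ρ := by
  have hS1 : ξ ≠ 0 := fun h0 => h (by rw [h0, zero_add]; exact h2.pair)
  have hS2 : η ≠ 0 := fun h0 => h (by rw [h0, add_zero]; exact h1.pair)
  obtain ⟨u, v, w, rfl⟩ := h2
  obtain ⟨t, ht, rfl⟩ := S.surj u
  refine Sol.join (v1 := 39) (v2 := 36) t 1 ht one_ne_zero (N.g39 h1 hS1) (N.g36 hS2) ?_ ?_ ?_
  · rintro s hs ⟨x1, x2, rfl⟩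
    refine ⟨x1, x2, 0, 0, _, ⟨S.l t, -x1, x2, v, w, rfl⟩, ?_⟩
    rw [S.l_mul _ _ ht hs]
    simp only [map_neg, map_zero, map_add, AddMonoidHom.neg_apply, AddMonoidHom.add_apply]
    abel
  · rintro s hs ⟨e, he⟩
    refine ⟨-S.l t, e, 0, 0, _, h1.pair, ?_⟩
    rw [one_mul, he, S.swap12 (S.l t)]
    simp only [map_neg, map_zero, AddMonoidHom.neg_apply]
    abel
  · rintro s r hs hr ⟨x1, x2, rfl⟩ ⟨e, he⟩
    rw [one_mul]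
    have hn : t * s + r ≠ 0 := by
      intro h0
      apply h
      have := S.l_eq_of_add_eq_zero _ _ (mul_ne_zero ht hs) h0
      refine ⟨S.l s, x1, x2, -S.l t, e, ?_⟩
      rw [he, this, S.l_mul _ _ ht hs, map_add, S.self12, zero_add, S.swap12 (S.l t)]
      simp only [map_neg, AddMonoidHom.neg_apply]
    obtain ⟨R, hR, hh⟩ := S.chain_free t _ _ ht hs hr x1 x2 e hn
    exact ⟨hn, x1, x2, -S.l t, e, R, hR, by rw [he, hh]⟩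

theorem Nrm.three_two (N : S.Nrm) (hF : C4 F) (u v1 w1 v2 w2 v3 w3 : V) :
    ∃ x1 y1 x2 y2, S.T u v1 w1 + S.T u v2 w2 + S.T u v3 w3 = S.T u x1 y1 + S.T u x2 y2 := by
  by_cases hP : ∃ v w, S.T u v1 w1 + S.T u v2 w2 = S.T u v w
  · obtain ⟨v, w, hP⟩ := hP
    exact ⟨v, w, _, _, by rw [hP]⟩
  by_cases h3 : S.T u v3 w3 = 0
  · exact ⟨v1, w1, v2, w2, by rw [h3, add_zero]⟩
  obtain ⟨s, -, ⟨e, v, w, n2⟩, e', m2⟩ :=
    (Sol.link (v := 1) (N.g63 hP) (N.g36 h3) (by norm_num)).exists hF one_pos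
  refine ⟨S.l s, e + e', v, w, ?_⟩
  rw [n2, m2, map_add]
  abel

theorem Nrm.pair3 (N : S.Nrm) (hF : C4 F) (u v1 w1 v2 w2 v3 w3 : V) :
    S.pair (S.T u v1 w1 + S.T u v2 w2 + S.T u v3 w3) := by
  obtain ⟨x1, y1, x2, y2, h⟩ := N.three_two hF u v1 w1 v2 w2 v3 w3
  exact ⟨u, x1, y1, x2, y2, h⟩

theorem Nrm.pair4 (N : S.Nrm) (hF : C4 F) (u v1 w1 v2 w2 v3 w3 v4 w4 : V) :
    S.pair (S.T u v1 w1 + S.T u v2 w2 + S.T u v3 w3 + S.T u v4 w4) := by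
  obtain ⟨x1, y1, x2, y2, h⟩ := N.three_two hF u v1 w1 v2 w2 v3 w3
  rw [h]
  exact N.pair3 hF u _ _ _ _ _ _

/-- `ξ` is a sum of two symbols and a pair. -/
def ssp (S : Sys F V G) (ξ : G) : Prop :=
  ∃ ξ1 ξ2 R, S.sym ξ1 ∧ S.sym ξ2 ∧ S.pair R ∧ ξ = ξ1 + ξ2 + R

theorem pair.ssp {ξ : G} (h : S.pair ξ) : S.ssp ξ :=
  ⟨0, 0, ξ, S.sym_zero, S.sym_zero, h, by abel⟩

theorem Nrm.moveA (N : S.Nrm) (hF : C4 F) {ξ P Q : G} (h : S.sym ξ) (hP : S.pair P)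
    (hQ : S.pair Q) : S.ssp (ξ + P + Q) := by
  by_cases h0 : ξ = 0
  · obtain ⟨ξ1, ξ2, h1, h2, rfl⟩ := hP.split
    exact ⟨ξ1, ξ2, Q, h1, h2, hQ, by rw [h0, zero_add]⟩
  by_cases sP : S.sym P
  · exact ⟨ξ, P, Q, h, sP, hQ, rfl⟩
  by_cases sQ : S.sym Q
  · exact ⟨ξ, Q, P, h, sQ, hP, by abel⟩
  obtain ⟨s, -, ⟨⟨u1, v1, n1⟩, u2, v2, R2, hR2, n2⟩, u3, v3, R3, hR3, n3⟩ :=
    (Sol.link (v := 1) (Sol.link (v := 24) (N.g39 h h0) (N.g66 hP sP) (by norm_num))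
      (N.g66 hQ sQ) (by norm_num)).exists hF one_pos
  refine ⟨R2, R3, _, hR2, hR3, N.pair3 hF (S.l s) u1 v1 u2 v2 u3 v3, ?_⟩
  rw [n1, n2, n3]
  abel

theorem Nrm.ssp_add_sym (N : S.Nrm) (hF : C4 F) {ξ η : G} (h : S.ssp ξ) (h3 : S.sym η) :
    S.ssp (ξ + η) := by
  obtain ⟨ξ1, ξ2, P, h1, h2, hP, rfl⟩ := h
  by_cases h0 : η = 0
  · exact ⟨ξ1, ξ2, P, h1, h2, hP, by rw [h0, add_zero]⟩
  by_cases p12 : S.pair (ξ1 + ξ2)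
  · convert N.moveA hF h3 p12 hP using 1
    abel
  by_cases sP : S.sym P
  · obtain ⟨s, -, ⟨u1, v1, n1⟩, u3, v3, u4, v4, R3, hR3, n3⟩ :=
      (Sol.link (v := 1) (N.g39 h3 h0) (N.g75 h1 h2 p12) (by norm_num)).exists hF one_pos
    convert N.moveA hF sP hR3 (N.pair3 hF (S.l s) u1 v1 u3 v3 u4 v4) using 1
    rw [n1, n3]
    abel
  obtain ⟨s, -, ⟨⟨u1, v1, n1⟩, u2, v2, R2, hR2, n2⟩, u3, v3, u4, v4, R3, hR3, n3⟩ :=
    (Sol.link (v := 1) (Sol.link (v := 24) (N.g39 h3 h0) (N.g66 hP sP) (by norm_num))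
      (N.g75 h1 h2 p12) (by norm_num)).exists hF one_pos
  convert N.moveA hF hR2 hR3 (N.pair4 hF (S.l s) u1 v1 u2 v2 u3 v3 u4 v4) using 1
  rw [n1, n2, n3]
  abel

theorem Nrm.ssp_add (N : S.Nrm) (hF : C4 F) {ξ η : G} (h : S.ssp ξ) (h' : S.ssp η) :
    S.ssp (ξ + η) := by
  obtain ⟨ξ1, ξ2, P, h1, h2, hP, rfl⟩ := h'
  obtain ⟨ξ3, ξ4, h3, h4, rfl⟩ := hP.split
  convert N.ssp_add_sym hF (N.ssp_add_sym hF (N.ssp_add_sym hF (N.ssp_add_sym hF h h1) h2) h3) h4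
    using 1
  abel

end Sys

end Pool.Agent.Lib.MP_8363a4_al.H2
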