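import Mathlib
import Pool.Agent.Lib.MP_8363a4_al.H91Game

/-!
The rewriting moves on degree four symbols.
-/

namespace Pool.Agent.Lib.MP_8363a4_al.H2

section sums

variable {G : Type} [AddCommGroup G] {P Q : G → Prop}

/-- Sums of an element with the property `P` and an element with the property `Q`. -/
def Pl (P Q : G → Prop) (ξ : G) : Prop := ∃ η ζ, P η ∧ Q ζ ∧ ξ = η + ζ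

/-- Sums of `n` elements with the property `P`. -/
def Sm (P : G → Prop) : ℕ → G → Prop
  | 0 => fun ξ => ξ = 0
  | n + 1 => Pl P (Sm P n)

theorem Sm_add {m n : ℕ} {ξ : G} : Sm P (m + n) ξ ↔ Pl (Sm P m) (Sm P n) ξ := by
  induction n generalizing ξ with
  | zero => exact ⟨fun h => ⟨ξ, 0, h, rfl, by simp⟩, fun ⟨η, ζ, h, h0, e⟩ => by
      rw [e, show ζ = 0 from h0, add_zero η]; exact h⟩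
  | succ n ih =>
    constructor
    · rintro ⟨η, ζ, h, h', rfl⟩
      obtain ⟨x, y, hx, hy, rfl⟩ := ih.1 h'
      exact ⟨x, η + y, hx, ⟨η, y, h, hy, rfl⟩, by abel⟩
    · rintro ⟨x, _, hx, ⟨η, y, h, hy, rfl⟩, rfl⟩
      exact ⟨η, x + y, h, ih.2 ⟨x, y, hx, hy, rfl⟩, by abel⟩

theorem Sm_two {n : ℕ} {ξ : G} : Sm P (2 * n) ξ ↔ Sm (Pl P P) n ξ := by
  induction n generalizing ξ with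
  | zero => rfl
  | succ n ih =>
    constructor
    · rintro ⟨x, _, hx, ⟨y, z, hy, hz, rfl⟩, rfl⟩
      exact ⟨x + y, z, ⟨x, y, hx, hy, rfl⟩, ih.1 hz, by abel⟩
    · rintro ⟨_, z, ⟨x, y, hx, hy, rfl⟩, hz, rfl⟩
      exact ⟨x, y + z, hx, ⟨y, z, hy, ih.2 hz, rfl⟩, by abel⟩

theorem Sm.mono (h : ∀ ξ, P ξ → Q ξ) {n : ℕ} {ξ : G} (k : Sm P n ξ) : Sm Q n ξ := by
  induction n generalizing ξ with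
  | zero => exact k
  | succ n ih =>
    obtain ⟨x, y, hx, hy, rfl⟩ := k
    exact ⟨x, y, h _ hx, ih hy, rfl⟩

theorem Sm_zero (h : P 0) (n : ℕ) : Sm P n 0 := by
  induction n with
  | zero => rfl
  | succ n ih => exact ⟨0, 0, h, ih, by simp⟩

theorem Sm.eq_zero {n : ℕ} {z : G} (h : Sm (· = 0) n z) : z = 0 := by
  induction n generalizing z with
  | zero => exact h
  | succ n ih =>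
    obtain ⟨_, y, rfl, hy, rfl⟩ := h
    rw [ih hy, add_zero]

end sums

/-- What a move does to one group: `i` symbols and `j` pairs rest, `e` symbols leave, `b` couples
of symbols become pairs, `c` pairs become symbols, `f` symbols are released. -/
structure Act where
  i : ℕ
  j : ℕ
  e : ℕ
  b : ℕ
  c : ℕ
  f : ℕ

def Act.bef (a : Act) : ℕ × ℕ := (a.e + 2 * a.b + a.f + a.i, a.c + a.j)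

def Act.aft (a : Act) : ℕ × ℕ := (a.c + a.i, a.b + a.j)

def Act.cost (a : Act) : ℕ := a.e * 41 + a.b * 5 + a.c * 14

/-- The listed moves are allowed and end with 17 symbols. -/
def good : List (ℕ × ℕ) → List (List Act × ℕ) → Bool
  | l, [] => decide ((l.map fun p => p.1 + 2 * p.2).sum = 17)
  | l, m :: ms => decide ((l.filter (· ≠ (0, 0))).Perm (m.1.map Act.bef) ∧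
      (m.1.map Act.f).sum = 2 * m.2 ∧ (m.1.map Act.cost).sum + m.2 * 2 ≤ 80) &&
      good ((2, 1) :: (List.replicate m.2 (2, 0) ++ m.1.map Act.aft)) ms

/-- The moves. -/
def plan : List (List Act × ℕ) :=
  [([⟨1, 0, 0, 0, 0, 0⟩, ⟨0, 0, 0, 0, 0, 1⟩, ⟨0, 0, 0, 0, 0, 1⟩, ⟨0, 0, 0, 0, 0, 1⟩, ⟨0, 0, 0,
     0, 0, 1⟩, ⟨0, 0, 0, 0, 0, 1⟩, ⟨0, 0, 0, 0, 0, 1⟩, ⟨0, 0, 0, 0, 0, 1⟩, ⟨0, 0, 0, 0, 0, 1⟩,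
     ⟨0, 0, 0, 0, 0, 1⟩, ⟨0, 0, 0, 0, 0, 1⟩, ⟨0, 0, 0, 0, 0, 1⟩, ⟨0, 0, 0, 0, 0, 1⟩, ⟨0, 0, 0,
     0, 0, 1⟩, ⟨0, 0, 0, 0, 0, 1⟩, ⟨0, 0, 0, 0, 0, 1⟩, ⟨0, 0, 0, 0, 0, 1⟩, ⟨0, 0, 1, 0, 0, 0⟩],
     8),
   ([⟨1, 0, 0, 0, 0, 0⟩, ⟨2, 0, 0, 0, 0, 0⟩, ⟨2, 0, 0, 0, 0, 0⟩, ⟨2, 0, 0, 0, 0, 0⟩, ⟨0, 0, 0,
     1, 0, 0⟩, ⟨0, 0, 0, 1, 0, 0⟩, ⟨0, 0, 0, 1, 0, 0⟩, ⟨0, 0, 0, 1, 0, 0⟩, ⟨0, 0, 0, 1, 0, 0⟩,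
     ⟨1, 0, 1, 0, 1, 0⟩], 0),
   ([⟨1, 0, 0, 0, 0, 0⟩, ⟨2, 0, 0, 0, 0, 0⟩, ⟨2, 0, 0, 0, 0, 0⟩, ⟨2, 0, 0, 0, 0, 0⟩, ⟨0, 0, 0,
     1, 0, 0⟩, ⟨0, 1, 0, 0, 0, 0⟩, ⟨0, 0, 0, 0, 1, 0⟩, ⟨0, 0, 0, 0, 1, 0⟩, ⟨0, 0, 0, 0, 1, 0⟩,
     ⟨0, 0, 0, 0, 1, 0⟩, ⟨0, 0, 0, 1, 1, 0⟩], 0),
   ([⟨1, 0, 0, 0, 0, 0⟩, ⟨0, 0, 0, 0, 0, 1⟩, ⟨0, 0, 0, 0, 0, 1⟩, ⟨0, 0, 0, 0, 0, 1⟩, ⟨0, 0, 0,
     0, 0, 1⟩, ⟨0, 0, 0, 1, 0, 0⟩, ⟨0, 0, 0, 1, 0, 0⟩, ⟨0, 0, 0, 1, 0, 0⟩, ⟨0, 0, 0, 0, 1, 0⟩,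
     ⟨0, 0, 0, 0, 1, 0⟩, ⟨1, 0, 0, 0, 1, 0⟩, ⟨0, 0, 0, 1, 1, 0⟩], 2),
   ([⟨1, 0, 0, 0, 0, 0⟩, ⟨0, 0, 0, 0, 0, 1⟩, ⟨0, 0, 0, 0, 0, 1⟩, ⟨0, 0, 0, 1, 0, 0⟩, ⟨0, 0, 0,
     1, 0, 0⟩, ⟨0, 0, 0, 1, 0, 0⟩, ⟨0, 1, 0, 0, 0, 0⟩, ⟨0, 0, 0, 0, 1, 0⟩, ⟨0, 0, 0, 0, 1, 0⟩,
     ⟨1, 0, 0, 0, 1, 0⟩, ⟨0, 0, 0, 1, 1, 0⟩], 1),
   ([⟨1, 0, 0, 0, 0, 0⟩, ⟨1, 0, 0, 0, 0, 0⟩, ⟨1, 0, 0, 0, 0, 0⟩, ⟨2, 0, 0, 0, 0, 0⟩, ⟨0, 0, 0,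
     1, 0, 0⟩, ⟨0, 1, 0, 0, 0, 0⟩, ⟨0, 0, 0, 0, 1, 0⟩, ⟨0, 0, 0, 0, 1, 0⟩, ⟨0, 0, 0, 0, 1, 0⟩,
     ⟨1, 0, 0, 0, 1, 0⟩, ⟨0, 0, 0, 1, 1, 0⟩], 0),
   ([⟨0, 0, 0, 0, 0, 1⟩, ⟨0, 0, 0, 0, 0, 1⟩, ⟨0, 0, 0, 0, 0, 1⟩, ⟨0, 0, 0, 0, 0, 1⟩, ⟨0, 0, 0,
     0, 0, 1⟩, ⟨0, 0, 0, 0, 0, 1⟩, ⟨0, 0, 0, 1, 0, 0⟩, ⟨0, 0, 0, 1, 0, 0⟩, ⟨0, 0, 0, 0, 1, 0⟩,
     ⟨0, 0, 0, 0, 1, 0⟩, ⟨1, 0, 0, 0, 1, 0⟩, ⟨0, 0, 0, 1, 1, 0⟩], 3),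
   ([⟨0, 0, 0, 0, 0, 1⟩, ⟨0, 0, 0, 0, 0, 1⟩, ⟨0, 0, 0, 1, 0, 0⟩, ⟨0, 0, 0, 1, 0, 0⟩, ⟨0, 0, 0,
     1, 0, 0⟩, ⟨0, 0, 0, 1, 0, 0⟩, ⟨0, 0, 0, 0, 1, 0⟩, ⟨0, 0, 0, 0, 1, 0⟩, ⟨1, 0, 0, 0, 1, 0⟩,
     ⟨2, 0, 0, 0, 1, 0⟩], 1),
   ([⟨0, 0, 0, 0, 0, 1⟩, ⟨0, 0, 0, 0, 0, 1⟩, ⟨0, 0, 0, 1, 0, 0⟩, ⟨0, 0, 0, 1, 0, 0⟩, ⟨0, 0, 0,
     0, 1, 0⟩, ⟨0, 0, 0, 0, 1, 0⟩, ⟨0, 0, 0, 0, 1, 0⟩, ⟨0, 0, 0, 0, 1, 0⟩, ⟨1, 0, 0, 1, 0, 0⟩,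
     ⟨0, 1, 0, 1, 0, 0⟩], 1),
   ([⟨0, 0, 0, 0, 0, 1⟩, ⟨0, 0, 0, 0, 0, 1⟩, ⟨0, 0, 0, 0, 0, 1⟩, ⟨0, 0, 0, 0, 0, 1⟩, ⟨0, 0, 0,
     1, 0, 0⟩, ⟨0, 0, 0, 0, 1, 0⟩, ⟨0, 0, 0, 0, 1, 0⟩, ⟨1, 0, 0, 0, 1, 0⟩, ⟨2, 1, 0, 0, 0, 0⟩,
     ⟨0, 0, 0, 0, 2, 0⟩], 2),
   ([⟨0, 0, 0, 0, 0, 1⟩, ⟨0, 0, 0, 0, 0, 1⟩, ⟨0, 0, 0, 1, 0, 0⟩, ⟨0, 0, 0, 1, 0, 0⟩, ⟨0, 0, 0,
     1, 0, 0⟩, ⟨0, 0, 0, 1, 0, 0⟩, ⟨0, 0, 0, 0, 1, 0⟩, ⟨0, 0, 0, 1, 1, 0⟩, ⟨0, 0, 0, 1, 1, 0⟩],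
     1),
   ([⟨1, 0, 0, 0, 0, 0⟩, ⟨0, 0, 0, 1, 0, 0⟩, ⟨0, 1, 0, 0, 0, 0⟩, ⟨0, 0, 0, 0, 1, 0⟩, ⟨0, 0, 0,
     0, 1, 0⟩, ⟨0, 0, 0, 0, 1, 0⟩, ⟨1, 0, 0, 0, 1, 0⟩, ⟨1, 0, 0, 0, 1, 0⟩, ⟨0, 1, 0, 1, 0, 0⟩],
     0),
   ([⟨0, 0, 0, 0, 0, 1⟩, ⟨0, 0, 0, 0, 0, 1⟩, ⟨0, 0, 0, 0, 0, 1⟩, ⟨0, 0, 0, 0, 0, 1⟩, ⟨0, 0, 0,
     1, 0, 0⟩, ⟨0, 0, 0, 1, 0, 0⟩, ⟨0, 0, 0, 0, 1, 0⟩, ⟨0, 0, 0, 0, 1, 0⟩, ⟨0, 1, 0, 1, 0, 0⟩,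
     ⟨0, 0, 0, 0, 2, 0⟩], 2),
   ([⟨0, 0, 0, 0, 0, 1⟩, ⟨0, 0, 0, 0, 0, 1⟩, ⟨0, 0, 0, 1, 0, 0⟩, ⟨0, 0, 0, 1, 0, 0⟩, ⟨0, 0, 0,
     1, 0, 0⟩, ⟨0, 1, 0, 0, 0, 0⟩, ⟨0, 0, 0, 0, 1, 0⟩, ⟨0, 0, 0, 1, 1, 0⟩, ⟨0, 0, 0, 0, 2, 0⟩],
     1),
   ([⟨1, 0, 0, 0, 0, 0⟩, ⟨2, 0, 0, 0, 0, 0⟩, ⟨0, 0, 0, 1, 0, 0⟩, ⟨0, 1, 0, 0, 0, 0⟩, ⟨0, 0, 0,
     0, 1, 0⟩, ⟨0, 0, 0, 0, 1, 0⟩, ⟨0, 0, 0, 0, 1, 0⟩, ⟨1, 0, 0, 0, 1, 0⟩, ⟨0, 0, 0, 1, 1, 0⟩],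
     0),
   ([⟨0, 0, 0, 0, 0, 1⟩, ⟨0, 0, 0, 0, 0, 1⟩, ⟨0, 0, 0, 0, 0, 1⟩, ⟨0, 0, 0, 0, 0, 1⟩, ⟨0, 0, 0,
     1, 0, 0⟩, ⟨0, 0, 0, 1, 0, 0⟩, ⟨0, 0, 0, 0, 1, 0⟩, ⟨0, 0, 0, 0, 1, 0⟩, ⟨1, 0, 0, 0, 1, 0⟩,
     ⟨0, 0, 0, 1, 1, 0⟩], 2),
   ([⟨1, 0, 0, 0, 0, 0⟩, ⟨1, 0, 0, 0, 0, 0⟩, ⟨0, 0, 0, 1, 0, 0⟩, ⟨0, 0, 0, 1, 0, 0⟩, ⟨0, 0, 0,
     1, 0, 0⟩, ⟨0, 0, 0, 0, 1, 0⟩, ⟨0, 0, 0, 0, 1, 0⟩, ⟨1, 0, 0, 0, 1, 0⟩, ⟨0, 0, 0, 1, 1, 0⟩],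
     0),
   ([⟨0, 0, 0, 0, 0, 1⟩, ⟨0, 0, 0, 0, 0, 1⟩, ⟨0, 0, 0, 0, 0, 1⟩, ⟨0, 0, 0, 0, 0, 1⟩, ⟨2, 0, 0,
     0, 0, 0⟩, ⟨0, 0, 0, 0, 1, 0⟩, ⟨0, 0, 0, 0, 1, 0⟩, ⟨0, 0, 0, 0, 1, 0⟩, ⟨1, 0, 0, 0, 1, 0⟩,
     ⟨0, 0, 0, 1, 1, 0⟩], 2),
   ([⟨0, 0, 0, 0, 0, 1⟩, ⟨0, 0, 0, 0, 0, 1⟩, ⟨0, 0, 1, 0, 0, 0⟩, ⟨0, 0, 0, 1, 0, 0⟩, ⟨0, 0, 0,
     1, 0, 0⟩, ⟨0, 0, 0, 1, 0, 0⟩, ⟨0, 0, 0, 1, 0, 0⟩, ⟨1, 0, 0, 0, 1, 0⟩, ⟨2, 1, 0, 0, 0, 0⟩],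
     1),
   ([⟨0, 0, 0, 1, 0, 0⟩, ⟨0, 0, 0, 1, 0, 0⟩, ⟨0, 0, 0, 0, 1, 0⟩, ⟨0, 0, 0, 0, 1, 0⟩, ⟨0, 0, 0,
     0, 1, 0⟩, ⟨0, 0, 0, 0, 1, 0⟩, ⟨0, 1, 0, 1, 0, 0⟩, ⟨0, 1, 0, 1, 0, 0⟩], 0),
   ([⟨0, 0, 0, 0, 0, 1⟩, ⟨0, 0, 0, 0, 0, 1⟩, ⟨0, 0, 0, 0, 0, 1⟩, ⟨0, 0, 0, 0, 0, 1⟩, ⟨0, 0, 0,
     0, 1, 0⟩, ⟨0, 0, 0, 0, 1, 0⟩, ⟨0, 1, 0, 1, 0, 0⟩, ⟨0, 1, 0, 0, 1, 0⟩, ⟨0, 0, 0, 0, 2, 0⟩],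
     2),
   ([⟨0, 0, 0, 0, 0, 1⟩, ⟨0, 0, 0, 0, 0, 1⟩, ⟨0, 0, 0, 1, 0, 0⟩, ⟨0, 0, 0, 1, 0, 0⟩, ⟨0, 0, 0,
     1, 0, 0⟩, ⟨1, 0, 0, 0, 1, 0⟩, ⟨0, 0, 0, 1, 1, 0⟩, ⟨0, 0, 0, 0, 2, 0⟩], 1),
   ([⟨0, 0, 0, 1, 0, 0⟩, ⟨0, 0, 0, 1, 0, 0⟩, ⟨0, 0, 0, 1, 0, 0⟩, ⟨0, 1, 0, 0, 0, 0⟩, ⟨0, 0, 0,
     0, 1, 0⟩, ⟨0, 0, 0, 0, 1, 0⟩, ⟨1, 0, 0, 0, 1, 0⟩, ⟨0, 0, 0, 1, 1, 0⟩], 0),
   ([⟨1, 0, 0, 0, 0, 0⟩, ⟨1, 0, 0, 0, 0, 0⟩, ⟨0, 0, 0, 1, 0, 0⟩, ⟨0, 0, 0, 0, 1, 0⟩, ⟨0, 0, 0,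
     0, 1, 0⟩, ⟨0, 0, 0, 0, 1, 0⟩, ⟨0, 0, 0, 0, 1, 0⟩, ⟨1, 0, 0, 0, 1, 0⟩, ⟨0, 1, 0, 1, 0, 0⟩],
     0),
   ([⟨0, 0, 0, 0, 0, 1⟩, ⟨0, 0, 0, 0, 0, 1⟩, ⟨0, 0, 0, 0, 0, 1⟩, ⟨0, 0, 0, 0, 0, 1⟩, ⟨0, 0, 0,
     0, 0, 1⟩, ⟨0, 0, 0, 0, 0, 1⟩, ⟨0, 0, 0, 1, 0, 0⟩, ⟨0, 0, 0, 0, 1, 0⟩, ⟨0, 0, 0, 1, 1, 0⟩,
     ⟨0, 0, 0, 0, 2, 0⟩], 3),
   ([⟨0, 0, 1, 0, 0, 0⟩, ⟨0, 0, 0, 1, 0, 0⟩, ⟨0, 0, 0, 1, 0, 0⟩, ⟨0, 0, 0, 1, 0, 0⟩, ⟨0, 0, 0,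
     1, 0, 0⟩, ⟨0, 1, 0, 0, 0, 0⟩, ⟨1, 0, 0, 0, 1, 0⟩, ⟨0, 1, 0, 1, 0, 0⟩], 0),
   ([⟨0, 0, 0, 1, 0, 0⟩, ⟨0, 1, 0, 0, 0, 0⟩, ⟨0, 0, 0, 0, 1, 0⟩, ⟨0, 0, 0, 0, 1, 0⟩, ⟨0, 0, 0,
     0, 1, 0⟩, ⟨0, 0, 0, 0, 1, 0⟩, ⟨0, 1, 0, 1, 0, 0⟩, ⟨0, 1, 0, 0, 1, 0⟩], 0),
   ([⟨0, 0, 0, 0, 0, 1⟩, ⟨0, 0, 0, 0, 0, 1⟩, ⟨0, 0, 0, 0, 0, 1⟩, ⟨0, 0, 0, 0, 0, 1⟩, ⟨0, 0, 0,
     0, 1, 0⟩, ⟨0, 0, 0, 0, 1, 0⟩, ⟨1, 0, 0, 0, 1, 0⟩, ⟨0, 1, 0, 1, 0, 0⟩, ⟨0, 0, 0, 0, 2, 0⟩],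
     2),
   ([⟨0, 0, 0, 0, 0, 1⟩, ⟨0, 0, 0, 0, 0, 1⟩, ⟨0, 0, 0, 1, 0, 0⟩, ⟨0, 0, 0, 1, 0, 0⟩, ⟨0, 0, 0,
     1, 0, 0⟩, ⟨0, 0, 0, 1, 0, 0⟩, ⟨0, 0, 0, 1, 1, 0⟩, ⟨0, 0, 0, 0, 2, 0⟩], 1),
   ([⟨2, 0, 0, 0, 0, 0⟩, ⟨0, 0, 0, 1, 0, 0⟩, ⟨0, 0, 0, 0, 1, 0⟩, ⟨0, 0, 0, 0, 1, 0⟩, ⟨0, 0, 0,
     0, 1, 0⟩, ⟨0, 0, 0, 0, 1, 0⟩, ⟨1, 0, 0, 0, 1, 0⟩, ⟨0, 1, 0, 1, 0, 0⟩], 0),
   ([⟨0, 0, 0, 0, 0, 1⟩, ⟨0, 0, 0, 0, 0, 1⟩, ⟨0, 0, 0, 0, 0, 1⟩, ⟨0, 0, 0, 0, 0, 1⟩, ⟨0, 0, 0,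
     1, 0, 0⟩, ⟨0, 0, 0, 1, 0, 0⟩, ⟨0, 0, 0, 0, 1, 0⟩, ⟨0, 0, 0, 1, 1, 0⟩, ⟨0, 0, 0, 0, 2, 0⟩],
     2),
   ([⟨1, 0, 0, 0, 0, 0⟩, ⟨0, 0, 0, 1, 0, 0⟩, ⟨0, 0, 0, 1, 0, 0⟩, ⟨0, 0, 0, 1, 0, 0⟩, ⟨0, 0, 0,
     0, 1, 0⟩, ⟨0, 0, 0, 0, 1, 0⟩, ⟨1, 0, 0, 0, 1, 0⟩, ⟨0, 0, 0, 1, 1, 0⟩], 0),
   ([⟨1, 0, 0, 0, 0, 0⟩, ⟨1, 0, 0, 0, 0, 0⟩, ⟨1, 0, 0, 0, 0, 0⟩, ⟨0, 0, 0, 1, 0, 0⟩, ⟨0, 0, 0,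
     0, 1, 0⟩, ⟨0, 0, 0, 0, 1, 0⟩, ⟨0, 0, 0, 0, 1, 0⟩, ⟨1, 0, 0, 0, 1, 0⟩, ⟨0, 0, 0, 1, 1, 0⟩],
     0)]

theorem plan_good : good (List.replicate 18 (1, 0)) plan = true := by
  decide

namespace Sys4

variable {F V G : Type} [Field F] [AddCommGroup V] [AddCommGroup G] (S : Sys4 F V G)
  {o : F} (ho : o ^ 2 + o + 1 = 0)

theorem pre_T (t : V) : (S.pre t).T = S.T t := rfl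

theorem pre_l (t : V) : (S.pre t).l = S.l := rfl

include ho in
theorem nrm (t : V) : (S.pre t).Nrm := by
  obtain ⟨t, ht, rfl⟩ := S.surj t
  refine ⟨fun u v w h => ?_, fun u v w h => ?_, fun u v w h => ?_⟩
  · exact Sol.of_form (isCub_fN t) (by simp [Module.finrank_prod])
      (S.toSys.famN t ht fun h0 => h (by rw [pre_T, h0]; simp))
  · obtain ⟨a, ha, rfl⟩ := S.surj u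
    exact Sol.of_form (isCub_fR ho t a) (by simp [Module.finrank_prod])
      (S.toSys.famR ho t a ht ha fun h0 => h (by rw [pre_T, h0]; simp))
  · obtain ⟨a, ha, rfl⟩ := S.surj u
    obtain ⟨b, hb, rfl⟩ := S.surj v
    exact Sol.of_form (isCub_fJ ho t a b) (by simp [Module.finrank_prod])
      (S.K3 ho ht ha hb fun h0 => h (by rw [pre_T, h0]; simp))

theorem cube : Sol 1 fun s => S.l s = 0 :=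
  Sol.of_form isCub_cube (by simp) fun x hx => ⟨pow_ne_zero 3 hx, S.toSys.l_cube x hx⟩

/-- `ξ` is a symbol. -/
def sy (ξ : G) : Prop := ∃ t, (S.pre t).sym ξ

/-- `ξ` is a sum of two symbols with a common slot. -/
def s2 (ξ : G) : Prop := ∃ t, Pl (S.pre t).sym (S.pre t).sym ξ

theorem sy_zero : S.sy 0 := ⟨0, (S.pre 0).sym_zero⟩

theorem sy.s2 {S : Sys4 F V G} {ξ : G} (h : S.sy ξ) : S.s2 ξ :=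
  h.elim fun t h => ⟨t, ξ, 0, h, (S.pre t).sym_zero, by simp⟩

/-- From a second slot to a first slot. -/
theorem up {k : ℕ} {P Q : F → Prop} {t : F} (ht : t ≠ 0) (h : Sol k Q)
    (h0 : ∀ s, S.l s = S.l t → P s)
    (h1 : ∀ v, Q v → S.T (S.l t) (S.l v) ≠ 0)
    (h2 : ∀ v s e, Q v → S.T (S.l t) (S.l v) = S.T (S.l s) e → P s) : Sol (1 + k) P := by
  have e0 : ∀ s, s ≠ 0 → S.l s = 0 → S.l (t * s) = S.l t :=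
    fun s hs k => by rw [S.l_mul _ _ ht hs, k, add_zero]
  refine Sol.join t 1 ht one_ne_zero S.cube h (fun s hs k => h0 _ (e0 s hs k))
    (fun s _ k => h2 s _ (-S.l t) k ?_) fun s v hs hv k k' => ?_
  · rw [one_mul, map_neg]
    exact S.toSys.bil_swap S.T S.st12 _ _
  · have n1 := mul_ne_zero ht hs
    rw [one_mul]
    have hn : t * s + v ≠ 0 := fun h0 => h1 v k' (by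
      rw [S.toSys.l_eq_of_add_eq_zero _ _ n1 h0, e0 s hs k, S.toSys.self12])
    refine ⟨hn, h2 v _ (S.l v - S.l (t * s)) k' (AddMonoidHom.ext fun w => ?_)⟩
    rw [← e0 s hs k]
    exact S.toSys.rule12 _ _ n1 hv hn w

include ho

theorem g40 {ξ : G} (hs : S.sy ξ) (h : ξ ≠ 0) : Sol 40 fun s => (S.pre (S.l s)).sym ξ := by
  obtain ⟨t, hs⟩ := hs
  obtain ⟨t, ht, rfl⟩ := S.surj t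
  refine S.up (k := 39) ht ((S.nrm ho _).g39 hs h) (fun s k => by rw [k]; exact hs) ?_ ?_
  · rintro v ⟨e, e', he⟩ h0
    exact h (by rw [he, pre_T, pre_l, h0]; rfl)
  · rintro v s e ⟨e1, e2, he⟩ h0
    exact ⟨e, e1, e2, by rw [he, pre_T, pre_l, h0]; rfl⟩

omit ho in
/-- Either `ξ` has the property `R`, or it does after removing a class with a slot `s` that runs
through a family of deficiency `d`. -/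
def Par (d : ℕ) (R : G → Prop) (ξ : G) : Prop :=
  R ξ ∨ Sol (81 - d) fun s => Pl (S.pre (S.l s)).ssp R ξ

theorem par_e {ξ : G} (hs : S.sy ξ) : S.Par 41 (· = 0) ξ := by
  by_cases h : ξ = 0
  · exact .inl h
  exact .inr ((S.g40 ho hs h).mono (by norm_num) fun s _ k => ⟨ξ, 0, k.pair.ssp, rfl, by simp⟩)

theorem par_d (t : V) {ξ : G} (hs : (S.pre t).pair ξ) : S.Par 14 (S.pre t).sym ξ := by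
  by_cases h : (S.pre t).sym ξ
  · exact .inl h
  obtain ⟨t, ht, rfl⟩ := S.surj t
  refine .inr (S.up (k := 66) ht ((S.nrm ho _).g66 hs h)
    (fun s k => ⟨ξ, 0, by rw [k]; exact hs.ssp, (S.pre _).sym_zero, by simp⟩) ?_ ?_)
  · rintro v ⟨e, e', ρ, hρ, he⟩ h0
    apply h
    rwa [he, pre_T, pre_l, h0, AddMonoidHom.zero_apply, AddMonoidHom.zero_apply, zero_add]
  · rintro v s e ⟨e1, e2, ρ, hρ, he⟩ h0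
    exact ⟨_, ρ, Sys.pair.ssp (Sys.sym.pair ⟨e, e1, e2, rfl⟩), hρ, by
      rw [he, pre_T, pre_l, h0]; rfl⟩

theorem par_s (t : V) {ξ : G} (hs : Pl (S.pre t).sym (S.pre t).sym ξ) :
    S.Par 5 (S.pre t).pair ξ := by
  by_cases h : (S.pre t).pair ξ
  · exact .inl h
  obtain ⟨x, y, hx, hy, rfl⟩ := hs
  obtain ⟨t, ht, rfl⟩ := S.surj t
  refine .inr (S.up (k := 75) ht ((S.nrm ho _).g75 hx hy h)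
    (fun s k => ⟨x + y, 0, by
      rw [k]
      exact ⟨x, y, 0, hx, hy, (S.pre _).sym_zero.pair, by simp⟩,
      (S.pre _).sym_zero.pair, by simp⟩) ?_ ?_)
  · rintro v ⟨e1, e2, e3, e4, ρ, hρ, he⟩ h0
    apply h
    rw [he, pre_T, pre_l, h0]
    simpa using hρ
  · rintro v s e ⟨e1, e2, e3, e4, ρ, hρ, he⟩ h0
    exact ⟨_, ρ, Sys.pair.ssp ⟨e, e1, e2, e3, e4, rfl⟩, hρ, by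
      rw [he, pre_T, pre_l, h0]; rfl⟩

theorem par_p {ξ : G} (hs : Pl S.sy S.sy ξ) : S.Par 2 S.s2 ξ := by
  by_cases h : S.s2 ξ
  · exact .inl h
  obtain ⟨x, y, hx, ⟨a, hy⟩, rfl⟩ := hs
  have h1 : x ≠ 0 := fun h0 => h (by rw [h0, zero_add]; exact sy.s2 ⟨a, hy⟩)
  have h2 : y ≠ 0 := fun h0 => h (by rw [h0, add_zero]; exact hx.s2)
  obtain ⟨a, ha, rfl⟩ := S.surj a
  have sw : ∀ u v : V, S.T u v = -S.T v u := S.toSys.bil_swap S.T S.st12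
  refine .inr (Sol.join (v1 := 40) (v2 := 39) a 1 ha one_ne_zero (S.g40 ho hx h1)
    ((S.nrm ho _).g39 hy h2) ?_ ?_ ?_)
  · rintro s hs ⟨x1, x2, x3, rfl⟩
    refine ⟨_, _, Sys.pair.ssp (Sys.sym.pair ⟨x1, x2, x3, rfl⟩),
      ⟨S.l a, _, y, ⟨-x1, x2, x3, rfl⟩, hy, rfl⟩, ?_⟩
    simp only [pre_T, S.l_mul _ _ ha hs, map_neg, map_add, AddMonoidHom.neg_apply,
      AddMonoidHom.add_apply]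
    abel
  · rintro s hs ⟨e, e', rfl⟩
    refine ⟨_, x, Sys.pair.ssp (Sys.sym.pair ⟨-S.l a, e, e', rfl⟩), hx.s2, ?_⟩
    simp only [pre_T, pre_l, one_mul, sw (S.l a), map_neg]
    abel
  · rintro s v hs hv ⟨x1, x2, x3, rfl⟩ ⟨e, e', rfl⟩
    have n1 := mul_ne_zero ha hs
    rw [one_mul]
    have hn : a * s + v ≠ 0 := fun h0 => h ⟨S.l s, _, _, ⟨x1, x2, x3, rfl⟩, ⟨-S.l a, e, e', rfl⟩, by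
      simp only [pre_T, pre_l, S.toSys.l_eq_of_add_eq_zero _ _ n1 h0, S.l_mul _ _ ha hs, map_add,
        S.toSys.self12, zero_add, map_neg]
      rw [sw (S.l a)]⟩
    have k := S.toSys.bil_sum S.T S.st12 _ _ n1 hv hn
    rw [S.l_mul _ _ ha hs] at k
    have k' := congrArg (fun φ : V →+ V →+ G => φ e e') k
    refine ⟨hn, _, _, ⟨_, _, 0, ⟨x1, x2, x3, rfl⟩, ⟨-S.l a, e, e', rfl⟩,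
      (S.pre _).sym_zero.pair, rfl⟩, ⟨S.l s - S.l (a * s + v), _, _, ⟨x1, x2, x3, rfl⟩,
        ⟨S.l (a * s + v) - S.l v, e, e', rfl⟩, rfl⟩, ?_⟩
    simp only [pre_T, pre_l, map_sub, map_add, map_neg, AddMonoidHom.sub_apply,
      AddMonoidHom.add_apply, AddMonoidHom.neg_apply, S.toSys.self12, AddMonoidHom.zero_apply,
      sw (S.l (a * s + v)) (S.l a)] at k' ⊢
    linear_combination (norm := abel) k'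

theorem Par.add (hF : C4 F) {d1 d2 : ℕ} {R1 R2 : G → Prop} {x y : G} (hd : d1 + d2 ≤ 81)
    (h1 : S.Par d1 R1 x) (h2 : S.Par d2 R2 y) : S.Par (d1 + d2) (Pl R1 R2) (x + y) := by
  rcases h1 with h1 | h1 <;> rcases h2 with h2 | h2
  · exact .inl ⟨x, y, h1, h2, rfl⟩
  · refine .inr (h2.mono (by omega) ?_)
    rintro s - ⟨μ, ρ, hμ, hρ, rfl⟩
    exact ⟨μ, x + ρ, hμ, ⟨x, ρ, h1, hρ, rfl⟩, by abel⟩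
  · refine .inr (h1.mono (by omega) ?_)
    rintro s - ⟨μ, ρ, hμ, hρ, rfl⟩
    exact ⟨μ, ρ + y, hμ, ⟨ρ, y, hρ, h2, rfl⟩, by abel⟩
  · refine .inr ((h1.link h2 (by omega)).mono le_rfl ?_)
    rintro s - ⟨⟨μ, ρ, hμ, hρ, rfl⟩, μ', ρ', hμ', hρ', rfl⟩
    exact ⟨μ + μ', ρ + ρ', (S.nrm ho _).ssp_add hF hμ hμ', ⟨ρ, ρ', hρ, hρ', rfl⟩, by abel⟩

theorem par_sm (hF : C4 F) {d n : ℕ} {P R : G → Prop} (h : ∀ ξ, P ξ → S.Par d R ξ)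
    (hd : n * d ≤ 81) {ξ : G} (k : Sm P n ξ) : S.Par (n * d) (Sm R n) ξ := by
  induction n generalizing ξ with
  | zero => exact .inl k
  | succ n ih =>
    obtain ⟨x, y, hx, hy, rfl⟩ := k
    rw [Nat.succ_mul] at hd ⊢
    rw [add_comm (n * d)]
    exact Par.add S ho hF (by omega) (h x hx) (ih (by omega) hy)

omit ho in
theorem Par.mono {d : ℕ} {R R' : G → Prop} {ξ : G} (h : S.Par d R ξ) (k : ∀ ρ, R ρ → R' ρ) :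
    S.Par d R' ξ :=
  h.imp (k ξ) fun h => h.mono le_rfl fun _ _ ⟨μ, ρ, hμ, hρ, e⟩ => ⟨μ, ρ, hμ, k ρ hρ, e⟩

omit ho in
/-- `ξ` is a sum of `p.1` symbols and `p.2` pairs, all with a common slot. -/
def Grp (p : ℕ × ℕ) (ξ : G) : Prop := ∃ t, Pl (Sm (S.pre t).sym p.1) (Sm (S.pre t).pair p.2) ξ

omit ho in
/-- `ξ` is a sum of groups of the listed shapes. -/
def StL : List (ℕ × ℕ) → G → Prop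
  | [] => fun ξ => ξ = 0
  | p :: l => Pl (S.Grp p) (StL l)

omit ho in
theorem StL.perm {l l' : List (ℕ × ℕ)} (p : l.Perm l') {ξ : G} (h : S.StL l ξ) : S.StL l' ξ := by
  induction p generalizing ξ with
  | nil => exact h
  | cons _ _ ih =>
    obtain ⟨x, y, hx, hy, rfl⟩ := h
    exact ⟨x, y, hx, ih hy, rfl⟩
  | swap =>
    obtain ⟨x, _, hx, ⟨y, z, hy, hz, rfl⟩, rfl⟩ := h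
    exact ⟨y, x + z, hy, ⟨x, z, hx, hz, rfl⟩, by abel⟩
  | trans _ _ h1 h2 => exact h2 (h1 h)

omit ho in
theorem StL.nz {l : List (ℕ × ℕ)} {ξ : G} (h : S.StL l ξ) : S.StL (l.filter (· ≠ (0, 0))) ξ := by
  induction l generalizing ξ with
  | nil => exact h
  | cons p l ih =>
    obtain ⟨x, y, hx, hy, rfl⟩ := h
    by_cases e : p = (0, 0)
    · subst e
      obtain ⟨t, _, _, rfl, rfl, rfl⟩ := hx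
      simpa using ih hy
    · rw [List.filter_cons_of_pos (by simpa using e)]
      exact ⟨x, y, hx, ih hy, rfl⟩

omit ho in
theorem StL.sm {l : List (ℕ × ℕ)} {ξ : G} (h : S.StL l ξ) :
    Sm S.sy (l.map fun p => p.1 + 2 * p.2).sum ξ := by
  induction l generalizing ξ with
  | nil => exact h
  | cons p l ih =>
    obtain ⟨_, y, ⟨t, u, v, hu, hv, rfl⟩, hy, rfl⟩ := h
    exact Sm_add.2 ⟨_, y, Sm_add.2 ⟨u, v, hu.mono fun _ k => ⟨t, k⟩, Sm_two.2 (hv.mono fun _ k =>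
      k.split.elim fun x ⟨z, hx, hz, e⟩ => ⟨x, z, ⟨t, hx⟩, ⟨t, hz⟩, e⟩), rfl⟩, ih hy, rfl⟩

omit ho in
theorem StL.rep {p : ℕ × ℕ} {n : ℕ} {l : List (ℕ × ℕ)} {x y : G} (hx : Sm (S.Grp p) n x)
    (hy : S.StL l y) : S.StL (List.replicate n p ++ l) (x + y) := by
  induction n generalizing x with
  | zero => rwa [show x = 0 from hx, zero_add]
  | succ n ih =>
    obtain ⟨u, v, hu, hv, rfl⟩ := hx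
    exact ⟨u, v + y, hu, ih hv, by abel⟩

theorem par_grp (hF : C4 F) (a : Act) (hd : a.cost ≤ 81) {ξ : G} (h : S.Grp a.bef ξ) :
    Pl (Sm S.sy a.f) (S.Par a.cost (S.Grp a.aft)) ξ := by
  obtain ⟨t, _, _, g1, g2, rfl⟩ := h
  obtain ⟨_, y1, g3, k1, rfl⟩ := Sm_add.1 g1
  obtain ⟨_, x, g4, hx, rfl⟩ := Sm_add.1 g3
  obtain ⟨x0, x1, h0, h1, rfl⟩ := Sm_add.1 g4
  obtain ⟨x2, y2, h2, k2, rfl⟩ := Sm_add.1 g2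
  unfold Act.cost at hd
  have p := Par.add S ho hF (by omega) (Par.add S ho hF (by omega) (Par.add S ho hF (by omega)
    (S.par_sm ho hF (fun _ k => S.par_e ho ⟨t, k⟩) (by omega) h0)
    (S.par_sm ho hF (fun _ => S.par_s ho t) (by omega) ((Sm_two (n := a.b)).1 h1)))
    (S.par_sm ho hF (fun _ => S.par_d ho t) (by omega) h2))
    (show S.Par 0 (· = y1 + y2) (y1 + y2) from .inl rfl)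
  refine ⟨x, _, hx.mono fun _ k => ⟨t, k⟩, Par.mono S p ?_, by abel⟩
  rintro _ ⟨_, _, ⟨_, z2, ⟨z0, z1, q0, q1, rfl⟩, q2, rfl⟩, rfl, rfl⟩
  exact ⟨t, z2 + y1, z1 + y2, Sm_add.2 ⟨z2, y1, q2, k1, rfl⟩, Sm_add.2 ⟨z1, y2, q1, k2, rfl⟩, by
    rw [q0.eq_zero]
    abel⟩

theorem par_list (hF : C4 F) (l : List Act) (hd : (l.map Act.cost).sum ≤ 81) {ξ : G}
    (h : S.StL (l.map Act.bef) ξ) :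
    Pl (Sm S.sy (l.map Act.f).sum) (S.Par (l.map Act.cost).sum (S.StL (l.map Act.aft))) ξ := by
  induction l generalizing ξ with
  | nil => exact ⟨0, ξ, rfl, .inl h, by simp⟩
  | cons a l ih =>
    obtain ⟨_, _, g1, g2, rfl⟩ := h
    rw [List.map_cons, List.sum_cons] at hd
    obtain ⟨x, y, hx, hy', rfl⟩ := S.par_grp ho hF a (by omega) g1
    obtain ⟨u, v, hu, hv, rfl⟩ := ih (by omega) g2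
    exact ⟨x + u, y + v, Sm_add.2 ⟨x, u, hx, hu, rfl⟩, Par.add S ho hF hd hy' hv, by abel⟩

theorem move (hF : C4 F) (l : List Act) (a : ℕ) (hf : (l.map Act.f).sum = 2 * a)
    (hd : (l.map Act.cost).sum + a * 2 ≤ 80) {ξ : G} (h : S.StL (l.map Act.bef) ξ) :
    S.StL ((2, 1) :: (List.replicate a (2, 0) ++ l.map Act.aft)) ξ := by
  obtain ⟨x, y, hx, hy, rfl⟩ := S.par_list ho hF l (by omega) h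
  rw [hf] at hx
  have p := Par.add S ho hF (by omega)
    (S.par_sm ho hF (fun _ => S.par_p ho) (by omega) ((Sm_two (n := a)).1 hx)) hy
  have g : ∀ ρ, Pl (Sm S.s2 a) (S.StL (l.map Act.aft)) ρ →
      S.StL (List.replicate a (2, 0) ++ l.map Act.aft) ρ := by
    rintro _ ⟨u, v, hu, hv, rfl⟩
    refine StL.rep S (hu.mono ?_) hv
    rintro _ ⟨t, u, v, hu, hv, rfl⟩
    exact ⟨t, u + v, 0, ⟨u, v, hu, ⟨v, 0, hv, rfl, by simp⟩, rfl⟩, rfl, by simp⟩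
  rcases p with p | p
  · exact ⟨0, _, ⟨0, 0, 0, Sm_zero (S.pre 0).sym_zero 2, Sm_zero (S.pre 0).sym_zero.pair 1,
      by simp⟩, g _ p, by simp⟩
  · obtain ⟨s, -, _, ρ, ⟨u, v, w, hu, hv, hw, rfl⟩, hρ, he⟩ := p.exists hF (by omega)
    exact ⟨_, ρ, ⟨_, u + v, w, ⟨u, v, hu, ⟨v, 0, hv, rfl, by simp⟩, rfl⟩,
      ⟨w, 0, hw, rfl, by simp⟩, rfl⟩, g _ hρ, he⟩

theorem run (hF : C4 F) (ms : List (List Act × ℕ)) {l : List (ℕ × ℕ)} (hg : good l ms = true)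
    {ξ : G} (h : S.StL l ξ) : Sm S.sy 17 ξ := by
  induction ms generalizing l with
  | nil =>
    have := h.sm
    rwa [of_decide_eq_true hg] at this
  | cons m ms ih =>
    simp only [good, Bool.and_eq_true, decide_eq_true_eq] at hg
    exact ih hg.2 (S.move ho hF m.1 m.2 hg.1.2.1 hg.1.2.2 (StL.perm S hg.1.1 h.nz))

/-- A sum of 18 symbols is a sum of 17 symbols. -/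
theorem shorten (hF : C4 F) {ξ : G} (h : Sm S.sy 18 ξ) : Sm S.sy 17 ξ := by
  refine S.run ho hF plan plan_good ?_
  have := StL.rep S (p := (1, 0)) (l := []) (y := 0) (h.mono fun x ⟨t, k⟩ =>
    ⟨t, x, 0, ⟨x, 0, k, rfl, by simp⟩, rfl, by simp⟩) rfl
  rwa [add_zero, List.append_nil] at this

theorem add17 (hF : C4 F) {n : ℕ} {ξ η : G} (h : Sm S.sy 17 ξ) (k : Sm S.sy n η) :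
    Sm S.sy 17 (ξ + η) := by
  induction n generalizing η with
  | zero => rwa [show η = 0 from k, add_zero]
  | succ n ih =>
    obtain ⟨x, y, hx, hy, rfl⟩ := k
    exact S.shorten ho hF ⟨x, ξ + y, hx, ih hy, by abel⟩

end Sys4

end Pool.Agent.Lib.MP_8363a4_al.H2
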