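import Mathlib
import Pool.Agent.Lib.MP_8363a4_al.H2Inst
import Pool.Agent.Lib.MP_8363a4_al.H91Top

/-!
The abstract system attached to `K^M_4(F)/3`.
-/

namespace Pool.Agent.Lib.MP_8363a4_al.H2

open Pool.Agent.Lib.MP_8363a4_al

variable (F : Type) [Field F]

theorem km4_three (g : KMmod F 4 3) : g + g + g = 0 := by
  obtain ⟨x, rfl⟩ := (multiples F 4 3).mkQ_surjective g
  rw [← map_add, ← map_add, Submodule.mkQ_apply, Submodule.Quotient.mk_eq_zero]
  refine ⟨x, ?_⟩
  simp only [LinearMap.smul_apply, LinearMap.id_apply]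
  push_cast
  abel

/-- The symbol as a multilinear map. -/
noncomputable def ml4 : MultilinearMap ℤ (fun _ : Fin 4 => Additive Fˣ) (KMmod F 4 3) :=
  ((multiples F 4 3).mkQ.comp (steinberg F 4).mkQ).compMultilinearMap (PiTensorProduct.tprod ℤ)

theorem ml4_eq (a : Fin 4 → Fˣ) : ml4 F (fun i => Additive.ofMul (a i)) = symbol 3 a := rfl

theorem upd40 {A : Type} (t u v w x : A) : Function.update ![t, u, v, w] 0 x = ![x, u, v, w] := by
  funext i; fin_cases i <;> rfl

theorem upd41 {A : Type} (t u v w x : A) : Function.update ![t, u, v, w] 1 x = ![t, x, v, w] := by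
  funext i; fin_cases i <;> rfl

theorem upd42 {A : Type} (t u v w x : A) : Function.update ![t, u, v, w] 2 x = ![t, u, x, w] := by
  funext i; fin_cases i <;> rfl

theorem upd43 {A : Type} (t u v w x : A) : Function.update ![t, u, v, w] 3 x = ![t, u, v, x] := by
  funext i; fin_cases i <;> rfl

/-- The symbol as a quadri-additive map. -/
noncomputable def U0 :
    Additive Fˣ →+ Additive Fˣ →+ Additive Fˣ →+ Additive Fˣ →+ KMmod F 4 3 :=
  AddMonoidHom.mk' (fun t => AddMonoidHom.mk' (fun u => AddMonoidHom.mk' (fun v =>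
    AddMonoidHom.mk' (fun w => ml4 F ![t, u, v, w])
    (by
      intro w w'
      have := (ml4 F).map_update_add ![t, u, v, w] 3 w w'
      simpa only [upd43] using this))
    (by
      intro v v'
      refine AddMonoidHom.ext fun w => ?_
      have := (ml4 F).map_update_add ![t, u, v, w] 2 v v'
      simp only [upd42] at this
      exact this))
    (by
      intro u u'
      refine AddMonoidHom.ext fun v => AddMonoidHom.ext fun w => ?_
      have := (ml4 F).map_update_add ![t, u, v, w] 1 u u'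
      simp only [upd41] at this
      exact this))
    (by
      intro t t'
      refine AddMonoidHom.ext fun u => AddMonoidHom.ext fun v => AddMonoidHom.ext fun w => ?_
      have := (ml4 F).map_update_add ![t, u, v, w] 0 t t'
      simp only [upd40] at this
      exact this)

theorem U0_apply (t u v w : Additive Fˣ) : U0 F t u v w = ml4 F ![t, u, v, w] := rfl

theorem U0_symbol (t a b c : Fˣ) :
    U0 F (Additive.ofMul t) (Additive.ofMul a) (Additive.ofMul b) (Additive.ofMul c)
      = symbol 3 ![t, a, b, c] := by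
  rw [U0_apply, ← ml4_eq]
  refine congrArg (ml4 F) ?_
  funext i
  fin_cases i <;> rfl

theorem symbol4_st (a : Fin 4 → Fˣ) (i j : Fin 4) (hij : i ≠ j) (h : (a i : F) + (a j : F) = 1) :
    symbol 3 a = 0 := by
  have : (steinberg F 4).mkQ (pure a) = 0 := by
    rw [Submodule.mkQ_apply, Submodule.Quotient.mk_eq_zero]
    exact Submodule.subset_span ⟨a, ⟨i, j, hij, h⟩, rfl⟩
  rw [symbol, this, map_zero]

/-- The symbol on classes modulo cubes. -/
noncomputable def U1 : VV F →+ VV F →+ VV F →+ VV F →+ KMmod F 4 3 :=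
  lift3 (hom_three (hom_three (hom_three (km4_three F))))
    (((lift3 (hom_three (hom_three (km4_three F)))).comp
      (AddMonoidHom.compHom ((lift3 (hom_three (km4_three F))).comp
        (AddMonoidHom.compHom (lift3 (km4_three F)))))).comp (U0 F))

theorem U1_mk (t u v w : Additive Fˣ) :
    U1 F (QuotientAddGroup.mk t) (QuotientAddGroup.mk u) (QuotientAddGroup.mk v)
      (QuotientAddGroup.mk w) = U0 F t u v w :=
  rfl

/-- The system. -/
noncomputable def sys4 : Sys4 F (VV F) (KMmod F 4 3) where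
  l := lg F
  T := U1 F
  l_mul := (sys F).l_mul
  three := (sys F).three
  surj := (sys F).surj
  st12 a b ha hb h := by
    refine AddMonoidHom.ext fun v => AddMonoidHom.ext fun w => ?_
    obtain ⟨x, rfl⟩ := QuotientAddGroup.mk_surjective v
    obtain ⟨y, rfl⟩ := QuotientAddGroup.mk_surjective w
    rw [lg_ne F a ha, lg_ne F b hb, U1_mk, ← ofMul_toMul x, ← ofMul_toMul y, U0_symbol]
    exact symbol4_st F _ 0 1 (by decide) h
  st23 a b ha hb h v := by
    refine AddMonoidHom.ext fun w => ?_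
    obtain ⟨x, rfl⟩ := QuotientAddGroup.mk_surjective v
    obtain ⟨y, rfl⟩ := QuotientAddGroup.mk_surjective w
    rw [lg_ne F a ha, lg_ne F b hb, U1_mk, ← ofMul_toMul x, ← ofMul_toMul y, U0_symbol]
    exact symbol4_st F _ 1 2 (by decide) h
  st34 a b ha hb h v w := by
    obtain ⟨x, rfl⟩ := QuotientAddGroup.mk_surjective v
    obtain ⟨y, rfl⟩ := QuotientAddGroup.mk_surjective w
    rw [lg_ne F a ha, lg_ne F b hb, U1_mk, ← ofMul_toMul x, ← ofMul_toMul y, U0_symbol]
    exact symbol4_st F _ 2 3 (by decide) h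

theorem sy_symbol {ξ : KMmod F 4 3} (h : (sys4 F).sy ξ) : ∃ a : Fin 4 → Fˣ, ξ = symbol 3 a := by
  obtain ⟨t, u, v, w, rfl⟩ := h
  obtain ⟨s, rfl⟩ := QuotientAddGroup.mk_surjective t
  obtain ⟨x, rfl⟩ := QuotientAddGroup.mk_surjective u
  obtain ⟨y, rfl⟩ := QuotientAddGroup.mk_surjective v
  obtain ⟨z, rfl⟩ := QuotientAddGroup.mk_surjective w
  exact ⟨![Additive.toMul s, Additive.toMul x, Additive.toMul y, Additive.toMul z],
    U0_symbol F _ _ _ _⟩

/-- A predicate that holds for symbols and is closed under sums holds everywhere. -/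
theorem km4_induction (P : KMmod F 4 3 → Prop) (h1 : ∀ ξ, (sys4 F).sy ξ → P ξ)
    (h2 : ∀ ξ η, P ξ → P η → P (ξ + η)) (ξ : KMmod F 4 3) : P ξ := by
  obtain ⟨x, rfl⟩ := (multiples F 4 3).mkQ_surjective ξ
  obtain ⟨y, rfl⟩ := (steinberg F 4).mkQ_surjective x
  induction y using PiTensorProduct.induction_on with
  | smul_tprod r f =>
    apply h1
    refine ⟨QuotientAddGroup.mk (r • f 0), QuotientAddGroup.mk (f 1), QuotientAddGroup.mk (f 2),
      QuotientAddGroup.mk (f 3), ?_⟩
    have e : U0 F (r • f 0) (f 1) (f 2) (f 3) = r • ml4 F f := by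
      rw [map_zsmul, AddMonoidHom.smul_apply, AddMonoidHom.smul_apply, AddMonoidHom.smul_apply,
        U0_apply]
      congr 2
      funext i
      fin_cases i <;> rfl
    refine Eq.trans ?_ e.symm
    rw [map_smul, map_smul]
    rfl
  | add x y hx hy =>
    rw [map_add, map_add]
    exact h2 _ _ hx hy

theorem sm_symbols {n : ℕ} {ξ : KMmod F 4 3} (h : Sm (sys4 F).sy n ξ) : IsSumOfSymbols ξ n := by
  induction n generalizing ξ with
  | zero => exact ⟨Fin.elim0, by simpa using (show ξ = 0 from h)⟩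
  | succ n ih =>
    obtain ⟨x, y, hx, hy, rfl⟩ := h
    obtain ⟨a, rfl⟩ := sy_symbol F hx
    obtain ⟨b, rfl⟩ := ih hy
    exact ⟨Fin.cons a b, by simp [Fin.sum_univ_succ]⟩

theorem symbols17 {o : F} (ho : o ^ 2 + o + 1 = 0) (hF : C4 F) (ξ : KMmod F 4 3) :
    IsSumOfSymbols ξ 17 :=
  sm_symbols F (km4_induction F _
    (fun ξ h => ⟨ξ, 0, h, Sm_zero (sys4 F).sy_zero 16, by simp⟩)
    (fun _ _ h1 h2 => (sys4 F).add17 ho hF h1 h2) ξ)

end Pool.Agent.Lib.MP_8363a4_al.H2
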