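import Mathlib

/-!
Linear algebra behind the lower bounds.
-/

namespace Pool.Agent.Lib.MP_8363a4_al

open Module

variable {K : Type} [Field K]

theorem finrank_alt (M : Type) [AddCommGroup M] [Module K M] [Module.Finite K M] (k : ℕ) :
    finrank K (M [⋀^Fin k]→ₗ[K] K) = (finrank K M).choose k := by
  rw [(exteriorPower.alternatingMapLinearEquiv (R := K) (n := k) (M := M) (N := K)).finrank_eq,
    Module.finrank_linearMap_self, exteriorPower.finrank_eq]

instance finite_alt (M : Type) [AddCommGroup M] [Module K M] [Module.Finite K M] (k : ℕ) :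
    Module.Finite K (M [⋀^Fin k]→ₗ[K] K) :=
  Module.Finite.equiv
    (exteriorPower.alternatingMapLinearEquiv (R := K) (n := k) (M := M) (N := K)).symm

/-- The product of a linear form and an alternating form. -/
def wedge {M : Type} [AddCommGroup M] [Module K M] {k : ℕ} (φ : M →ₗ[K] K)
    (η : M [⋀^Fin k]→ₗ[K] K) : M [⋀^Fin (k + 1)]→ₗ[K] K :=
  AlternatingMap.alternatizeUncurryFin (φ.smulRight η)

theorem wedge_apply {M : Type} [AddCommGroup M] [Module K M] {k : ℕ} (φ : M →ₗ[K] K)
    (η : M [⋀^Fin k]→ₗ[K] K) (v : Fin (k + 1) → M) :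
    wedge φ η v = ∑ i : Fin (k + 1), (-1 : K) ^ (i : ℕ) * (φ (v i) * η (i.removeNth v)) := by
  unfold wedge
  rw [AlternatingMap.alternatizeUncurryFin_apply]
  refine Finset.sum_congr rfl fun i _ => ?_
  simp [zsmul_eq_mul]

theorem finrank_add_le_of_orth {A B ι : Type} [Fintype ι] [DecidableEq ι]
    [AddCommGroup A] [Module K A] [AddCommGroup B] [Module K B]
    [Module.Finite K A] [Module.Finite K B]
    (f : A →ₗ[K] (ι → K)) (g : B →ₗ[K] (ι → K)) (hf : Function.Injective f)
    (hg : Function.Injective g) (h : ∀ a b, g b ⬝ᵥ f a = 0) :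
    finrank K A + finrank K B ≤ Fintype.card ι := by
  let T : (ι → K) →ₗ[K] Dual K A := f.dualMap ∘ₗ (dotProductEquiv K ι).toLinearMap
  have hT : Function.Surjective T :=
    (LinearMap.dualMap_surjective_of_injective hf).comp (dotProductEquiv K ι).surjective
  have h1 := LinearMap.finrank_range_add_finrank_ker T
  rw [LinearMap.range_eq_top.2 hT, finrank_top, Subspace.dual_finrank_eq,
    Module.finrank_fintype_fun_eq_card] at h1
  have h2 : LinearMap.range g ≤ LinearMap.ker T := by
    rintro _ ⟨b, rfl⟩
    rw [LinearMap.mem_ker]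
    ext a
    simpa [T] using h a b
  have h3 := Submodule.finrank_mono h2
  rw [LinearMap.finrank_range_of_inj hg] at h3
  omega

theorem boundA {d k r : ℕ} (hk : 1 ≤ k) (hkd : k ≤ d)
    (y : Fin r → Fin (k + 1) → (Fin d → K))
    (hR : ∀ f : (Fin d → K) [⋀^Fin (k + 1)]→ₗ[K] K, ∑ j, f (y j) = 0)
    (hS : ∀ η : (Fin d → K) [⋀^Fin k]→ₗ[K] K, (∀ j i, η (Fin.removeNth i (y j)) = 0) → η = 0) :
    d.choose k + d ≤ (k + 1) * r := by
  let A : ((Fin d → K) [⋀^Fin k]→ₗ[K] K) →ₗ[K] (Fin r × Fin (k + 1) → K) :=
    { toFun := fun η q => (-1 : K) ^ (q.2 : ℕ) * η (Fin.removeNth q.2 (y q.1))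
      map_add' := by intro a b; ext q; simp [mul_add]
      map_smul' := by intro a b; ext q; simp; ring }
  let B : Dual K (Fin d → K) →ₗ[K] (Fin r × Fin (k + 1) → K) :=
    { toFun := fun φ q => φ (y q.1 q.2)
      map_add' := by intro a b; ext q; simp
      map_smul' := by intro a b; ext q; simp }
  have hA : Function.Injective A := by
    rw [injective_iff_map_eq_zero]
    intro η hη
    refine hS η fun j i => ?_
    have := congrFun hη (j, i)
    simpa [A] using this
  have hB : Function.Injective B := by
    rw [injective_iff_map_eq_zero]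
    intro φ hφ
    by_contra hne
    have hy : ∀ j i, y j i ∈ LinearMap.ker φ := fun j i => by
      have := congrFun hφ (j, i)
      simpa [B] using this
    have hH : finrank K (LinearMap.ker φ) + 1 = d := by
      have := Module.Dual.finrank_ker_add_one_of_ne_zero hne
      simpa using this
    let res : ((Fin d → K) [⋀^Fin k]→ₗ[K] K) →ₗ[K] ((LinearMap.ker φ) [⋀^Fin k]→ₗ[K] K) :=
      { toFun := fun η => η.compLinearMap (LinearMap.ker φ).subtype
        map_add' := by intro a b; ext q; simp
        map_smul' := by intro a b; ext q; simp }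
    have hres : Function.Injective res := by
      rw [injective_iff_map_eq_zero]
      intro η hη
      refine hS η fun j i => ?_
      have := congrArg (fun θ : (LinearMap.ker φ) [⋀^Fin k]→ₗ[K] K =>
        θ (fun l => ⟨y j (i.succAbove l), hy _ _⟩)) hη
      have h2 : η (fun l => y j (i.succAbove l)) = 0 := by simpa [res] using this
      exact h2
    have h1 := LinearMap.finrank_le_finrank_of_injective hres
    rw [finrank_alt, finrank_alt, Module.finrank_fintype_fun_eq_card, Fintype.card_fin] at h1
    obtain ⟨k', rfl⟩ : ∃ k', k = k' + 1 := ⟨k - 1, by omega⟩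
    set e := finrank K (LinearMap.ker φ)
    rw [← hH, Nat.choose_succ_succ'] at h1
    have : 0 < e.choose k' := Nat.choose_pos (by omega)
    omega
  have h := finrank_add_le_of_orth A B hA hB (by
    intro η φ
    have := hR (wedge φ η)
    simp only [wedge_apply] at this
    rw [← this, dotProduct, Fintype.sum_prod_type]
    refine Finset.sum_congr rfl fun j _ => Finset.sum_congr rfl fun i _ => ?_
    simp only [A, B, LinearMap.coe_mk, AddHom.coe_mk]
    ring)
  rw [finrank_alt, Subspace.dual_finrank_eq, Module.finrank_fintype_fun_eq_card] at h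
  simpa [mul_comm] using h

/-- An alternating `k`-form vanishing on `u` vanishes on the span of `u`. -/
theorem alt_eq_zero_of_mem_span {M : Type} [AddCommGroup M] [Module K M] {k : ℕ}
    (η : M [⋀^Fin k]→ₗ[K] K) (u w : Fin k → M) (hu : η u = 0)
    (hw : ∀ i, w i ∈ Submodule.span K (Set.range u)) : η w = 0 := by
  let L : (Fin k → K) →ₗ[K] M := Fintype.linearCombination K u
  have hL : ∀ i, ∃ t, L t = w i := fun i => by
    have := hw i
    rw [← Fintype.range_linearCombination] at this
    exact this
  choose t ht using hL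
  have h0 : η.compLinearMap L = 0 := by
    rw [AlternatingMap.eq_smul_basis_det (Pi.basisFun K (Fin k)) (η.compLinearMap L)]
    have : (η.compLinearMap L) (Pi.basisFun K (Fin k)) = 0 := by
      rw [AlternatingMap.compLinearMap_apply, ← hu]
      congr 1
      ext i
      simp [L, Fintype.linearCombination_apply_single]
    rw [this, zero_smul]
  have := congrArg (fun θ : (Fin k → K) [⋀^Fin k]→ₗ[K] K => θ t) h0
  simp only [AlternatingMap.compLinearMap_apply, ht] at this
  simpa using this

theorem exists_extend_two {d : ℕ} (x x' : Fin d → K) (h : LinearIndependent K ![x, x']) :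
    ∀ l, l + 2 ≤ d → ∃ w : Fin l → (Fin d → K),
      LinearIndependent K (Fin.cons x (Fin.cons x' w : Fin (l + 1) → _) : Fin (l + 2) → _) := by
  intro l
  induction l with
  | zero =>
    intro _
    exact ⟨Fin.elim0, by simpa [Matrix.vecCons, Matrix.vecEmpty] using h⟩
  | succ l ih =>
    intro hl
    obtain ⟨w, hw⟩ := ih (by omega)
    obtain ⟨z, hz⟩ := exists_linearIndependent_snoc_of_lt_finrank hw (by simp; omega)
    refine ⟨Fin.snoc w z, ?_⟩
    rw [Fin.cons_snoc_eq_snoc_cons, Fin.cons_snoc_eq_snoc_cons]
    exact hz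

theorem det_ne_zero_iff {d : ℕ} (v : Fin d → (Fin d → K)) :
    Matrix.detRowAlternating v ≠ 0 ↔ LinearIndependent K v := by
  have := Matrix.linearIndependent_rows_iff_isUnit (A := Matrix.of v)
  rw [Matrix.isUnit_iff_isUnit_det, isUnit_iff_ne_zero] at this
  exact this.symm

theorem boundB {k r : ℕ} (hk : 1 ≤ k)
    (y : Fin r → Fin (k + 1) → (Fin (k + 2) → K))
    (hR : ∀ f : (Fin (k + 2) → K) [⋀^Fin (k + 1)]→ₗ[K] K, ∑ j, f (y j) = 0)
    (hS : ∀ η : (Fin (k + 2) → K) [⋀^Fin k]→ₗ[K] K,
      (∀ j i, η (Fin.removeNth i (y j)) = 0) → η = 0) :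
    k + 2 ≤ r := by
  classical
  let D : (Fin (k + 2) → K) [⋀^Fin (k + 2)]→ₗ[K] K := Matrix.detRowAlternating
  let φ : Fin r → Dual K (Fin (k + 2) → K) := fun j =>
    { toFun := fun x => D.curryLeft x (y j)
      map_add' := by intro a b; simp
      map_smul' := by intro a b; simp }
  have hφsum : ∑ j, φ j = 0 := by
    refine LinearMap.ext fun x => ?_
    simpa [φ, LinearMap.sum_apply] using hR (D.curryLeft x)
  -- degenerate tuples
  have hdeg : ∀ j, φ j = 0 → ∃ i0 : Fin (k + 1), ∀ η : (Fin (k + 2) → K) [⋀^Fin k]→ₗ[K] K,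
      η (Fin.removeNth i0 (y j)) = 0 → ∀ i, η (Fin.removeNth i (y j)) = 0 := by
    intro j hj
    have hdep : ¬ LinearIndependent K (y j) := by
      intro hli
      obtain ⟨x, hx⟩ := exists_linearIndependent_cons_of_lt_finrank hli (by simp)
      have h1 := (det_ne_zero_iff _).2 hx
      have h2 : φ j x = 0 := by rw [hj]; rfl
      exact h1 h2
    rw [linearIndependent_iff_notMem_span] at hdep
    push Not at hdep
    obtain ⟨i0, hi0⟩ := hdep
    refine ⟨i0, fun η hη i => alt_eq_zero_of_mem_span η _ _ hη fun l => ?_⟩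
    have hrange : y j '' (Set.univ \ {i0}) = Set.range (Fin.removeNth i0 (y j)) := by
      ext v
      constructor
      · rintro ⟨a, ha, rfl⟩
        obtain ⟨b, rfl⟩ := Fin.exists_succAbove_eq (x := a) (y := i0) (by simpa using ha)
        exact ⟨b, rfl⟩
      · rintro ⟨b, rfl⟩
        exact ⟨i0.succAbove b, by simp, rfl⟩
    rw [← hrange]
    by_cases hl : i.succAbove l = i0
    · simpa [Fin.removeNth, hl] using hi0
    · exact Submodule.subset_span ⟨i.succAbove l, by simpa using hl, rfl⟩
  choose! i0 hi0 using hdeg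
  by_cases hall : ∀ j, φ j = 0
  · let A : ((Fin (k + 2) → K) [⋀^Fin k]→ₗ[K] K) →ₗ[K] (Fin r → K) :=
      { toFun := fun η j => η (Fin.removeNth (i0 j) (y j))
        map_add' := by intro a b; ext q; simp
        map_smul' := by intro a b; ext q; simp }
    have hA : Function.Injective A := by
      rw [injective_iff_map_eq_zero]
      intro η hη
      exact hS η fun j i => hi0 j (hall j) η (congrFun hη j) i
    have h1 := LinearMap.finrank_le_finrank_of_injective hA
    rw [finrank_alt, Module.finrank_fintype_fun_eq_card, Module.finrank_fintype_fun_eq_card,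
      Fintype.card_fin, Fintype.card_fin] at h1
    have h2 : (k + 2).choose k = (k + 2).choose 2 := Nat.choose_symm_add
    rw [h2, Nat.choose_two_right] at h1
    have h3 : (k + 2) * 2 ≤ (k + 2) * (k + 2 - 1) := Nat.mul_le_mul_left _ (by omega)
    omega
  · push Not at hall
    obtain ⟨j0, hj0⟩ := hall
    -- one linear condition for each index other than `j0`
    by_contra hlt
    push Not at hlt
    have key : ∀ x0 : Fin (k + 2) → K, ∃ Θ : (Fin (k + 2) → K) →ₗ[K] ({j // j ≠ j0} → K),
        ∀ x, Θ x = 0 → (∀ j, φ j x = 0) ∧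
          ∀ j, φ j = 0 → (D.curryLeft x0).curryLeft x (Fin.removeNth (i0 j) (y j)) = 0 := by
      intro x0
      refine ⟨{ toFun := fun x j => if φ j.1 = 0 then
                  (D.curryLeft x0).curryLeft x (Fin.removeNth (i0 j.1) (y j.1)) else φ j.1 x
                map_add' := ?_
                map_smul' := ?_ }, ?_⟩
      · intro a b; ext j; by_cases h : φ j.1 = 0 <;> simp [h]
      · intro a b; ext j; by_cases h : φ j.1 = 0 <;> simp [h]
      · intro x hx
        have h1 : ∀ j, j ≠ j0 → φ j x = 0 := by
          intro j hj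
          by_cases h : φ j = 0
          · rw [h]; rfl
          · have := congrFun hx ⟨j, hj⟩
            simpa [h] using this
        refine ⟨fun j => ?_, fun j hj => ?_⟩
        · by_cases hj : j = j0
          · subst hj
            have h2 : (∑ i, φ i) x = 0 := by rw [hφsum]; rfl
            rw [LinearMap.sum_apply, Finset.sum_eq_single j (fun b _ hb => h1 b hb) (by simp)] at h2
            exact h2
          · exact h1 j hj
        · have hne : j ≠ j0 := by rintro rfl; exact hj0 hj
          have := congrFun hx ⟨j, hne⟩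
          simpa [hj] using this
    have hcard : Fintype.card {j // j ≠ j0} + 1 = r := by
      have := Fintype.card_subtype_compl (fun j : Fin r => j = j0)
      have h1 : Fintype.card {j : Fin r // j = j0} = 1 := by simp
      have h2 : 0 < r := Fin.pos j0
      simp only [ne_eq]
      rw [this, h1, Fintype.card_fin]
      omega
    have hker : ∀ Θ : (Fin (k + 2) → K) →ₗ[K] ({j // j ≠ j0} → K),
        2 ≤ finrank K (LinearMap.ker Θ) := by
      intro Θ
      have h1 := LinearMap.finrank_range_add_finrank_ker Θ
      have h2 := Submodule.finrank_le (LinearMap.range Θ)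
      rw [Module.finrank_fintype_fun_eq_card] at h1 h2
      rw [Fintype.card_fin] at h1
      omega
    obtain ⟨Θ0, hΘ0⟩ := key 0
    obtain ⟨x0, hx0, hx0ne⟩ : ∃ x0 ∈ LinearMap.ker Θ0, x0 ≠ 0 := by
      apply Submodule.exists_mem_ne_zero_of_ne_bot
      intro hb
      have := hker Θ0
      rw [hb, finrank_bot] at this
      omega
    obtain ⟨Θ, hΘ⟩ := key x0
    obtain ⟨x, hx, hxn⟩ : ∃ x ∈ LinearMap.ker Θ, x ∉ Submodule.span K {x0} := by
      by_contra hc
      push Not at hc
      have h1 : LinearMap.ker Θ ≤ Submodule.span K {x0} := hc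
      have h2 := Submodule.finrank_mono h1
      rw [finrank_span_singleton hx0ne] at h2
      have := hker Θ
      omega
    have hli : LinearIndependent K ![x0, x] := by
      rw [LinearIndependent.pair_symm_iff, linearIndependent_fin2]
      refine ⟨by simpa using hx0ne, fun a ha => hxn ?_⟩
      rw [Submodule.mem_span_singleton]
      exact ⟨a, by simpa using ha⟩
    obtain ⟨w, hw⟩ := exists_extend_two x0 x hli k le_rfl
    have hzero : (D.curryLeft x0).curryLeft x = 0 := by
      refine hS _ fun j i => ?_
      by_cases hj : φ j = 0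
      · exact hi0 j hj _ ((hΘ x hx).2 j hj) i
      · by_contra hne
        have h1 : LinearIndependent K (Fin.cons x0 (Fin.cons x (Fin.removeNth i (y j)) :
            Fin (k + 1) → _) : Fin (k + 2) → _) := (det_ne_zero_iff _).1 hne
        have h2 := h1.span_eq_top_of_card_eq_finrank' (by simp)
        apply hj
        rw [← LinearMap.ker_eq_top, eq_top_iff, ← h2, Submodule.span_le]
        rintro _ ⟨l, rfl⟩
        refine Fin.cases ?_ (fun l => Fin.cases ?_ (fun l => ?_) l) l
        · exact (hΘ0 x0 hx0).1 j
        · exact (hΘ x hx).1 j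
        · change D (Fin.cons (y j (i.succAbove l)) (y j)) = 0
          exact D.map_eq_zero_of_eq _ (i := 0) (j := (i.succAbove l).succ) (by simp)
            (Fin.succ_ne_zero _).symm
    have h3 := (det_ne_zero_iff _).2 hw
    have h4 := congrArg (fun θ : (Fin (k + 2) → K) [⋀^Fin k]→ₗ[K] K => θ w) hzero
    exact h3 h4

end Pool.Agent.Lib.MP_8363a4_al
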