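import Mathlib
import Pool.Agent.Lib.MP_8363a4_al.Defs
import Pool.Agent.Lib.MP_8363a4_al.LinAlg

/-!
A family of rank `d + 1` valuations on `ℂ(x₀, …, x_d)` and the maps they induce on Milnor K-theory.
-/

namespace Pool.Agent.Lib.MP_8363a4_al

open MvPolynomial

noncomputable section

section General

variable {R : Type} [CommRing R] [IsDomain R] {G : Type} [AddCommGroup G]

/-- Extension of a multiplicative-to-additive map to the units of the fraction field. -/
def ext (u : R → G) (a : (FractionRing R)ˣ) : G :=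
  u (IsLocalization.sec (nonZeroDivisors R) (a : FractionRing R)).1 -
    u (IsLocalization.sec (nonZeroDivisors R) (a : FractionRing R)).2

theorem exists_frac (a : (FractionRing R)ˣ) : ∃ f g : R, f ≠ 0 ∧ g ≠ 0 ∧
    (a : FractionRing R) * algebraMap R _ g = algebraMap R _ f ∧
    ∀ (G : Type) [AddCommGroup G] (u : R → G), ext u a = u f - u g := by
  have h := IsLocalization.sec_spec (nonZeroDivisors R) (a : FractionRing R)
  have hg := nonZeroDivisors.coe_ne_zero (IsLocalization.sec (nonZeroDivisors R)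
    (a : FractionRing R)).2
  refine ⟨_, _, ?_, hg, h, fun _ _ _ => rfl⟩
  intro h0
  rw [h0, map_zero] at h
  rcases mul_eq_zero.1 h with h1 | h1
  · exact a.ne_zero h1
  · exact hg ((IsFractionRing.injective R (FractionRing R)) (by rw [h1, map_zero]))

theorem ext_eq (u : R → G) (hu : ∀ f g, f ≠ 0 → g ≠ 0 → u (f * g) = u f + u g)
    (a : (FractionRing R)ˣ) (f g : R) (hf : f ≠ 0) (hg : g ≠ 0)
    (h : (a : FractionRing R) * algebraMap R _ g = algebraMap R _ f) : ext u a = u f - u g := by
  obtain ⟨f', g', hf', hg', h', he⟩ := exists_frac a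
  rw [he]
  have : f' * g = f * g' := by
    apply IsFractionRing.injective R (FractionRing R)
    rw [map_mul, map_mul, ← h, ← h']
    ring
  have h2 := congrArg u this
  rw [hu _ _ hf' hg, hu _ _ hf hg'] at h2
  rw [sub_eq_sub_iff_add_eq_add, h2]

theorem ext_mul (u : R → G) (hu : ∀ f g, f ≠ 0 → g ≠ 0 → u (f * g) = u f + u g)
    (a b : (FractionRing R)ˣ) : ext u (a * b) = ext u a + ext u b := by
  obtain ⟨f, g, hf, hg, h, he⟩ := exists_frac a
  obtain ⟨f', g', hf', hg', h', he'⟩ := exists_frac b
  rw [he, he', ext_eq u hu (a * b) (f * f') (g * g') (mul_ne_zero hf hf') (mul_ne_zero hg hg'),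
    hu _ _ hf hf', hu _ _ hg hg']
  · abel
  · rw [map_mul, map_mul, ← h, ← h', Units.val_mul]
    ring

theorem ext_steinberg (u : R → G) (hu : ∀ f g, f ≠ 0 → g ≠ 0 → u (f * g) = u f + u g)
    (hadd : ∀ f g, f ≠ 0 → g ≠ 0 → f + g ≠ 0 → u f = u g ∨ u f = u (f + g) ∨ u g = u (f + g))
    (a b : (FractionRing R)ˣ) (hab : (a : FractionRing R) + b = 1) :
    ext u a = ext u b ∨ ext u a = 0 ∨ ext u b = 0 := by
  obtain ⟨f, g, hf, hg, h, -⟩ := exists_frac a
  have hb : (b : FractionRing R) * algebraMap R _ g = algebraMap R _ (g - f) := by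
    rw [map_sub, ← h, eq_sub_of_add_eq' hab]
    ring
  have hgf : g - f ≠ 0 := by
    intro h0
    rw [h0, map_zero] at hb
    rcases mul_eq_zero.1 hb with h1 | h1
    · exact b.ne_zero h1
    · exact hg ((IsFractionRing.injective R (FractionRing R)) (by rw [h1, map_zero]))
  rw [ext_eq u hu a f g hf hg h, ext_eq u hu b (g - f) g hgf hg hb]
  have := hadd f (g - f) hf hgf (by simpa using hg)
  rw [add_sub_cancel] at this
  rcases this with h1 | h1 | h1
  · left; rw [h1]
  · right; left; rw [h1, sub_self]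
  · right; right; rw [h1, sub_self]

/-- The extension as a homomorphism. -/
def extHom (u : R → G) (hu : ∀ f g, f ≠ 0 → g ≠ 0 → u (f * g) = u f + u g) :
    Additive (FractionRing R)ˣ →+ G :=
  AddMonoidHom.mk' (fun a => ext u a.toMul) (fun a b => by rw [toMul_add, ext_mul u hu])

end General

section Functional

variable {F : Type} [Field F] {K : Type} [Field K] {V : Type} [AddCommGroup V] [Module K V]

theorem exists_functional {n p : ℕ} [CharP K p] (v : Additive Fˣ →+ V)
    (hv : ∀ a b : Fˣ, (a : F) + b = 1 → v (Additive.ofMul a) = v (Additive.ofMul b) ∨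
      v (Additive.ofMul a) = 0 ∨ v (Additive.ofMul b) = 0)
    (f : V [⋀^Fin n]→ₗ[K] K) :
    ∃ Φ : KMmod F n p →ₗ[ℤ] K, ∀ a : Fin n → Fˣ,
      Φ (symbol p a) = f (fun i => v (Additive.ofMul (a i))) := by
  let μ : MultilinearMap ℤ (fun _ : Fin n => Additive Fˣ) K :=
    (f.toMultilinearMap.restrictScalars ℤ).compLinearMap (fun _ => v.toIntLinearMap)
  let Φ0 : Tens F n →ₗ[ℤ] K := PiTensorProduct.lift μ
  have h0 : ∀ a : Fin n → Fˣ, Φ0 (pure a) = f (fun i => v (Additive.ofMul (a i))) := by
    intro a
    simp [Φ0, pure, μ]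
  have h1 : steinberg F n ≤ LinearMap.ker Φ0 := by
    rw [steinberg, Submodule.span_le]
    rintro _ ⟨a, ⟨i, j, hij, h⟩, rfl⟩
    change Φ0 (pure a) = 0
    rw [h0]
    rcases hv _ _ h with h2 | h2 | h2
    · exact f.map_eq_zero_of_eq _ h2 hij
    · exact f.map_coord_zero i h2
    · exact f.map_coord_zero j h2
  let Φ1 : KM F n →ₗ[ℤ] K := (steinberg F n).liftQ Φ0 h1
  have h2 : multiples F n p ≤ LinearMap.ker Φ1 := by
    rintro _ ⟨x, rfl⟩
    rw [LinearMap.mem_ker, LinearMap.smul_apply, map_smul, zsmul_eq_mul]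
    simp
  refine ⟨(multiples F n p).liftQ Φ1 h2, fun a => ?_⟩
  rw [← h0]
  rfl

end Functional

section Poly

variable (K : Type) [Field K] {d : ℕ}

/-- Leading exponent, and order of vanishing at `c` of the leading coefficient. -/
def uval (c : ℂ) (f : MvPolynomial (Fin d) (Polynomial ℂ)) : (Fin d → K) × K :=
  (fun i => (((MonomialOrder.lex (σ := Fin d)).degree f i : ℕ) : K),
    ((Polynomial.rootMultiplicity c ((MonomialOrder.lex (σ := Fin d)).leadingCoeff f) : ℕ) : K))

theorem uval_mul (c : ℂ) (f g : MvPolynomial (Fin d) (Polynomial ℂ)) (hf : f ≠ 0) (hg : g ≠ 0) :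
    uval K c (f * g) = uval K c f + uval K c g := by
  unfold uval
  rw [MonomialOrder.degree_mul hf hg, MonomialOrder.leadingCoeff_mul,
    Polynomial.rootMultiplicity_mul (by simp [hf, hg])]
  ext i <;> simp

theorem rootMultiplicity_neg' (c : ℂ) (a : Polynomial ℂ) :
    Polynomial.rootMultiplicity c (-a) = Polynomial.rootMultiplicity c a := by
  by_cases ha : a = 0
  · simp [ha]
  · have : -a = Polynomial.C (-1) * a := by simp
    rw [this, Polynomial.rootMultiplicity_mul (by simpa using ha), Polynomial.rootMultiplicity_C,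
      zero_add]

theorem rootMultiplicity_two_of_three (c : ℂ) (a b : Polynomial ℂ) (ha : a ≠ 0) (hb : b ≠ 0)
    (hab : a + b ≠ 0) :
    Polynomial.rootMultiplicity c a = Polynomial.rootMultiplicity c b ∨
      Polynomial.rootMultiplicity c a = Polynomial.rootMultiplicity c (a + b) ∨
      Polynomial.rootMultiplicity c b = Polynomial.rootMultiplicity c (a + b) := by
  have h1 := Polynomial.rootMultiplicity_add (p := a) (q := b) c hab
  have h2 := Polynomial.rootMultiplicity_add (p := a + b) (q := -b) c (by simpa using ha)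
  have h3 := Polynomial.rootMultiplicity_add (p := a + b) (q := -a) c (by simpa using hb)
  rw [rootMultiplicity_neg'] at h2 h3
  rw [add_neg_cancel_right] at h2
  rw [add_neg_cancel_comm] at h3
  omega

theorem uval_add (c : ℂ) (f g : MvPolynomial (Fin d) (Polynomial ℂ)) (hf : f ≠ 0) (hg : g ≠ 0) :
    uval K c f = uval K c g ∨ uval K c f = uval K c (f + g) ∨ uval K c g = uval K c (f + g) := by
  set m := MonomialOrder.lex (σ := Fin d) with hm
  rcases lt_trichotomy (m.toSyn (m.degree f)) (m.toSyn (m.degree g)) with h | h | h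
  · right; right
    unfold uval
    rw [← hm, add_comm, m.degree_add_of_lt h, m.leadingCoeff_add_of_lt h]
  · have hd : m.degree f = m.degree g := m.toSyn.injective h
    by_cases hs : m.leadingCoeff f + m.leadingCoeff g = 0
    · left
      unfold uval
      rw [← hm, hd, eq_neg_of_add_eq_zero_left hs, rootMultiplicity_neg']
    · have hc : (f + g).coeff (m.degree f) = m.leadingCoeff f + m.leadingCoeff g := by
        rw [coeff_add, MonomialOrder.leadingCoeff, MonomialOrder.leadingCoeff, hd]
      have hd2 : m.degree (f + g) = m.degree f := by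
        apply m.toSyn.injective
        apply le_antisymm
        · have := m.degree_add_le (f := f) (g := g)
          rwa [← h, sup_idem] at this
        · exact m.le_degree (by rw [mem_support_iff, hc]; exact hs)
      have hl : m.leadingCoeff (f + g) = m.leadingCoeff f + m.leadingCoeff g := by
        rw [← hc, MonomialOrder.leadingCoeff, hd2]
      unfold uval
      rw [← hm, hl, hd2, ← hd]
      rcases rootMultiplicity_two_of_three c _ _ (m.leadingCoeff_ne_zero_iff.2 hf)
        (m.leadingCoeff_ne_zero_iff.2 hg) hs with h1 | h1 | h1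
      · left; rw [h1]
      · right; left; rw [← h1]
      · right; right; rw [← h1]
  · right; left
    unfold uval
    rw [← hm, m.degree_add_of_lt h, m.leadingCoeff_add_of_lt h]

/-- Singling out the variable `x₀`. -/
def toP (d : ℕ) : MvPolynomial (Fin (d + 1)) ℂ ≃ₐ[ℂ] MvPolynomial (Fin d) (Polynomial ℂ) :=
  (renameEquiv ℂ (_root_.finSuccEquiv d)).trans (optionEquivRight ℂ (Fin d))

theorem toP_X_succ (i : Fin d) : toP d (X i.succ) = X i := by
  simp [toP]

theorem toP_X_zero_sub (c : ℂ) : toP d (X 0 - C c) = C (Polynomial.X - Polynomial.C c) := by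
  simp [toP]

/-- The valuation on the rational function field, reduced into `K`. -/
def val (c : ℂ) : Additive (RatFun (d + 1))ˣ →+ (Fin d → K) × K :=
  extHom (fun f => uval K c (toP d f)) (fun f g hf hg => by
    rw [map_mul]
    exact uval_mul K c _ _ (by simpa using hf) (by simpa using hg))

theorem val_steinberg (c : ℂ) (a b : (RatFun (d + 1))ˣ) (h : (a : RatFun (d + 1)) + b = 1) :
    val K c (Additive.ofMul a) = val K c (Additive.ofMul b) ∨
      val K c (Additive.ofMul a) = 0 ∨ val K c (Additive.ofMul b) = 0 := by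
  refine ext_steinberg (fun f => uval K c (toP d f)) (fun f g hf hg => ?_)
    (fun f g hf hg _ => ?_) a b h
  · rw [map_mul]
    exact uval_mul K c _ _ (by simpa using hf) (by simpa using hg)
  · rw [map_add]
    exact uval_add K c _ _ (by simpa using hf) (by simpa using hg)

theorem val_fst (c c' : ℂ) (a : (RatFun (d + 1))ˣ) :
    (val K c (Additive.ofMul a)).1 = (val K c' (Additive.ofMul a)).1 := by
  obtain ⟨f, g, -, -, -, he⟩ := exists_frac a
  have h1 : ∀ c, val K c (Additive.ofMul a) = uval K c (toP d f) - uval K c (toP d g) :=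
    fun c => he _ (fun f => uval K c (toP d f))
  rw [h1, h1, Prod.fst_sub, Prod.fst_sub]
  simp only [uval]

theorem rootMultiplicity_one' (c : ℂ) : Polynomial.rootMultiplicity c 1 = 0 := by
  rw [← Polynomial.C_1, Polynomial.rootMultiplicity_C]

/-- A nonzero polynomial as a unit of the rational function field. -/
def unitOf {m : ℕ} (f : MvPolynomial (Fin m) ℂ) (hf : f ≠ 0) : (RatFun m)ˣ :=
  Units.mk0 (algebraMap _ (RatFun m) f) (fun h => hf
    ((IsFractionRing.injective (MvPolynomial (Fin m) ℂ) (RatFun m)) (by rw [h, map_zero])))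

theorem val_unitOf (c : ℂ) (f : MvPolynomial (Fin (d + 1)) ℂ) (hf : f ≠ 0) :
    val K c (Additive.ofMul (unitOf f hf)) = uval K c (toP d f) := by
  have := ext_eq (fun f => uval K c (toP d f)) (fun f g hf hg => by
    rw [map_mul]
    exact uval_mul K c _ _ (by simpa using hf) (by simpa using hg)) (unitOf f hf) f 1 hf
    one_ne_zero (by simp [unitOf])
  have h1 : uval K c (toP d 1) = 0 := by
    rw [map_one]
    unfold uval
    ext i <;> simp [rootMultiplicity_one']
  rw [h1, sub_zero] at this
  exact this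

theorem X_sub_C_ne (c : ℂ) : (X 0 - C c : MvPolynomial (Fin (d + 1)) ℂ) ≠ 0 := by
  intro h
  have := toP_X_zero_sub (d := d) c
  rw [h, map_zero] at this
  exact Polynomial.X_sub_C_ne_zero c (C_eq_zero.1 this.symm)

theorem val_X_succ (c : ℂ) (i : Fin d) :
    val K c (Additive.ofMul (unitOf (X i.succ) (X_ne_zero _))) = (Pi.single i 1, 0) := by
  rw [val_unitOf, toP_X_succ]
  unfold uval
  rw [MonomialOrder.degree_X, MonomialOrder.leadingCoeff_X]
  ext j
  · by_cases h : j = i
    · subst h; simp
    · simp [h, Finsupp.single_eq_of_ne h]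
  · simp [rootMultiplicity_one']

open Classical in
theorem val_X_zero_sub (c c' : ℂ) :
    val K c (Additive.ofMul (unitOf (X 0 - C c') (X_sub_C_ne (d := d) c'))) =
      (0, if c = c' then 1 else 0) := by
  rw [val_unitOf, toP_X_zero_sub]
  unfold uval
  rw [MonomialOrder.degree_C, MonomialOrder.leadingCoeff_C, Polynomial.rootMultiplicity_X_sub_C]
  ext j
  · simp
  · by_cases h : c = c' <;> simp [h]

end Poly

/-- The test symbols `{x₀ - c, x_{h 1}, …, x_{h k}}`. -/
def testSymbol {d k : ℕ} (c : ℂ) (h : Fin k → Fin d) : Fin (k + 1) → (RatFun (d + 1))ˣ :=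
  Fin.cons (unitOf (X 0 - C c) (X_sub_C_ne c)) (fun i => unitOf (X (h i).succ) (X_ne_zero _))

theorem main (p d k : ℕ) [Fact p.Prime] :
    ∃ ξ : KMmod (RatFun (d + 1)) (k + 1) p, (∃ r, IsSumOfSymbols ξ r) ∧
      ∀ r, IsSumOfSymbols ξ r → ∃ y : Fin r → Fin (k + 1) → (Fin d → ZMod p),
        (∀ f : (Fin d → ZMod p) [⋀^Fin (k + 1)]→ₗ[ZMod p] ZMod p, ∑ j, f (y j) = 0) ∧
        (∀ η : (Fin d → ZMod p) [⋀^Fin k]→ₗ[ZMod p] ZMod p,
          (∀ j i, η (Fin.removeNth i (y j)) = 0) → η = 0) := by
  classical
  let e := Fintype.equivFin (Fin k → Fin d)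
  let c : (Fin k → Fin d) → ℂ := fun h => ((e h : ℕ) : ℂ)
  have hc : Function.Injective c := fun h h' hh =>
    e.injective (Fin.ext (by exact_mod_cast (Nat.cast_injective (R := ℂ) hh)))
  refine ⟨∑ h, symbol p (testSymbol (c h) h), ⟨_, fun j => testSymbol (c (e.symm j)) (e.symm j),
    (Equiv.sum_comp e.symm (fun h => symbol p (testSymbol (c h) h))).symm⟩, ?_⟩
  rintro r ⟨a, ha⟩
  refine ⟨fun j i => (val (ZMod p) 0 (Additive.ofMul (a j i))).1, fun f => ?_, fun η hη => ?_⟩
  · obtain ⟨Φ, hΦ⟩ := exists_functional (p := p) (val (ZMod p) (d := d) 0) (val_steinberg _ 0)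
      (f.compLinearMap (LinearMap.fst (ZMod p) _ (ZMod p)))
    have h1 := congrArg Φ ha
    simp only [map_sum, hΦ, AlternatingMap.compLinearMap_apply, LinearMap.fst_apply] at h1
    rw [← h1]
    refine Finset.sum_eq_zero fun h _ => f.map_coord_zero 0 ?_
    simp [testSymbol, val_X_zero_sub]
  · refine (Pi.basisFun (ZMod p) (Fin d)).ext_alternating fun h0 _ => ?_
    obtain ⟨Φ, hΦ⟩ := exists_functional (p := p) (val (ZMod p) (d := d) (c h0))
      (val_steinberg _ _) (wedge (LinearMap.snd (ZMod p) _ (ZMod p))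
        (η.compLinearMap (LinearMap.fst (ZMod p) _ (ZMod p))))
    have h1 := congrArg Φ ha
    simp only [map_sum, hΦ, wedge_apply, AlternatingMap.compLinearMap_apply, LinearMap.fst_apply,
      LinearMap.snd_apply] at h1
    have h2 : ∀ j i, η (fun l => (Fin.removeNth i
        (fun i => val (ZMod p) (c h0) (Additive.ofMul (a j i))) l).1) = 0 := fun j i => by
      rw [← hη j i]
      refine congrArg η (funext fun l => ?_)
      simp only [Fin.removeNth]
      exact val_fst _ _ _ _
    simp only [h2, mul_zero, Finset.sum_const_zero] at h1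
    rw [Finset.sum_eq_single h0] at h1
    · rw [Fin.sum_univ_succ] at h1
      simp only [testSymbol, Fin.cons_zero, Fin.cons_succ, val_X_zero_sub, val_X_succ,
        Fin.removeNth, Fin.succAbove_zero] at h1
      simpa using h1
    · intro h _ hne
      have : c h0 ≠ c h := fun hh => hne (hc hh).symm
      rw [Fin.sum_univ_succ]
      simp [testSymbol, val_X_zero_sub, val_X_succ, this]
    · simp

end

end Pool.Agent.Lib.MP_8363a4_al
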